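import Mathlib
import Pool.Agent.H561R3.Fin

set_option autoImplicit false

namespace Pool.Agent.V11169.KR

open Pool.Agent.H561R3

open Classical in
/-- the indicator function of a family of sets of strings -/
noncomputable def ind (A : ℕ → List Bool → Prop) (j : ℕ) (x : List Bool) : ℕ :=
  if A j x then 1 else 0

theorem ind_le_one (A : ℕ → List Bool → Prop) (j : ℕ) (x : List Bool) : ind A j x ≤ 1 := by
  unfold ind; split_ifs <;> simp

/-- the weighted sum over the strings of length `N` -/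
def S (N : ℕ) (f : ℕ → List Bool → ℕ) : ℕ :=
  ∑ j ∈ Finset.range (N + 1), 8 ^ j * ∑ x ∈ FS N, f j x

theorem S_mono {N : ℕ} {f g : ℕ → List Bool → ℕ} (h : ∀ j, ∀ x ∈ FS N, f j x ≤ g j x) :
    S N f ≤ S N g :=
  Finset.sum_le_sum fun j _ => Nat.mul_le_mul_left _ (Finset.sum_le_sum fun x hx => h j x hx)

theorem S_congr {N : ℕ} {f g : ℕ → List Bool → ℕ} (h : ∀ j, ∀ x ∈ FS N, f j x = g j x) :
    S N f = S N g :=
  Finset.sum_congr rfl fun j _ => by rw [Finset.sum_congr rfl fun x hx => h j x hx]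

theorem S_add (N : ℕ) (f g : ℕ → List Bool → ℕ) :
    S N (fun j x => f j x + g j x) = S N f + S N g := by
  unfold S
  rw [← Finset.sum_add_distrib]
  refine Finset.sum_congr rfl fun j _ => ?_
  rw [Finset.sum_add_distrib, mul_add]

theorem S_mul (N c : ℕ) (f : ℕ → List Bool → ℕ) :
    S N (fun j x => c * f j x) = c * S N f := by
  unfold S
  rw [Finset.mul_sum]
  refine Finset.sum_congr rfl fun j _ => ?_
  rw [← Finset.mul_sum]; ring

theorem S_sum {ι : Type*} (s : Finset ι) (N : ℕ) (f : ι → ℕ → List Bool → ℕ) :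
    S N (fun j x => ∑ i ∈ s, f i j x) = ∑ i ∈ s, S N (f i) := by
  classical
  induction s using Finset.induction with
  | empty => simp [S]
  | insert i s hi ih =>
    rw [Finset.sum_insert hi, ← ih, ← S_add]
    refine S_congr fun j x _ => ?_
    rw [Finset.sum_insert hi]

theorem S_take {T N : ℕ} (h : T ≤ N) (f : ℕ → List Bool → ℕ)
    (h0 : ∀ j, T < j → ∀ x ∈ FS T, f j x = 0) :
    S N (fun j x => f j (x.take T)) = 2 ^ (N - T) * S T f := by
  unfold S
  rw [Finset.mul_sum]
  have h1 : Finset.range (T + 1) ⊆ Finset.range (N + 1) :=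
    Finset.range_subset_range.2 (by omega)
  rw [← Finset.sum_subset h1]
  · refine Finset.sum_congr rfl fun j _ => ?_
    rw [sum_take h]; ring
  · intro j _ hj
    rw [Finset.mem_range] at hj
    rw [sum_take h, Finset.sum_eq_zero (fun x hx => h0 j (by omega) x hx)]
    simp

/-- the counting condition -/
def Cnt (A : ℕ → List Bool → Prop) : Prop :=
  ∀ j N, (∑ x ∈ FS N, ind A j x) * 2 ^ (4 * j) ≤ 2 ^ N

theorem Cnt.zero {A : ℕ → List Bool → Prop} (hA : Cnt A) {j N : ℕ} (hj : N < j) {x : List Bool}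
    (hx : x ∈ FS N) : ind A j x = 0 := by
  have h1 := hA j N
  have h2 : ind A j x ≤ ∑ x ∈ FS N, ind A j x :=
    Finset.single_le_sum (f := fun x => ind A j x) (fun _ _ => Nat.zero_le _) hx
  have h3 : 2 ^ N < 2 ^ (4 * j) := Nat.pow_lt_pow_right (by norm_num) (by omega)
  by_contra h4
  have h5 : 1 ≤ ∑ x ∈ FS N, ind A j x := by omega
  have : 1 * 2 ^ (4 * j) ≤ (∑ x ∈ FS N, ind A j x) * 2 ^ (4 * j) := Nat.mul_le_mul_right _ h5
  omega

theorem geom_aux (a : ℕ → ℕ) (X : ℕ) (h : ∀ j, a j * 2 ^ j ≤ X) (n : ℕ) :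
    (∑ j ∈ Finset.range n, a j) * 2 ^ n + 2 * X ≤ 2 * X * 2 ^ n := by
  induction n with
  | zero => simp
  | succ n ih =>
    rw [Finset.sum_range_succ]
    have := h n
    have e1 : (∑ x ∈ Finset.range n, a x + a n) * 2 ^ (n + 1)
        = 2 * ((∑ x ∈ Finset.range n, a x) * 2 ^ n) + 2 * (a n * 2 ^ n) := by
      rw [pow_succ]; ring
    have e2 : 2 * X * 2 ^ (n + 1) = 2 * (2 * X * 2 ^ n) := by rw [pow_succ]; ring
    rw [e1, e2]
    omega

theorem S_ind_le {A : ℕ → List Bool → Prop} (hA : Cnt A) (N : ℕ) : S N (ind A) ≤ 2 * 2 ^ N := by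
  unfold S
  have h := geom_aux (fun j => 8 ^ j * ∑ x ∈ FS N, ind A j x) (2 ^ N) (fun j => by
    have h1 := hA j N
    have h2 : 8 ^ j * (∑ x ∈ FS N, ind A j x) * 2 ^ j
        = (∑ x ∈ FS N, ind A j x) * 2 ^ (4 * j) := by
      have : (2 : ℕ) ^ (4 * j) = 8 ^ j * 2 ^ j := by
        rw [← mul_pow, pow_mul]; norm_num
      rw [this]; ring
    rw [h2]; exact h1) (N + 1)
  have h3 : (∑ j ∈ Finset.range (N + 1), 8 ^ j * ∑ x ∈ FS N, ind A j x) * 2 ^ (N + 1)
      ≤ (2 * 2 ^ N) * 2 ^ (N + 1) := by omega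
  exact Nat.le_of_mul_le_mul_right h3 (by positivity)

theorem S_ind_take_le {A : ℕ → List Bool → Prop} (hA : Cnt A) {K N : ℕ} (h : K ≤ N) :
    S N (fun j x => ind A j (x.take K)) ≤ 2 * 2 ^ N := by
  rw [S_take h (fun j x => ind A j x) (fun j hj x hx => hA.zero hj hx)]
  have h1 := S_ind_le hA K
  calc 2 ^ (N - K) * S K (ind A) ≤ 2 ^ (N - K) * (2 * 2 ^ K) := Nat.mul_le_mul_left _ h1
    _ = 2 * (2 ^ (N - K) * 2 ^ K) := by ring
    _ = 2 * 2 ^ N := by rw [← pow_add]; congr 2; omega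

/-- the counting function of a list of lengths -/
noncomputable def vv (A : ℕ → List Bool → Prop) (κ : List ℕ) (j : ℕ) (x : List Bool) : ℕ :=
  (κ.map (fun K => ind A j (x.take K))).sum

theorem list_sum_set (L : List ℕ) (i : ℕ) (hi : i < L.length) (a : ℕ) :
    (L.set i a).sum + L[i] = L.sum + a := by
  induction L generalizing i with
  | nil => simp at hi
  | cons b L ih =>
    cases i with
    | zero => simp; omega
    | succ i =>
      have := ih i (by simpa using hi)
      simp only [List.set_cons_succ, List.sum_cons, List.getElem_cons_succ]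
      omega

theorem vv_set (A : ℕ → List Bool → Prop) (κ : List ℕ) (i : ℕ) (hi : i < κ.length) (N j : ℕ)
    (x : List Bool) :
    vv A (κ.set i N) j x + ind A j (x.take κ[i]) = vv A κ j x + ind A j (x.take N) := by
  unfold vv
  rw [List.map_set]
  have := list_sum_set (κ.map (fun K => ind A j (x.take K))) i (by simpa using hi)
    (ind A j (x.take N))
  simpa using this

theorem sum_vv (A : ℕ → List Bool → Prop) (κ : List ℕ) (j : ℕ) (x : List Bool) :
    ∑ i : Fin κ.length, ind A j (x.take κ[i.1]) = vv A κ j x := by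
  unfold vv
  exact Fin.sum_univ_fun_getElem κ (fun K => ind A j (x.take K))

theorem vv_take {A : ℕ → List Bool → Prop} {κ : List ℕ} {T : ℕ} (hκ : ∀ K ∈ κ, K ≤ T) (j : ℕ)
    (x : List Bool) : vv A κ j (x.take T) = vv A κ j x := by
  unfold vv
  congr 1
  refine List.map_congr_left fun K hK => ?_
  rw [List.take_take, min_eq_left (hκ K hK)]

theorem vv_zero {A : ℕ → List Bool → Prop} (hA : Cnt A) {κ : List ℕ} {T : ℕ}
    (hκ : ∀ K ∈ κ, K ≤ T) {j : ℕ} (hj : T < j) {x : List Bool} (hx : x ∈ FS T) :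
    vv A κ j x = 0 := by
  unfold vv
  refine List.sum_eq_zero fun a ha => ?_
  obtain ⟨K, hK, rfl⟩ := List.mem_map.1 ha
  have h1 := hκ K hK
  refine hA.zero (N := K) (by omega) (mem_FS.2 ?_)
  rw [List.length_take, mem_FS.1 hx]; omega

theorem vv_le {A : ℕ → List Bool → Prop} (κ : List ℕ) (j : ℕ) (x : List Bool) :
    vv A κ j x ≤ κ.length := by
  unfold vv
  have := List.sum_le_card_nsmul (κ.map (fun K => ind A j (x.take K))) 1 (by
    intro a ha
    obtain ⟨K, _, rfl⟩ := List.mem_map.1 ha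
    exact ind_le_one _ _ _)
  simpa using this

theorem pt_aux {v V a b v' : ℕ} (ha : a ≤ 1) (hb : b ≤ 1) (hv : v' + a = v + b) :
    (v' - V) ^ 2 + 2 * ((v - V) * a) ≤ (v - V) ^ 2 + 2 * ((v - V) * b) + a + b := by
  have ha' : a = 0 ∨ a = 1 := by omega
  have hb' : b = 0 ∨ b = 1 := by omega
  rcases ha' with rfl | rfl <;> rcases hb' with rfl | rfl
  · have : v' = v := by omega
    subst this; simp
  · have : v' = v + 1 := by omega
    subst this
    have h1 : v + 1 - V ≤ v - V + 1 := by omega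
    have h2 : (v + 1 - V) ^ 2 ≤ (v - V + 1) ^ 2 := Nat.pow_le_pow_left h1 2
    nlinarith
  · have : v = v' + 1 := by omega
    subst this
    by_cases h : v' + 1 ≤ V
    · have e1 : v' - V = 0 := by omega
      have e2 : v' + 1 - V = 0 := by omega
      rw [e1, e2]; simp
    · obtain ⟨k, hk⟩ : ∃ k, v' = V + k := ⟨v' - V, by omega⟩
      subst hk
      have e1 : V + k - V = k := by omega
      have e2 : V + k + 1 - V = k + 1 := by omega
      rw [e1, e2]
      nlinarith
  · have : v' = v := by omega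
    subst this; omega

theorem near_min (A : ℕ → List Bool → Prop) (hA : Cnt A) (n M T0 : ℕ) (hn : n ≤ T0)
    (V : ℕ → List Bool → ℕ) (hV : ∀ j x T, T0 ≤ T → V j (x.take T) = V j x) :
    ∃ T, T0 ≤ T ∧ ∃ κ : List ℕ, κ.length = M ∧ (∀ K ∈ κ, n ≤ K ∧ K ≤ T) ∧
      ∀ N, T ≤ N → 2 * S N (fun j x => (vv A κ j x - V j x) * vv A κ j x) ≤
        2 * (M * S N (fun j x => (vv A κ j x - V j x) * ind A j x)) + 5 * M * 2 ^ N := by
  classical
  let P : ℕ → Prop := fun k => ∃ N, T0 ≤ N ∧ ∃ κ : List ℕ, κ.length = M ∧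
    (∀ K ∈ κ, n ≤ K ∧ K ≤ N) ∧ S N (fun j x => (vv A κ j x - V j x) ^ 2) < (k + 1) * 2 ^ N
  have hex : ∃ k, P k := by
    refine ⟨S T0 (fun j x => (vv A (List.replicate M T0) j x - V j x) ^ 2), T0, le_rfl,
      List.replicate M T0, by simp, ?_, ?_⟩
    · intro K hK
      rw [List.eq_of_mem_replicate hK]
      exact ⟨hn, le_rfl⟩
    · have : 0 < 2 ^ T0 := by positivity
      nlinarith [Nat.zero_le (S T0 (fun j x => (vv A (List.replicate M T0) j x - V j x) ^ 2))]
  obtain ⟨T, hT, κ, hκ1, hκ2, hκ3⟩ := Nat.find_spec hex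
  set k := Nat.find hex with hk
  refine ⟨T, hT, κ, hκ1, hκ2, ?_⟩
  intro N hN
  have hE : S N (fun j x => (vv A κ j x - V j x) ^ 2) < (k + 1) * 2 ^ N := by
    have h1 : S N (fun j x => (vv A κ j x - V j x) ^ 2)
        = S N (fun j x => (fun j x => (vv A κ j x - V j x) ^ 2) j (x.take T)) := by
      refine S_congr fun j x _ => ?_
      simp only
      rw [vv_take (fun K hK => (hκ2 K hK).2), hV j x T hT]
    rw [h1, S_take hN (fun j x => (vv A κ j x - V j x) ^ 2)]
    · have h2 : 2 ^ (N - T) * S T (fun j x => (vv A κ j x - V j x) ^ 2)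
          < 2 ^ (N - T) * ((k + 1) * 2 ^ T) := Nat.mul_lt_mul_of_pos_left hκ3 (by positivity)
      have h3 : 2 ^ (N - T) * ((k + 1) * 2 ^ T) = (k + 1) * 2 ^ N := by
        have : 2 ^ N = 2 ^ (N - T) * 2 ^ T := by rw [← pow_add]; congr 1; omega
        rw [this]; ring
      omega
    · intro j hj x hx
      rw [vv_zero hA (fun K hK => (hκ2 K hK).2) hj hx]
      simp
  have hmin : ∀ i : Fin κ.length, k * 2 ^ N ≤
      S N (fun j x => (vv A (κ.set i.1 N) j x - V j x) ^ 2) := by
    intro i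
    by_contra hcon
    push Not at hcon
    have hk0 : k ≠ 0 := by
      intro h0
      rw [h0] at hcon
      simp at hcon
    obtain ⟨k', hk'⟩ := Nat.exists_eq_succ_of_ne_zero hk0
    have : P k' := by
      refine ⟨N, hT.trans hN, κ.set i.1 N, by simpa using hκ1, ?_, by rw [hk'] at hcon; exact hcon⟩
      intro K hK
      rcases List.mem_or_eq_of_mem_set hK with h | h
      · exact ⟨(hκ2 K h).1, (hκ2 K h).2.trans hN⟩
      · subst h; exact ⟨by omega, le_rfl⟩
    have h5 := Nat.find_min' hex this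
    omega
  have hpt : ∀ i : Fin κ.length,
      S N (fun j x => (vv A (κ.set i.1 N) j x - V j x) ^ 2)
        + 2 * S N (fun j x => (vv A κ j x - V j x) * ind A j (x.take κ[i.1])) ≤
      S N (fun j x => (vv A κ j x - V j x) ^ 2)
        + 2 * S N (fun j x => (vv A κ j x - V j x) * ind A j x) + 2 * 2 ^ N + 2 * 2 ^ N := by
    intro i
    have hle : κ[i.1] ≤ N := ((hκ2 _ (List.getElem_mem i.2)).2).trans hN
    have h1 : S N (fun j x => (vv A (κ.set i.1 N) j x - V j x) ^ 2)
        + 2 * S N (fun j x => (vv A κ j x - V j x) * ind A j (x.take κ[i.1])) ≤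
      S N (fun j x => (vv A κ j x - V j x) ^ 2)
        + 2 * S N (fun j x => (vv A κ j x - V j x) * ind A j x)
        + S N (fun j x => ind A j (x.take κ[i.1])) + S N (ind A) := by
      rw [← S_mul, ← S_mul, ← S_add, ← S_add, ← S_add, ← S_add]
      refine S_mono fun j x hx => ?_
      refine pt_aux (ind_le_one _ _ _) (ind_le_one _ _ _) ?_
      have h2 := vv_set A κ i.1 i.2 N j x
      rw [List.take_of_length_le (l := x) (i := N) (by rw [mem_FS.1 hx])] at h2
      exact h2
    have h2 := S_ind_take_le hA hle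
    have h3 := S_ind_le hA N
    omega
  have hsum := Finset.sum_le_sum fun (i : Fin κ.length) (_ : i ∈ Finset.univ) => hpt i
  have hlow := Finset.sum_le_sum fun (i : Fin κ.length) (_ : i ∈ Finset.univ) => hmin i
  have hswap : ∑ i : Fin κ.length,
      S N (fun j x => (vv A κ j x - V j x) * ind A j (x.take κ[i.1]))
      = S N (fun j x => (vv A κ j x - V j x) * vv A κ j x) := by
    rw [← S_sum]
    refine S_congr fun j x _ => ?_
    rw [← Finset.mul_sum, sum_vv]
  simp only [Finset.sum_add_distrib, ← Finset.mul_sum, Finset.sum_const, Finset.card_univ,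
    Fintype.card_fin, smul_eq_mul, hκ1] at hsum hlow
  rw [hswap] at hsum
  set X1 := S N (fun j x => (vv A κ j x - V j x) * vv A κ j x)
  set X2 := S N (fun j x => (vv A κ j x - V j x) * ind A j x)
  set X3 := S N (fun j x => (vv A κ j x - V j x) ^ 2)
  set X4 := ∑ i : Fin κ.length, S N (fun j x => (vv A (κ.set i.1 N) j x - V j x) ^ 2)
  have hE' : M * X3 ≤ M * ((k + 1) * 2 ^ N) := Nat.mul_le_mul_left _ hE.le
  nlinarith

end Pool.Agent.V11169.KR
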