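import Mathlib
import Pool.Agent.V11169.KR1

set_option autoImplicit false

namespace Pool.Agent.V11169.KR

open Pool.Agent.H561R3

/-- elements of the chain -/
abbrev El := ℕ × List ℕ × List ℕ

/-- the function on pairs coded by `w` -/
def ev2 (w : List ℕ) (j : ℕ) (x : List Bool) : ℕ := w.getD (Encodable.encode (j, x)) 0

/-- membership in the set of pairs coded by `L` -/
def inL2 (L : List Bool) (j : ℕ) (x : List Bool) : Prop :=
  L.getD (Encodable.encode (j, x)) false = true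

instance (L : List Bool) (j : ℕ) (x : List Bool) : Decidable (inL2 L j x) := by
  unfold inL2; infer_instance

/-- the pairs with both entries bounded by `b` -/
def upTo2 (b : ℕ) : List (ℕ × List Bool) :=
  (List.range (b + 1)).flatMap fun j => (upTo b).map fun x => (j, x)

theorem mem_upTo2 {b j : ℕ} {x : List Bool} : (j, x) ∈ upTo2 b ↔ j ≤ b ∧ x.length ≤ b := by
  unfold upTo2
  simp only [List.mem_flatMap, List.mem_range, List.mem_map, Prod.mk.injEq]
  constructor
  · rintro ⟨a, h1, y, h2, rfl, rfl⟩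
    exact ⟨by omega, mem_upTo.1 h2⟩
  · rintro ⟨h1, h2⟩
    exact ⟨j, by omega, x, mem_upTo.2 h2, rfl, rfl⟩

/-- a bound for the codes -/
def KK2 (b : ℕ) : ℕ := ((upTo2 b).map (fun p => Encodable.encode p + 1)).sum

theorem lt_KK2 {b j : ℕ} {x : List Bool} (hj : j ≤ b) (h : x.length ≤ b) :
    Encodable.encode (j, x) < KK2 b := by
  have h1 : Encodable.encode (j, x) + 1 ∈ (upTo2 b).map (fun p => Encodable.encode p + 1) :=
    List.mem_map.2 ⟨(j, x), mem_upTo2.2 ⟨hj, h⟩, rfl⟩
  have h2 := List.le_sum_of_mem h1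
  unfold KK2
  omega

theorem exists_code_set2 (A : ℕ → List Bool → Prop) (b : ℕ) :
    ∃ L ∈ strs (KK2 b), ∀ j, ∀ x : List Bool, j ≤ b → x.length ≤ b → (inL2 L j x ↔ A j x) := by
  classical
  refine ⟨(List.range (KK2 b)).map (fun i =>
    match Encodable.decode (α := ℕ × List Bool) i with
    | some p => decide (A p.1 p.2)
    | none => false), mem_strs.2 (by simp), ?_⟩
  intro j x hj hx
  have h1 := lt_KK2 hj hx
  unfold inL2
  rw [List.getD_eq_getElem _ _ (by simpa using h1)]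
  rw [List.getElem_map, List.getElem_range, Encodable.encodek]
  simp

theorem exists_code_fun2 (f : ℕ → List Bool → ℕ) (b : ℕ) :
    ∃ w : List ℕ, ∀ j, ∀ x : List Bool, j ≤ b → x.length ≤ b → ev2 w j x = f j x := by
  refine ⟨(List.range (KK2 b)).map (fun i =>
    match Encodable.decode (α := ℕ × List Bool) i with
    | some p => f p.1 p.2
    | none => 0), ?_⟩
  intro j x hj hx
  have h1 := lt_KK2 hj hx
  unfold ev2
  rw [List.getD_eq_getElem _ _ (by simpa using h1)]
  rw [List.getElem_map, List.getElem_range, Encodable.encodek]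

/-- the weight function of an element of the chain -/
def W (e : El) (j : ℕ) (x : List Bool) : ℕ :=
  if j < e.1 + 1 then ev2 e.2.1 j (x.take e.1) else 0

theorem W_take {e : El} {j K : ℕ} {x : List Bool} (h : e.1 ≤ K) : W e j (x.take K) = W e j x := by
  unfold W
  rw [List.take_take, min_eq_left h]

theorem W_zero {e : El} {j : ℕ} {x : List Bool} (h : e.1 < j) : W e j x = 0 := by
  unfold W
  rw [if_neg (by omega)]

/-- the static part of one step of the chain -/
def Ext (m : ℕ) (e' e : El) : Prop :=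
  e'.1 ≤ e.1 ∧ m ≤ e.1 ∧ e.2.2.length = 2 ^ (m + 1) ∧ (∀ K ∈ e.2.2, m ≤ K ∧ K ≤ e.1) ∧
    ∀ j < e.1 + 1, ∀ x ∈ strs e.1, 2 * W e' j x ≤ W e j x ∧ W e j x ≤ 2 ^ (m + 1)

theorem Ext.two_mul_le {m : ℕ} {e' e : El} (h : Ext m e' e) (j : ℕ) {x : List Bool}
    (hx : e.1 ≤ x.length) : 2 * W e' j x ≤ W e j x := by
  by_cases hj : j < e.1 + 1
  · have h1 := (h.2.2.2.2 j hj (x.take e.1) (mem_strs.2 (by rw [List.length_take]; omega))).1
    rw [W_take h.1, W_take le_rfl] at h1
    exact h1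
  · rw [W_zero (e := e') (by have := h.1; omega)]
    simp

theorem Ext.le_two_pow {m : ℕ} {e' e : El} (h : Ext m e' e) (j : ℕ) {x : List Bool}
    (hx : e.1 ≤ x.length) : W e j x ≤ 2 ^ (m + 1) := by
  by_cases hj : j < e.1 + 1
  · have h1 := (h.2.2.2.2 j hj (x.take e.1) (mem_strs.2 (by rw [List.length_take]; omega))).2
    rw [W_take le_rfl] at h1
    exact h1
  · rw [W_zero (by omega)]
    simp

/-- the covering property -/
def Cov (A : ℕ → List Bool → Prop) (e : El) : Prop :=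
  ∀ x ∈ FS e.1, ∑ j ∈ Finset.range (e.1 + 1), vv A e.2.2 j x
    ≤ ∑ j ∈ Finset.range (e.1 + 1), W e j x

/-- the energy inequality -/
def C4 (A : ℕ → List Bool → Prop) (m : ℕ) (e : El) : Prop :=
  ∀ N, e.1 ≤ N → S N (fun j x => (W e j x) ^ 2) ≤
    2 ^ (m + 1) * S N (fun j x => W e j x * ind A j x) + 5 * (2 ^ m * (2 ^ m - 1)) * 2 ^ N

theorem step_exists {A : ℕ → List Bool → Prop} (hA : Cnt A) {m : ℕ} {e' : El}
    (h4 : C4 A m e') (hb : ∀ j, ∀ x : List Bool, e'.1 ≤ x.length → W e' j x ≤ 2 ^ m) :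
    ∃ e : El, Ext m e' e ∧ Cov A e ∧ C4 A (m + 1) e := by
  let V : ℕ → List Bool → ℕ := fun j x => if e'.1 ≤ x.length then 2 * W e' j x else 0
  have hV : ∀ j x T, max e'.1 m ≤ T → V j (x.take T) = V j x := by
    intro j x T hT
    simp only [V, List.length_take]
    by_cases h : e'.1 ≤ x.length
    · rw [if_pos h, if_pos (by omega), W_take (by omega)]
    · rw [if_neg h, if_neg (by omega)]
  obtain ⟨T, hT, κ, hκ1, hκ2, hκ3⟩ := near_min A hA m (2 ^ (m + 1)) (max e'.1 m)
    (le_max_right _ _) V hV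
  have hT1 : e'.1 ≤ T := (le_max_left _ _).trans hT
  have hT2 : m ≤ T := (le_max_right _ _).trans hT
  have hκT : ∀ K ∈ κ, K ≤ T := fun K hK => (hκ2 K hK).2
  obtain ⟨wl, hwl⟩ := exists_code_fun2 (fun j x => max (V j x) (vv A κ j x)) T
  have hWe : ∀ j, ∀ x : List Bool, T ≤ x.length →
      W (T, wl, κ) j x = max (V j x) (vv A κ j x) := by
    intro j x hx
    unfold W
    by_cases hj : j < T + 1
    · simp only
      rw [if_pos hj, hwl j _ (by omega) (by rw [List.length_take]; omega), hV j x T hT,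
        vv_take hκT]
    · simp only
      rw [if_neg hj]
      have h1 : V j x = 0 := by
        simp only [V]
        rw [W_zero (by omega)]
        simp
      have h2 : vv A κ j x = 0 := by
        rw [← vv_take hκT]
        exact vv_zero hA hκT (by omega) (mem_FS.2 (by rw [List.length_take]; omega))
      rw [h1, h2]; simp
  have hVx : ∀ j, ∀ x : List Bool, T ≤ x.length → V j x = 2 * W e' j x := by
    intro j x hx
    simp only [V]
    rw [if_pos (by omega)]
  refine ⟨(T, wl, κ), ⟨hT1, hT2, hκ1, hκ2, ?_⟩, ?_, ?_⟩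
  · intro j _ x hx
    have hx' := mem_strs.1 hx
    simp only at hx'
    rw [hWe j x (by omega), hVx j x (by omega)]
    refine ⟨le_max_left _ _, max_le ?_ ((vv_le κ j x).trans hκ1.le)⟩
    have := hb j x (by omega)
    rw [pow_succ]; omega
  · intro x hx
    have hx' := mem_FS.1 hx
    simp only at hx'
    refine Finset.sum_le_sum fun j _ => ?_
    rw [hWe j x (by omega)]
    exact le_max_right _ _
  · intro N hN
    simp only at hN
    have hx' : ∀ x ∈ FS N, T ≤ x.length := fun x hx => by rw [mem_FS.1 hx]; exact hN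
    have h5 := hκ3 N hN
    have h6 := h4 N (hT1.trans hN)
    have e1 : S N (fun j x => (W (T, wl, κ) j x) ^ 2) ≤
        4 * S N (fun j x => (W e' j x) ^ 2)
          + 2 * S N (fun j x => (vv A κ j x - V j x) * vv A κ j x) := by
      rw [← S_mul, ← S_mul, ← S_add]
      refine S_mono fun j x hx => ?_
      rw [hWe j x (hx' x hx)]
      have h7 := hVx j x (hx' x hx)
      rcases le_total (V j x) (vv A κ j x) with h8 | h8
      · rw [max_eq_right h8]
        obtain ⟨u, hu⟩ : ∃ u, vv A κ j x = V j x + u := ⟨_, (Nat.add_sub_of_le h8).symm⟩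
        rw [hu, Nat.add_sub_cancel_left, h7]
        nlinarith [Nat.zero_le (u ^ 2), Nat.zero_le (u * W e' j x)]
      · rw [max_eq_left h8, Nat.sub_eq_zero_of_le h8, h7]
        nlinarith
    have e2 : S N (fun j x => W (T, wl, κ) j x * ind A j x) =
        2 * S N (fun j x => W e' j x * ind A j x)
          + S N (fun j x => (vv A κ j x - V j x) * ind A j x) := by
      rw [← S_mul, ← S_add]
      refine S_congr fun j x hx => ?_
      rw [hWe j x (hx' x hx)]
      have h7 := hVx j x (hx' x hx)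
      have h8 : max (V j x) (vv A κ j x) = V j x + (vv A κ j x - V j x) := by omega
      rw [h8, add_mul]
      congr 1
      rw [h7]; ring
    rw [e2]
    refine e1.trans ?_
    have e3 : 5 * (2 ^ (m + 1) * (2 ^ (m + 1) - 1)) * 2 ^ N
        = 4 * (5 * (2 ^ m * (2 ^ m - 1)) * 2 ^ N) + 5 * 2 ^ (m + 1) * 2 ^ N := by
      obtain ⟨k, hk⟩ : ∃ k, 2 ^ m = k + 1 := ⟨2 ^ m - 1, by have := Nat.one_le_two_pow (n := m); omega⟩
      rw [pow_succ, hk]
      have : (k + 1) * 2 - 1 = 2 * k + 1 := by omega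
      rw [this, Nat.add_sub_cancel]
      ring
    rw [e3]
    have e4 : (2 : ℕ) ^ (m + 1 + 1) = 2 * 2 ^ (m + 1) := by rw [pow_succ]; ring
    rw [e4]
    set a := S N (fun j x => W e' j x * ind A j x)
    set b := S N (fun j x => (vv A κ j x - V j x) * ind A j x)
    have e5 : 2 * 2 ^ (m + 1) * (2 * a + b) = 4 * (2 ^ (m + 1) * a) + 2 * (2 ^ (m + 1) * b) := by
      ring
    rw [e5]
    omega

theorem energy_bound {A : ℕ → List Bool → Prop} (hA : Cnt A) {m : ℕ} {e : El}
    (h4 : C4 A m e) {N : ℕ} (hN : e.1 ≤ N) :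
    S N (fun j x => (W e j x) ^ 2) ≤ 18 * 4 ^ m * 2 ^ N := by
  have h1 := h4 N hN
  have h2 : 2 * (2 ^ (m + 1) * S N (fun j x => W e j x * ind A j x)) ≤
      S N (fun j x => (W e j x) ^ 2) + 4 * 4 ^ m * S N (ind A) := by
    rw [← S_mul, ← S_mul, ← S_mul, ← S_add]
    refine S_mono fun j x _ => ?_
    have h3 : ind A j x = 0 ∨ ind A j x = 1 := by have := ind_le_one A j x; omega
    have h4 : (4 : ℕ) ^ m = 2 ^ m * 2 ^ m := by rw [← mul_pow]; norm_num
    rcases h3 with h3 | h3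
    · rw [h3]; simp
    · rw [h3, pow_succ, h4]
      zify
      nlinarith [sq_nonneg ((W e j x : ℤ) - 2 * 2 ^ m)]
  have h3 := S_ind_le hA N
  have h5 : 5 * (2 ^ m * (2 ^ m - 1)) * 2 ^ N ≤ 5 * 4 ^ m * 2 ^ N := by
    have h4 : (4 : ℕ) ^ m = 2 ^ m * 2 ^ m := by rw [← mul_pow]; norm_num
    rw [h4]
    refine Nat.mul_le_mul_right _ (Nat.mul_le_mul_left _ (Nat.mul_le_mul_left _ (Nat.sub_le _ _)))
  have h6 : 4 * 4 ^ m * S N (ind A) ≤ 4 * 4 ^ m * (2 * 2 ^ N) := Nat.mul_le_mul_left _ h3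
  nlinarith

/-- `x` is caught at threshold `i` -/
def Hit (i m : ℕ) (e : El) (j : ℕ) (x : List Bool) : Prop := 2 ^ m ≤ 2 ^ i * W e j x

instance (i m : ℕ) (e : El) (j : ℕ) (x : List Bool) : Decidable (Hit i m e j x) := by
  unfold Hit; infer_instance

theorem card_hit {A : ℕ → List Bool → Prop} (hA : Cnt A) {m : ℕ} {e : El}
    (h4 : C4 A m e) {N : ℕ} (hN : e.1 ≤ N) (i j : ℕ) :
    8 ^ j * ∑ x ∈ FS N, (if Hit i m e j x then 1 else 0) ≤ 18 * 4 ^ i * 2 ^ N := by
  by_cases hj : j < N + 1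
  · have h1 := energy_bound hA h4 hN
    have h2 : 8 ^ j * ∑ x ∈ FS N, (W e j x) ^ 2 ≤ S N (fun j x => (W e j x) ^ 2) := by
      unfold S
      exact Finset.single_le_sum (f := fun j => 8 ^ j * ∑ x ∈ FS N, (W e j x) ^ 2)
        (fun _ _ => Nat.zero_le _) (Finset.mem_range.2 hj)
    have h3 : (∑ x ∈ FS N, (if Hit i m e j x then 1 else 0)) * 4 ^ m ≤
        4 ^ i * ∑ x ∈ FS N, (W e j x) ^ 2 := by
      rw [Finset.sum_mul, Finset.mul_sum]
      refine Finset.sum_le_sum fun x _ => ?_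
      split_ifs with h
      · unfold Hit at h
        have h5 : (2 ^ m) ^ 2 ≤ (2 ^ i * W e j x) ^ 2 := Nat.pow_le_pow_left h 2
        have e1 : (2 ^ m) ^ 2 = 4 ^ m := by rw [← pow_mul, mul_comm, pow_mul]; norm_num
        have e2 : (2 ^ i * W e j x) ^ 2 = 4 ^ i * (W e j x) ^ 2 := by
          rw [mul_pow, ← pow_mul, mul_comm i, pow_mul]; norm_num
        rw [e1, e2] at h5
        omega
      · simp
    have h4m : 0 < 4 ^ m := by positivity
    refine le_of_mul_le_mul_right (a := 4 ^ m) ?_ h4m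
    calc 8 ^ j * (∑ x ∈ FS N, (if Hit i m e j x then 1 else 0)) * 4 ^ m
        = 8 ^ j * ((∑ x ∈ FS N, (if Hit i m e j x then 1 else 0)) * 4 ^ m) := by ring
      _ ≤ 8 ^ j * (4 ^ i * ∑ x ∈ FS N, (W e j x) ^ 2) := Nat.mul_le_mul_left _ h3
      _ = 4 ^ i * (8 ^ j * ∑ x ∈ FS N, (W e j x) ^ 2) := by ring
      _ ≤ 4 ^ i * (18 * 4 ^ m * 2 ^ N) := Nat.mul_le_mul_left _ (h2.trans h1)
      _ = 18 * 4 ^ i * 2 ^ N * 4 ^ m := by ring
  · rw [Finset.sum_eq_zero]
    · simp
    · intro x _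
      rw [if_neg]
      unfold Hit
      rw [W_zero (by omega)]
      have : 0 < 2 ^ m := by positivity
      omega

end Pool.Agent.V11169.KR
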