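import Mathlib
import Pool.Agent.V11169.KR2

set_option autoImplicit false

namespace Pool.Agent.V11169.KR

open Encodable Pool.Agent.H561R3 Pool.Agent.Helper227

/-- admissible families of sets of strings -/
def Valid (B : ℕ → List Bool → Prop) (A : ℕ → List Bool → Prop) : Prop :=
  (∀ j x, B (4 * j) x → A j x) ∧ Cnt A

/-- `e` is good at step `m` with witness `A` -/
def Good (B : ℕ → List Bool → Prop) (m : ℕ) (e : El) (A : ℕ → List Bool → Prop) : Prop :=
  Valid B A ∧ Cov A e ∧ C4 A (m + 1) e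

/-- indicator of a coded family -/
def indL (L : List Bool) (j : ℕ) (x : List Bool) : ℕ := if inL2 L j x then 1 else 0

/-- counting function of a coded family -/
def vvL (L : List Bool) (κ : List ℕ) (j : ℕ) (x : List Bool) : ℕ :=
  (κ.map (fun K => indL L j (x.take K))).sum

/-- list version of the weighted sum -/
def SL (N : ℕ) (f : ℕ → List Bool → ℕ) : ℕ :=
  ((List.range (N + 1)).map (fun j => 8 ^ j * ((strs N).map (f j)).sum)).sum

theorem sum_range_list (n : ℕ) (f : ℕ → ℕ) :
    ((List.range n).map f).sum = ∑ i ∈ Finset.range n, f i := by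
  induction n with
  | zero => simp
  | succ n ih => simp [List.range_succ, Finset.sum_range_succ, ih]

theorem SL_eq (N : ℕ) (f : ℕ → List Bool → ℕ) : SL N f = S N f := by
  unfold SL S
  rw [sum_range_list]
  refine Finset.sum_congr rfl fun j _ => ?_
  rw [sum_FS]

theorem SL_congr {N : ℕ} {f g : ℕ → List Bool → ℕ}
    (h : ∀ j, j ≤ N → ∀ x : List Bool, x.length = N → f j x = g j x) : SL N f = SL N g := by
  unfold SL
  congr 1
  refine List.map_congr_left fun j hj => ?_
  rw [List.mem_range] at hj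
  congr 2
  exact List.map_congr_left fun x hx => h j (by omega) x (mem_strs.1 hx)

/-- parameters of the finite check: `(m, e, L, b)` -/
abbrev Par := ℕ × El × List Bool × ℕ

/-- finite approximation of `Good` -/
def good (Q : ℕ × List Bool → ℕ → Prop) (p : Par) : Prop :=
  (∀ j < p.2.2.2 + 1, ∀ x ∈ upTo p.2.2.2, ¬ Q (4 * j, x) p.2.2.2 ∨ inL2 p.2.2.1 j x) ∧
  (∀ j < p.2.2.2 + 1, ∀ N < p.2.2.2 + 1,
    ((strs N).map (fun x => indL p.2.2.1 j x)).sum * 2 ^ (4 * j) ≤ 2 ^ N) ∧
  (∀ x ∈ strs p.2.1.1,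
    ((List.range (p.2.1.1 + 1)).map (fun j => vvL p.2.2.1 p.2.1.2.2 j x)).sum ≤
      ((List.range (p.2.1.1 + 1)).map (fun j => W p.2.1 j x)).sum) ∧
  (∀ N < p.2.2.2 + 1, ¬ (p.2.1.1 ≤ N) ∨
    SL N (fun j x => (W p.2.1 j x) ^ 2) ≤
      2 ^ (p.1 + 2) * SL N (fun j x => W p.2.1 j x * indL p.2.2.1 j x)
        + 5 * (2 ^ (p.1 + 1) * (2 ^ (p.1 + 1) - 1)) * 2 ^ N)

section
variable {α : Type*} [Primcodable α]

theorem pr_inL2 {L : α → List Bool} {j : α → ℕ} {x : α → List Bool} (hL : Primrec L)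
    (hj : Primrec j) (hx : Primrec x) : PrimrecPred fun a => inL2 (L a) (j a) (x a) :=
  Primrec.eq.comp ((Primrec.list_getD false).comp hL (Primrec.encode.comp (hj.pair hx)))
    (Primrec.const true)

theorem pr_indL {L : α → List Bool} {j : α → ℕ} {x : α → List Bool} (hL : Primrec L)
    (hj : Primrec j) (hx : Primrec x) : Primrec fun a => indL (L a) (j a) (x a) :=
  Primrec.ite (pr_inL2 hL hj hx) (Primrec.const 1) (Primrec.const 0)

theorem pr_vvL {L : α → List Bool} {κ : α → List ℕ} {j : α → ℕ} {x : α → List Bool}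
    (hL : Primrec L) (hκ : Primrec κ) (hj : Primrec j) (hx : Primrec x) :
    Primrec fun a => vvL (L a) (κ a) (j a) (x a) :=
  pr_sum (f := κ) (g := fun a K => indL (L a) (j a) ((x a).take K)) hκ
    (pr_indL (hL.comp Primrec.fst) (hj.comp Primrec.fst)
      (Primrec.list_take.comp Primrec.snd (hx.comp Primrec.fst)))

theorem pr_W {e : α → El} {j : α → ℕ} {x : α → List Bool} (he : Primrec e)
    (hj : Primrec j) (hx : Primrec x) : Primrec fun a => W (e a) (j a) (x a) :=
  Primrec.ite (Primrec.nat_lt.comp hj (Primrec.succ.comp (Primrec.fst.comp he)))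
    ((Primrec.list_getD 0).comp (Primrec.fst.comp (Primrec.snd.comp he))
      (Primrec.encode.comp (hj.pair (Primrec.list_take.comp (Primrec.fst.comp he) hx))))
    (Primrec.const 0)

theorem pr_SL {N : α → ℕ} {f : α → ℕ → List Bool → ℕ} (hN : Primrec N)
    (hf : Primrec fun p : (α × ℕ) × List Bool => f p.1.1 p.1.2 p.2) :
    Primrec fun a => SL (N a) (f a) := by
  refine pr_sum (f := fun a => List.range (N a + 1))
    (g := fun a j => 8 ^ j * ((strs (N a)).map (f a j)).sum)
    (Primrec.list_range.comp (Primrec.succ.comp hN)) ?_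
  refine Primrec.nat_mul.comp (pr_pow.comp (Primrec.const 8) Primrec.snd) ?_
  exact pr_sum (f := fun p : α × ℕ => strs (N p.1)) (g := fun p x => f p.1 p.2 x)
    (pr_strs.comp (hN.comp Primrec.fst)) hf

theorem pr_good {Q : ℕ × List Bool → ℕ → Prop} (hQ : PrimrecRel Q) : PrimrecPred (good Q) := by
  have m' : Primrec (fun p : Par => p.1) := Primrec.fst
  have e' : Primrec (fun p : Par => p.2.1) := Primrec.fst.comp Primrec.snd
  have L' : Primrec (fun p : Par => p.2.2.1) := Primrec.fst.comp (Primrec.snd.comp Primrec.snd)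
  have b' : Primrec (fun p : Par => p.2.2.2) := Primrec.snd.comp (Primrec.snd.comp Primrec.snd)
  refine PrimrecPred.and ?_ (PrimrecPred.and ?_ (PrimrecPred.and ?_ ?_))
  · refine PP.all_lt (α := Par) (p := fun p j => ∀ x ∈ upTo p.2.2.2,
      ¬ Q (4 * j, x) p.2.2.2 ∨ inL2 p.2.2.1 j x) ?_ (Primrec.succ.comp b')
    refine PP.all_mem (α := Par × ℕ) (p := fun p x =>
      ¬ Q (4 * p.2, x) p.1.2.2.2 ∨ inL2 p.1.2.2.1 p.2 x) ?_ (pr_upTo.comp (b'.comp Primrec.fst))
    refine PrimrecPred.or (PrimrecPred.not ?_) ?_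
    · exact hQ.comp ((Primrec.nat_mul.comp (Primrec.const 4)
        (Primrec.snd.comp Primrec.fst)).pair Primrec.snd) (b'.comp (Primrec.fst.comp Primrec.fst))
    · exact pr_inL2 (L'.comp (Primrec.fst.comp Primrec.fst)) (Primrec.snd.comp Primrec.fst)
        Primrec.snd
  · refine PP.all_lt (α := Par) (p := fun p j => ∀ N < p.2.2.2 + 1,
      ((strs N).map (fun x => indL p.2.2.1 j x)).sum * 2 ^ (4 * j) ≤ 2 ^ N) ?_
      (Primrec.succ.comp b')
    refine PP.all_lt (α := Par × ℕ) (p := fun p N =>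
      ((strs N).map (fun x => indL p.1.2.2.1 p.2 x)).sum * 2 ^ (4 * p.2) ≤ 2 ^ N) ?_
      (Primrec.succ.comp (b'.comp Primrec.fst))
    refine Primrec.nat_le.comp (Primrec.nat_mul.comp ?_ (pr_pow.comp (Primrec.const 2)
      (Primrec.nat_mul.comp (Primrec.const 4) (Primrec.snd.comp Primrec.fst))))
      (pr_pow.comp (Primrec.const 2) Primrec.snd)
    exact pr_sum (f := fun p : (Par × ℕ) × ℕ => strs p.2)
      (g := fun p x => indL p.1.1.2.2.1 p.1.2 x) (pr_strs.comp Primrec.snd)
      (pr_indL (L'.comp (Primrec.fst.comp (Primrec.fst.comp Primrec.fst)))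
        (Primrec.snd.comp (Primrec.fst.comp Primrec.fst)) Primrec.snd)
  · refine PP.all_mem (α := Par) (p := fun p x =>
      ((List.range (p.2.1.1 + 1)).map (fun j => vvL p.2.2.1 p.2.1.2.2 j x)).sum ≤
      ((List.range (p.2.1.1 + 1)).map (fun j => W p.2.1 j x)).sum) ?_
      (pr_strs.comp (Primrec.fst.comp e'))
    have c1 : Primrec fun p : Par × List Bool => List.range (p.1.2.1.1 + 1) :=
      Primrec.list_range.comp (Primrec.succ.comp (Primrec.fst.comp (e'.comp Primrec.fst)))
    refine Primrec.nat_le.comp ?_ ?_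
    · exact pr_sum (f := fun p : Par × List Bool => List.range (p.1.2.1.1 + 1))
        (g := fun p j => vvL p.1.2.2.1 p.1.2.1.2.2 j p.2) c1
        (pr_vvL (L'.comp (Primrec.fst.comp Primrec.fst))
          (Primrec.snd.comp (Primrec.snd.comp (e'.comp (Primrec.fst.comp Primrec.fst))))
          Primrec.snd (Primrec.snd.comp Primrec.fst))
    · exact pr_sum (f := fun p : Par × List Bool => List.range (p.1.2.1.1 + 1))
        (g := fun p j => W p.1.2.1 j p.2) c1
        (pr_W (e'.comp (Primrec.fst.comp Primrec.fst)) Primrec.snd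
          (Primrec.snd.comp Primrec.fst))
  · refine PP.all_lt (α := Par) (p := fun p N => ¬ (p.2.1.1 ≤ N) ∨
      SL N (fun j x => (W p.2.1 j x) ^ 2) ≤
      2 ^ (p.1 + 2) * SL N (fun j x => W p.2.1 j x * indL p.2.2.1 j x)
        + 5 * (2 ^ (p.1 + 1) * (2 ^ (p.1 + 1) - 1)) * 2 ^ N) ?_ (Primrec.succ.comp b')
    have d1 : Primrec fun p : Par × ℕ => p.1.1 := m'.comp Primrec.fst
    have d2 : Primrec fun p : Par × ℕ => (2 : ℕ) ^ (p.1.1 + 1) :=
      pr_pow.comp (Primrec.const 2) (Primrec.succ.comp d1)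
    have w1 : Primrec fun p : ((Par × ℕ) × ℕ) × List Bool => W p.1.1.1.2.1 p.1.2 p.2 :=
      pr_W (e'.comp (Primrec.fst.comp (Primrec.fst.comp Primrec.fst)))
        (Primrec.snd.comp Primrec.fst) Primrec.snd
    refine PrimrecPred.or (PrimrecPred.not ?_) ?_
    · exact Primrec.nat_le.comp (Primrec.fst.comp (e'.comp Primrec.fst)) Primrec.snd
    · refine Primrec.nat_le.comp ?_ (Primrec.nat_add.comp (Primrec.nat_mul.comp ?_ ?_)
        (Primrec.nat_mul.comp ?_ (pr_pow.comp (Primrec.const 2) Primrec.snd)))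
      · exact pr_SL (N := fun p : Par × ℕ => p.2)
          (f := fun p j x => (W p.1.2.1 j x) ^ 2) Primrec.snd
          (pr_pow.comp w1 (Primrec.const 2))
      · exact pr_pow.comp (Primrec.const 2) (Primrec.nat_add.comp d1 (Primrec.const 2))
      · exact pr_SL (N := fun p : Par × ℕ => p.2)
          (f := fun p j x => W p.1.2.1 j x * indL p.1.2.2.1 j x) Primrec.snd
          (Primrec.nat_mul.comp w1 (pr_indL (L'.comp
            (Primrec.fst.comp (Primrec.fst.comp Primrec.fst))) (Primrec.snd.comp Primrec.fst)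
            Primrec.snd))
      · exact Primrec.nat_mul.comp (Primrec.const 5) (Primrec.nat_mul.comp d2
          (Primrec.nat_sub.comp d2 (Primrec.const 1)))

end

/-- `e` is alive at step `m` -/
def Alive (Q : ℕ × List Bool → ℕ → Prop) (m : ℕ) (e : El) : Prop :=
  ∀ b, e.1 ≤ b → ∃ L ∈ strs (KK2 b), good Q (m, e, L, b)

variable {Q : ℕ × List Bool → ℕ → Prop} {B : ℕ → List Bool → Prop}

theorem indL_eq {L : List Bool} {A : ℕ → List Bool → Prop} {j : ℕ} {x : List Bool}
    (h : inL2 L j x ↔ A j x) : indL L j x = ind A j x := by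
  classical
  unfold indL ind
  by_cases h1 : A j x
  · rw [if_pos (h.2 h1), if_pos h1]
  · rw [if_neg (fun h2 => h1 (h.1 h2)), if_neg h1]

theorem vvL_eq {L : List Bool} {A : ℕ → List Bool → Prop} {b j : ℕ} {x : List Bool}
    (h : ∀ j, ∀ x : List Bool, j ≤ b → x.length ≤ b → (inL2 L j x ↔ A j x)) (hj : j ≤ b)
    (hx : x.length ≤ b) (κ : List ℕ) : vvL L κ j x = vv A κ j x := by
  unfold vvL vv
  congr 1
  refine List.map_congr_left fun K _ => ?_
  exact indL_eq (h j _ hj (by rw [List.length_take]; omega))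

theorem good_iff {L : List Bool} {A : ℕ → List Bool → Prop} {b : ℕ}
    (h : ∀ j, ∀ x : List Bool, j ≤ b → x.length ≤ b → (inL2 L j x ↔ A j x)) {m : ℕ} {e : El}
    (he : e.1 ≤ b) : good Q (m, e, L, b) ↔
      (∀ j ≤ b, ∀ x : List Bool, x.length ≤ b → Q (4 * j, x) b → A j x) ∧
      (∀ j ≤ b, ∀ N ≤ b, (∑ x ∈ FS N, ind A j x) * 2 ^ (4 * j) ≤ 2 ^ N) ∧ Cov A e ∧
      ∀ N, N ≤ b → e.1 ≤ N → S N (fun j x => (W e j x) ^ 2) ≤
        2 ^ (m + 1 + 1) * S N (fun j x => W e j x * ind A j x)
          + 5 * (2 ^ (m + 1) * (2 ^ (m + 1) - 1)) * 2 ^ N := by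
  unfold good
  refine and_congr ?_ (and_congr ?_ (and_congr ?_ ?_))
  · constructor
    · intro h1 j hj x hx hq
      rcases h1 j (by simp only; omega) x (mem_upTo.2 hx) with h2 | h2
      · exact absurd hq h2
      · exact (h j x hj hx).1 h2
    · intro h1 j hj x hx
      simp only at hj
      by_cases hq : Q (4 * j, x) b
      · right
        exact (h j x (by omega) (mem_upTo.1 hx)).2 (h1 j (by omega) x (mem_upTo.1 hx) hq)
      · left; exact hq
  · have key : ∀ j N, j ≤ b → N ≤ b →
        ((strs N).map (fun x => indL L j x)).sum = ∑ x ∈ FS N, ind A j x := by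
      intro j N hj hN
      rw [sum_FS]
      congr 1
      refine List.map_congr_left fun x hx => ?_
      exact indL_eq (h j x hj (by rw [mem_strs.1 hx]; exact hN))
    constructor
    · intro h1 j hj N hN
      have := h1 j (by simp only; omega) N (by simp only; omega)
      simp only at this
      rwa [key j N hj hN] at this
    · intro h1 j hj N hN
      simp only at hj hN ⊢
      rw [key j N (by omega) (by omega)]
      exact h1 j (by omega) N (by omega)
  · unfold Cov
    have key : ∀ x : List Bool, x.length = e.1 →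
        ((List.range (e.1 + 1)).map (fun j => vvL L e.2.2 j x)).sum
          = ∑ j ∈ Finset.range (e.1 + 1), vv A e.2.2 j x := by
      intro x hx
      rw [sum_range_list]
      refine Finset.sum_congr rfl fun j hj => ?_
      rw [Finset.mem_range] at hj
      exact vvL_eq h (by omega) (by omega) _
    constructor
    · intro h1 x hx
      have := h1 x (mem_strs.2 (mem_FS.1 hx))
      simp only at this
      rwa [key x (mem_FS.1 hx), sum_range_list] at this
    · intro h1 x hx
      simp only at hx ⊢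
      rw [key x (mem_strs.1 hx), sum_range_list]
      exact h1 x (mem_FS.2 (mem_strs.1 hx))
  · have key : ∀ N, N ≤ b → SL N (fun j x => W e j x * indL L j x)
        = S N (fun j x => W e j x * ind A j x) := by
      intro N hN
      rw [← SL_eq]
      refine SL_congr fun j hj x hx => ?_
      rw [indL_eq (h j x (by omega) (by omega))]
    constructor
    · intro h1 N hN he'
      rcases h1 N (by simp only; omega) with h2 | h2
      · exact absurd he' h2
      · simp only at h2
        rwa [key N hN, SL_eq] at h2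
    · intro h1 N hN
      simp only at hN ⊢
      by_cases he' : e.1 ≤ N
      · right
        rw [key N (by omega), SL_eq]
        exact h1 N (by omega) he'
      · left; exact he'

theorem alive_of_good (hB : ∀ d x, B d x ↔ ∃ n, Q (d, x) n) {m : ℕ} {e : El}
    {A : ℕ → List Bool → Prop} (h : Good B m e A) : Alive Q m e := by
  intro b hb
  obtain ⟨L, hL, hLA⟩ := exists_code_set2 A b
  refine ⟨L, hL, (good_iff hLA hb).2 ⟨?_, ?_, h.2.1, ?_⟩⟩
  · intro j _ x _ hq
    exact h.1.1 j x ((hB _ _).2 ⟨b, hq⟩)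
  · intro j _ N _
    exact h.1.2 j N
  · intro N _ he
    exact h.2.2 N he

theorem good_of_alive (hB : ∀ d x, B d x ↔ ∃ n, Q (d, x) n)
    (hmono : ∀ a m n, m ≤ n → Q a m → Q a n) {m : ℕ} {e : El}
    (h : Alive Q m e) : ∃ A, Good B m e A := by
  classical
  choose! Lf hLf1 hLf2 using h
  let U : Ultrafilter ℕ := Filter.hyperfilter ℕ
  let A : ℕ → List Bool → Prop := fun j x => ∀ᶠ b in (U : Filter ℕ), inL2 (Lf b) j x
  have hagree1 : ∀ j x, ∀ᶠ b in (U : Filter ℕ), (inL2 (Lf b) j x ↔ A j x) := by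
    intro j x
    by_cases hA : A j x
    · exact hA.mono fun b hb => ⟨fun _ => hA, fun _ => hb⟩
    · have : ∀ᶠ b in (U : Filter ℕ), ¬ inL2 (Lf b) j x := Ultrafilter.eventually_not.2 hA
      exact this.mono fun b hb => ⟨fun h => absurd h hb, fun h => absurd h hA⟩
  have hge : ∀ b0, ∀ᶠ b in (U : Filter ℕ), b0 ≤ b := by
    intro b0
    have h1 : ∀ᶠ b in Filter.cofinite, b0 ≤ b := by
      rw [Nat.cofinite_eq_atTop]
      exact Filter.eventually_ge_atTop b0
    exact h1.filter_mono Filter.hyperfilter_le_cofinite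
  -- for each bound `b0`, a modification of `A` beyond `b0` matches some code
  have hagree : ∀ b0, ∃ b, b0 ≤ b ∧ e.1 ≤ b ∧
      ∀ j, ∀ x : List Bool, j ≤ b0 → x.length ≤ b0 → (inL2 (Lf b) j x ↔ A j x) := by
    intro b0
    have h1 : ∀ᶠ b in (U : Filter ℕ), ∀ p ∈ (upTo2 b0).toFinset, (inL2 (Lf b) p.1 p.2 ↔ A p.1 p.2) := by
      rw [Filter.eventually_all_finset]
      intro p _
      exact hagree1 p.1 p.2
    obtain ⟨b, ⟨h2, h3⟩, h4⟩ := ((h1.and (hge b0)).and (hge e.1)).exists
    refine ⟨b, h3, h4, fun j x hj hx => ?_⟩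
    exact h2 (j, x) (by rw [List.mem_toFinset]; exact mem_upTo2.2 ⟨hj, hx⟩)
  have hcode : ∀ b, ∃ A' : ℕ → List Bool → Prop, ∀ j x, (inL2 (Lf b) j x ↔ A' j x) :=
    fun b => ⟨fun j x => inL2 (Lf b) j x, fun _ _ => Iff.rfl⟩
  -- facts at stage `b`, in terms of the coded set
  have hfact : ∀ b0, ∃ A' : ℕ → List Bool → Prop, ∃ b, b0 ≤ b ∧ e.1 ≤ b ∧
      (∀ j, ∀ x : List Bool, j ≤ b0 → x.length ≤ b0 → (A' j x ↔ A j x)) ∧
      good Q (m, e, Lf b, b) ∧ ∀ j x, (inL2 (Lf b) j x ↔ A' j x) := by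
    intro b0
    obtain ⟨b, h1, h2, h3⟩ := hagree b0
    exact ⟨fun j x => inL2 (Lf b) j x, b, h1, h2, h3, hLf2 b h2, fun _ _ => Iff.rfl⟩
  have hind : ∀ {A' : ℕ → List Bool → Prop} {j : ℕ} {x : List Bool}, (A' j x ↔ A j x) →
      ind A' j x = ind A j x := by
    intro A' j x h
    unfold ind
    by_cases h1 : A j x
    · rw [if_pos (h.2 h1), if_pos h1]
    · rw [if_neg (fun h2 => h1 (h.1 h2)), if_neg h1]
  refine ⟨A, ⟨?_, ?_⟩, ?_, ?_⟩
  · intro j x hx
    obtain ⟨n, hn⟩ := (hB (4 * j) x).1 hx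
    obtain ⟨A', b, h1, h2, h3, h4, h5⟩ := hfact (max j (max x.length n))
    have h6 := ((good_iff (fun j x _ _ => h5 j x) h2).1 h4).1 j (by omega) x (by omega)
      (hmono _ _ _ (by omega) hn)
    exact (h3 j x (by omega) (by omega)).1 h6
  · intro j N
    obtain ⟨A', b, h1, h2, h3, h4, h5⟩ := hfact (max j N)
    have h6 := ((good_iff (fun j x _ _ => h5 j x) h2).1 h4).2.1 j (by omega) N (by omega)
    rw [Finset.sum_congr rfl fun x hx => ?_]
    · exact h6
    · exact (hind (h3 j x (by omega) (by rw [mem_FS.1 hx]; omega))).symm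
  · obtain ⟨A', b, h1, h2, h3, h4, h5⟩ := hfact e.1
    have h6 := ((good_iff (fun j x _ _ => h5 j x) h2).1 h4).2.2.1
    intro x hx
    refine le_trans (le_of_eq ?_) (h6 x hx)
    refine Finset.sum_congr rfl fun j hj => ?_
    rw [Finset.mem_range] at hj
    unfold vv
    congr 1
    refine List.map_congr_left fun K _ => ?_
    exact (hind (h3 j _ (by omega) (by rw [List.length_take, mem_FS.1 hx]; omega))).symm
  · intro N hN
    obtain ⟨A', b, h1, h2, h3, h4, h5⟩ := hfact N
    have h6 := ((good_iff (fun j x _ _ => h5 j x) h2).1 h4).2.2.2 N (by omega) hN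
    have h7 : S N (fun j x => W e j x * ind A' j x) = S N (fun j x => W e j x * ind A j x) := by
      rw [← SL_eq, ← SL_eq]
      refine SL_congr fun j hj x hx => ?_
      rw [hind (h3 j x hj (by omega))]
    rwa [h7] at h6

end Pool.Agent.V11169.KR
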