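import Mathlib
import Pool.Agent.V11169.KR3

set_option autoImplicit false

namespace Pool.Agent.V11169.KR

open Encodable Pool.Agent.H561R3 Pool.Agent.Helper227

/-- the failure of aliveness is seen by stage `n` -/
def DeadN (Q : ℕ × List Bool → ℕ → Prop) (n m : ℕ) (e : El) : Prop :=
  ∃ b < n + 1, e.1 ≤ b ∧ ∀ L ∈ strs (KK2 b), ¬ good Q (m, e, L, b)

variable {Q : ℕ × List Bool → ℕ → Prop} {B : ℕ → List Bool → Prop}

theorem DeadN.mono {n n' m : ℕ} {e : El} (h : n ≤ n') (hd : DeadN Q n m e) : DeadN Q n' m e := by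
  obtain ⟨b, h1, h2⟩ := hd
  exact ⟨b, by omega, h2⟩

theorem not_alive_iff {m : ℕ} {e : El} : ¬ Alive Q m e ↔ ∃ n, DeadN Q n m e := by
  unfold Alive DeadN
  push Not
  constructor
  · rintro ⟨b, h1, h2⟩
    exact ⟨b, b, by omega, h1, h2⟩
  · rintro ⟨n, b, _, h1, h2⟩
    exact ⟨b, h1, h2⟩

theorem not_deadN_of_alive {n m : ℕ} {e : El} (h : Alive Q m e) : ¬ DeadN Q n m e :=
  fun h1 => not_alive_iff.2 ⟨n, h1⟩ h

open Classical in
/-- the candidate for the next element of the chain with code `c` -/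
noncomputable def cf (Q : ℕ × List Bool → ℕ → Prop) (n m : ℕ) (e' : El) (c : ℕ) : Option El :=
  (decode c : Option El).bind fun e => if Ext m e' e ∧ ¬ DeadN Q n m e then some e else none

/-- the next element of the chain, as seen at stage `n` -/
noncomputable def nxt (Q : ℕ × List Bool → ℕ → Prop) (n m : ℕ) (e' : El) : Option El :=
  ((List.range (n + 1)).filterMap (cf Q n m e')).head?

/-- the chain, as seen at stage `n` -/
noncomputable def ch (Q : ℕ × List Bool → ℕ → Prop) (n m : ℕ) : Option El :=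
  Nat.rec (some (0, [], [])) (fun m IH => IH.bind (nxt Q n m)) m

theorem ch_succ (n m : ℕ) : ch Q n (m + 1) = (ch Q n m).bind (nxt Q n m) := rfl

theorem cf_eq_some {n m : ℕ} {e' e : El} {c : ℕ} :
    cf Q n m e' c = some e ↔ decode c = some e ∧ Ext m e' e ∧ ¬ DeadN Q n m e := by
  classical
  unfold cf
  rw [Option.bind_eq_some_iff]
  constructor
  · rintro ⟨a, h1, h2⟩
    by_cases h3 : Ext m e' a ∧ ¬ DeadN Q n m a
    · rw [if_pos h3] at h2
      simp only [Option.some.injEq] at h2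
      subst h2
      exact ⟨h1, h3⟩
    · rw [if_neg h3] at h2
      simp at h2
  · rintro ⟨h1, h2⟩
    exact ⟨e, h1, by rw [if_pos h2]⟩

theorem nxt_spec {n m : ℕ} {e' e : El} (h : nxt Q n m e' = some e) :
    Ext m e' e ∧ ¬ DeadN Q n m e := by
  unfold nxt at h
  have h1 := List.mem_of_mem_head? h
  obtain ⟨c, _, h2⟩ := List.mem_filterMap.1 h1
  exact (cf_eq_some.1 h2).2

theorem head_filterMap {β : Type*} (f : ℕ → Option β) {n c : ℕ} {e : β} (hc : c ≤ n)
    (h1 : ∀ c' < c, f c' = none) (h2 : f c = some e) :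
    ((List.range (n + 1)).filterMap f).head? = some e := by
  obtain ⟨k, hk⟩ : ∃ k, n + 1 = c + (k + 1) := ⟨n - c, by omega⟩
  rw [hk, List.range_add, List.filterMap_append]
  have h3 : (List.range c).filterMap f = [] := by
    rw [List.filterMap_eq_nil_iff]
    intro a ha
    exact h1 a (List.mem_range.1 ha)
  rw [h3, List.nil_append, List.range_succ_eq_map]
  simp [h2]

/-- the canonical next element of the chain -/
def Canon (Q : ℕ × List Bool → ℕ → Prop) (m : ℕ) (e' e : El) : Prop :=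
  ∃ c : ℕ, decode c = some e ∧ Ext m e' e ∧ Alive Q m e ∧
    ∀ c' < c, ∀ e'' : El, decode c' = some e'' → Ext m e' e'' → ¬ Alive Q m e''

theorem exists_canon {m : ℕ} {e' : El} (h : ∃ e, Ext m e' e ∧ Alive Q m e) :
    ∃ e, Canon Q m e' e := by
  classical
  have hex : ∃ c : ℕ, ∃ e : El, decode c = some e ∧ Ext m e' e ∧ Alive Q m e := by
    obtain ⟨e, he⟩ := h
    exact ⟨encode e, e, encodek e, he⟩
  obtain ⟨e, h1, h2, h3⟩ := Nat.find_spec hex
  refine ⟨e, Nat.find hex, h1, h2, h3, ?_⟩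
  intro c' hc' e'' h4 h5 h6
  exact Nat.find_min hex hc' ⟨e'', h4, h5, h6⟩

theorem Canon.stable {m : ℕ} {e' e : El} (h : Canon Q m e' e) :
    ∃ n0, ∀ n, n0 ≤ n → nxt Q n m e' = some e := by
  classical
  obtain ⟨c, h1, h2, h3, h4⟩ := h
  have h5 : ∀ c' : ℕ, ∃ n, c' < c → ∀ e'' : El, decode c' = some e'' → Ext m e' e'' →
      DeadN Q n m e'' := by
    intro c'
    by_cases hc' : c' < c
    · cases hd : (decode c' : Option El) with
      | none => exact ⟨0, fun _ e'' h => by simp at h⟩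
      | some a =>
        by_cases hE : Ext m e' a
        · obtain ⟨n, hn⟩ := not_alive_iff.1 (h4 c' hc' a hd hE)
          refine ⟨n, fun _ e'' h _ => ?_⟩
          simp only [Option.some.injEq] at h
          subst h; exact hn
        · refine ⟨0, fun _ e'' h hE' => ?_⟩
          simp only [Option.some.injEq] at h
          subst h; exact absurd hE' hE
    · exact ⟨0, fun h => absurd h hc'⟩
  choose f hf using h5
  refine ⟨max c ((Finset.range c).sup f), fun n hn => ?_⟩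
  refine head_filterMap _ (le_trans (le_max_left _ _) hn) ?_
    (cf_eq_some.2 ⟨h1, h2, not_deadN_of_alive h3⟩)
  intro c' hc'
  by_contra hne
  obtain ⟨a, ha⟩ := Option.ne_none_iff_exists'.1 hne
  obtain ⟨g1, g2, g3⟩ := cf_eq_some.1 ha
  refine g3 ((hf c' hc' a g1 g2).mono ?_)
  have h6 : f c' ≤ (Finset.range c).sup f := Finset.le_sup (Finset.mem_range.2 hc')
  exact h6.trans ((le_max_right _ _).trans hn)

open Classical in
/-- the true chain -/
noncomputable def EC (Q : ℕ × List Bool → ℕ → Prop) : ℕ → El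
  | 0 => (0, [], [])
  | m + 1 => if h : ∃ e, Canon Q m (EC Q m) e then h.choose else (0, [], [])

/-- the invariant of the chain -/
def Inv (Q : ℕ × List Bool → ℕ → Prop) (B : ℕ → List Bool → Prop) (m : ℕ) : Prop :=
  ∃ A, Valid B A ∧ C4 A m (EC Q m) ∧
    ∀ j, ∀ x : List Bool, (EC Q m).1 ≤ x.length → W (EC Q m) j x ≤ 2 ^ m

theorem W_nil (j : ℕ) (x : List Bool) : W (0, [], []) j x = 0 := by
  unfold W ev2
  simp

theorem inv_zero (hcount : ∀ d N, sumA (B d) N (fun _ => 1) * 2 ^ d ≤ 2 ^ N) : Inv Q B 0 := by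
  refine ⟨fun j x => B (4 * j) x, ⟨fun j x h => h, ?_⟩, ?_, ?_⟩
  · intro j N
    have h := hcount (4 * j) N
    unfold sumA at h
    exact h
  · intro N _
    simp only [EC, W_nil]
    simp [S]
  · intro j x _
    simp only [EC, W_nil]
    simp

theorem canon_of_inv (hB : ∀ d x, B d x ↔ ∃ n, Q (d, x) n) {m : ℕ} (h : Inv Q B m) :
    Canon Q m (EC Q m) (EC Q (m + 1)) := by
  obtain ⟨A, h1, h2, h3⟩ := h
  obtain ⟨e, h4, h5, h6⟩ := step_exists h1.2 h2 h3
  have h7 := exists_canon ⟨e, h4, alive_of_good hB ⟨h1, h5, h6⟩⟩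
  have h8 : EC Q (m + 1) = h7.choose := by
    rw [EC, dif_pos h7]
  rw [h8]
  exact h7.choose_spec

theorem inv_all (hB : ∀ d x, B d x ↔ ∃ n, Q (d, x) n)
    (hmono : ∀ a m n, m ≤ n → Q a m → Q a n)
    (hcount : ∀ d N, sumA (B d) N (fun _ => 1) * 2 ^ d ≤ 2 ^ N) (m : ℕ) : Inv Q B m := by
  induction m with
  | zero => exact inv_zero hcount
  | succ m ih =>
    obtain ⟨c, _, h2, h3, _⟩ := canon_of_inv hB ih
    obtain ⟨A, hA⟩ := good_of_alive hB hmono h3
    exact ⟨A, hA.1, hA.2.2, fun j x hx => h2.le_two_pow j hx⟩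

theorem ch_stable (hc : ∀ m, Canon Q m (EC Q m) (EC Q (m + 1))) (m : ℕ) :
    ∃ n0, ∀ n, n0 ≤ n → ch Q n m = some (EC Q m) := by
  induction m with
  | zero => exact ⟨0, fun n _ => rfl⟩
  | succ m ih =>
    obtain ⟨n1, h1⟩ := ih
    obtain ⟨n2, h2⟩ := (hc m).stable
    refine ⟨max n1 n2, fun n hn => ?_⟩
    rw [ch_succ, h1 n (by omega), Option.bind_some, h2 n (by omega)]

theorem ch_nested {n m : ℕ} (k : ℕ) {e e' : El} (h1 : ch Q n m = some e)
    (h2 : ch Q n (m + k) = some e') : e.1 ≤ e'.1 ∧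
      ∀ j, ∀ x : List Bool, e'.1 ≤ x.length → 2 ^ k * W e j x ≤ W e' j x := by
  induction k generalizing e' with
  | zero =>
    rw [Nat.add_zero, h1] at h2
    simp only [Option.some.injEq] at h2
    subst h2
    exact ⟨le_rfl, fun j x _ => by simp⟩
  | succ k ih =>
    rw [← Nat.add_assoc, ch_succ, Option.bind_eq_some_iff] at h2
    obtain ⟨e'', h3, h4⟩ := h2
    obtain ⟨h5, h6⟩ := ih h3
    obtain ⟨h7, _⟩ := nxt_spec h4
    refine ⟨h5.trans h7.1, fun j x hx => ?_⟩
    have h8 := h6 j x (h7.1.trans hx)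
    have h9 := h7.two_mul_le j hx
    rw [pow_succ]
    nlinarith

theorem hit_nested {n m : ℕ} (k : ℕ) {e e' : El} (h1 : ch Q n m = some e)
    (h2 : ch Q n (m + k) = some e') {i j : ℕ} {x : List Bool} (hx : e'.1 ≤ x.length)
    (h : Hit i m e j x) : Hit i (m + k) e' j x := by
  unfold Hit at h ⊢
  have h3 := (ch_nested k h1 h2).2 j x hx
  calc 2 ^ (m + k) = 2 ^ k * 2 ^ m := by rw [pow_add]; ring
    _ ≤ 2 ^ k * (2 ^ i * W e j x) := Nat.mul_le_mul_left _ h
    _ = 2 ^ i * (2 ^ k * W e j x) := by ring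
    _ ≤ 2 ^ i * W e' j x := Nat.mul_le_mul_left _ h3

/-- the count condition -/
def CC (i j N m : ℕ) (e : El) : Prop :=
  e.1 ≤ N ∧ 8 ^ j * ((strs N).map (fun y => if Hit i m e j y then 1 else 0)).sum
    ≤ 18 * 4 ^ i * 2 ^ N

/-- the decidable set of compressible strings -/
def VV (Q : ℕ × List Bool → ℕ → Prop) (i j : ℕ) (x : List Bool) : Prop :=
  ∃ m < x.length + 1, ∃ e ∈ (ch Q x.length m).toList, CC i j x.length m e ∧ Hit i m e j x

theorem CC_iff {i j N m : ℕ} {e : El} : CC i j N m e ↔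
    e.1 ≤ N ∧ 8 ^ j * ∑ x ∈ FS N, (if Hit i m e j x then 1 else 0) ≤ 18 * 4 ^ i * 2 ^ N := by
  unfold CC
  rw [sum_FS]

open Classical in
theorem card_VV (i j N : ℕ) :
    8 ^ j * ((FS N).filter (VV Q i j)).card ≤ 18 * 4 ^ i * 2 ^ N := by
  by_cases hne : ∃ m, m < N + 1 ∧ ∃ e, ch Q N m = some e ∧ CC i j N m e
  · -- take the largest such `m`
    let Pm : ℕ → Prop := fun m => m < N + 1 ∧ ∃ e, ch Q N m = some e ∧ CC i j N m e
    obtain ⟨m0, hm0⟩ := hne
    have hP : Pm (Nat.findGreatest Pm N) := Nat.findGreatest_spec (P := Pm) (by have := hm0.1; omega) hm0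
    set M := Nat.findGreatest Pm N with hM
    obtain ⟨h1, e', h2, h3⟩ := hP
    have h4 := (CC_iff.1 h3).2
    refine le_trans (Nat.mul_le_mul_left _ ?_) h4
    rw [Finset.card_filter]
    refine Finset.sum_le_sum fun x hx => ?_
    have hx' := mem_FS.1 hx
    by_cases hv : VV Q i j x
    · rw [if_pos hv]
      obtain ⟨m, g1, e, g2, g3, g4⟩ := hv
      rw [hx'] at g1 g2 g3
      rw [Option.mem_toList] at g2
      have g5 : m ≤ M := Nat.le_findGreatest (by omega) ⟨g1, e, g2, g3⟩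
      obtain ⟨k, hk⟩ := Nat.exists_eq_add_of_le g5
      rw [hk] at h2
      have := hit_nested k g2 h2 (by rw [hx']; exact h3.1) g4
      rw [← hk] at this
      rw [if_pos this]
    · rw [if_neg hv]; exact Nat.zero_le _
  · have : (FS N).filter (VV Q i j) = ∅ := by
      rw [Finset.filter_eq_empty_iff]
      rintro x hx ⟨m, g1, e, g2, g3, g4⟩
      have hx' := mem_FS.1 hx
      rw [hx'] at g1 g2 g3
      rw [Option.mem_toList] at g2
      exact hne ⟨m, g1, e, g2, g3⟩
    rw [this]; simp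

/-- true hits are eventually seen -/
theorem VV_of_hit (hB : ∀ d x, B d x ↔ ∃ n, Q (d, x) n)
    (hmono : ∀ a m n, m ≤ n → Q a m → Q a n)
    (hcount : ∀ d N, sumA (B d) N (fun _ => 1) * 2 ^ d ≤ 2 ^ N) (m : ℕ) :
    ∃ n0, ∀ x : List Bool, n0 ≤ x.length → ∀ i j, Hit i m (EC Q m) j x → VV Q i j x := by
  have hinv := inv_all hB hmono hcount
  obtain ⟨n0, hn0⟩ := ch_stable (fun m => canon_of_inv hB (hinv m)) m
  obtain ⟨A, h1, h2, _⟩ := hinv m
  refine ⟨max n0 (max m (EC Q m).1), fun x hx i j hh => ?_⟩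
  refine ⟨m, by omega, EC Q m, by rw [Option.mem_toList]; exact hn0 _ (by omega), ?_, hh⟩
  rw [CC_iff]
  exact ⟨by omega, card_hit h1.2 h2 (by omega) i j⟩

end Pool.Agent.V11169.KR
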