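import Mathlib
import Pool.Agent.V11169.KR4

set_option autoImplicit false

namespace Pool.Agent.V11169.KR

open Encodable Pool.Agent.H561R3 Pool.Agent.Helper227

section
variable {α : Type*} [Primcodable α]

theorem pr_upTo2 : Primrec upTo2 :=
  Primrec.list_flatMap (f := fun b : ℕ => List.range (b + 1))
    (g := fun b j => (upTo b).map fun x => (j, x)) (Primrec.list_range.comp Primrec.succ)
    (Primrec.list_map (f := fun p : ℕ × ℕ => upTo p.1) (g := fun p x => (p.2, x))
      (pr_upTo.comp Primrec.fst) ((Primrec.snd.comp Primrec.fst).pair Primrec.snd))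

theorem pr_KK2 : Primrec KK2 :=
  pr_sum (f := upTo2) (g := fun _ p => encode p + 1) pr_upTo2
    (Primrec.succ.comp (Primrec.encode.comp Primrec.snd)).to₂

theorem pr_DeadN {Q : ℕ × List Bool → ℕ → Prop} (hQ : PrimrecRel Q) {n m : α → ℕ}
    {e : α → El} (hn : Primrec n) (hm : Primrec m) (he : Primrec e) :
    PrimrecPred fun a => DeadN Q (n a) (m a) (e a) := by
  refine PP.ex_lt (α := α) (p := fun a b => (e a).1 ≤ b ∧
    ∀ L ∈ strs (KK2 b), ¬ good Q (m a, e a, L, b)) ?_ (Primrec.succ.comp hn)
  refine PrimrecPred.and ?_ ?_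
  · exact Primrec.nat_le.comp (Primrec.fst.comp (he.comp Primrec.fst)) Primrec.snd
  · refine PP.all_mem (α := α × ℕ) (p := fun p L => ¬ good Q (m p.1, e p.1, L, p.2)) ?_
      (pr_strs.comp (pr_KK2.comp Primrec.snd))
    refine PrimrecPred.not ((pr_good hQ).comp ?_)
    exact (hm.comp (Primrec.fst.comp Primrec.fst)).pair
      ((he.comp (Primrec.fst.comp Primrec.fst)).pair
        (Primrec.snd.pair (Primrec.snd.comp Primrec.fst)))

theorem pr_Ext {m : α → ℕ} {e' e : α → El} (hm : Primrec m) (he' : Primrec e')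
    (he : Primrec e) : PrimrecPred fun a => Ext (m a) (e' a) (e a) := by
  unfold Ext
  refine PrimrecPred.and ?_ (PrimrecPred.and ?_ (PrimrecPred.and ?_ (PrimrecPred.and ?_ ?_)))
  · exact Primrec.nat_le.comp (Primrec.fst.comp he') (Primrec.fst.comp he)
  · exact Primrec.nat_le.comp hm (Primrec.fst.comp he)
  · exact Primrec.eq.comp (Primrec.list_length.comp (Primrec.snd.comp (Primrec.snd.comp he)))
      (pr_pow.comp (Primrec.const 2) (Primrec.succ.comp hm))
  · refine PP.all_mem (α := α) (p := fun a K => m a ≤ K ∧ K ≤ (e a).1) ?_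
      (Primrec.snd.comp (Primrec.snd.comp he))
    exact PrimrecPred.and (Primrec.nat_le.comp (hm.comp Primrec.fst) Primrec.snd)
      (Primrec.nat_le.comp Primrec.snd (Primrec.fst.comp (he.comp Primrec.fst)))
  · refine PP.all_lt (α := α) (p := fun a j => ∀ x ∈ strs (e a).1,
      2 * W (e' a) j x ≤ W (e a) j x ∧ W (e a) j x ≤ 2 ^ (m a + 1)) ?_
      (Primrec.succ.comp (Primrec.fst.comp he))
    refine PP.all_mem (α := α × ℕ) (p := fun p x => 2 * W (e' p.1) p.2 x ≤ W (e p.1) p.2 x ∧
      W (e p.1) p.2 x ≤ 2 ^ (m p.1 + 1)) ?_ (pr_strs.comp (Primrec.fst.comp (he.comp Primrec.fst)))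
    have h1 : Primrec fun p : (α × ℕ) × List Bool => W (e p.1.1) p.1.2 p.2 :=
      pr_W (he.comp (Primrec.fst.comp Primrec.fst)) (Primrec.snd.comp Primrec.fst) Primrec.snd
    have h2 : Primrec fun p : (α × ℕ) × List Bool => W (e' p.1.1) p.1.2 p.2 :=
      pr_W (he'.comp (Primrec.fst.comp Primrec.fst)) (Primrec.snd.comp Primrec.fst) Primrec.snd
    exact PrimrecPred.and (Primrec.nat_le.comp (Primrec.nat_mul.comp (Primrec.const 2) h2) h1)
      (Primrec.nat_le.comp h1 (pr_pow.comp (Primrec.const 2)
        (Primrec.succ.comp (hm.comp (Primrec.fst.comp Primrec.fst)))))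

theorem pr_cf {Q : ℕ × List Bool → ℕ → Prop} (hQ : PrimrecRel Q) {n m c : α → ℕ}
    {e' : α → El} (hn : Primrec n) (hm : Primrec m) (he' : Primrec e') (hc : Primrec c) :
    Primrec fun a => cf Q (n a) (m a) (e' a) (c a) := by
  classical
  unfold cf
  refine Primrec.option_bind (f := fun a => (decode (c a) : Option El))
    (Primrec.decode.comp hc) ?_
  refine Primrec.ite ?_ (Primrec.option_some.comp Primrec.snd) (Primrec.const none)
  exact PrimrecPred.and (pr_Ext (hm.comp Primrec.fst) (he'.comp Primrec.fst) Primrec.snd)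
    (PrimrecPred.not (pr_DeadN hQ (hn.comp Primrec.fst) (hm.comp Primrec.fst) Primrec.snd))

theorem pr_nxt {Q : ℕ × List Bool → ℕ → Prop} (hQ : PrimrecRel Q) {n m : α → ℕ}
    {e' : α → El} (hn : Primrec n) (hm : Primrec m) (he' : Primrec e') :
    Primrec fun a => nxt Q (n a) (m a) (e' a) := by
  unfold nxt
  refine Primrec.list_head?.comp ?_
  refine Primrec.listFilterMap (f := fun a => List.range (n a + 1))
    (g := fun a c => cf Q (n a) (m a) (e' a) c)
    (Primrec.list_range.comp (Primrec.succ.comp hn)) ?_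
  exact pr_cf hQ (hn.comp Primrec.fst) (hm.comp Primrec.fst) (he'.comp Primrec.fst) Primrec.snd

theorem pr_ch {Q : ℕ × List Bool → ℕ → Prop} (hQ : PrimrecRel Q) {n m : α → ℕ}
    (hn : Primrec n) (hm : Primrec m) : Primrec fun a => ch Q (n a) (m a) := by
  unfold ch
  refine Primrec.nat_rec' (f := m) (g := fun _ => (some (0, [], []) : Option El))
    (h := fun a p => p.2.bind (nxt Q (n a) p.1)) hm (Primrec.const _) ?_
  refine Primrec.option_bind (f := fun p : α × ℕ × Option El => p.2.2)
    (g := fun p e => nxt Q (n p.1) p.2.1 e) (Primrec.snd.comp Primrec.snd) ?_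
  exact pr_nxt hQ (hn.comp (Primrec.fst.comp Primrec.fst))
    (Primrec.fst.comp (Primrec.snd.comp Primrec.fst)) Primrec.snd

theorem pr_Hit {i m j : α → ℕ} {e : α → El} {x : α → List Bool} (hi : Primrec i)
    (hm : Primrec m) (he : Primrec e) (hj : Primrec j) (hx : Primrec x) :
    PrimrecPred fun a => Hit (i a) (m a) (e a) (j a) (x a) := by
  unfold Hit
  exact Primrec.nat_le.comp (pr_pow.comp (Primrec.const 2) hm)
    (Primrec.nat_mul.comp (pr_pow.comp (Primrec.const 2) hi) (pr_W he hj hx))

theorem pr_CC {i j N m : α → ℕ} {e : α → El} (hi : Primrec i) (hj : Primrec j)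
    (hN : Primrec N) (hm : Primrec m) (he : Primrec e) :
    PrimrecPred fun a => CC (i a) (j a) (N a) (m a) (e a) := by
  unfold CC
  refine PrimrecPred.and (Primrec.nat_le.comp (Primrec.fst.comp he) hN) ?_
  refine Primrec.nat_le.comp (Primrec.nat_mul.comp (pr_pow.comp (Primrec.const 8) hj) ?_)
    (Primrec.nat_mul.comp (Primrec.nat_mul.comp (Primrec.const 18)
      (pr_pow.comp (Primrec.const 4) hi)) (pr_pow.comp (Primrec.const 2) hN))
  refine pr_sum (f := fun a => strs (N a))
    (g := fun a y => if Hit (i a) (m a) (e a) (j a) y then 1 else 0) (pr_strs.comp hN) ?_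
  refine Primrec.ite ?_ (Primrec.const 1) (Primrec.const 0)
  exact pr_Hit (hi.comp Primrec.fst) (hm.comp Primrec.fst) (he.comp Primrec.fst)
    (hj.comp Primrec.fst) Primrec.snd

theorem pr_VV {Q : ℕ × List Bool → ℕ → Prop} (hQ : PrimrecRel Q) {i j : α → ℕ}
    {x : α → List Bool} (hi : Primrec i) (hj : Primrec j) (hx : Primrec x) :
    PrimrecPred fun a => VV Q (i a) (j a) (x a) := by
  unfold VV
  refine PP.ex_lt (α := α) (p := fun a m => ∃ e ∈ (ch Q (x a).length m).toList,
    CC (i a) (j a) (x a).length m e ∧ Hit (i a) m e (j a) (x a)) ?_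
    (Primrec.succ.comp (Primrec.list_length.comp hx))
  refine PP.ex_mem (α := α × ℕ) (f := fun p => (ch Q (x p.1).length p.2).toList)
    (p := fun p e => CC (i p.1) (j p.1) (x p.1).length p.2 e ∧
      Hit (i p.1) p.2 e (j p.1) (x p.1)) ?_ ?_
  · have i' : Primrec fun p : (α × ℕ) × El => i p.1.1 := hi.comp (Primrec.fst.comp Primrec.fst)
    have j' : Primrec fun p : (α × ℕ) × El => j p.1.1 := hj.comp (Primrec.fst.comp Primrec.fst)
    have x' : Primrec fun p : (α × ℕ) × El => x p.1.1 := hx.comp (Primrec.fst.comp Primrec.fst)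
    have m' : Primrec fun p : (α × ℕ) × El => p.1.2 := Primrec.snd.comp Primrec.fst
    exact PrimrecPred.and (pr_CC i' j' (Primrec.list_length.comp x') m' Primrec.snd)
      (pr_Hit i' m' Primrec.snd j' x')
  · exact Primrec.optionToList.comp (pr_ch hQ (Primrec.list_length.comp (hx.comp Primrec.fst))
      Primrec.snd)

end

open Classical in
/-- the strings of length `n` in the decidable set, listed -/
noncomputable def VL (Q : ℕ × List Bool → ℕ → Prop) (i j n : ℕ) : List (List Bool) :=
  (strs n).filterMap (fun x => if VV Q i j x then some x else none)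

theorem mem_VL {Q : ℕ × List Bool → ℕ → Prop} {i j n : ℕ} {x : List Bool} :
    x ∈ VL Q i j n ↔ x.length = n ∧ VV Q i j x := by
  classical
  unfold VL
  rw [List.mem_filterMap]
  constructor
  · rintro ⟨y, h1, h2⟩
    by_cases h3 : VV Q i j y
    · rw [if_pos h3] at h2
      simp only [Option.some.injEq] at h2
      subst h2
      exact ⟨mem_strs.1 h1, h3⟩
    · rw [if_neg h3] at h2
      simp at h2
  · rintro ⟨h1, h2⟩
    exact ⟨x, mem_strs.2 h1, by rw [if_pos h2]⟩

theorem length_VL (Q : ℕ × List Bool → ℕ → Prop) (i j n : ℕ) :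
    8 ^ j * (VL Q i j n).length ≤ 18 * 4 ^ i * 2 ^ n := by
  classical
  refine le_trans (le_of_eq ?_) (card_VV (Q := Q) i j n)
  congr 1
  have h1 : VL Q i j n = (strs n).filter (fun x => decide (VV Q i j x)) := by
    unfold VL
    rw [← List.filterMap_eq_filter]
    congr 1
    funext x
    simp only [Option.guard, decide_eq_true_eq]
  rw [h1]
  have h2 : ((strs n).filter (fun x => decide (VV Q i j x))).Nodup := (nodup_strs n).filter _
  rw [← List.toFinset_card_of_nodup h2]
  congr 1
  ext x
  simp [mem_FS, mem_strs]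

/-- the index of a string in a list of strings -/
def ix (y : List Bool) (L : List (List Bool)) : ℕ :=
  @List.idxOf (List Bool) instBEqOfDecidableEq y L

/-- the machine -/
noncomputable def Mc (Q : ℕ × List Bool → ℕ → Prop) (p : List Bool) : Option (List Bool) :=
  (VL Q ((p.drop (p.idxOf false + 1)).idxOf false) (p.idxOf false)
    (((p.drop (p.idxOf false + 1)).drop ((p.drop (p.idxOf false + 1)).idxOf false + 1)).length
      + 3 * p.idxOf false - (2 * (p.drop (p.idxOf false + 1)).idxOf false + 5)))[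
    ix ((p.drop (p.idxOf false + 1)).drop ((p.drop (p.idxOf false + 1)).idxOf false + 1))
      (strs ((p.drop (p.idxOf false + 1)).drop
        ((p.drop (p.idxOf false + 1)).idxOf false + 1)).length)]?

theorem pr_VL {Q : ℕ × List Bool → ℕ → Prop} (hQ : PrimrecRel Q) {α : Type*} [Primcodable α]
    {i j n : α → ℕ} (hi : Primrec i) (hj : Primrec j) (hn : Primrec n) :
    Primrec fun a => VL Q (i a) (j a) (n a) := by
  classical
  unfold VL
  refine Primrec.listFilterMap (f := fun a => strs (n a)) (pr_strs.comp hn) ?_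
  refine Primrec.ite ?_ (Primrec.option_some.comp Primrec.snd) (Primrec.const none)
  exact pr_VV hQ (hi.comp Primrec.fst) (hj.comp Primrec.fst) Primrec.snd

theorem pr_Mc {Q : ℕ × List Bool → ℕ → Prop} (hQ : PrimrecRel Q) : Primrec (Mc Q) := by
  have j' : Primrec fun p : List Bool => p.idxOf false :=
    Primrec.list_idxOf.comp (Primrec.const false) Primrec.id
  have p1 : Primrec fun p : List Bool => p.drop (p.idxOf false + 1) :=
    Primrec.list_drop.comp (Primrec.succ.comp j') Primrec.id
  have i' : Primrec fun p : List Bool => (p.drop (p.idxOf false + 1)).idxOf false := j'.comp p1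
  have y' : Primrec fun p : List Bool =>
      (p.drop (p.idxOf false + 1)).drop ((p.drop (p.idxOf false + 1)).idxOf false + 1) :=
    p1.comp p1
  have ly := Primrec.list_length.comp y'
  unfold Mc
  refine Primrec.list_getElem?.comp (pr_VL hQ i' j' ?_) ?_
  · exact Primrec.nat_sub.comp (Primrec.nat_add.comp ly (Primrec.nat_mul.comp (Primrec.const 3) j'))
      (Primrec.nat_add.comp (Primrec.nat_mul.comp (Primrec.const 2) i') (Primrec.const 5))
  · exact Primrec.list_idxOf.comp y' (pr_strs.comp ly)

theorem idxOf_rep (j : ℕ) (L : List Bool) :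
    (List.replicate j true ++ false :: L).idxOf false = j := by
  induction j with
  | zero => simp
  | succ j ih => simp [List.replicate_succ, ih]

theorem drop_rep (j : ℕ) (L : List Bool) :
    (List.replicate j true ++ false :: L).drop (j + 1) = L := by
  induction j with
  | zero => simp
  | succ j ih => simpa [List.replicate_succ] using ih

theorem Mc_spec {Q : ℕ × List Bool → ℕ → Prop} {i j : ℕ} {x : List Bool} (hn : 3 * j ≤ x.length)
    (h : VV Q i j x) : ∃ p : List Bool, Mc Q p = some x ∧ p.length + 2 * j = x.length + 3 * i + 7 := by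
  classical
  set n := x.length with hx
  have h1 : x ∈ VL Q i j n := mem_VL.2 ⟨hx.symm, h⟩
  obtain ⟨k, hk, hkx⟩ := List.getElem_of_mem h1
  set l := n + (2 * i + 5) - 3 * j with hl
  have h2 := length_VL Q i j n
  have h3 : (VL Q i j n).length ≤ 2 ^ l := by
    have e1 : (8 : ℕ) ^ j = 2 ^ (3 * j) := by rw [pow_mul]; norm_num
    have e2 : (4 : ℕ) ^ i = 2 ^ (2 * i) := by rw [pow_mul]; norm_num
    rw [e1, e2] at h2
    have h4 : 2 ^ (3 * j) * (VL Q i j n).length ≤ 2 ^ (3 * j) * 2 ^ l := by
      refine h2.trans ?_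
      rw [← pow_add]
      have : 3 * j + l = 5 + 2 * i + n := by omega
      rw [this, pow_add, pow_add]
      refine Nat.mul_le_mul_right _ (Nat.mul_le_mul_right _ (by norm_num))
    exact Nat.le_of_mul_le_mul_left h4 (by positivity)
  have hlen : (strs l).length = 2 ^ l := by
    have := card_FS l
    unfold FS at this
    rwa [List.toFinset_card_of_nodup (nodup_strs l)] at this
  have hk2 : k < (strs l).length := by rw [hlen]; omega
  set y := (strs l)[k] with hy
  have hyl : y.length = l := mem_strs.1 (List.getElem_mem hk2)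
  have hyi : ix y (strs l) = k := by
    unfold ix
    exact @List.Nodup.idxOf_getElem _ instBEqOfDecidableEq _ (strs l) (nodup_strs l) k hk2
  refine ⟨List.replicate j true ++ false :: (List.replicate i true ++ false :: y), ?_, ?_⟩
  · unfold Mc
    rw [idxOf_rep, drop_rep, idxOf_rep, drop_rep, hyl, hyi]
    have : l + 3 * j - (2 * i + 5) = n := by omega
    rw [this, List.getElem?_eq_getElem hk, hkx]
  · simp only [List.length_append, List.length_replicate, List.length_cons, hyl]
    omega

/-- strings in the decidable sets have short descriptions -/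
theorem short {Q : ℕ × List Bool → ℕ → Prop} (hQ : PrimrecRel Q) {U : List Bool →. List Bool}
    (hU : ∀ M : List Bool →. List Bool, Partrec M → ∃ c, ∀ p σ, σ ∈ M p →
      ∃ q : List Bool, σ ∈ U q ∧ q.length ≤ p.length + c) :
    ∃ c, ∀ i j, ∀ x : List Bool, 3 * j ≤ x.length → VV Q i j x →
      ∃ q, x ∈ U q ∧ q.length + 2 * j ≤ x.length + 3 * i + c := by
  have h1 : Partrec fun p : List Bool => (Mc Q p : Part (List Bool)) :=
    Computable.ofOption (pr_Mc hQ).to_comp
  obtain ⟨c, hc⟩ := hU _ h1
  refine ⟨c + 7, fun i j x hx h => ?_⟩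
  obtain ⟨p, hp1, hp2⟩ := Mc_spec hx h
  obtain ⟨q, hq1, hq2⟩ := hc p x (by rw [hp1]; simp)
  exact ⟨q, hq1, by omega⟩

end Pool.Agent.V11169.KR
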