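import Mathlib
import Pool.Agent.V11169.KR5

set_option autoImplicit false

namespace Pool.Agent.V11169.KR

open Encodable Pool.Agent.H561R3 Pool.Agent.Helper227 MeasureTheory

theorem pow_sum (m : ℕ) : ∑ i ∈ Finset.range (m + 1), 2 ^ (m - i) + 1 = 2 ^ (m + 1) := by
  induction m with
  | zero => simp
  | succ m ih =>
    rw [Finset.sum_range_succ']
    have e1 : ∀ i ∈ Finset.range (m + 1), 2 ^ (m + 1 - (i + 1)) = 2 ^ (m - i) := by
      intro i _
      congr 1
      omega
    rw [Finset.sum_congr rfl e1, Nat.sub_zero]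
    have : 2 ^ (m + 1 + 1) = 2 * 2 ^ (m + 1) := by rw [pow_succ]; ring
    omega

theorem w_le_sum (m w : ℕ) (hw : w ≤ 2 ^ m) :
    w ≤ ∑ i ∈ Finset.range (m + 1), 2 ^ (m - i) * (if 2 ^ m ≤ 2 ^ i * w then 1 else 0) := by
  induction m with
  | zero =>
    have : w = 0 ∨ w = 1 := by simp at hw; omega
    rw [Nat.zero_add, Finset.sum_range_one]
    rcases this with h | h <;> subst h <;> simp
  | succ m ih =>
    rw [Finset.sum_range_succ']
    have e1 : ∀ i ∈ Finset.range (m + 1), 2 ^ (m + 1 - (i + 1)) *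
        (if 2 ^ (m + 1) ≤ 2 ^ (i + 1) * w then 1 else 0)
        = 2 ^ (m - i) * (if 2 ^ m ≤ 2 ^ i * w then 1 else 0) := by
      intro i _
      have h1 : m + 1 - (i + 1) = m - i := by omega
      have h2 : 2 ^ (m + 1) ≤ 2 ^ (i + 1) * w ↔ 2 ^ m ≤ 2 ^ i * w := by
        rw [pow_succ, pow_succ]
        constructor
        · intro h; nlinarith
        · intro h; nlinarith
      rw [h1]
      simp only [h2]
    rw [Finset.sum_congr rfl e1]
    by_cases h : w ≤ 2 ^ m
    · have := ih h
      omega
    · push Not at h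
      have e2 : ∀ i ∈ Finset.range (m + 1), 2 ^ (m - i) * (if 2 ^ m ≤ 2 ^ i * w then 1 else 0)
          = 2 ^ (m - i) := by
        intro i _
        rw [if_pos, mul_one]
        have : 1 ≤ 2 ^ i := Nat.one_le_two_pow
        nlinarith
      rw [Finset.sum_congr rfl e2]
      have h3 := pow_sum m
      by_cases h4 : w = 2 ^ (m + 1)
      · rw [h4]; simp
      · omega

theorem lin_sum (m a : ℕ) :
    ∑ i ∈ Finset.range (m + 1), 2 ^ (m - i) * (a + 3 * i) + (a + 3 * m + 6)
      = 2 ^ m * (2 * a + 6) := by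
  induction m with
  | zero => simp; ring
  | succ m ih =>
    rw [Finset.sum_range_succ]
    have e1 : ∀ i ∈ Finset.range (m + 1), 2 ^ (m + 1 - i) * (a + 3 * i)
        = 2 * (2 ^ (m - i) * (a + 3 * i)) := by
      intro i hi
      rw [Finset.mem_range] at hi
      have : m + 1 - i = (m - i) + 1 := by omega
      rw [this, pow_succ]; ring
    rw [Finset.sum_congr rfl e1, ← Finset.mul_sum, Nat.sub_self]
    have e2 : 2 ^ (m + 1) * (2 * a + 6) = 2 * (2 ^ m * (2 * a + 6)) := by rw [pow_succ]; ring
    rw [e2, ← ih]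
    ring

theorem sum_W_le {m : ℕ} {e : El} {x : List Bool} (a T : ℕ) (hW : ∀ j, W e j x ≤ 2 ^ m)
    (h : ∀ i j, Hit i m e j x → j + 1 ≤ a + 3 * i) :
    ∑ j ∈ Finset.range T, W e j x ≤ 2 ^ m * (2 * a + 6) := by
  have h1 : ∑ j ∈ Finset.range T, W e j x ≤ ∑ j ∈ Finset.range T,
      ∑ i ∈ Finset.range (m + 1), 2 ^ (m - i) * (if Hit i m e j x then 1 else 0) :=
    Finset.sum_le_sum fun j _ => w_le_sum m _ (hW j)
  rw [Finset.sum_comm] at h1
  have h2 : ∑ i ∈ Finset.range (m + 1), ∑ j ∈ Finset.range T,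
      2 ^ (m - i) * (if Hit i m e j x then 1 else 0)
      ≤ ∑ i ∈ Finset.range (m + 1), 2 ^ (m - i) * (a + 3 * i) := by
    refine Finset.sum_le_sum fun i _ => ?_
    rw [← Finset.mul_sum]
    refine Nat.mul_le_mul_left _ ?_
    rw [← Finset.card_filter]
    have h3 : (Finset.range T).filter (fun j => Hit i m e j x) ⊆ Finset.range (a + 3 * i) := by
      intro j hj
      rw [Finset.mem_filter] at hj
      rw [Finset.mem_range]
      have := h i j hj.2
      omega
    simpa using Finset.card_le_card h3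
  have h4 := lin_sum m a
  omega

/-- complexity with respect to the machine `U` -/
noncomputable def cx (U : List Bool →. List Bool) (x : List Bool) : ℕ :=
  sInf {k | ∃ q : List Bool, q.length = k ∧ x ∈ U q}

/-- optimality -/
def Opt (U : List Bool →. List Bool) : Prop :=
  ∀ M : List Bool →. List Bool, Partrec M → ∃ c : ℕ, ∀ p σ : List Bool, σ ∈ M p →
    ∃ q : List Bool, σ ∈ U q ∧ q.length ≤ p.length + c

section
variable {U : List Bool →. List Bool}

theorem cx_le {x q : List Bool} (h : x ∈ U q) : cx U x ≤ q.length :=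
  Nat.sInf_le ⟨q, rfl, h⟩

theorem cx_spec {x : List Bool} (h : ∃ q, x ∈ U q) : ∃ q, x ∈ U q ∧ q.length = cx U x := by
  obtain ⟨q, hq⟩ := h
  obtain ⟨q', h1, h2⟩ := Nat.sInf_mem (s := {k | ∃ q : List Bool, q.length = k ∧ x ∈ U q})
    ⟨q.length, q, rfl, hq⟩
  exact ⟨q', h2, h1⟩

theorem exists_c0 (hU : Opt U) :
    ∃ c0, ∀ x : List Bool, (∃ q, x ∈ U q) ∧ cx U x ≤ x.length + c0 := by
  obtain ⟨c, hc⟩ := hU (fun p => Part.some p) Computable.id.partrec
  refine ⟨c, fun x => ?_⟩
  obtain ⟨q, h1, h2⟩ := hc x x (Part.mem_some x)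
  exact ⟨⟨q, h1⟩, (cx_le h1).trans h2⟩

theorem Bd_iff (hU : Opt U) {d : ℕ} {x : List Bool} : Bd U d x ↔ cx U x + d < x.length := by
  obtain ⟨c0, h0⟩ := exists_c0 hU
  constructor
  · rintro ⟨q, h1, h2⟩
    have := cx_le h1
    omega
  · intro h
    obtain ⟨q, h1, h2⟩ := cx_spec (h0 x).1
    exact ⟨q, h1, by omega⟩

end

theorem measurable_res (n : ℕ) : Measurable (fun (Z : ℕ → Bool) (i : Fin n) => Z i) :=
  measurable_pi_lambda _ fun _ => measurable_pi_apply _

theorem integrable_pre (ρ : Measure (ℕ → Bool)) [IsFiniteMeasure ρ] (n : ℕ)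
    (f : List Bool → ℝ) : Integrable (fun Z => f (pre Z n)) ρ := by
  have h1 : Integrable (fun x : Fin n → Bool => f (List.ofFn x))
      (ρ.map (fun (Z : ℕ → Bool) (i : Fin n) => Z i)) := Integrable.of_finite
  exact h1.comp_measurable (measurable_res n)

theorem integral_pre (ρ : Measure (ℕ → Bool)) [IsFiniteMeasure ρ] (n : ℕ)
    (f : List Bool → ℝ) : ∫ Z, f (pre Z n) ∂ρ =
      ∑ x : Fin n → Bool, ρ.real {Z | ∀ i : Fin n, Z i = x i} * f (List.ofFn x) := by
  have h1 : Integrable (fun x : Fin n → Bool => f (List.ofFn x))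
      (ρ.map (fun (Z : ℕ → Bool) (i : Fin n) => Z i)) := Integrable.of_finite
  have h2 := integral_map (μ := ρ) (measurable_res n).aemeasurable
    (f := fun x : Fin n → Bool => f (List.ofFn x)) h1.aestronglyMeasurable
  rw [integral_fintype h1] at h2
  refine Eq.trans ?_ (h2.symm.trans ?_)
  · rfl
  · refine Finset.sum_congr rfl fun x _ => ?_
    rw [smul_eq_mul]
    congr 1
    rw [measureReal_def, measureReal_def, Measure.map_apply (measurable_res n)
      (measurableSet_singleton x)]
    congr 2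
    ext Z
    simp only [Set.mem_preimage, Set.mem_singleton_iff, Set.mem_ofPred_eq]
    exact funext_iff

/-- Kolmogorov randomness, with integrals -/
def KRand (U : List Bool →. List Bool) (ρ : Measure (ℕ → Bool)) : Prop :=
  ∃ d : ℝ, ∃ᶠ n : ℕ in Filter.atTop, (n : ℝ) - d ≤ ∫ Z, (cx U (pre Z n) : ℝ) ∂ρ

/-- the potentials -/
noncomputable def Phi (Q : ℕ × List Bool → ℕ → Prop) (m : ℕ) (x : List Bool) : ℝ :=
  ((∑ j ∈ Finset.range ((EC Q m).1 + 1), W (EC Q m) j x : ℕ) : ℝ)

theorem main {U : List Bool →. List Bool} (hP : Partrec U) (hU : Opt U) :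
    ∃ Q : ℕ × List Bool → ℕ → Prop, ∀ (ρ : Measure (ℕ → Bool)) [IsProbabilityMeasure ρ],
      KRand U ρ ↔ ∃ D : ℝ, ∀ m, ∫ Z, Phi Q m (pre Z (EC Q m).1) ∂ρ ≤ 2 ^ m * D := by
  obtain ⟨Q, hQ, hmono, hB'⟩ := s1_Bd hP
  have hB : ∀ d x, Bd U d x ↔ ∃ n, Q (d, x) n := fun d x => hB' (d, x)
  have hcount := count_Bd U
  have hinv := inv_all hB hmono hcount
  obtain ⟨c0, hc0⟩ := exists_c0 hU
  obtain ⟨c, hc⟩ := short hQ hU
  refine ⟨Q, fun ρ _ => ⟨?_, ?_⟩⟩
  · rintro ⟨d, hd⟩
    refine ⟨2 * (d + c0) + 2 * c + 8, fun m => ?_⟩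
    obtain ⟨n0, hn0⟩ := VV_of_hit hB hmono hcount m
    rw [Filter.frequently_atTop] at hd
    obtain ⟨n, hn, hdn⟩ := hd (max n0 (3 * (EC Q m).1))
    set T := (EC Q m).1 with hT
    have hpt : ∀ Z : ℕ → Bool, Phi Q m (pre Z T) ≤
        2 ^ m * (2 * (((n : ℝ) - cx U (pre Z n)) + c0) + 2 * c + 8) := by
      intro Z
      set x := pre Z n with hx
      have hxl : x.length = n := length_pre _ _
      obtain ⟨A, h1, h2, h3⟩ := hinv m
      have hW : ∀ j, W (EC Q m) j x ≤ 2 ^ m := fun j => h3 j x (by omega)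
      have hh : ∀ i j, Hit i m (EC Q m) j x → j + 1 ≤ (n - cx U x + c + 1) + 3 * i := by
        intro i j hij
        have hjT : j ≤ T := by
          by_contra hcon
          push Not at hcon
          unfold Hit at hij
          rw [W_zero hcon] at hij
          have : 0 < 2 ^ m := by positivity
          omega
        have hv := hn0 x (by omega) i j hij
        obtain ⟨q, g1, g2⟩ := hc i j x (by omega) hv
        have g3 := cx_le g1
        omega
      have h4 := sum_W_le (n - cx U x + c + 1) (T + 1) hW hh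
      have h5 : ∑ j ∈ Finset.range (T + 1), W (EC Q m) j (pre Z T)
          = ∑ j ∈ Finset.range (T + 1), W (EC Q m) j x := by
        refine Finset.sum_congr rfl fun j _ => ?_
        rw [← take_pre Z (K := T) (n := n) (by omega)]
        exact W_take le_rfl
      unfold Phi
      rw [← hT, h5]
      have h6 : ((∑ j ∈ Finset.range (T + 1), W (EC Q m) j x : ℕ) : ℝ) ≤
          ((2 ^ m * (2 * (n - cx U x + c + 1) + 6) : ℕ) : ℝ) := by exact_mod_cast h4
      refine h6.trans ?_
      push_cast
      refine mul_le_mul_of_nonneg_left ?_ (by positivity)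
      have h7 : ((n - cx U x : ℕ) : ℝ) ≤ ((n : ℝ) - cx U x) + c0 := by
        have h8 := (hc0 x).2
        by_cases h9 : cx U x ≤ n
        · rw [Nat.cast_sub h9]
          have : (0 : ℝ) ≤ c0 := by positivity
          linarith
        · rw [Nat.sub_eq_zero_of_le (by omega)]
          have : (cx U x : ℝ) ≤ n + c0 := by
            rw [hxl] at h8
            exact_mod_cast h8
          push_cast
          linarith
      linarith
    have i1 := integrable_pre ρ T (Phi Q m)
    have i2 := integrable_pre ρ n (fun x => 2 ^ m * (2 * (((n : ℝ) - cx U x) + c0) + 2 * c + 8))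
    have i3 := integrable_pre ρ n (fun x => (cx U x : ℝ))
    refine (integral_mono i1 i2 hpt).trans ?_
    have e1 : ∀ Z : ℕ → Bool, 2 ^ m * (2 * (((n : ℝ) - cx U (pre Z n)) + c0) + 2 * c + 8)
        = 2 ^ m * (2 * (n + c0) + 2 * c + 8) - (2 ^ m * 2) * (cx U (pre Z n) : ℝ) := by
      intro Z; ring
    simp only [e1]
    rw [integral_sub (integrable_const _) (i3.const_mul _), integral_const, integral_const_mul]
    simp only [probReal_univ, smul_eq_mul, one_mul]
    have h2m : (0 : ℝ) < 2 ^ m := by positivity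
    nlinarith
  · rintro ⟨D, hD⟩
    refine ⟨4 * D, ?_⟩
    rw [Filter.frequently_atTop]
    intro m
    obtain ⟨_, _, hE, hAl, _⟩ := canon_of_inv hB (hinv m)
    obtain ⟨A, hA, hCov, _⟩ := good_of_alive hB hmono hAl
    have hDm := hD (m + 1)
    set e := EC Q (m + 1) with he
    set T := e.1 with hT
    set κ := e.2.2 with hκ
    have hlen : κ.length = 2 ^ (m + 1) := hE.2.2.1
    have hκb : ∀ K ∈ κ, m ≤ K ∧ K ≤ T := hE.2.2.2.1
    have key : ∃ i ∈ (Finset.univ : Finset (Fin κ.length)),
        ∫ Z, ((∑ j ∈ Finset.range (T + 1), ind A j (pre Z κ[i.1]) : ℕ) : ℝ) ∂ρ ≤ D := by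
      refine Finset.exists_le_of_sum_le (f := fun i : Fin κ.length =>
        ∫ Z, ((∑ j ∈ Finset.range (T + 1), ind A j (pre Z κ[i.1]) : ℕ) : ℝ) ∂ρ)
        (g := fun _ => D) ?_ ?_
      · refine ⟨⟨0, ?_⟩, Finset.mem_univ _⟩
        rw [hlen]; positivity
      · rw [← integral_finsetSum]
        · simp only [Finset.sum_const, Finset.card_univ, Fintype.card_fin, hlen, nsmul_eq_mul]
          push_cast
          refine le_trans ?_ hDm
          refine integral_mono ?_ (integrable_pre ρ T (Phi Q (m + 1))) ?_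
          · refine integrable_finsetSum _ fun i _ => ?_
            have := integrable_pre ρ κ[i.1]
              (fun x => ∑ j ∈ Finset.range (T + 1), (ind A j x : ℝ))
            exact this
          · intro Z
            have h1 := hCov (pre Z T) (mem_FS.2 (length_pre _ _))
            have hPhi : Phi Q (m + 1) (pre Z T) =
              ((∑ j ∈ Finset.range (T + 1), W e j (pre Z T) : ℕ) : ℝ) := rfl
            have h2 : ∑ i : Fin κ.length, ∑ j ∈ Finset.range (T + 1), ind A j (pre Z κ[i.1])
                = ∑ j ∈ Finset.range (T + 1), vv A κ j (pre Z T) := by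
              rw [Finset.sum_comm]
              refine Finset.sum_congr rfl fun j _ => ?_
              rw [← sum_vv]
              refine Finset.sum_congr rfl fun i _ => ?_
              rw [take_pre Z (hκb _ (List.getElem_mem i.2)).2]
            rw [← h2] at h1
            have h3 : ((∑ i : Fin κ.length, ∑ j ∈ Finset.range (T + 1),
              ind A j (pre Z κ[i.1]) : ℕ) : ℝ) ≤
              ((∑ j ∈ Finset.range (T + 1), W e j (pre Z T) : ℕ) : ℝ) := by exact_mod_cast h1
            beta_reduce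
            rw [hPhi]
            push_cast at h3 ⊢
            exact h3
        · intro i _
          exact integrable_pre ρ κ[i.1]
            (fun x => ((∑ j ∈ Finset.range (T + 1), ind A j x : ℕ) : ℝ))
    obtain ⟨i, _, hi⟩ := key
    set K := κ[i.1] with hK
    have hKb := hκb K (List.getElem_mem i.2)
    refine ⟨K, hKb.1, ?_⟩
    have hpt : ∀ Z : ℕ → Bool, (K : ℝ) - cx U (pre Z K) ≤
        4 * ((∑ j ∈ Finset.range (T + 1), ind A j (pre Z K) : ℕ) : ℝ) := by
      intro Z
      set x := pre Z K with hx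
      have hxl : x.length = K := length_pre _ _
      have h1 : K - cx U x ≤ 4 * ∑ j ∈ Finset.range (T + 1), ind A j x := by
        have h2 : ∑ j ∈ Finset.range ((K - cx U x + 3) / 4), 1 ≤
            ∑ j ∈ Finset.range (T + 1), ind A j x := by
          refine le_trans (Finset.sum_le_sum (g := fun j => ind A j x) fun j hj => ?_)
            (Finset.sum_le_sum_of_subset (Finset.range_subset_range.2 ?_))
          · rw [Finset.mem_range] at hj
            have h3 : Bd U (4 * j) x := (Bd_iff hU).2 (by omega)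
            have h4 := hA.1 j x h3
            unfold ind
            rw [if_pos h4]
          · have := hKb.2
            omega
        rw [Finset.sum_const, Finset.card_range, smul_eq_mul, mul_one] at h2
        omega
      have h5 : (K : ℝ) - cx U x ≤ ((K - cx U x : ℕ) : ℝ) := by
        have h9 : K ≤ K - cx U x + cx U x := by omega
        have h10 : (K : ℝ) ≤ ((K - cx U x + cx U x : ℕ) : ℝ) := by exact_mod_cast h9
        rw [Nat.cast_add] at h10
        linarith
      have h6 : ((K - cx U x : ℕ) : ℝ) ≤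
          ((4 * ∑ j ∈ Finset.range (T + 1), ind A j x : ℕ) : ℝ) := by exact_mod_cast h1
      rw [Nat.cast_mul] at h6
      push_cast at h6 ⊢
      linarith
    have i3 := integrable_pre ρ K (fun x => (cx U x : ℝ))
    have i4 := integrable_pre ρ K
      (fun x => ((∑ j ∈ Finset.range (T + 1), ind A j x : ℕ) : ℝ))
    have i5 := integrable_pre ρ K (fun x => (K : ℝ) - (cx U x : ℝ))
    have h7 := integral_mono i5 (i4.const_mul 4) hpt
    rw [integral_const_mul, integral_sub (integrable_const _) i3, integral_const] at h7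
    simp only [probReal_univ, smul_eq_mul, one_mul] at h7
    linarith

end Pool.Agent.V11169.KR
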