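import Mathlib
import Pool.Agent.V11169.KR6

set_option autoImplicit false

namespace Pool.Agent.V11169.MC

open Encodable Pool.Agent.H561R3 Pool.Agent.Helper227 Pool.Agent.V11169.KR

open Classical in
/-- weight of the programs for `x` found by stage `s`, in units of `2^-s` -/
noncomputable def wt (R : List Bool × List Bool → ℕ → Prop) (s : ℕ) (x : List Bool) : ℕ :=
  ((List.range (s + 1)).map fun l =>
    ((strs l).map fun q => if R (q, x) s then 2 ^ (s - l) else 0).sum).sum

/-- the scaled sum along the initial segments of `x` -/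
noncomputable def bb (R : List Bool × List Bool → ℕ → Prop) (x : List Bool) : ℕ :=
  ((List.range (x.length + 1)).map fun k => 2 ^ k * wt R x.length (x.take k)).sum

section prim
variable {α : Type*} [Primcodable α]

theorem pr_wt {R : List Bool × List Bool → ℕ → Prop} (hR : PrimrecRel R) {s : α → ℕ}
    {x : α → List Bool} (hs : Primrec s) (hx : Primrec x) :
    Primrec fun a => wt R (s a) (x a) := by
  classical
  unfold wt
  refine pr_sum (f := fun a => List.range (s a + 1)) (g := fun a l =>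
    ((strs l).map fun q => if R (q, x a) (s a) then 2 ^ (s a - l) else 0).sum)
    (Primrec.list_range.comp (Primrec.succ.comp hs)) ?_
  refine pr_sum (f := fun p : α × ℕ => strs p.2) (g := fun p q =>
    if R (q, x p.1) (s p.1) then 2 ^ (s p.1 - p.2) else 0) (pr_strs.comp Primrec.snd) ?_
  refine Primrec.ite ?_ ?_ (Primrec.const 0)
  · exact hR.comp (Primrec.snd.pair (hx.comp (Primrec.fst.comp Primrec.fst)))
      (hs.comp (Primrec.fst.comp Primrec.fst))
  · exact pr_pow.comp (Primrec.const 2) (Primrec.nat_sub.comp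
      (hs.comp (Primrec.fst.comp Primrec.fst)) (Primrec.snd.comp Primrec.fst))

theorem pr_bb {R : List Bool × List Bool → ℕ → Prop} (hR : PrimrecRel R) {x : α → List Bool}
    (hx : Primrec x) : Primrec fun a => bb R (x a) := by
  unfold bb
  refine pr_sum (f := fun a => List.range ((x a).length + 1)) (g := fun a k =>
    2 ^ k * wt R (x a).length ((x a).take k))
    (Primrec.list_range.comp (Primrec.succ.comp (Primrec.list_length.comp hx))) ?_
  have x' : Primrec fun p : α × ℕ => x p.1 := hx.comp Primrec.fst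
  refine Primrec.nat_mul.comp (pr_pow.comp (Primrec.const 2) Primrec.snd) ?_
  exact pr_wt hR (Primrec.list_length.comp x') (Primrec.list_take.comp Primrec.snd x')

end prim

/-- all strings of length at most `n` -/
def AS (n : ℕ) : Finset (List Bool) := (Finset.range (n + 1)).biUnion FS

theorem mem_AS {n : ℕ} {x : List Bool} : x ∈ AS n ↔ x.length ≤ n := by
  unfold AS
  simp only [Finset.mem_biUnion, Finset.mem_range, mem_FS]
  constructor
  · rintro ⟨a, h1, h2⟩; omega
  · intro h; exact ⟨x.length, by omega, rfl⟩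

theorem sum_AS (n : ℕ) (g : List Bool → ℕ) :
    ∑ q ∈ AS n, g q = ∑ l ∈ Finset.range (n + 1), ∑ q ∈ FS l, g q := by
  unfold AS
  rw [Finset.sum_biUnion]
  intro i _ j _ hij
  rw [Function.onFun, Finset.disjoint_left]
  intro x h1 h2
  exact hij ((mem_FS.1 h1).symm.trans (mem_FS.1 h2))

variable {R : List Bool × List Bool → ℕ → Prop} {V : List Bool →. List Bool}

open Classical in
theorem wt_eq (s : ℕ) (x : List Bool) :
    wt R s x = ∑ q ∈ AS s, if R (q, x) s then 2 ^ (s - q.length) else 0 := by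
  rw [sum_AS]
  unfold wt
  rw [sum_range_list]
  refine Finset.sum_congr rfl fun l _ => ?_
  rw [← sum_FS]
  refine Finset.sum_congr rfl fun q hq => ?_
  rw [mem_FS.1 hq]

theorem bb_eq (x : List Bool) :
    bb R x = ∑ k ∈ Finset.range (x.length + 1), 2 ^ k * wt R x.length (x.take k) := by
  unfold bb
  rw [sum_range_list]

theorem kraft_nat (F : Finset (List Bool)) (hF : ∀ p ∈ F, ∀ q ∈ F, p <+: q → p = q) (N : ℕ)
    (hN : ∀ p ∈ F, p.length ≤ N) : ∑ p ∈ F, 2 ^ (N - p.length) ≤ 2 ^ N := by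
  classical
  have h1 : ∀ p ∈ F, 2 ^ (N - p.length) =
      ∑ x ∈ FS N, if x.take p.length = p then 1 else 0 := by
    intro p hp
    have h2 := sum_take (hN p hp) (fun y => if y = p then 1 else 0)
    rw [h2, Finset.sum_ite_eq' (FS p.length) p (fun _ => 1), if_pos (mem_FS.2 rfl), mul_one]
  rw [Finset.sum_congr rfl h1, Finset.sum_comm]
  have h3 : ∀ x ∈ FS N, (∑ p ∈ F, if x.take p.length = p then 1 else 0) ≤ 1 := by
    intro x _
    rw [← Finset.card_filter]
    rw [Finset.card_le_one]
    intro p hp q hq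
    rw [Finset.mem_filter] at hp hq
    have hp' : p <+: x := by rw [← hp.2]; exact List.take_prefix _ _
    have hq' : q <+: x := by rw [← hq.2]; exact List.take_prefix _ _
    rcases le_total p.length q.length with h | h
    · exact hF p hp.1 q hq.1 (List.prefix_of_prefix_length_le hp' hq' h)
    · exact (hF q hq.1 p hp.1 (List.prefix_of_prefix_length_le hq' hp' h)).symm
  refine (Finset.sum_le_sum h3).trans ?_
  rw [Finset.sum_const, card_FS]; simp

theorem sum_wt_le (hV : ∀ q x, x ∈ V q ↔ ∃ s, R (q, x) s)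
    (hpf : ∀ p q : List Bool, (V p).Dom → (V q).Dom → p <+: q → p = q) (n : ℕ) :
    ∑ y ∈ AS n, wt R n y ≤ 2 ^ n := by
  classical
  simp only [wt_eq]
  rw [Finset.sum_comm]
  have h1 : ∀ q ∈ AS n, (∑ y ∈ AS n, if R (q, y) n then 2 ^ (n - q.length) else 0)
      ≤ if (V q).Dom then 2 ^ (n - q.length) else 0 := by
    intro q _
    by_cases hd : (V q).Dom
    · rw [if_pos hd]
      have h2 : ∀ y ∈ AS n, (if R (q, y) n then 2 ^ (n - q.length) else 0)
          ≤ if y = (V q).get hd then 2 ^ (n - q.length) else 0 := by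
        intro y _
        by_cases h3 : R (q, y) n
        · have h4 : y ∈ V q := (hV q y).2 ⟨n, h3⟩
          rw [if_pos h3, if_pos (Part.get_eq_of_mem h4 hd).symm]
        · rw [if_neg h3]; exact Nat.zero_le _
      refine (Finset.sum_le_sum h2).trans ?_
      rw [Finset.sum_ite_eq' (AS n)]
      split_ifs <;> simp
    · rw [if_neg hd, Nat.le_zero, Finset.sum_eq_zero]
      intro y _
      rw [if_neg]
      intro h3
      exact hd (Part.dom_iff_mem.2 ⟨y, (hV q y).2 ⟨n, h3⟩⟩)
  refine (Finset.sum_le_sum h1).trans ?_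
  rw [← Finset.sum_filter]
  refine kraft_nat _ ?_ n ?_
  · intro p hp q hq h
    rw [Finset.mem_filter] at hp hq
    exact hpf p q hp.2 hq.2 h
  · intro p hp
    rw [Finset.mem_filter] at hp
    exact mem_AS.1 hp.1

theorem sum_bb_le (hV : ∀ q x, x ∈ V q ↔ ∃ s, R (q, x) s)
    (hpf : ∀ p q : List Bool, (V p).Dom → (V q).Dom → p <+: q → p = q) (n : ℕ) :
    ∑ x ∈ FS n, bb R x ≤ 4 ^ n := by
  have h1 : ∑ x ∈ FS n, bb R x
      = ∑ x ∈ FS n, ∑ k ∈ Finset.range (n + 1), 2 ^ k * wt R n (x.take k) := by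
    refine Finset.sum_congr rfl fun x hx => ?_
    rw [bb_eq, mem_FS.1 hx]
  rw [h1, Finset.sum_comm]
  have h2 : ∀ k ∈ Finset.range (n + 1), ∑ x ∈ FS n, 2 ^ k * wt R n (x.take k)
      = 2 ^ n * ∑ y ∈ FS k, wt R n y := by
    intro k hk
    rw [Finset.mem_range] at hk
    rw [← Finset.mul_sum, sum_take (by omega : k ≤ n) (wt R n), ← mul_assoc, ← pow_add]
    congr 2
    omega
  rw [Finset.sum_congr rfl h2, ← Finset.mul_sum, ← sum_AS]
  have h3 := sum_wt_le hV hpf n
  calc 2 ^ n * ∑ y ∈ AS n, wt R n y ≤ 2 ^ n * 2 ^ n := Nat.mul_le_mul_left _ h3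
    _ = 4 ^ n := by rw [← mul_pow]; norm_num

theorem bb_le (hV : ∀ q x, x ∈ V q ↔ ∃ s, R (q, x) s)
    (hpf : ∀ p q : List Bool, (V p).Dom → (V q).Dom → p <+: q → p = q) (x : List Bool) :
    bb R x ≤ 4 ^ x.length :=
  (Finset.single_le_sum (f := bb R) (fun _ _ => Nat.zero_le _)
    (mem_FS.2 rfl : x ∈ FS x.length)).trans (sum_bb_le hV hpf x.length)

theorem wt_mono (hmono : ∀ a m n, m ≤ n → R a m → R a n) {s t : ℕ} (h : s ≤ t)
    (x : List Bool) : 2 ^ (t - s) * wt R s x ≤ wt R t x := by
  classical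
  rw [wt_eq, wt_eq, Finset.mul_sum]
  refine le_trans (Finset.sum_le_sum (g := fun q => if R (q, x) t then 2 ^ (t - q.length) else 0)
    fun q hq => ?_) (Finset.sum_le_sum_of_subset ?_)
  · have hq' := mem_AS.1 hq
    by_cases h1 : R (q, x) s
    · rw [if_pos h1, if_pos (hmono _ _ _ h h1), ← pow_add]
      refine le_of_eq ?_
      congr 1
      omega
    · rw [if_neg h1]; simp
  · intro q hq
    rw [mem_AS] at hq ⊢
    omega

theorem bb_grow (hmono : ∀ a m n, m ≤ n → R a m → R a n) {a : ℕ} {x : List Bool}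
    (h : a ≤ x.length) : 2 ^ (x.length - a) * bb R (x.take a)
      + ∑ k ∈ Finset.Ico (a + 1) (x.length + 1), 2 ^ k * wt R x.length (x.take k) ≤ bb R x := by
  have hl : (x.take a).length = a := by rw [List.length_take]; omega
  rw [bb_eq x, bb_eq, hl]
  rw [← Finset.sum_range_add_sum_Ico _ (by omega : a + 1 ≤ x.length + 1)]
  refine Nat.add_le_add_right ?_ _
  rw [Finset.mul_sum]
  refine Finset.sum_le_sum fun k hk => ?_
  rw [Finset.mem_range] at hk
  rw [List.take_take, min_eq_left (by omega)]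
  have h1 := wt_mono hmono h (x.take k)
  calc 2 ^ (x.length - a) * (2 ^ k * wt R a (x.take k))
      = 2 ^ k * (2 ^ (x.length - a) * wt R a (x.take k)) := by ring
    _ ≤ 2 ^ k * wt R x.length (x.take k) := Nat.mul_le_mul_left _ h1

theorem bb_succ (hmono : ∀ a m n, m ≤ n → R a m → R a n) {n : ℕ} {x : List Bool}
    (h : n + 1 ≤ x.length) : 2 * bb R (x.take n) ≤ bb R (x.take (n + 1)) := by
  have hl : (x.take (n + 1)).length = n + 1 := by rw [List.length_take]; omega
  have h1 := bb_grow (R := R) hmono (a := n) (x := x.take (n + 1)) (by omega)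
  rw [hl, List.take_take, min_eq_left (by omega : n ≤ n + 1), Nat.add_sub_cancel_left] at h1
  omega

theorem wt_eventually (hmono : ∀ a m n, m ≤ n → R a m → R a n)
    (hV : ∀ q x, x ∈ V q ↔ ∃ s, R (q, x) s) {x : List Bool} (hx : ∃ q, x ∈ V q) :
    ∀ᶠ N in Filter.atTop, cx V x ≤ N ∧ 2 ^ (N - cx V x) ≤ wt R N x := by
  classical
  obtain ⟨q, h1, h2⟩ := cx_spec hx
  obtain ⟨s, hs⟩ := (hV q x).1 h1
  filter_upwards [Filter.eventually_ge_atTop (max s q.length)] with N hN
  refine ⟨by omega, ?_⟩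
  rw [wt_eq, ← h2]
  have h3 : (if R (q, x) N then 2 ^ (N - q.length) else 0) = 2 ^ (N - q.length) :=
    if_pos (hmono _ _ _ (by omega) hs)
  rw [← h3]
  exact Finset.single_le_sum (f := fun q => if R (q, x) N then 2 ^ (N - q.length) else 0)
    (fun _ _ => Nat.zero_le _) (mem_AS.2 (by omega))

end Pool.Agent.V11169.MC
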