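import Mathlib
import Pool.Agent.V11169.MC1

set_option autoImplicit false

namespace Pool.Agent.V11169.MC

open Encodable Pool.Agent.H561R3 Pool.Agent.Helper227 Pool.Agent.V11169.KR

/-- the leftover of the `c`-th covering strategy along `x` at stage `n`, in units of `32^-n` -/
noncomputable def uf (R : List Bool × List Bool → ℕ → Prop) (δ : ℕ → ℕ) (c : ℕ) (x : List Bool)
    (n : ℕ) : ℕ :=
  Nat.rec 0 (fun n u => (32 * u + (if c ≤ n + 1 then
    16 ^ (n + 1 - c) * (bb R (x.take (n + 1)) - 2 * bb R (x.take n)) else 0)) - δ n) n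

/-- the leftover before the increment is subtracted -/
noncomputable def vf (R : List Bool × List Bool → ℕ → Prop) (δ : ℕ → ℕ) (c : ℕ) (x : List Bool)
    (n : ℕ) : ℕ :=
  32 * uf R δ c x n + (if c ≤ n + 1 then
    16 ^ (n + 1 - c) * (bb R (x.take (n + 1)) - 2 * bb R (x.take n)) else 0)

/-- the condition on the increment `d` -/
def ok (R : List Bool × List Bool → ℕ → Prop) (δ : ℕ → ℕ) (n d : ℕ) : Prop :=
  16 ^ (n + 1) ≤ d ∧ ∀ c < n + 2, (¬ 1 ≤ c) ∨
    4 ^ c * ((strs (n + 1)).map (fun x => if d < vf R δ c x n then 1 else 0)).sum ≤ 2 ^ (n + 1)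

/-- a bound for the increment -/
noncomputable def bnd (R : List Bool × List Bool → ℕ → Prop) (δ : ℕ → ℕ) (n : ℕ) : ℕ :=
  16 ^ (n + 1) + ((List.range (n + 2)).map fun c =>
    ((strs (n + 1)).map fun x => vf R δ c x n).sum).sum + 1

open Classical in
/-- the next increment -/
noncomputable def nextd (R : List Bool × List Bool → ℕ → Prop) (δ : ℕ → ℕ) (n : ℕ) : ℕ :=
  (List.range (bnd R δ n)).findIdx fun d => decide (ok R δ n d)

/-- the list of the first `n` increments -/
noncomputable def Ls (R : List Bool × List Bool → ℕ → Prop) (n : ℕ) : List ℕ :=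
  Nat.rec [] (fun n L => L ++ [nextd R (fun k => L.getD k 0) n]) n

/-- the increments, in units of `32^-(n+1)` -/
noncomputable def dl (R : List Bool × List Bool → ℕ → Prop) (n : ℕ) : ℕ :=
  (Ls R (n + 1)).getD n 0

section prim
variable {α : Type*} [Primcodable α] {R : List Bool × List Bool → ℕ → Prop}

theorem pr_term (hR : PrimrecRel R) {c : α → ℕ} {x : α → List Bool} {n : α → ℕ}
    (hc : Primrec c) (hx : Primrec x) (hn : Primrec n) :
    Primrec fun a => (if c a ≤ n a + 1 then 16 ^ (n a + 1 - c a) *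
      (bb R ((x a).take (n a + 1)) - 2 * bb R ((x a).take (n a))) else 0) := by
  have n1 := Primrec.succ.comp hn
  refine Primrec.ite (Primrec.nat_le.comp hc n1) ?_ (Primrec.const 0)
  refine Primrec.nat_mul.comp (pr_pow.comp (Primrec.const 16) (Primrec.nat_sub.comp n1 hc)) ?_
  exact Primrec.nat_sub.comp (pr_bb hR (Primrec.list_take.comp n1 hx))
    (Primrec.nat_mul.comp (Primrec.const 2) (pr_bb hR (Primrec.list_take.comp hn hx)))

theorem pr_uf (hR : PrimrecRel R) {L : α → List ℕ} {c : α → ℕ} {x : α → List Bool} {n : α → ℕ}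
    (hL : Primrec L) (hc : Primrec c) (hx : Primrec x) (hn : Primrec n) :
    Primrec fun a => uf R (fun k => (L a).getD k 0) (c a) (x a) (n a) := by
  unfold uf
  refine Primrec.nat_rec' (f := n) (g := fun _ => 0) (h := fun a (p : ℕ × ℕ) =>
    (32 * p.2 + (if c a ≤ p.1 + 1 then 16 ^ (p.1 + 1 - c a) *
      (bb R ((x a).take (p.1 + 1)) - 2 * bb R ((x a).take p.1)) else 0)) - (L a).getD p.1 0)
      hn (Primrec.const 0) ?_
  have m' : Primrec fun p : α × (ℕ × ℕ) => p.2.1 := Primrec.fst.comp Primrec.snd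
  refine Primrec.nat_sub.comp (Primrec.nat_add.comp (Primrec.nat_mul.comp (Primrec.const 32)
    (Primrec.snd.comp Primrec.snd)) ?_) ((Primrec.list_getD 0).comp (hL.comp Primrec.fst) m')
  exact pr_term hR (hc.comp Primrec.fst) (hx.comp Primrec.fst) m'

theorem pr_vf (hR : PrimrecRel R) {L : α → List ℕ} {c : α → ℕ} {x : α → List Bool} {n : α → ℕ}
    (hL : Primrec L) (hc : Primrec c) (hx : Primrec x) (hn : Primrec n) :
    Primrec fun a => vf R (fun k => (L a).getD k 0) (c a) (x a) (n a) := by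
  unfold vf
  exact Primrec.nat_add.comp (Primrec.nat_mul.comp (Primrec.const 32) (pr_uf hR hL hc hx hn))
    (pr_term hR hc hx hn)

theorem pr_ok (hR : PrimrecRel R) {L : α → List ℕ} {n d : α → ℕ}
    (hL : Primrec L) (hn : Primrec n) (hd : Primrec d) :
    PrimrecPred fun a => ok R (fun k => (L a).getD k 0) (n a) (d a) := by
  unfold ok
  have n1 := Primrec.succ.comp hn
  refine PrimrecPred.and (Primrec.nat_le.comp (pr_pow.comp (Primrec.const 16) n1) hd) ?_
  refine PP.all_lt (α := α) (p := fun a c => (¬ 1 ≤ c) ∨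
    4 ^ c * ((strs (n a + 1)).map (fun x => if d a < vf R (fun k => (L a).getD k 0) c x (n a)
      then 1 else 0)).sum ≤ 2 ^ (n a + 1)) ?_ (Primrec.succ.comp n1)
  refine PrimrecPred.or (PrimrecPred.not (Primrec.nat_le.comp (Primrec.const 1) Primrec.snd)) ?_
  refine Primrec.nat_le.comp (Primrec.nat_mul.comp (pr_pow.comp (Primrec.const 4) Primrec.snd) ?_)
    (pr_pow.comp (Primrec.const 2) (n1.comp Primrec.fst))
  refine pr_sum (f := fun p : α × ℕ => strs (n p.1 + 1)) (g := fun p x =>
    if d p.1 < vf R (fun k => (L p.1).getD k 0) p.2 x (n p.1) then 1 else 0)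
    (pr_strs.comp (n1.comp Primrec.fst)) ?_
  refine Primrec.ite (Primrec.nat_lt.comp (hd.comp (Primrec.fst.comp Primrec.fst)) ?_)
    (Primrec.const 1) (Primrec.const 0)
  exact pr_vf hR (hL.comp (Primrec.fst.comp Primrec.fst)) (Primrec.snd.comp Primrec.fst)
    Primrec.snd (hn.comp (Primrec.fst.comp Primrec.fst))

theorem pr_bnd (hR : PrimrecRel R) {L : α → List ℕ} {n : α → ℕ}
    (hL : Primrec L) (hn : Primrec n) :
    Primrec fun a => bnd R (fun k => (L a).getD k 0) (n a) := by
  unfold bnd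
  have n1 := Primrec.succ.comp hn
  refine Primrec.succ.comp (Primrec.nat_add.comp (pr_pow.comp (Primrec.const 16) n1) ?_)
  refine pr_sum (f := fun a => List.range (n a + 2)) (g := fun a c =>
    ((strs (n a + 1)).map fun x => vf R (fun k => (L a).getD k 0) c x (n a)).sum)
    (Primrec.list_range.comp (Primrec.succ.comp n1)) ?_
  refine pr_sum (f := fun p : α × ℕ => strs (n p.1 + 1)) (g := fun p x =>
    vf R (fun k => (L p.1).getD k 0) p.2 x (n p.1)) (pr_strs.comp (n1.comp Primrec.fst)) ?_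
  exact pr_vf hR (hL.comp (Primrec.fst.comp Primrec.fst)) (Primrec.snd.comp Primrec.fst)
    Primrec.snd (hn.comp (Primrec.fst.comp Primrec.fst))

theorem pr_nextd (hR : PrimrecRel R) {L : α → List ℕ} {n : α → ℕ}
    (hL : Primrec L) (hn : Primrec n) :
    Primrec fun a => nextd R (fun k => (L a).getD k 0) (n a) := by
  classical
  unfold nextd
  refine Primrec.list_findIdx (f := fun a => List.range (bnd R (fun k => (L a).getD k 0) (n a)))
    (p := fun a d => decide (ok R (fun k => (L a).getD k 0) (n a) d))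
    (Primrec.list_range.comp (pr_bnd hR hL hn)) ?_
  exact (pr_ok hR (hL.comp Primrec.fst) (hn.comp Primrec.fst) Primrec.snd).decide

theorem pr_Ls (hR : PrimrecRel R) : Primrec (Ls R) := by
  unfold Ls
  refine Primrec.nat_rec' (f := fun n : ℕ => n) (g := fun _ => ([] : List ℕ))
    (h := fun _ (p : ℕ × List ℕ) => p.2 ++ [nextd R (fun k => p.2.getD k 0) p.1])
    Primrec.id (Primrec.const []) ?_
  refine Primrec.list_append.comp (Primrec.snd.comp Primrec.snd)
    (Primrec.list_cons.comp ?_ (Primrec.const []))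
  exact pr_nextd hR (Primrec.snd.comp Primrec.snd) (Primrec.fst.comp Primrec.snd)

theorem pr_dl (hR : PrimrecRel R) : Primrec (dl R) := by
  unfold dl
  exact (Primrec.list_getD 0).comp ((pr_Ls hR).comp Primrec.succ) Primrec.id

end prim

variable {R : List Bool × List Bool → ℕ → Prop}

theorem uf_succ (δ : ℕ → ℕ) (c : ℕ) (x : List Bool) (n : ℕ) :
    uf R δ c x (n + 1) = vf R δ c x n - δ n := rfl

theorem uf_congr {δ δ' : ℕ → ℕ} {n : ℕ} (h : ∀ k < n, δ k = δ' k) (c : ℕ) (x : List Bool) :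
    uf R δ c x n = uf R δ' c x n := by
  induction n with
  | zero => rfl
  | succ n ih =>
    rw [uf_succ, uf_succ]
    unfold vf
    rw [ih fun k hk => h k (by omega), h n (by omega)]

theorem Ls_succ (n : ℕ) : Ls R (n + 1) = Ls R n ++ [nextd R (fun k => (Ls R n).getD k 0) n] := rfl

theorem length_Ls (n : ℕ) : (Ls R n).length = n := by
  induction n with
  | zero => rfl
  | succ n ih => rw [Ls_succ, List.length_append, ih]; rfl

theorem getD_Ls {n k : ℕ} (h : k < n) : (Ls R n).getD k 0 = dl R k := by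
  induction n with
  | zero => omega
  | succ n ih =>
    rcases Nat.lt_succ_iff_lt_or_eq.1 h with h1 | h1
    · rw [Ls_succ, List.getD_append _ _ _ _ (by rw [length_Ls]; exact h1)]
      exact ih h1
    · subst h1; rfl

theorem vf_Ls (n c : ℕ) (x : List Bool) :
    vf R (fun k => (Ls R n).getD k 0) c x n = vf R (dl R) c x n := by
  unfold vf
  rw [uf_congr (δ' := dl R) fun k hk => getD_Ls hk]

theorem nextd_congr {δ δ' : ℕ → ℕ} {n : ℕ} (h : ∀ c x, vf R δ c x n = vf R δ' c x n) :
    nextd R δ n = nextd R δ' n := by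
  have hok : ∀ d, ok R δ n d ↔ ok R δ' n d := by
    intro d
    unfold ok
    simp only [h]
  have hb : bnd R δ n = bnd R δ' n := by
    unfold bnd
    simp only [h]
  unfold nextd
  rw [hb]
  congr 1
  funext d
  exact decide_eq_decide.2 (hok d)

theorem dl_eq (n : ℕ) : dl R n = nextd R (dl R) n := by
  have h1 : dl R n = nextd R (fun k => (Ls R n).getD k 0) n := by
    unfold dl
    rw [Ls_succ, List.getD_append_right _ _ _ _ (by rw [length_Ls]), length_Ls]
    simp
  rw [h1]
  exact nextd_congr fun c x => vf_Ls n c x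

theorem vf_lt_bnd (δ : ℕ → ℕ) {n c : ℕ} (hc : c < n + 2) {x : List Bool}
    (hx : x ∈ strs (n + 1)) : vf R δ c x n ≤ bnd R δ n - 1 := by
  have h1 : vf R δ c x n ≤ ((strs (n + 1)).map fun x => vf R δ c x n).sum :=
    List.le_sum_of_mem (List.mem_map.2 ⟨x, hx, rfl⟩)
  have h2 : ((strs (n + 1)).map fun x => vf R δ c x n).sum ≤ ((List.range (n + 2)).map fun c =>
      ((strs (n + 1)).map fun x => vf R δ c x n).sum).sum :=
    List.le_sum_of_mem (List.mem_map.2 ⟨c, List.mem_range.2 hc, rfl⟩)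
  unfold bnd
  rw [Nat.add_sub_cancel]
  exact (h1.trans h2).trans (Nat.le_add_left _ _)

theorem nextd_ok (δ : ℕ → ℕ) (n : ℕ) : ok R δ n (nextd R δ n) := by
  classical
  have h0 : 0 < bnd R δ n := Nat.succ_pos _
  have h1 : ok R δ n (bnd R δ n - 1) := by
    refine ⟨by unfold bnd; rw [Nat.add_sub_cancel]; exact Nat.le_add_right _ _,
      fun c hc => Or.inr ?_⟩
    have h2 : ((strs (n + 1)).map (fun x => if bnd R δ n - 1 < vf R δ c x n then 1 else 0)).sum
        = 0 := by
      refine List.sum_eq_zero fun a ha => ?_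
      obtain ⟨x, hx, rfl⟩ := List.mem_map.1 ha
      rw [if_neg]
      have := vf_lt_bnd (R := R) δ hc hx
      omega
    rw [h2]; simp
  have h2 : (List.range (bnd R δ n)).findIdx (fun d => decide (ok R δ n d))
      < (List.range (bnd R δ n)).length := by
    refine List.findIdx_lt_length_of_exists ⟨bnd R δ n - 1, ?_, by simpa using h1⟩
    rw [List.mem_range]; omega
  have h3 := List.findIdx_getElem (w := h2)
  rw [List.getElem_range] at h3
  unfold nextd
  exact of_decide_eq_true h3

theorem nextd_min (δ : ℕ → ℕ) {n d : ℕ} (h : d < nextd R δ n) : ¬ ok R δ n d := by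
  classical
  have h1 := List.not_of_lt_findIdx (p := fun d => decide (ok R δ n d))
    (xs := List.range (bnd R δ n)) (i := d) h
  rw [List.getElem_range] at h1
  simpa using h1

theorem dl_ge (n : ℕ) : 16 ^ (n + 1) ≤ dl R n := by
  rw [dl_eq]
  exact (nextd_ok (dl R) n).1

theorem uf_zero (δ : ℕ → ℕ) {c n : ℕ} (h : n < c) (x : List Bool) : uf R δ c x n = 0 := by
  induction n with
  | zero => rfl
  | succ n ih =>
    rw [uf_succ]
    unfold vf
    rw [ih (by omega), if_neg (by omega)]
    simp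

theorem uf_take (δ : ℕ → ℕ) {c n m : ℕ} (h : n ≤ m) (x : List Bool) :
    uf R δ c (x.take m) n = uf R δ c x n := by
  induction n with
  | zero => rfl
  | succ n ih =>
    rw [uf_succ, uf_succ]
    unfold vf
    rw [ih (by omega), List.take_take, List.take_take, min_eq_left h,
      min_eq_left (by omega : n ≤ m)]

/-- the count condition -/
theorem count_uf {c : ℕ} (hc : 1 ≤ c) (N : ℕ) :
    4 ^ c * ((FS N).filter fun x => 0 < uf R (dl R) c x N).card ≤ 2 ^ N := by
  cases N with
  | zero =>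
    have : (FS 0).filter (fun x => 0 < uf R (dl R) c x 0) = ∅ := by
      rw [Finset.filter_eq_empty_iff]
      intro x _
      simp [uf]
    rw [this]; simp
  | succ n =>
    by_cases h : c < n + 2
    · have h1 := (nextd_ok (R := R) (dl R) n).2 c h
      rw [← dl_eq] at h1
      rcases h1 with h1 | h1
      · exact absurd hc h1
      · rw [← sum_FS, ← Finset.card_filter] at h1
        refine le_trans (le_of_eq ?_) h1
        congr 3
        ext x
        rw [uf_succ]
        exact Nat.sub_pos_iff_lt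
    · have : (FS (n + 1)).filter (fun x => 0 < uf R (dl R) c x (n + 1)) = ∅ := by
        rw [Finset.filter_eq_empty_iff]
        intro x _
        rw [uf_zero _ (by omega)]
        simp
      rw [this]; simp

/-- sum of the leftovers -/
noncomputable def Uc (R : List Bool × List Bool → ℕ → Prop) (c n : ℕ) : ℕ :=
  ∑ x ∈ FS n, uf R (dl R) c x n

/-- the potential -/
noncomputable def G (R : List Bool × List Bool → ℕ → Prop) (n : ℕ) : ℕ :=
  ∑ c ∈ Finset.Ico 1 (n + 1), 4 ^ c * Uc R c n

/-- the sum of the increments, in units of `32^-n` -/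
noncomputable def AA (R : List Bool × List Bool → ℕ → Prop) (n : ℕ) : ℕ :=
  Nat.rec 0 (fun n a => 32 * a + dl R n) n

theorem AA_succ (n : ℕ) : AA R (n + 1) = 32 * AA R n + dl R n := rfl

/-- total of the scaled sums -/
noncomputable def BB (R : List Bool × List Bool → ℕ → Prop) (n : ℕ) : ℕ := ∑ x ∈ FS n, bb R x

theorem sum_vf (hmono : ∀ a m n, m ≤ n → R a m → R a n) {c n : ℕ} (hc : c ≤ n + 1) {D : ℕ}
    (hD : BB R (n + 1) = 4 * BB R n + D) :
    ∑ x ∈ FS (n + 1), vf R (dl R) c x n = 64 * Uc R c n + 16 ^ (n + 1 - c) * D := by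
  unfold vf
  rw [Finset.sum_add_distrib, ← Finset.mul_sum]
  simp only [if_pos hc]
  rw [← Finset.mul_sum]
  have h1 : ∑ x ∈ FS (n + 1), uf R (dl R) c x n = 2 * Uc R c n := by
    have h2 := sum_take (T := n) (N := n + 1) (by omega) (fun x => uf R (dl R) c x n)
    rw [Nat.add_sub_cancel_left, pow_one] at h2
    rw [← Uc] at h2
    rw [← h2]
    exact Finset.sum_congr rfl fun x _ => (uf_take _ le_rfl x).symm
  have h2 : ∑ x ∈ FS (n + 1), (bb R (x.take (n + 1)) - 2 * bb R (x.take n)) = D := by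
    have h3 : ∑ x ∈ FS (n + 1), (bb R (x.take (n + 1)) - 2 * bb R (x.take n))
        + ∑ x ∈ FS (n + 1), 2 * bb R (x.take n) = BB R (n + 1) := by
      rw [← Finset.sum_add_distrib]
      unfold BB
      refine Finset.sum_congr rfl fun x hx => ?_
      have hx' := mem_FS.1 hx
      have h4 := bb_succ (R := R) hmono (n := n) (x := x) (by omega)
      rw [List.take_of_length_le (by omega : x.length ≤ n + 1)] at h4 ⊢
      omega
    have h4 := sum_take (T := n) (N := n + 1) (by omega) (fun x => bb R x)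
    rw [Nat.add_sub_cancel_left, pow_one] at h4
    rw [← Finset.mul_sum, h4] at h3
    unfold BB at h3 hD
    omega
  rw [h1, h2]
  ring

theorem sub_aux {ι : Type*} (s : Finset ι) (v : ι → ℕ) (d : ℕ) :
    ∑ x ∈ s, (v x - d) + d * (s.filter fun x => d ≤ v x).card ≤ ∑ x ∈ s, v x := by
  classical
  rw [Finset.card_filter, Finset.mul_sum, ← Finset.sum_add_distrib]
  refine Finset.sum_le_sum fun x _ => ?_
  split_ifs with h
  · omega
  · omega

theorem geom4 (n : ℕ) : ∑ c ∈ Finset.Ico 1 (n + 1), 4 ^ c * 16 ^ (n - c) ≤ 16 ^ n := by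
  have h : 3 * ∑ c ∈ Finset.Ico 1 (n + 1), 4 ^ c * 16 ^ (n - c) + 4 ^ n = 16 ^ n := by
    induction n with
    | zero => simp
    | succ n ih =>
      rw [Finset.sum_Ico_succ_top (by omega : 1 ≤ n + 1), Nat.sub_self, pow_zero, mul_one]
      have e1 : ∑ c ∈ Finset.Ico 1 (n + 1), 4 ^ c * 16 ^ (n + 1 - c)
          = 16 * ∑ c ∈ Finset.Ico 1 (n + 1), 4 ^ c * 16 ^ (n - c) := by
        rw [Finset.mul_sum]
        refine Finset.sum_congr rfl fun c hc => ?_
        rw [Finset.mem_Ico] at hc
        have : n + 1 - c = (n - c) + 1 := by omega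
        rw [this, pow_succ]; ring
      rw [e1, pow_succ 16, ← ih, pow_succ]
      ring
  have h2 : ∀ a b c : ℕ, 3 * a + b = c → a ≤ c := by intro a b c h; omega
  exact h2 _ _ _ h

theorem G_step (hmono : ∀ a m n, m ≤ n → R a m → R a n) {n D : ℕ}
    (hD : BB R (n + 1) = 4 * BB R n + D) :
    G R (n + 1) + 2 ^ (n + 1) * dl R n ≤ 64 * G R n + 16 ^ (n + 1) * D + 32 ^ (n + 1) := by
  classical
  have hS : ∑ c ∈ Finset.Ico 1 (n + 2), 4 ^ c * ∑ x ∈ FS (n + 1), vf R (dl R) c x n
      ≤ 64 * G R n + 16 ^ (n + 1) * D := by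
    have e1 : ∑ c ∈ Finset.Ico 1 (n + 2), 4 ^ c * ∑ x ∈ FS (n + 1), vf R (dl R) c x n
        = 64 * ∑ c ∈ Finset.Ico 1 (n + 2), 4 ^ c * Uc R c n
          + (∑ c ∈ Finset.Ico 1 (n + 2), 4 ^ c * 16 ^ (n + 1 - c)) * D := by
      rw [Finset.mul_sum, Finset.sum_mul, ← Finset.sum_add_distrib]
      refine Finset.sum_congr rfl fun c hc => ?_
      rw [Finset.mem_Ico] at hc
      rw [sum_vf hmono (by omega) hD]
      ring
    have e2 : ∑ c ∈ Finset.Ico 1 (n + 2), 4 ^ c * Uc R c n = G R n := by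
      rw [Finset.sum_Ico_succ_top (by omega : 1 ≤ n + 1)]
      have : Uc R (n + 1) n = 0 := by
        unfold Uc
        exact Finset.sum_eq_zero fun x _ => uf_zero _ (by omega) x
      rw [this]; simp [G]
    rw [e1, e2]
    exact Nat.add_le_add_left (Nat.mul_le_mul_right _ (geom4 (n + 1))) _
  have hG : G R (n + 1) = ∑ c ∈ Finset.Ico 1 (n + 2), 4 ^ c *
      ∑ x ∈ FS (n + 1), (vf R (dl R) c x n - dl R n) := rfl
  have hmain : G R (n + 1) + 2 ^ (n + 1) * dl R n ≤
      ∑ c ∈ Finset.Ico 1 (n + 2), 4 ^ c * ∑ x ∈ FS (n + 1), vf R (dl R) c x n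
        + 32 ^ (n + 1) := by
    rcases Nat.eq_or_lt_of_le (dl_ge (R := R) n) with h | h
    · have h1 : G R (n + 1) ≤ ∑ c ∈ Finset.Ico 1 (n + 2), 4 ^ c *
          ∑ x ∈ FS (n + 1), vf R (dl R) c x n := by
        rw [hG]
        exact Finset.sum_le_sum fun c _ => Nat.mul_le_mul_left _
          (Finset.sum_le_sum fun x _ => Nat.sub_le _ _)
      have h2 : 2 ^ (n + 1) * dl R n = 32 ^ (n + 1) := by
        rw [← h, ← mul_pow]; norm_num
      omega
    · have hp : 0 < 16 ^ n := by positivity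
      have hp2 : 0 < 32 ^ n := by positivity
      have h1 := nextd_min (R := R) (dl R) (n := n) (d := dl R n - 1) (by rw [← dl_eq]; omega)
      unfold ok at h1
      push Not at h1
      obtain ⟨c0, h2, h3, h4⟩ := h1 (by omega)
      rw [← sum_FS, ← Finset.card_filter] at h4
      have h5 : (FS (n + 1)).filter (fun x => dl R n - 1 < vf R (dl R) c0 x n)
          = (FS (n + 1)).filter (fun x => dl R n ≤ vf R (dl R) c0 x n) := by
        ext x
        simp only [Finset.mem_filter]
        refine and_congr_right fun _ => ?_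
        omega
      rw [h5] at h4
      have h6 := sub_aux (FS (n + 1)) (fun x => vf R (dl R) c0 x n) (dl R n)
      have h7 : 4 ^ c0 * ∑ x ∈ FS (n + 1), (vf R (dl R) c0 x n - dl R n) + 2 ^ (n + 1) * dl R n
          ≤ 4 ^ c0 * ∑ x ∈ FS (n + 1), vf R (dl R) c0 x n := by
        refine le_trans ?_ (Nat.mul_le_mul_left (4 ^ c0) h6)
        have h8 := Nat.mul_le_mul_right (dl R n) h4.le
        rw [mul_add]
        have e : 4 ^ c0 * (dl R n * ((FS (n + 1)).filter
            (fun x => dl R n ≤ vf R (dl R) c0 x n)).card)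
            = 4 ^ c0 * ((FS (n + 1)).filter
            (fun x => dl R n ≤ vf R (dl R) c0 x n)).card * dl R n := by ring
        rw [e]
        omega
      have hc0 : c0 ∈ Finset.Ico 1 (n + 2) := Finset.mem_Ico.2 ⟨h3, h2⟩
      rw [hG, ← Finset.add_sum_erase _
        (fun c => 4 ^ c * ∑ x ∈ FS (n + 1), (vf R (dl R) c x n - dl R n)) hc0,
        ← Finset.add_sum_erase _ (fun c => 4 ^ c * ∑ x ∈ FS (n + 1), vf R (dl R) c x n) hc0]
      have h9 : ∑ c ∈ (Finset.Ico 1 (n + 2)).erase c0, 4 ^ c *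
          ∑ x ∈ FS (n + 1), (vf R (dl R) c x n - dl R n) ≤
          ∑ c ∈ (Finset.Ico 1 (n + 2)).erase c0, 4 ^ c *
          ∑ x ∈ FS (n + 1), vf R (dl R) c x n :=
        Finset.sum_le_sum fun c _ => Nat.mul_le_mul_left _
          (Finset.sum_le_sum fun x _ => Nat.sub_le _ _)
      beta_reduce
      omega
  omega

theorem potential (hmono : ∀ a m n, m ≤ n → R a m → R a n) (n : ℕ) :
    G R n + 2 ^ n * AA R n + 32 ^ n ≤ 16 ^ n * BB R n + 64 ^ n := by
  induction n with
  | zero => simp [G, AA]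
  | succ n ih =>
    have h0 : 4 * BB R n ≤ BB R (n + 1) := by
      unfold BB
      have h4 := sum_take (T := n) (N := n + 1) (by omega) (fun x => bb R x)
      rw [Nat.add_sub_cancel_left, pow_one] at h4
      have h5 : ∑ x ∈ FS (n + 1), 2 * bb R (x.take n) ≤ ∑ x ∈ FS (n + 1), bb R x := by
        refine Finset.sum_le_sum fun x hx => ?_
        have hx' := mem_FS.1 hx
        have h6 := bb_succ (R := R) hmono (n := n) (x := x) (by omega)
        rwa [List.take_of_length_le (by omega : x.length ≤ n + 1)] at h6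
      rw [← Finset.mul_sum, h4] at h5
      omega
    obtain ⟨D, hD⟩ := Nat.exists_eq_add_of_le h0
    have h1 := G_step hmono hD
    rw [AA_succ, hD]
    have e1 : 2 ^ (n + 1) * (32 * AA R n + dl R n)
        = 64 * (2 ^ n * AA R n) + 2 ^ (n + 1) * dl R n := by rw [pow_succ]; ring
    have e2 : 16 ^ (n + 1) * (4 * BB R n + D) = 64 * (16 ^ n * BB R n) + 16 ^ (n + 1) * D := by
      rw [pow_succ]; ring
    have e3 : (64 : ℕ) ^ (n + 1) = 64 * 64 ^ n := by rw [pow_succ]; ring
    have e4 : (32 : ℕ) ^ (n + 1) = 32 * 32 ^ n := by rw [pow_succ]; ring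
    rw [e1, e2, e3, e4]
    rw [e4] at h1
    omega

theorem AA_le (hmono : ∀ a m n, m ≤ n → R a m → R a n) (hB : ∀ n, BB R n ≤ 4 ^ n) (n : ℕ) :
    AA R n ≤ 2 * 32 ^ n := by
  have h1 := potential hmono n
  have h2 := Nat.mul_le_mul_left (16 ^ n) (hB n)
  have e1 : (16 : ℕ) ^ n * 4 ^ n = 64 ^ n := by rw [← mul_pow]; norm_num
  have e2 : (64 : ℕ) ^ n = 2 ^ n * 32 ^ n := by rw [← mul_pow]; norm_num
  have h3 : 2 ^ n * AA R n ≤ 2 ^ n * (2 * 32 ^ n) := by
    have h4 := Nat.zero_le (G R n)
    have h5 := Nat.zero_le (32 ^ n)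
    linarith
  exact Nat.le_of_mul_le_mul_left h3 (by positivity)

end Pool.Agent.V11169.MC
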