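import Mathlib
import Pool.Agent.V11169.MC2

set_option autoImplicit false

namespace Pool.Agent.V11169.MC

open Encodable Pool.Agent.H561R3 Pool.Agent.Helper227 Pool.Agent.V11169.KR

variable {R : List Bool × List Bool → ℕ → Prop}

theorem pr_uf' (hR : PrimrecRel R) {α : Type*} [Primcodable α] {c : α → ℕ} {x : α → List Bool}
    {n : α → ℕ} (hc : Primrec c) (hx : Primrec x) (hn : Primrec n) :
    Primrec fun a => uf R (dl R) (c a) (x a) (n a) :=
  (pr_uf hR ((pr_Ls hR).comp hn) hc hx hn).of_eq fun a =>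
    uf_congr (fun _ hk => getD_Ls hk) (c a) (x a)

/-- the caught strings of length `N`, listed -/
noncomputable def UL (R : List Bool × List Bool → ℕ → Prop) (c N : ℕ) : List (List Bool) :=
  (strs N).filterMap (fun x => if 0 < uf R (dl R) c x N then some x else none)

theorem pr_UL (hR : PrimrecRel R) {α : Type*} [Primcodable α] {c N : α → ℕ}
    (hc : Primrec c) (hN : Primrec N) : Primrec fun a => UL R (c a) (N a) := by
  unfold UL
  refine Primrec.listFilterMap (f := fun a => strs (N a)) (pr_strs.comp hN) ?_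
  refine Primrec.ite ?_ (Primrec.option_some.comp Primrec.snd) (Primrec.const none)
  exact Primrec.nat_lt.comp (Primrec.const 0)
    (pr_uf' hR (hc.comp Primrec.fst) Primrec.snd (hN.comp Primrec.fst))

theorem mem_UL {c N : ℕ} {x : List Bool} :
    x ∈ UL R c N ↔ x.length = N ∧ 0 < uf R (dl R) c x N := by
  unfold UL
  rw [List.mem_filterMap]
  constructor
  · rintro ⟨y, h1, h2⟩
    by_cases h3 : 0 < uf R (dl R) c y N
    · rw [if_pos h3] at h2
      simp only [Option.some.injEq] at h2
      subst h2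
      exact ⟨mem_strs.1 h1, h3⟩
    · rw [if_neg h3] at h2
      simp at h2
  · rintro ⟨h1, h2⟩
    exact ⟨x, mem_strs.2 h1, by rw [if_pos h2]⟩

theorem length_UL {c : ℕ} (hc : 1 ≤ c) (N : ℕ) : 4 ^ c * (UL R c N).length ≤ 2 ^ N := by
  classical
  refine le_trans (le_of_eq ?_) (count_uf (R := R) hc N)
  congr 1
  have h1 : UL R c N = (strs N).filter (fun x => decide (0 < uf R (dl R) c x N)) := by
    unfold UL
    rw [← List.filterMap_eq_filter]
    congr 1
    funext x
    simp only [Option.guard, decide_eq_true_eq]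
  rw [h1]
  have h2 : ((strs N).filter (fun x => decide (0 < uf R (dl R) c x N))).Nodup :=
    (nodup_strs N).filter _
  rw [← List.toFinset_card_of_nodup h2]
  congr 1
  ext x
  simp [mem_FS, mem_strs]

/-- the machine -/
noncomputable def Mu (R : List Bool × List Bool → ℕ → Prop) (p : List Bool) :
    Option (List Bool) :=
  (UL R (p.idxOf false) ((p.drop (p.idxOf false + 1)).length + 2 * p.idxOf false))[
    ix (p.drop (p.idxOf false + 1)) (strs (p.drop (p.idxOf false + 1)).length)]?

theorem pr_Mu (hR : PrimrecRel R) : Primrec (Mu R) := by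
  have j' : Primrec fun p : List Bool => p.idxOf false :=
    Primrec.list_idxOf.comp (Primrec.const false) Primrec.id
  have y' : Primrec fun p : List Bool => p.drop (p.idxOf false + 1) :=
    Primrec.list_drop.comp (Primrec.succ.comp j') Primrec.id
  have ly := Primrec.list_length.comp y'
  unfold Mu
  refine Primrec.list_getElem?.comp (pr_UL hR j' ?_) ?_
  · exact Primrec.nat_add.comp ly (Primrec.nat_mul.comp (Primrec.const 2) j')
  · exact Primrec.list_idxOf.comp y' (pr_strs.comp ly)

theorem Mu_spec {c : ℕ} {x : List Bool} (hc : 1 ≤ c) (h : 0 < uf R (dl R) c x x.length) :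
    ∃ p : List Bool, Mu R p = some x ∧ p.length + c = x.length + 1 := by
  set N := x.length with hx
  have h1 : x ∈ UL R c N := mem_UL.2 ⟨hx.symm, h⟩
  obtain ⟨k, hk, hkx⟩ := List.getElem_of_mem h1
  have h2 := length_UL (R := R) hc N
  have e1 : (4 : ℕ) ^ c = 2 ^ (2 * c) := by rw [pow_mul]; norm_num
  rw [e1] at h2
  have hcN : 2 * c ≤ N := by
    have h3 : 2 ^ (2 * c) ≤ 2 ^ N := by
      refine le_trans ?_ h2
      exact Nat.le_mul_of_pos_right _ (by omega)
    exact (Nat.pow_le_pow_iff_right (by norm_num)).1 h3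
  set l := N - 2 * c with hl
  have h3 : (UL R c N).length ≤ 2 ^ l := by
    have h4 : 2 ^ (2 * c) * (UL R c N).length ≤ 2 ^ (2 * c) * 2 ^ l := by
      refine h2.trans (le_of_eq ?_)
      rw [← pow_add]
      congr 1
      omega
    exact Nat.le_of_mul_le_mul_left h4 (by positivity)
  have hlen : (strs l).length = 2 ^ l := by
    have := card_FS l
    unfold FS at this
    rwa [List.toFinset_card_of_nodup (nodup_strs l)] at this
  have hk2 : k < (strs l).length := by rw [hlen]; omega
  set y := (strs l)[k] with hy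
  have hyl : y.length = l := mem_strs.1 (List.getElem_mem hk2)
  have hyi : ix y (strs l) = k := by
    unfold ix
    exact @List.Nodup.idxOf_getElem _ instBEqOfDecidableEq _ (strs l) (nodup_strs l) k hk2
  refine ⟨List.replicate c true ++ false :: y, ?_, ?_⟩
  · unfold Mu
    rw [idxOf_rep, drop_rep, hyl, hyi]
    have : l + 2 * c = N := by omega
    rw [this, List.getElem?_eq_getElem hk, hkx]
  · simp only [List.length_append, List.length_replicate, List.length_cons, hyl]
    omega

theorem short_u (hR : PrimrecRel R) {U : List Bool →. List Bool} (hU : Opt U) :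
    ∃ cU, ∀ c, 1 ≤ c → ∀ x : List Bool, 0 < uf R (dl R) c x x.length →
      cx U x + c ≤ x.length + cU := by
  have h1 : Partrec fun p : List Bool => (Mu R p : Part (List Bool)) :=
    Computable.ofOption (pr_Mu hR).to_comp
  obtain ⟨c1, hc1⟩ := hU _ h1
  refine ⟨c1 + 1, fun c hc x h => ?_⟩
  obtain ⟨p, hp1, hp2⟩ := Mu_spec hc h
  obtain ⟨q, hq1, hq2⟩ := hc1 p x (by rw [hp1]; simp)
  have := cx_le hq1
  omega

/-- the sum along `x`, normalised -/
noncomputable def be (R : List Bool × List Bool → ℕ → Prop) (x : List Bool) (n : ℕ) : ℝ :=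
  (bb R (x.take n) : ℝ) / 2 ^ n

/-- the sum of the increments, normalised -/
noncomputable def al (R : List Bool × List Bool → ℕ → Prop) (n : ℕ) : ℝ := (AA R n : ℝ) / 32 ^ n

/-- the increments, normalised -/
noncomputable def de (R : List Bool × List Bool → ℕ → Prop) (n : ℕ) : ℝ :=
  (dl R n : ℝ) / 32 ^ (n + 1)

theorem al_succ (n : ℕ) : al R (n + 1) = al R n + de R n := by
  unfold al de
  rw [AA_succ, pow_succ]
  push_cast
  field_simp

theorem de_ge (n : ℕ) : (1 / 2 : ℝ) ^ (n + 1) ≤ de R n := by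
  unfold de
  rw [le_div_iff₀ (by positivity), ← mul_pow]
  have h1 := dl_ge (R := R) n
  have h2 : ((16 ^ (n + 1) : ℕ) : ℝ) ≤ (dl R n : ℝ) := by exact_mod_cast h1
  push_cast at h2
  refine le_trans (le_of_eq ?_) h2
  norm_num

theorem de_pos (n : ℕ) : 0 < de R n := lt_of_lt_of_le (by positivity) (de_ge n)

theorem al_mono : StrictMono (al R) :=
  strictMono_nat_of_lt_succ fun n => by rw [al_succ]; linarith [de_pos (R := R) n]

theorem al_le (hmono : ∀ a m n, m ≤ n → R a m → R a n) (hB : ∀ n, BB R n ≤ 4 ^ n) (n : ℕ) :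
    al R n ≤ 2 := by
  unfold al
  rw [div_le_iff₀ (by positivity)]
  exact_mod_cast AA_le hmono hB n

theorem cast_sub_ge (a b : ℕ) : (a : ℝ) - b ≤ ((a - b : ℕ) : ℝ) := by
  have h1 : a ≤ (a - b) + b := by omega
  have h2 : (a : ℝ) ≤ ((a - b + b : ℕ) : ℝ) := by exact_mod_cast h1
  rw [Nat.cast_add] at h2
  linarith

theorem u_step (hmono : ∀ a m n, m ≤ n → R a m → R a n) (hbb : ∀ x, bb R x ≤ 4 ^ x.length)
    {c n : ℕ} {x : List Bool} (h : n + 1 ≤ x.length) :
    (uf R (dl R) c x n : ℝ) / 32 ^ n + (1 / 16) ^ c * (be R x (n + 1) - be R x n) - de R n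
      ≤ (uf R (dl R) c x (n + 1) : ℝ) / 32 ^ (n + 1) := by
  have hp : (0 : ℝ) < 32 ^ (n + 1) := by positivity
  by_cases hc : c ≤ n + 1
  · have h1 := bb_succ (R := R) hmono h
    have h2 : uf R (dl R) c x (n + 1) = (32 * uf R (dl R) c x n +
      16 ^ (n + 1 - c) * (bb R (x.take (n + 1)) - 2 * bb R (x.take n))) - dl R n := by
      rw [uf_succ]; unfold vf; rw [if_pos hc]
    have h3 : ((32 * uf R (dl R) c x n + 16 ^ (n + 1 - c) *
        (bb R (x.take (n + 1)) - 2 * bb R (x.take n)) : ℕ) : ℝ) - (dl R n : ℝ)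
        ≤ (uf R (dl R) c x (n + 1) : ℝ) := by
      rw [h2]
      exact cast_sub_ge _ _
    rw [Nat.cast_add, Nat.cast_mul, Nat.cast_mul, Nat.cast_sub h1] at h3
    push_cast at h3
    rw [le_div_iff₀ hp]
    refine le_trans (le_of_eq ?_) h3
    unfold be de
    have e1 : (32 : ℝ) ^ (n + 1) = 16 ^ (n + 1 - c) * 16 ^ c * 2 ^ (n + 1) := by
      rw [← pow_add, Nat.sub_add_cancel hc, ← mul_pow]; norm_num
    have e2 : (32 : ℝ) ^ (n + 1) = 32 * 32 ^ n := by rw [pow_succ]; ring
    have e3 : ((uf R (dl R) c x n : ℝ) / 32 ^ n + (1 / 16) ^ c *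
        ((bb R (x.take (n + 1)) : ℝ) / 2 ^ (n + 1) - (bb R (x.take n) : ℝ) / 2 ^ n)
        - (dl R n : ℝ) / 32 ^ (n + 1)) * 32 ^ (n + 1)
        = (uf R (dl R) c x n : ℝ) / 32 ^ n * 32 ^ (n + 1) + (1 / 16) ^ c *
        ((bb R (x.take (n + 1)) : ℝ) / 2 ^ (n + 1) - (bb R (x.take n) : ℝ) / 2 ^ n)
        * 32 ^ (n + 1) - (dl R n : ℝ) / 32 ^ (n + 1) * 32 ^ (n + 1) := by ring
    rw [e3, div_mul_cancel₀ _ hp.ne']
    congr 1
    congr 1
    · rw [e2]; field_simp
    · rw [e1, one_div, inv_pow, pow_succ 2]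
      field_simp
  · have h1 : uf R (dl R) c x n = 0 := uf_zero _ (by omega) x
    rw [h1]
    have h2 : be R x (n + 1) ≤ 2 ^ (n + 1) := by
      unfold be
      rw [div_le_iff₀ (by positivity), ← mul_pow]
      have h3 := hbb (x.take (n + 1))
      rw [List.length_take, min_eq_left h] at h3
      have h4 : ((bb R (x.take (n + 1)) : ℕ) : ℝ) ≤ ((4 ^ (n + 1) : ℕ) : ℝ) := by
        exact_mod_cast h3
      push_cast at h4
      refine h4.trans (le_of_eq ?_)
      norm_num
    have h3 : 0 ≤ be R x n := by unfold be; positivity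
    have h4 : (1 / 16 : ℝ) ^ c * (be R x (n + 1) - be R x n) ≤ (1 / 2) ^ (n + 1) := by
      have h5 : (1 / 16 : ℝ) ^ c ≤ (1 / 16) ^ (n + 1) :=
        pow_le_pow_of_le_one (by norm_num) (by norm_num) (by omega)
      have h6 : (0 : ℝ) ≤ (1 / 16) ^ c := by positivity
      calc (1 / 16 : ℝ) ^ c * (be R x (n + 1) - be R x n)
          ≤ (1 / 16) ^ c * 2 ^ (n + 1) := mul_le_mul_of_nonneg_left (by linarith) h6
        _ ≤ (1 / 16) ^ (n + 1) * 2 ^ (n + 1) := mul_le_mul_of_nonneg_right h5 (by positivity)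
        _ = (1 / 8) ^ (n + 1) := by rw [← mul_pow]; norm_num
        _ ≤ (1 / 2) ^ (n + 1) := pow_le_pow_left₀ (by norm_num) (by norm_num) _
    have h5 := de_ge (R := R) n
    have h6 : (0 : ℝ) ≤ (uf R (dl R) c x (n + 1) : ℝ) / 32 ^ (n + 1) := by positivity
    simp only [Nat.cast_zero, zero_div, zero_add]
    linarith

theorem u_lower (hmono : ∀ a m n, m ≤ n → R a m → R a n) (hbb : ∀ x, bb R x ≤ 4 ^ x.length)
    {c a N : ℕ} {x : List Bool} (ha : a ≤ N) (hN : N ≤ x.length) :
    (1 / 16) ^ c * (be R x N - be R x a) - (al R N - al R a)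
      ≤ (uf R (dl R) c x N : ℝ) / 32 ^ N := by
  induction N, ha using Nat.le_induction with
  | base => simp only [sub_self, mul_zero]; positivity
  | succ N ha ih =>
    have h1 := ih (by omega)
    have h2 := u_step (c := c) hmono hbb hN
    rw [al_succ]
    have e : (1 / 16 : ℝ) ^ c * (be R x (N + 1) - be R x a) =
        (1 / 16) ^ c * (be R x N - be R x a) + (1 / 16) ^ c * (be R x (N + 1) - be R x N) := by
      ring
    rw [e]
    linarith

theorem log_bound (hR : PrimrecRel R) (hmono : ∀ a m n, m ≤ n → R a m → R a n)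
    (hbb : ∀ x, bb R x ≤ 4 ^ x.length) {U : List Bool →. List Bool} (hU : Opt U) :
    ∃ D0 : ℝ, ∀ x : List Bool, ∀ a < x.length, 0 < be R x x.length - be R x a →
      Real.log (be R x x.length - be R x a) ≤
        Real.log 16 * ((x.length : ℝ) - cx U x) + D0 + Real.log (al R x.length - al R a) := by
  obtain ⟨c0, hc0⟩ := exists_c0 hU
  obtain ⟨cU, hcU⟩ := short_u hR hU
  refine ⟨Real.log 16 * (c0 + cU + 2), fun x a ha hpos => ?_⟩
  set N := x.length with hN
  have hA : 0 < al R N - al R a := sub_pos.2 (al_mono ha)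
  set ρ := (be R x N - be R x a) / (al R N - al R a) with hρ
  have hρ0 : 0 < ρ := div_pos hpos hA
  have h16 : 0 < Real.log 16 := Real.log_pos (by norm_num)
  have h0 : (cx U x : ℝ) ≤ N + c0 := by exact_mod_cast (hc0 x).2
  have hlog : Real.log (be R x N - be R x a) = Real.log ρ + Real.log (al R N - al R a) := by
    rw [hρ, Real.log_div hpos.ne' hA.ne']; ring
  rw [hlog]
  refine add_le_add_left ?_ _ |>.trans (le_refl _)
  have key : Real.log ρ ≤ Real.log 16 * ((N : ℝ) - cx U x + c0 + cU + 2) := by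
    by_cases h1 : ρ < 256
    · have h2 : Real.log ρ ≤ Real.log 16 * 2 := by
        have h3 : Real.log ρ ≤ Real.log (16 ^ 2) :=
          Real.log_le_log hρ0 (by norm_num; linarith)
        rw [Real.log_pow] at h3
        push_cast at h3
        linarith
      refine h2.trans (mul_le_mul_of_nonneg_left ?_ h16.le)
      have : (0 : ℝ) ≤ cU := by positivity
      linarith
    · push Not at h1
      obtain ⟨n, hn1, hn2⟩ := exists_nat_pow_near (x := ρ) (y := 16) (by linarith) (by norm_num)
      have hn : 2 ≤ n := by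
        by_contra hcon
        push Not at hcon
        have : (16 : ℝ) ^ (n + 1) ≤ 16 ^ 2 := pow_le_pow_right₀ (by norm_num) (by omega)
        norm_num at this
        linarith
      obtain ⟨c, rfl⟩ : ∃ c, n = c + 1 := ⟨n - 1, by omega⟩
      have h2 : (16 : ℝ) ^ c < ρ := lt_of_lt_of_le (pow_lt_pow_right₀ (by norm_num) (by omega)) hn1
      have h3 : 16 ^ c * (al R N - al R a) < be R x N - be R x a := by
        rw [hρ, lt_div_iff₀ hA] at h2
        exact h2
      have h4 := u_lower (c := c) hmono hbb ha.le (le_of_eq hN)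
      have h5 : 0 < (uf R (dl R) c x N : ℝ) / 32 ^ N := by
        refine lt_of_lt_of_le ?_ h4
        have h6 : (0 : ℝ) < (1 / 16) ^ c := by positivity
        have h7 := mul_lt_mul_of_pos_left h3 h6
        have h8 : (1 / 16 : ℝ) ^ c * (16 ^ c * (al R N - al R a)) = al R N - al R a := by
          rw [← mul_assoc, ← mul_pow]; norm_num
        rw [h8] at h7
        linarith
      have h6 : 0 < uf R (dl R) c x N := by
        by_contra hcon
        have : uf R (dl R) c x N = 0 := by omega
        rw [this] at h5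
        simp at h5
      have h7 := hcU c (by omega) x (by rw [← hN]; exact h6)
      have h8 : (c : ℝ) ≤ N - cx U x + cU := by
        have : ((cx U x + c : ℕ) : ℝ) ≤ ((x.length + cU : ℕ) : ℝ) := by exact_mod_cast h7
        push_cast at this
        rw [← hN] at this
        linarith
      have h9 : Real.log ρ ≤ Real.log (16 ^ (c + 1 + 1)) := Real.log_le_log hρ0 hn2.le
      rw [Real.log_pow] at h9
      push_cast at h9
      have h10 : (0 : ℝ) ≤ c0 := by positivity
      nlinarith
  linarith

end Pool.Agent.V11169.MC
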