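import Mathlib
import Pool.Agent.V11169.MC3
import Pool.Agent.Helper227.KC2

set_option autoImplicit false

namespace Pool.Agent.V11169.MC

open Encodable Pool.Agent.H561R3 Pool.Agent.Helper227 Pool.Agent.V11169.KR MeasureTheory

/-- the domain of `M` is prefix-free -/
def PF (M : List Bool →. List Bool) : Prop :=
  ∀ p q : List Bool, (M p).Dom → (M q).Dom → p <+: q → p = q

/-- optimality among the machines with prefix-free domain -/
def OptPF (V : List Bool →. List Bool) : Prop :=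
  ∀ M : List Bool →. List Bool, Partrec M → PF M → ∃ c : ℕ, ∀ p σ : List Bool, σ ∈ M p →
    ∃ q : List Bool, σ ∈ V q ∧ q.length ≤ p.length + c

theorem OptPF.exists_program {V : List Bool →. List Bool} (hV : OptPF V) (y : List Bool) :
    ∃ q, y ∈ V q := by
  let M : List Bool →. List Bool := fun τ => cond (decide (τ = [])) (Part.some y) Part.none
  have hM : Partrec M := by
    have h2 : PrimrecPred fun z : List Bool => z = [] :=
      Primrec.eq.comp Primrec.id (Primrec.const [])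
    exact Partrec.cond h2.decide.to_comp (Computable.const y).partrec Partrec.none
  have hM2 : PF M := by
    intro σ τ hσ hτ _
    have key : ∀ ρ : List Bool, (M ρ).Dom → ρ = [] := by
      intro ρ hρ
      by_contra hne
      simp only [M, decide_eq_false hne, cond_false] at hρ
      exact hρ.elim
    rw [key σ hσ, key τ hτ]
  obtain ⟨c, hc⟩ := hV M hM hM2
  obtain ⟨τ', h, _⟩ := hc [] y (by simp [M])
  exact ⟨τ', h⟩

variable {R : List Bool × List Bool → ℕ → Prop}

/-- the length of the request for `n + 1` -/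
noncomputable def lr (R : List Bool × List Bool → ℕ → Prop) (n : ℕ) : ℕ :=
  (List.range (5 * n + 8)).findIdx fun l => decide (2 * 32 ^ (n + 1) ≤ 2 ^ l * dl R n)

theorem pr_lr (hR : PrimrecRel R) : Primrec (lr R) := by
  unfold lr
  refine Primrec.list_findIdx (f := fun n : ℕ => List.range (5 * n + 8))
    (p := fun n l => decide (2 * 32 ^ (n + 1) ≤ 2 ^ l * dl R n)) ?_ ?_
  · exact Primrec.list_range.comp (Primrec.nat_add.comp (Primrec.nat_mul.comp (Primrec.const 5)
      Primrec.id) (Primrec.const 8))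
  · have h : PrimrecPred fun p : ℕ × ℕ => 2 * 32 ^ (p.1 + 1) ≤ 2 ^ p.2 * dl R p.1 :=
      Primrec.nat_le.comp (Primrec.nat_mul.comp (Primrec.const 2) (pr_pow.comp
        (Primrec.const 32) (Primrec.succ.comp Primrec.fst))) (Primrec.nat_mul.comp
        (pr_pow.comp (Primrec.const 2) Primrec.snd) ((pr_dl hR).comp Primrec.fst))
    exact h.decide

theorem lr_spec (n : ℕ) : 2 * 32 ^ (n + 1) ≤ 2 ^ lr R n * dl R n := by
  have h0 : 1 ≤ dl R n := le_trans Nat.one_le_two_pow
    ((Nat.pow_le_pow_left (by norm_num : 2 ≤ 16) (n + 1)).trans (dl_ge n))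
  have h1 : 2 * 32 ^ (n + 1) ≤ 2 ^ (5 * n + 6) * dl R n := by
    have e : 2 ^ (5 * n + 6) = 2 * 32 ^ (n + 1) := by
      have : (32 : ℕ) = 2 ^ 5 := by norm_num
      rw [this, ← pow_mul, ← pow_succ']
      congr 1
    rw [e]
    exact Nat.le_mul_of_pos_right _ h0
  have h2 : (List.range (5 * n + 8)).findIdx
      (fun l => decide (2 * 32 ^ (n + 1) ≤ 2 ^ l * dl R n)) < (List.range (5 * n + 8)).length := by
    refine List.findIdx_lt_length_of_exists ⟨5 * n + 6, ?_, decide_eq_true h1⟩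
    rw [List.mem_range]; omega
  have h3 := List.findIdx_getElem (w := h2)
  rw [List.getElem_range] at h3
  exact of_decide_eq_true h3

theorem half_lr_le (n : ℕ) : (1 / 2 : ℝ) ^ lr R n ≤ de R n / 2 := by
  have h1 := lr_spec (R := R) n
  have h2 : ((2 * 32 ^ (n + 1) : ℕ) : ℝ) ≤ ((2 ^ lr R n * dl R n : ℕ) : ℝ) := by exact_mod_cast h1
  push_cast at h2
  unfold de
  rw [one_div, inv_pow, div_div, le_div_iff₀ (by positivity), inv_mul_le_iff₀ (by positivity)]
  linarith

theorem lr_log (hmono : ∀ a m n, m ≤ n → R a m → R a n) (hB : ∀ n, BB R n ≤ 4 ^ n) (n : ℕ) :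
    (lr R n : ℝ) * Real.log 2 ≤ Real.log 4 - Real.log (de R n) := by
  have h1 : de R n ≤ 4 * (1 / 2 : ℝ) ^ lr R n := by
    rcases Nat.eq_zero_or_pos (lr R n) with h0 | h0
    · rw [h0]
      have h2 := al_le hmono hB (n + 1)
      have h3 : 0 ≤ al R n := by unfold al; positivity
      rw [al_succ] at h2
      norm_num
      linarith
    · obtain ⟨l, hl⟩ : ∃ l, lr R n = l + 1 := ⟨lr R n - 1, by omega⟩
      have h2 := List.not_of_lt_findIdx (p := fun l => decide (2 * 32 ^ (n + 1) ≤ 2 ^ l * dl R n))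
        (xs := List.range (5 * n + 8)) (i := l) (by unfold lr at hl; omega)
      rw [List.getElem_range] at h2
      have h3 : ¬ (2 * 32 ^ (n + 1) ≤ 2 ^ l * dl R n) := by simpa using h2
      push Not at h3
      have h4 : ((2 ^ l * dl R n : ℕ) : ℝ) ≤ ((2 * 32 ^ (n + 1) : ℕ) : ℝ) := by exact_mod_cast h3.le
      push_cast at h4
      rw [hl]
      unfold de
      rw [div_le_iff₀ (by positivity), one_div, inv_pow, pow_succ, mul_inv]
      have h5 : (0 : ℝ) < 2 ^ l := by positivity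
      have h6 : (dl R n : ℝ) ≤ (2 ^ l)⁻¹ * (2 * 32 ^ (n + 1)) := by
        rw [← div_eq_inv_mul, le_div_iff₀ h5]; linarith
      refine h6.trans (le_of_eq ?_)
      ring
  have h2 := Real.log_le_log (de_pos n) h1
  rw [Real.log_mul (by norm_num) (by positivity), Real.log_pow, one_div, Real.log_inv] at h2
  linarith

/-- the numbers `n + 1` have short descriptions -/
theorem K_le (hR : PrimrecRel R) (hmono : ∀ a m n, m ≤ n → R a m → R a n)
    (hB : ∀ n, BB R n ≤ 4 ^ n) {V : List Bool →. List Bool} (hV : OptPF V) {code : ℕ → List Bool}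
    (hcode : Computable code) : ∃ c : ℕ, ∀ n, cx V (code (n + 1)) ≤ lr R n + c := by
  let req : ℕ → Option (ℕ × List Bool) := fun i =>
    some (lr R i, (List.range (i + 1)).map fun _ => false)
  have hreq : Primrec req := by
    refine Primrec.option_some.comp ((pr_lr hR).pair ?_)
    exact Primrec.list_map (Primrec.list_range.comp Primrec.succ) (Primrec.const false)
  have hb : ∀ n, ∑ i ∈ Finset.range n, KC.wr req i ≤ 1 := by
    intro n
    have h1 : ∀ i, KC.wr req i = (1 / 2) ^ lr R i := fun i => by simp [KC.wr, req]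
    simp only [h1]
    have h2 : ∀ n, ∑ i ∈ Finset.range n, (1 / 2 : ℝ) ^ lr R i ≤ al R n / 2 := by
      intro n
      induction n with
      | zero => simp [al, AA]
      | succ n ih =>
        rw [Finset.sum_range_succ, al_succ]
        have := half_lr_le (R := R) n
        linarith
    have h3 := al_le hmono hB n
    linarith [h2 n]
  obtain ⟨M, hM1, hM2, hM3⟩ := KC.kraft_chaitin hreq hb
  have h1 : Partrec fun p : List Bool => (M p).map fun y => code y.length :=
    hM1.map (hcode.comp (Primrec.list_length.to_comp.comp Computable.snd))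
  obtain ⟨c, hc⟩ := hV _ h1 (fun p q h1 h2 => hM2 p q h1 h2)
  refine ⟨c, fun n => ?_⟩
  obtain ⟨τ, h2, h3⟩ := hM3 n (lr R n) _ rfl
  have h4 := Part.mem_map (fun y : List Bool => code y.length) h3
  simp only [List.length_map, List.length_range] at h4
  obtain ⟨q, h5, h6⟩ := hc τ _ h4
  have := cx_le h5
  omega

theorem jensen {ι : Type*} (I : Finset ι) (p y : ι → ℝ) (hp : ∀ i ∈ I, 0 < p i)
    (hs : ∑ i ∈ I, p i = 1) (hy : ∀ i ∈ I, 0 < y i) :
    ∑ i ∈ I, p i * (Real.log (y i) - Real.log (p i)) ≤ Real.log (∑ i ∈ I, y i) := by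
  have hne : I.Nonempty := by
    by_contra h
    rw [Finset.not_nonempty_iff_eq_empty] at h
    rw [h] at hs
    simp at hs
  set T := ∑ i ∈ I, y i with hT
  have hTpos : 0 < T := Finset.sum_pos hy hne
  have h1 : ∀ i ∈ I, p i * (Real.log (y i) - Real.log (p i) - Real.log T) ≤ y i / T - p i := by
    intro i hi
    have hpi := hp i hi
    have hyi := hy i hi
    have h2 : Real.log (y i / (p i * T)) ≤ y i / (p i * T) - 1 :=
      Real.log_le_sub_one_of_pos (by positivity)
    rw [Real.log_div hyi.ne' (by positivity), Real.log_mul hpi.ne' hTpos.ne'] at h2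
    have h3 := mul_le_mul_of_nonneg_left h2 hpi.le
    have h4 : p i * (y i / (p i * T) - 1) = y i / T - p i := by field_simp
    rw [h4] at h3
    refine le_trans (le_of_eq ?_) h3
    ring
  have h2 := Finset.sum_le_sum h1
  rw [Finset.sum_sub_distrib, ← Finset.sum_div, ← hT, div_self hTpos.ne', hs, sub_self] at h2
  have h3 : ∑ i ∈ I, p i * (Real.log (y i) - Real.log (p i) - Real.log T)
      = ∑ i ∈ I, p i * (Real.log (y i) - Real.log (p i)) - Real.log T := by
    have h4 : ∀ i ∈ I, p i * (Real.log (y i) - Real.log (p i) - Real.log T)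
        = p i * (Real.log (y i) - Real.log (p i)) - p i * Real.log T := fun i _ => by ring
    rw [Finset.sum_congr rfl h4, Finset.sum_sub_distrib, ← Finset.sum_mul, hs, one_mul]
  rw [h3] at h2
  linarith

theorem sum_de {a t : ℕ} (h : a ≤ t) : ∑ i ∈ Finset.Ico a t, de R i = al R t - al R a := by
  induction t, h using Nat.le_induction with
  | base => simp
  | succ t h ih => rw [Finset.sum_Ico_succ_top h, ih, al_succ]; ring

theorem exists_t (hmono : ∀ a m n, m ≤ n → R a m → R a n) (hB : ∀ n, BB R n ≤ 4 ^ n) (a : ℕ) :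
    ∃ t, a < t ∧ ∀ N, al R N - al R a ≤ 2 * (al R t - al R a) := by
  have hbdd : BddAbove (Set.range (al R)) := ⟨2, by rintro _ ⟨n, rfl⟩; exact al_le hmono hB n⟩
  set A := ⨆ n, al R n with hA
  have h1 : ∀ n, al R n ≤ A := fun n => le_ciSup hbdd n
  have h2 : al R a < A := lt_of_lt_of_le (al_mono (Nat.lt_succ_self a)) (h1 (a + 1))
  obtain ⟨t, ht⟩ := exists_lt_of_lt_ciSup (show (A + al R a) / 2 < ⨆ n, al R n by rw [← hA]; linarith)
  refine ⟨t, ?_, fun N => ?_⟩
  · by_contra hcon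
    push Not at hcon
    have := (al_mono (R := R)).monotone hcon
    linarith
  · have := h1 N
    linarith

/-- the sum of the weights on a block of lengths is at most the growth of `be` -/
theorem block_le (hmono : ∀ a m n, m ≤ n → R a m → R a n) {V : List Bool →. List Bool}
    {a t N : ℕ} (hat : a < t) (htN : t ≤ N) (Z : ℕ → Bool)
    (hmod : ∀ x ∈ AS t, cx V x ≤ N ∧ 2 ^ (N - cx V x) ≤ wt R N x) :
    ∑ i ∈ Finset.Ico a t, (2 : ℝ) ^ (i + 1) * (1 / 2) ^ cx V (pre Z (i + 1))
      ≤ be R (pre Z N) N - be R (pre Z N) a := by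
  have hlen := length_pre Z N
  have h1 := bb_grow (R := R) hmono (a := a) (x := pre Z N) (by omega)
  rw [hlen] at h1
  have h2 : ∑ k ∈ Finset.Ico (a + 1) (t + 1), 2 ^ k * wt R N ((pre Z N).take k)
      ≤ ∑ k ∈ Finset.Ico (a + 1) (N + 1), 2 ^ k * wt R N ((pre Z N).take k) :=
    Finset.sum_le_sum_of_subset (Finset.Ico_subset_Ico_right (by omega))
  rw [← Finset.sum_Ico_add' (fun k => 2 ^ k * wt R N ((pre Z N).take k)) a t 1] at h2
  have h3 : 2 ^ (N - a) * bb R ((pre Z N).take a) +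
      ∑ i ∈ Finset.Ico a t, 2 ^ (i + 1) * 2 ^ (N - cx V (pre Z (i + 1))) ≤ bb R (pre Z N) := by
    refine le_trans (Nat.add_le_add_left ((Finset.sum_le_sum fun i hi => ?_).trans h2) _) h1
    rw [Finset.mem_Ico] at hi
    rw [take_pre Z (by omega : i + 1 ≤ N)]
    exact Nat.mul_le_mul_left _ (hmod _ (mem_AS.2 (by rw [length_pre]; omega))).2
  have h4 : ((2 ^ (N - a) * bb R ((pre Z N).take a) +
      ∑ i ∈ Finset.Ico a t, 2 ^ (i + 1) * 2 ^ (N - cx V (pre Z (i + 1))) : ℕ) : ℝ)
      ≤ (bb R (pre Z N) : ℝ) := by exact_mod_cast h3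
  push_cast at h4
  unfold be
  rw [List.take_of_length_le (by omega : (pre Z N).length ≤ N)]
  have h5 : (0 : ℝ) < 2 ^ N := by positivity
  rw [le_sub_iff_add_le, le_div_iff₀ h5]
  refine le_trans (le_of_eq ?_) h4
  rw [add_mul, Finset.sum_mul, add_comm]
  congr 1
  · have : (2 : ℝ) ^ N = 2 ^ (N - a) * 2 ^ a := by rw [← pow_add]; congr 1; omega
    rw [this]
    field_simp
  · refine Finset.sum_congr rfl fun i hi => ?_
    rw [Finset.mem_Ico] at hi
    have h6 := (hmod (pre Z (i + 1)) (mem_AS.2 (by rw [length_pre]; omega))).1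
    have : (2 : ℝ) ^ N = 2 ^ (N - cx V (pre Z (i + 1))) * 2 ^ cx V (pre Z (i + 1)) := by
      rw [← pow_add]; congr 1; omega
    rw [this, one_div, inv_pow]
    field_simp

theorem int_affine (μ : Measure (ℕ → Bool)) [IsProbabilityMeasure μ] {f : (ℕ → Bool) → ℝ}
    (hf : Integrable f μ) (A B : ℝ) : ∫ Z, (A * f Z + B) ∂μ = A * ∫ Z, f Z ∂μ + B := by
  rw [integral_add (hf.const_mul A) (integrable_const B), integral_const_mul, integral_const]
  simp

theorem main_one {U V : List Bool →. List Bool} (hU : Opt U) (hVP : Partrec V) (hpf : PF V)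
    (hV : OptPF V) {code : ℕ → List Bool} (hcode : Computable code)
    (μ : Measure (ℕ → Bool)) [IsProbabilityMeasure μ]
    (h : ∃ d : ℝ, ∃ᶠ n : ℕ in Filter.atTop, (n : ℝ) - d ≤ ∫ Z, (cx U (pre Z n) : ℝ) ∂μ) :
    ∃ d : ℝ, ∃ᶠ n : ℕ in Filter.atTop,
      (n : ℝ) + cx V (code n) - d ≤ ∫ Z, (cx V (pre Z n) : ℝ) ∂μ := by
  obtain ⟨R, hR, hmono, hRV⟩ := s1_graph hVP
  have hRV' : ∀ q x, x ∈ V q ↔ ∃ s, R (q, x) s := fun q x => hRV (q, x)
  have hbb : ∀ x, bb R x ≤ 4 ^ x.length := bb_le hRV' hpf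
  have hB : ∀ n, BB R n ≤ 4 ^ n := sum_bb_le hRV' hpf
  obtain ⟨D0, hD0⟩ := log_bound hR hmono hbb hU
  obtain ⟨c1, hc1⟩ := K_le hR hmono hB hV hcode
  obtain ⟨d, hd⟩ := h
  have hl2 : 0 < Real.log 2 := Real.log_pos (by norm_num)
  have hl16 : 0 < Real.log 16 := Real.log_pos (by norm_num)
  set E := Real.log 16 * d + D0 + Real.log 2 with hE
  refine ⟨(E + Real.log 4) / Real.log 2 + c1, ?_⟩
  rw [Filter.frequently_atTop]
  intro a
  obtain ⟨t, hat, ht⟩ := exists_t hmono hB a
  have hmod : ∀ᶠ N in Filter.atTop, ∀ x ∈ AS t, cx V x ≤ N ∧ 2 ^ (N - cx V x) ≤ wt R N x := by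
    rw [Filter.eventually_all_finset]
    intro x _
    exact wt_eventually hmono hRV' (hV.exists_program x)
  obtain ⟨N, hN1, hN2, hN3⟩ := (hd.and_eventually
    (hmod.and (Filter.eventually_ge_atTop t))).exists
  have hlen : ∀ Z : ℕ → Bool, (pre Z N).length = N := fun Z => length_pre Z N
  have hP : 0 < al R t - al R a := sub_pos.2 (al_mono hat)
  let p : ℕ → ℝ := fun i => de R i / (al R t - al R a)
  have hp : ∀ i ∈ Finset.Ico a t, 0 < p i := fun i _ => div_pos (de_pos i) hP
  have hs : ∑ i ∈ Finset.Ico a t, p i = 1 := by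
    simp only [p]
    rw [← Finset.sum_div, sum_de hat.le, div_self hP.ne']
  have hpt : ∀ Z : ℕ → Bool, ∑ i ∈ Finset.Ico a t,
      p i * ((((i : ℝ) + 1) - cx V (pre Z (i + 1))) * Real.log 2 - Real.log (de R i)) ≤
      Real.log 16 * ((N : ℝ) - cx U (pre Z N)) + D0 + Real.log 2 := by
    intro Z
    have g1 := block_le (V := V) hmono hat hN3 Z hN2
    have g2 := jensen (Finset.Ico a t) p
      (fun i => (2 : ℝ) ^ (i + 1) * (1 / 2) ^ cx V (pre Z (i + 1))) hp hs
      (fun i _ => by positivity)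
    have hne : (Finset.Ico a t).Nonempty := ⟨a, Finset.mem_Ico.2 ⟨le_rfl, hat⟩⟩
    have g0 : 0 < ∑ i ∈ Finset.Ico a t, (2 : ℝ) ^ (i + 1) * (1 / 2) ^ cx V (pre Z (i + 1)) :=
      Finset.sum_pos (fun i _ => by positivity) hne
    have g3 := Real.log_le_log g0 g1
    have g4 := hD0 (pre Z N) a (by rw [hlen]; omega) (by rw [hlen]; exact lt_of_lt_of_le g0 g1)
    rw [hlen] at g4
    have g5 : Real.log (al R N - al R a) ≤ Real.log 2 + Real.log (al R t - al R a) := by
      rw [← Real.log_mul (by norm_num) hP.ne']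
      exact Real.log_le_log (sub_pos.2 (al_mono (by omega))) (ht N)
    have g6 : ∑ i ∈ Finset.Ico a t, p i * (Real.log ((2 : ℝ) ^ (i + 1) *
        (1 / 2) ^ cx V (pre Z (i + 1))) - Real.log (p i)) =
        ∑ i ∈ Finset.Ico a t, p i * ((((i : ℝ) + 1) - cx V (pre Z (i + 1))) * Real.log 2
          - Real.log (de R i)) + Real.log (al R t - al R a) := by
      have g7 : ∀ i ∈ Finset.Ico a t, p i * (Real.log ((2 : ℝ) ^ (i + 1) *
          (1 / 2) ^ cx V (pre Z (i + 1))) - Real.log (p i)) =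
          p i * ((((i : ℝ) + 1) - cx V (pre Z (i + 1))) * Real.log 2 - Real.log (de R i))
            + p i * Real.log (al R t - al R a) := by
        intro i hi
        rw [Real.log_mul (by positivity) (by positivity), Real.log_pow, Real.log_pow, one_div,
          Real.log_inv]
        simp only [p]
        rw [Real.log_div (de_pos i).ne' hP.ne']
        push_cast
        ring
      rw [Finset.sum_congr rfl g7, Finset.sum_add_distrib, ← Finset.sum_mul, hs, one_mul]
    rw [g6] at g2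
    linarith
  have i1 : ∀ i, Integrable (fun Z : ℕ → Bool => (cx V (pre Z (i + 1)) : ℝ)) μ := fun i =>
    integrable_pre μ (i + 1) (fun x => (cx V x : ℝ))
  have i2 : Integrable (fun Z : ℕ → Bool => (cx U (pre Z N) : ℝ)) μ :=
    integrable_pre μ N (fun x => (cx U x : ℝ))
  have i3 : ∀ i ∈ Finset.Ico a t, Integrable (fun Z : ℕ → Bool =>
      p i * ((((i : ℝ) + 1) - cx V (pre Z (i + 1))) * Real.log 2 - Real.log (de R i))) μ :=
    fun i _ => integrable_pre μ (i + 1)
      (fun x => p i * ((((i : ℝ) + 1) - cx V x) * Real.log 2 - Real.log (de R i)))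
  have i4 : Integrable (fun Z : ℕ → Bool =>
      Real.log 16 * ((N : ℝ) - cx U (pre Z N)) + D0 + Real.log 2) μ :=
    integrable_pre μ N (fun x => Real.log 16 * ((N : ℝ) - cx U x) + D0 + Real.log 2)
  have hint := integral_mono (integrable_finsetSum _ i3) i4 hpt
  rw [integral_finsetSum _ i3] at hint
  have e1 : ∀ i, ∫ Z, p i * ((((i : ℝ) + 1) - cx V (pre Z (i + 1))) * Real.log 2
      - Real.log (de R i)) ∂μ =
      p i * ((((i : ℝ) + 1) - ∫ Z, (cx V (pre Z (i + 1)) : ℝ) ∂μ) * Real.log 2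
        - Real.log (de R i)) := by
    intro i
    have e : ∀ Z : ℕ → Bool, p i * ((((i : ℝ) + 1) - cx V (pre Z (i + 1))) * Real.log 2
        - Real.log (de R i)) = (-(p i * Real.log 2)) * (cx V (pre Z (i + 1)) : ℝ) +
        p i * (((i : ℝ) + 1) * Real.log 2 - Real.log (de R i)) := fun Z => by ring
    simp only [e]
    rw [int_affine μ (i1 i)]
    ring
  have e2 : ∫ Z, (Real.log 16 * ((N : ℝ) - cx U (pre Z N)) + D0 + Real.log 2) ∂μ =
      Real.log 16 * ((N : ℝ) - ∫ Z, (cx U (pre Z N) : ℝ) ∂μ) + D0 + Real.log 2 := by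
    have e : ∀ Z : ℕ → Bool, Real.log 16 * ((N : ℝ) - cx U (pre Z N)) + D0 + Real.log 2 =
        (-Real.log 16) * (cx U (pre Z N) : ℝ) + (Real.log 16 * N + D0 + Real.log 2) :=
      fun Z => by ring
    simp only [e]
    rw [int_affine μ i2]
    ring
  simp only [e1] at hint
  rw [e2] at hint
  have hfin : ∑ i ∈ Finset.Ico a t, p i * ((((i : ℝ) + 1) -
      ∫ Z, (cx V (pre Z (i + 1)) : ℝ) ∂μ) * Real.log 2 - Real.log (de R i)) ≤
      ∑ i ∈ Finset.Ico a t, p i * E := by
    rw [← Finset.sum_mul, hs, one_mul, hE]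
    have := mul_le_mul_of_nonneg_left (show (N : ℝ) - ∫ Z, (cx U (pre Z N) : ℝ) ∂μ ≤ d by
      linarith) hl16.le
    linarith
  obtain ⟨i, hi, hi2⟩ := Finset.exists_le_of_sum_le
    ⟨a, Finset.mem_Ico.2 ⟨le_rfl, hat⟩⟩ hfin
  have hi3 := le_of_mul_le_mul_left hi2 (hp i hi)
  rw [Finset.mem_Ico] at hi
  refine ⟨i + 1, by omega, ?_⟩
  have hk : ((cx V (code (i + 1)) : ℝ) - c1) * Real.log 2 ≤ Real.log 4 - Real.log (de R i) := by
    refine le_trans (mul_le_mul_of_nonneg_right ?_ hl2.le) (lr_log hmono hB i)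
    have : ((cx V (code (i + 1)) : ℕ) : ℝ) ≤ ((lr R i + c1 : ℕ) : ℝ) := by exact_mod_cast hc1 i
    push_cast at this
    linarith
  have hfinal : ((i : ℝ) + 1 + cx V (code (i + 1)) - ∫ Z, (cx V (pre Z (i + 1)) : ℝ) ∂μ - c1)
      ≤ (E + Real.log 4) / Real.log 2 := by
    rw [le_div_iff₀ hl2]
    nlinarith
  push_cast
  linarith

end Pool.Agent.V11169.MC
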