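import Mathlib
import Pool.Agent.V11169.MC4

set_option autoImplicit false

namespace Pool.Agent.V11169.MC

open Encodable Pool.Agent.H561R3 Pool.Agent.Helper227 Pool.Agent.V11169.KR MeasureTheory

/-- the machine built from a family of short lists -/
def Mg (L : ℕ → ℕ → List (List Bool)) (p : List Bool) : Option (List Bool) :=
  (L (p.idxOf false) ((p.drop (p.idxOf false + 1)).length + 2 * p.idxOf false))[
    ix (p.drop (p.idxOf false + 1)) (strs (p.drop (p.idxOf false + 1)).length)]?

theorem short_g {L : ℕ → ℕ → List (List Bool)} (hL : Primrec₂ L)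
    (hcount : ∀ c N, 1 ≤ c → 4 ^ c * (L c N).length ≤ 2 ^ N) {U : List Bool →. List Bool}
    (hU : Opt U) : ∃ cU, ∀ c N x, 1 ≤ c → x ∈ L c N → cx U x + c ≤ N + cU := by
  have hpr : Primrec (Mg L) := by
    have j' : Primrec fun p : List Bool => p.idxOf false :=
      Primrec.list_idxOf.comp (Primrec.const false) Primrec.id
    have y' : Primrec fun p : List Bool => p.drop (p.idxOf false + 1) :=
      Primrec.list_drop.comp (Primrec.succ.comp j') Primrec.id
    have ly := Primrec.list_length.comp y'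
    unfold Mg
    refine Primrec.list_getElem?.comp (hL.comp j' ?_) ?_
    · exact Primrec.nat_add.comp ly (Primrec.nat_mul.comp (Primrec.const 2) j')
    · exact Primrec.list_idxOf.comp y' (pr_strs.comp ly)
  have hspec : ∀ c N x, 1 ≤ c → x ∈ L c N →
      ∃ p : List Bool, Mg L p = some x ∧ p.length + c = N + 1 := by
    intro c N x hc h1
    obtain ⟨k, hk, hkx⟩ := List.getElem_of_mem h1
    have h2 := hcount c N hc
    have e1 : (4 : ℕ) ^ c = 2 ^ (2 * c) := by rw [pow_mul]; norm_num
    rw [e1] at h2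
    have hcN : 2 * c ≤ N := by
      have h3 : 2 ^ (2 * c) ≤ 2 ^ N := by
        refine le_trans ?_ h2
        exact Nat.le_mul_of_pos_right _ (by omega)
      exact (Nat.pow_le_pow_iff_right (by norm_num)).1 h3
    set l := N - 2 * c with hl
    have h3 : (L c N).length ≤ 2 ^ l := by
      have h4 : 2 ^ (2 * c) * (L c N).length ≤ 2 ^ (2 * c) * 2 ^ l := by
        refine h2.trans (le_of_eq ?_)
        rw [← pow_add]
        congr 1
        omega
      exact Nat.le_of_mul_le_mul_left h4 (by positivity)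
    have hlen : (strs l).length = 2 ^ l := by
      have := card_FS l
      unfold FS at this
      rwa [List.toFinset_card_of_nodup (nodup_strs l)] at this
    have hk2 : k < (strs l).length := by rw [hlen]; omega
    set y := (strs l)[k] with hy
    have hyl : y.length = l := mem_strs.1 (List.getElem_mem hk2)
    have hyi : ix y (strs l) = k := by
      unfold ix
      exact @List.Nodup.idxOf_getElem _ instBEqOfDecidableEq _ (strs l) (nodup_strs l) k hk2
    refine ⟨List.replicate c true ++ false :: y, ?_, ?_⟩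
    · unfold Mg
      rw [idxOf_rep, drop_rep, hyl, hyi]
      have : l + 2 * c = N := by omega
      rw [this, List.getElem?_eq_getElem hk, hkx]
    · simp only [List.length_append, List.length_replicate, List.length_cons, hyl]
      omega
  have h1 : Partrec fun p : List Bool => (Mg L p : Part (List Bool)) :=
    Computable.ofOption hpr.to_comp
  obtain ⟨c1, hc1⟩ := hU _ h1
  refine ⟨c1 + 1, fun c N x hc h => ?_⟩
  obtain ⟨p, hp1, hp2⟩ := hspec c N x hc h
  obtain ⟨q, hq1, hq2⟩ := hc1 p x (by rw [hp1]; simp)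
  have := cx_le hq1
  omega

/-- total weight of the strings of length `n` at stage `s`, in units of `2^-s` -/
noncomputable def Wn (R : List Bool × List Bool → ℕ → Prop) (s n : ℕ) : ℕ :=
  ((strs n).map (wt R s)).sum

theorem pr_Wn {R : List Bool × List Bool → ℕ → Prop} (hR : PrimrecRel R) {α : Type*}
    [Primcodable α] {s n : α → ℕ} (hs : Primrec s) (hn : Primrec n) :
    Primrec fun a => Wn R (s a) (n a) :=
  pr_sum (f := fun a => strs (n a)) (g := fun a x => wt R (s a) x) (pr_strs.comp hn)
    (pr_wt hR (hs.comp Primrec.fst) Primrec.snd)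

variable {R : List Bool × List Bool → ℕ → Prop} {V : List Bool →. List Bool}

theorem Wn_eq (s n : ℕ) : Wn R s n = ∑ x ∈ FS n, wt R s x := by
  unfold Wn
  rw [sum_FS]

theorem Wn_mono (hmono : ∀ a m n, m ≤ n → R a m → R a n) {s t : ℕ} (h : s ≤ t) (n : ℕ) :
    2 ^ (t - s) * Wn R s n ≤ Wn R t n := by
  rw [Wn_eq, Wn_eq, Finset.mul_sum]
  exact Finset.sum_le_sum fun x _ => wt_mono hmono h x

theorem sum_Wn_le (hV : ∀ q x, x ∈ V q ↔ ∃ s, R (q, x) s) (hpf : PF V) (B : ℕ) :
    ∑ n ∈ Finset.range (B + 1), Wn R B n ≤ 2 ^ B := by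
  have h := sum_wt_le hV hpf B
  rw [sum_AS] at h
  simpa only [Wn_eq] using h

theorem geo_filter (w : ℝ) (hw : 0 ≤ w) (B : ℕ) :
    ∑ l ∈ (Finset.range B).filter (fun l => (1 / 2 : ℝ) ^ l ≤ w), (1 / 2 : ℝ) ^ (l + 1) ≤ w := by
  classical
  by_cases hne : ∃ l, (1 / 2 : ℝ) ^ l ≤ w ∧ l < B
  · let l0 := Nat.find hne
    obtain ⟨h1, h2⟩ := Nat.find_spec hne
    have hsub : (Finset.range B).filter (fun l => (1 / 2 : ℝ) ^ l ≤ w) ⊆ Finset.Ico l0 B := by
      intro l hl
      rw [Finset.mem_filter, Finset.mem_range] at hl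
      rw [Finset.mem_Ico]
      exact ⟨Nat.find_min' hne ⟨hl.2, hl.1⟩, hl.1⟩
    have h3 : ∀ M, l0 ≤ M → ∑ l ∈ Finset.Ico l0 M, (1 / 2 : ℝ) ^ (l + 1)
        = (1 / 2) ^ l0 - (1 / 2) ^ M := by
      intro M hM
      induction M, hM using Nat.le_induction with
      | base => simp
      | succ M hM ih => rw [Finset.sum_Ico_succ_top hM, ih]; ring
    refine (Finset.sum_le_sum_of_subset_of_nonneg hsub fun _ _ _ => by positivity).trans ?_
    rw [h3 B h2.le]
    have : (0 : ℝ) ≤ (1 / 2) ^ B := by positivity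
    have h1' : (1 / 2 : ℝ) ^ l0 ≤ w := h1
    linarith
  · have : (Finset.range B).filter (fun l => (1 / 2 : ℝ) ^ l ≤ w) = ∅ := by
      rw [Finset.filter_eq_empty_iff]
      intro l hl h
      exact hne ⟨l, h, Finset.mem_range.1 hl⟩
    rw [this]; simpa using hw

/-- the condition for a request -/
def rc (R : List Bool × List Bool → ℕ → Prop) (n l s : ℕ) : Prop :=
  2 ^ s ≤ 2 ^ l * Wn R s n

theorem pr_rc (hR : PrimrecRel R) {α : Type*} [Primcodable α] {n l s : α → ℕ} (hn : Primrec n)
    (hl : Primrec l) (hs : Primrec s) : PrimrecPred fun a => rc R (n a) (l a) (s a) :=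
  Primrec.nat_le.comp (pr_pow.comp (Primrec.const 2) hs)
    (Primrec.nat_mul.comp (pr_pow.comp (Primrec.const 2) hl) (pr_Wn hR hs hn))

/-- the coding theorem for lengths -/
theorem coding (hR : PrimrecRel R) (hmono : ∀ a m n, m ≤ n → R a m → R a n)
    (hRV : ∀ q x, x ∈ V q ↔ ∃ s, R (q, x) s) (hpf : PF V) (hV : OptPF V)
    {code : ℕ → List Bool} (hcode : Computable code) :
    ∃ c : ℕ, ∀ n l s, rc R n l s → cx V (code n) ≤ l + c := by
  classical
  let P : ℕ → Prop := fun i => rc R i.unpair.1 i.unpair.2.unpair.1 i.unpair.2.unpair.2 ∧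
    ∀ s' < i.unpair.2.unpair.2, ¬ rc R i.unpair.1 i.unpair.2.unpair.1 s'
  have hP : PrimrecPred P := by
    have n' : Primrec fun i : ℕ => i.unpair.1 := Primrec.fst.comp Primrec.unpair
    have i2 : Primrec fun i : ℕ => i.unpair.2 := Primrec.snd.comp Primrec.unpair
    have l' : Primrec fun i : ℕ => i.unpair.2.unpair.1 := n'.comp i2
    have s' : Primrec fun i : ℕ => i.unpair.2.unpair.2 := i2.comp i2
    refine PrimrecPred.and (pr_rc hR n' l' s') ?_
    refine PP.all_lt (α := ℕ) (p := fun i s' => ¬ rc R i.unpair.1 i.unpair.2.unpair.1 s') ?_ s'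
    exact PrimrecPred.not (pr_rc hR (n'.comp Primrec.fst) (l'.comp Primrec.fst) Primrec.snd)
  let req : ℕ → Option (ℕ × List Bool) := fun i => if P i then
    some (i.unpair.2.unpair.1 + 1, (List.range i.unpair.1).map fun _ => false) else none
  have hreq : Primrec req := by
    refine Primrec.ite hP (Primrec.option_some.comp (Primrec.pair ?_ ?_)) (Primrec.const none)
    · exact Primrec.succ.comp (Primrec.fst.comp (Primrec.unpair.comp
        (Primrec.snd.comp Primrec.unpair)))
    · exact Primrec.list_map (Primrec.list_range.comp (Primrec.fst.comp Primrec.unpair))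
        (Primrec.const false)
  have hb : ∀ B, ∑ i ∈ Finset.range B, KC.wr req i ≤ 1 := by
    intro B
    let w : ℕ → ℝ := fun n => (Wn R B n : ℝ) / 2 ^ B
    have hw : ∀ n, 0 ≤ w n := fun n => by simp only [w]; positivity
    let S := (Finset.range B).filter P
    have h1 : ∑ i ∈ Finset.range B, KC.wr req i
        = ∑ i ∈ S, (1 / 2 : ℝ) ^ (i.unpair.2.unpair.1 + 1) := by
      rw [Finset.sum_filter]
      refine Finset.sum_congr rfl fun i _ => ?_
      by_cases h : P i
      · rw [if_pos h]
        have h' : req i = some (i.unpair.2.unpair.1 + 1,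
          (List.range i.unpair.1).map fun _ => false) := if_pos h
        unfold KC.wr
        rw [h']
        rfl
      · rw [if_neg h]
        have h' : req i = none := if_neg h
        unfold KC.wr
        rw [h']
        rfl
    let φ : ℕ → ℕ × ℕ := fun i => (i.unpair.1, i.unpair.2.unpair.1)
    have hinj : ∀ i ∈ S, ∀ j ∈ S, φ i = φ j → i = j := by
      intro i hi j hj h
      have hi := (Finset.mem_filter.1 hi).2
      have hj := (Finset.mem_filter.1 hj).2
      simp only [φ, Prod.mk.injEq] at h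
      obtain ⟨h2, h3⟩ := h
      have h4 : i.unpair.2.unpair.2 = j.unpair.2.unpair.2 := by
        obtain ⟨a1, a2⟩ := hi
        obtain ⟨b1, b2⟩ := hj
        rw [← h2, ← h3] at b1 b2
        rcases Nat.lt_trichotomy i.unpair.2.unpair.2 j.unpair.2.unpair.2 with h5 | h5 | h5
        · exact absurd a1 (b2 _ h5)
        · exact h5
        · exact absurd b1 (a2 _ h5)
      rw [← Nat.pair_unpair i, ← Nat.pair_unpair j, h2, ← Nat.pair_unpair i.unpair.2,
        ← Nat.pair_unpair j.unpair.2, h3, h4]
    have h2 : ∑ i ∈ S, (1 / 2 : ℝ) ^ (i.unpair.2.unpair.1 + 1)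
        = ∑ x ∈ S.image φ, (1 / 2 : ℝ) ^ (x.2 + 1) := by
      rw [Finset.sum_image hinj]
    let T : Finset (ℕ × ℕ) := (Finset.range B).biUnion fun n =>
      ((Finset.range B).filter fun l => (1 / 2 : ℝ) ^ l ≤ w n).image fun l => (n, l)
    have hsub : S.image φ ⊆ T := by
      intro x hx
      obtain ⟨i, hi, rfl⟩ := Finset.mem_image.1 hx
      obtain ⟨hi1, hi2⟩ := Finset.mem_filter.1 hi
      rw [Finset.mem_range] at hi1
      have b1 := Nat.unpair_left_le i
      have b2 := Nat.unpair_right_le i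
      have b3 := Nat.unpair_left_le i.unpair.2
      have b4 := Nat.unpair_right_le i.unpair.2
      simp only [T, Finset.mem_biUnion, Finset.mem_range, Finset.mem_image, Finset.mem_filter]
      refine ⟨i.unpair.1, by omega, i.unpair.2.unpair.1, ⟨by omega, ?_⟩, rfl⟩
      have h3 := hi2.1
      unfold rc at h3
      have h4 := Wn_mono (R := R) hmono (s := i.unpair.2.unpair.2) (t := B) (by omega) i.unpair.1
      have h5 : 2 ^ B ≤ 2 ^ i.unpair.2.unpair.1 * Wn R B i.unpair.1 := by
        calc 2 ^ B = 2 ^ (B - i.unpair.2.unpair.2) * 2 ^ i.unpair.2.unpair.2 := by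
              rw [← pow_add]; congr 1; omega
          _ ≤ 2 ^ (B - i.unpair.2.unpair.2) *
              (2 ^ i.unpair.2.unpair.1 * Wn R i.unpair.2.unpair.2 i.unpair.1) :=
              Nat.mul_le_mul_left _ h3
          _ = 2 ^ i.unpair.2.unpair.1 *
              (2 ^ (B - i.unpair.2.unpair.2) * Wn R i.unpair.2.unpair.2 i.unpair.1) := by ring
          _ ≤ _ := Nat.mul_le_mul_left _ h4
      have h6 : ((2 ^ B : ℕ) : ℝ) ≤ ((2 ^ i.unpair.2.unpair.1 * Wn R B i.unpair.1 : ℕ) : ℝ) := by
        exact_mod_cast h5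
      push_cast at h6
      simp only [w]
      rw [one_div, inv_pow, le_div_iff₀ (by positivity), inv_mul_le_iff₀ (by positivity)]
      exact h6
    rw [h1, h2]
    refine (Finset.sum_le_sum_of_subset_of_nonneg hsub fun _ _ _ => by positivity).trans ?_
    have h3 : ∑ x ∈ T, (1 / 2 : ℝ) ^ (x.2 + 1) = ∑ n ∈ Finset.range B,
        ∑ l ∈ (Finset.range B).filter (fun l => (1 / 2 : ℝ) ^ l ≤ w n),
          (1 / 2 : ℝ) ^ (l + 1) := by
      simp only [T]
      rw [Finset.sum_biUnion]
      · refine Finset.sum_congr rfl fun n _ => ?_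
        rw [Finset.sum_image (by intro a _ b _ h; exact (Prod.mk.inj h).2)]
      · intro i _ j _ hij
        rw [Function.onFun, Finset.disjoint_left]
        intro x hx hy
        obtain ⟨a, _, rfl⟩ := Finset.mem_image.1 hx
        obtain ⟨b, _, h⟩ := Finset.mem_image.1 hy
        exact hij (Prod.mk.inj h).1.symm
    rw [h3]
    refine (Finset.sum_le_sum fun n _ => geo_filter (w n) (hw n) B).trans ?_
    have h4 := sum_Wn_le hRV hpf B
    have h5 : ((∑ n ∈ Finset.range (B + 1), Wn R B n : ℕ) : ℝ) ≤ ((2 ^ B : ℕ) : ℝ) := by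
      exact_mod_cast h4
    push_cast at h5
    simp only [w]
    rw [← Finset.sum_div, div_le_one (by positivity)]
    refine le_trans ?_ h5
    rw [Finset.sum_range_succ]
    have : (0 : ℝ) ≤ (Wn R B B : ℝ) := by positivity
    linarith
  obtain ⟨M, hM1, hM2, hM3⟩ := KC.kraft_chaitin hreq hb
  have h1 : Partrec fun p : List Bool => (M p).map fun y => code y.length :=
    hM1.map (hcode.comp (Primrec.list_length.to_comp.comp Computable.snd))
  obtain ⟨c, hc⟩ := hV _ h1 (fun p q h1 h2 => hM2 p q h1 h2)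
  refine ⟨c + 1, fun n l s h => ?_⟩
  have hex : ∃ s, rc R n l s := ⟨s, h⟩
  have hPi : P (Nat.pair n (Nat.pair l (Nat.find hex))) := by
    simp only [P, Nat.unpair_pair]
    exact ⟨Nat.find_spec hex, fun s' hs' => Nat.find_min hex hs'⟩
  have hri : req (Nat.pair n (Nat.pair l (Nat.find hex)))
      = some (l + 1, (List.range n).map fun _ => false) := by
    simp only [req, if_pos hPi, Nat.unpair_pair]
  obtain ⟨τ, h2, h3⟩ := hM3 _ _ _ hri
  have h4 := Part.mem_map (fun y : List Bool => code y.length) h3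
  simp only [List.length_map, List.length_range] at h4
  obtain ⟨q, h5, h6⟩ := hc τ _ h4
  have := cx_le h5
  omega

/-- the coding theorem, logarithmic form -/
theorem coding_log (hR : PrimrecRel R) (hmono : ∀ a m n, m ≤ n → R a m → R a n)
    (hRV : ∀ q x, x ∈ V q ↔ ∃ s, R (q, x) s) (hpf : PF V) (hV : OptPF V)
    {code : ℕ → List Bool} (hcode : Computable code) :
    ∃ c : ℕ, ∀ n s, 0 < Wn R s n → (cx V (code n) : ℝ) * Real.log 2 ≤
      (c : ℝ) * Real.log 2 + s * Real.log 2 - Real.log (Wn R s n) := by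
  classical
  obtain ⟨c, hc⟩ := coding hR hmono hRV hpf hV hcode
  have hl2 : 0 < Real.log 2 := Real.log_pos (by norm_num)
  refine ⟨c + 1, fun n s h => ?_⟩
  have hex : ∃ l, rc R n l s := ⟨s, by
    unfold rc
    exact Nat.le_mul_of_pos_right _ h⟩
  have h1 := hc n _ s (Nat.find_spec hex)
  set l := Nat.find hex with hl
  have hW : (0 : ℝ) < (Wn R s n : ℝ) := by exact_mod_cast h
  have h2 : (l : ℝ) * Real.log 2 ≤ Real.log 2 + s * Real.log 2 - Real.log (Wn R s n) := by
    rcases Nat.eq_zero_or_pos l with h0 | h0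
    · rw [h0]
      have h3 : Wn R s n ≤ 2 ^ (s + n) := by
        have h4 := sum_Wn_le hRV hpf (s + n)
        have h5 : Wn R (s + n) n ≤ ∑ n' ∈ Finset.range (s + n + 1), Wn R (s + n) n' :=
          Finset.single_le_sum (f := fun n' => Wn R (s + n) n') (fun _ _ => Nat.zero_le _)
            (Finset.mem_range.2 (by omega))
        have h6 := Wn_mono (R := R) hmono (s := s) (t := s + n) (by omega) n
        have h7 : Wn R s n ≤ 2 ^ (s + n - s) * Wn R s n :=
          Nat.le_mul_of_pos_left _ (by positivity)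
        omega
      have h4 : Wn R s n ≤ 2 ^ s := by
        have h5 := sum_Wn_le hRV hpf (s + n)
        have h6 : Wn R (s + n) n ≤ ∑ n' ∈ Finset.range (s + n + 1), Wn R (s + n) n' :=
          Finset.single_le_sum (f := fun n' => Wn R (s + n) n') (fun _ _ => Nat.zero_le _)
            (Finset.mem_range.2 (by omega))
        have h7 := Wn_mono (R := R) hmono (s := s) (t := s + n) (by omega) n
        have h8 : 2 ^ (s + n - s) * Wn R s n ≤ 2 ^ (s + n - s) * 2 ^ s := by
          have : 2 ^ (s + n - s) * 2 ^ s = 2 ^ (s + n) := by rw [← pow_add]; congr 1; omega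
          rw [this]
          exact h7.trans (h6.trans h5)
        exact Nat.le_of_mul_le_mul_left h8 (by positivity)
      have h5 : (Wn R s n : ℝ) ≤ 2 ^ s := by exact_mod_cast h4
      have h6 := Real.log_le_log hW h5
      rw [Real.log_pow] at h6
      simp only [Nat.cast_zero, zero_mul]
      linarith
    · obtain ⟨l', hl'⟩ : ∃ l', l = l' + 1 := ⟨l - 1, by omega⟩
      have h3 : ¬ rc R n l' s := Nat.find_min hex (by omega)
      unfold rc at h3
      push Not at h3
      have h4 : ((2 ^ l' * Wn R s n : ℕ) : ℝ) ≤ ((2 ^ s : ℕ) : ℝ) := by exact_mod_cast h3.le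
      push_cast at h4
      have h5 := Real.log_le_log (by positivity) h4
      rw [Real.log_mul (by positivity) hW.ne', Real.log_pow, Real.log_pow] at h5
      rw [hl']
      push_cast
      linarith
  have h3 : ((cx V (code n) : ℕ) : ℝ) ≤ ((l + c : ℕ) : ℝ) := by exact_mod_cast h1
  push_cast at h3
  have h4 := mul_le_mul_of_nonneg_right h3 hl2.le
  push_cast
  linarith

/-- the condition used in the second machine -/
def qc (R : List Bool × List Bool → ℕ → Prop) (j N : ℕ) (y : List Bool) : Prop :=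
  0 < Wn R N.unpair.2 N.unpair.1 ∧
    4 ^ j * Wn R N.unpair.2 N.unpair.1 ≤ 2 ^ N.unpair.1 * wt R N.unpair.2 (y.take N.unpair.1)

open Classical in
/-- the list for the second machine -/
noncomputable def QL (R : List Bool × List Bool → ℕ → Prop) (j N : ℕ) : List (List Bool) :=
  (strs N).filterMap (fun y => if qc R j N y then some y else none)

theorem pr_QL (hR : PrimrecRel R) : Primrec₂ (QL R) := by
  classical
  have j' : Primrec fun p : ℕ × ℕ => p.1 := Primrec.fst
  have N' : Primrec fun p : ℕ × ℕ => p.2 := Primrec.snd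
  have h : Primrec fun p : ℕ × ℕ => QL R p.1 p.2 := by
    unfold QL
    refine Primrec.listFilterMap (f := fun p : ℕ × ℕ => strs p.2) (pr_strs.comp N') ?_
    refine Primrec.ite ?_ (Primrec.option_some.comp Primrec.snd) (Primrec.const none)
    have n1 : Primrec fun p : (ℕ × ℕ) × List Bool => p.1.2.unpair.1 :=
      Primrec.fst.comp (Primrec.unpair.comp (N'.comp Primrec.fst))
    have s1 : Primrec fun p : (ℕ × ℕ) × List Bool => p.1.2.unpair.2 :=
      Primrec.snd.comp (Primrec.unpair.comp (N'.comp Primrec.fst))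
    have W1 := pr_Wn hR s1 n1
    refine PrimrecPred.and (Primrec.nat_lt.comp (Primrec.const 0) W1) ?_
    refine Primrec.nat_le.comp (Primrec.nat_mul.comp (pr_pow.comp (Primrec.const 4)
      (j'.comp Primrec.fst)) W1) (Primrec.nat_mul.comp (pr_pow.comp (Primrec.const 2) n1) ?_)
    exact pr_wt hR s1 (Primrec.list_take.comp n1 Primrec.snd)
  exact h

theorem mem_QL {j N : ℕ} {y : List Bool} : y ∈ QL R j N ↔ y.length = N ∧ qc R j N y := by
  classical
  unfold QL
  rw [List.mem_filterMap]
  constructor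
  · rintro ⟨z, h1, h2⟩
    by_cases h3 : qc R j N z
    · rw [if_pos h3] at h2
      simp only [Option.some.injEq] at h2
      subst h2
      exact ⟨mem_strs.1 h1, h3⟩
    · rw [if_neg h3] at h2
      simp at h2
  · rintro ⟨h1, h2⟩
    exact ⟨y, mem_strs.2 h1, by rw [if_pos h2]⟩

theorem length_QL (j N : ℕ) : 4 ^ j * (QL R j N).length ≤ 2 ^ N := by
  classical
  have h1 : QL R j N = (strs N).filter (fun x => decide (qc R j N x)) := by
    unfold QL
    rw [← List.filterMap_eq_filter]
    congr 1
    funext x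
    simp only [Option.guard, decide_eq_true_eq]
  have h2 : ((strs N).filter (fun x => decide (qc R j N x))).Nodup := (nodup_strs N).filter _
  have h3 : (QL R j N).length = ((FS N).filter (qc R j N)).card := by
    rw [h1, ← List.toFinset_card_of_nodup h2]
    congr 1
    ext x
    simp [mem_FS, mem_strs]
  rw [h3]
  by_cases hW : 0 < Wn R N.unpair.2 N.unpair.1
  · refine Nat.le_of_mul_le_mul_right (c := Wn R N.unpair.2 N.unpair.1) ?_ hW
    have h4 := sum_take (Nat.unpair_left_le N) (wt R N.unpair.2)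
    have h5 : 4 ^ j * ((FS N).filter (qc R j N)).card * Wn R N.unpair.2 N.unpair.1
        ≤ ∑ y ∈ FS N, 2 ^ N.unpair.1 * wt R N.unpair.2 (y.take N.unpair.1) := by
      rw [Finset.card_filter, Finset.mul_sum, Finset.sum_mul]
      refine Finset.sum_le_sum fun y _ => ?_
      by_cases h6 : qc R j N y
      · rw [if_pos h6, mul_one]; exact h6.2
      · rw [if_neg h6]; simp
    refine h5.trans (le_of_eq ?_)
    rw [← Finset.mul_sum, h4, ← Wn_eq, ← mul_assoc, ← pow_add]
    congr 2
    have := Nat.unpair_left_le N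
    omega
  · have : (FS N).filter (qc R j N) = ∅ := by
      rw [Finset.filter_eq_empty_iff]
      intro y _ h
      exact hW h.1
    rw [this]; simp

theorem main_two {U V : List Bool →. List Bool} (hU : Opt U) (hVP : Partrec V) (hpf : PF V)
    (hV : OptPF V) {code : ℕ → List Bool} (hcode : Computable code)
    (μ : Measure (ℕ → Bool)) [IsProbabilityMeasure μ]
    (h : ∃ d : ℝ, ∀ n : ℕ, (n : ℝ) - d ≤ ∫ Z, (cx U (pre Z n) : ℝ) ∂μ) :
    ∃ d : ℝ, ∀ n : ℕ,
      (n : ℝ) + cx V (code n) - d ≤ ∫ Z, (cx V (pre Z n) : ℝ) ∂μ := by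
  obtain ⟨R, hR, hmono, hRV⟩ := s1_graph hVP
  have hRV' : ∀ q x, x ∈ V q ↔ ∃ s, R (q, x) s := fun q x => hRV (q, x)
  obtain ⟨c1, hc1⟩ := coding_log hR hmono hRV' hpf hV hcode
  obtain ⟨cU, hcU⟩ := short_g (pr_QL hR) (fun c N _ => length_QL (R := R) c N) hU
  obtain ⟨c0, hc0⟩ := exists_c0 hU
  obtain ⟨d, hd⟩ := h
  have hl2 : 0 < Real.log 2 := Real.log_pos (by norm_num)
  have hl4 : 0 < Real.log 4 := Real.log_pos (by norm_num)
  set D := Real.log 4 * (d + c0 + cU + 2) with hD
  refine ⟨D / Real.log 2 + c1, fun n => ?_⟩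
  have hmod : ∀ᶠ s in Filter.atTop, ∀ x ∈ FS n, cx V x ≤ s ∧ 2 ^ (s - cx V x) ≤ wt R s x := by
    rw [Filter.eventually_all_finset]
    intro x _
    exact wt_eventually hmono hRV' (hV.exists_program x)
  obtain ⟨s, hs⟩ := hmod.exists
  set N := Nat.pair n s with hN
  have hu : N.unpair = (n, s) := Nat.unpair_pair n s
  have hnN : n ≤ N := Nat.left_le_pair n s
  have hWpos : 0 < Wn R s n := by
    rw [Wn_eq]
    have h0 : List.replicate n false ∈ FS n := mem_FS.2 (by simp)
    refine lt_of_lt_of_le ?_ (Finset.single_le_sum (f := fun x => wt R s x)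
      (fun _ _ => Nat.zero_le _) h0)
    exact lt_of_lt_of_le (by positivity) (hs _ h0).2
  have hW : (0 : ℝ) < (Wn R s n : ℝ) := by exact_mod_cast hWpos
  have hpt : ∀ Z : ℕ → Bool, ((n : ℝ) - cx V (pre Z n)) * Real.log 2 + s * Real.log 2
      - Real.log (Wn R s n) ≤ Real.log 4 * ((N : ℝ) - cx U (pre Z N) + c0 + cU + 2) := by
    intro Z
    set x := pre Z n with hx
    set y := pre Z N with hy
    have hxl : x.length = n := length_pre _ _
    have hyl : y.length = N := length_pre _ _
    have hyx : y.take n = x := take_pre Z hnN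
    obtain ⟨g1, g2⟩ := hs x (mem_FS.2 hxl)
    have hwt : (0 : ℝ) < (wt R s x : ℝ) := by
      have : 0 < wt R s x := lt_of_lt_of_le (by positivity) g2
      exact_mod_cast this
    set r : ℝ := 2 ^ n * (wt R s x : ℝ) / (Wn R s n : ℝ) with hr
    have hr0 : 0 < r := by rw [hr]; positivity
    have g3 : ((n : ℝ) - cx V x) * Real.log 2 + s * Real.log 2 - Real.log (Wn R s n)
        ≤ Real.log r := by
      rw [hr, Real.log_div (by positivity) hW.ne', Real.log_mul (by positivity) hwt.ne',
        Real.log_pow]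
      have g4 : ((2 ^ (s - cx V x) : ℕ) : ℝ) ≤ (wt R s x : ℝ) := by exact_mod_cast g2
      push_cast at g4
      have g5 := Real.log_le_log (by positivity) g4
      rw [Real.log_pow, Nat.cast_sub g1] at g5
      linarith
    refine g3.trans ?_
    have h0 : (cx U y : ℝ) ≤ N + c0 := by
      have := (hc0 y).2
      rw [hyl] at this
      exact_mod_cast this
    have hcU0 : (0 : ℝ) ≤ cU := by positivity
    have hc00 : (0 : ℝ) ≤ c0 := by positivity
    by_cases h1 : r < 16
    · have h2 : Real.log r ≤ Real.log 4 * 2 := by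
        have h3 : Real.log r ≤ Real.log (4 ^ 2) := Real.log_le_log hr0 (by norm_num; linarith)
        rw [Real.log_pow] at h3
        push_cast at h3
        linarith
      refine h2.trans (mul_le_mul_of_nonneg_left ?_ hl4.le)
      linarith
    · push Not at h1
      obtain ⟨j, hj1, hj2⟩ := exists_nat_pow_near (x := r) (y := 4) (by linarith) (by norm_num)
      have hj : 1 ≤ j := by
        by_contra hcon
        have : j = 0 := by omega
        rw [this] at hj2
        norm_num at hj2
        linarith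
      have h2 : 4 ^ j * Wn R s n ≤ 2 ^ n * wt R s x := by
        rw [hr, le_div_iff₀ hW] at hj1
        exact_mod_cast hj1
      have h3 : y ∈ QL R j N := by
        refine mem_QL.2 ⟨hyl, ?_⟩
        unfold qc
        rw [hu]
        simp only
        rw [hyx]
        exact ⟨hWpos, h2⟩
      have h4 := hcU j N y hj h3
      have h5 : (j : ℝ) ≤ N - cx U y + cU := by
        have : ((cx U y + j : ℕ) : ℝ) ≤ ((N + cU : ℕ) : ℝ) := by exact_mod_cast h4
        push_cast at this
        linarith
      have h6 : Real.log r ≤ Real.log (4 ^ (j + 1)) := Real.log_le_log hr0 hj2.le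
      rw [Real.log_pow] at h6
      push_cast at h6
      nlinarith
  have i1 : Integrable (fun Z : ℕ → Bool => (cx V (pre Z n) : ℝ)) μ :=
    integrable_pre μ n (fun x => (cx V x : ℝ))
  have i2 : Integrable (fun Z : ℕ → Bool => (cx U (pre Z N) : ℝ)) μ :=
    integrable_pre μ N (fun x => (cx U x : ℝ))
  have i3 := integrable_pre μ n (fun x => ((n : ℝ) - cx V x) * Real.log 2 + s * Real.log 2
      - Real.log (Wn R s n))
  have i4 := integrable_pre μ N (fun x => Real.log 4 * ((N : ℝ) - cx U x + c0 + cU + 2))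
  have hint := integral_mono i3 i4 hpt
  have e1 : ∫ Z, (((n : ℝ) - cx V (pre Z n)) * Real.log 2 + s * Real.log 2
      - Real.log (Wn R s n)) ∂μ = ((n : ℝ) - ∫ Z, (cx V (pre Z n) : ℝ) ∂μ) * Real.log 2
      + s * Real.log 2 - Real.log (Wn R s n) := by
    have e : ∀ Z : ℕ → Bool, ((n : ℝ) - cx V (pre Z n)) * Real.log 2 + s * Real.log 2
        - Real.log (Wn R s n) = (-Real.log 2) * (cx V (pre Z n) : ℝ) +
        (n * Real.log 2 + s * Real.log 2 - Real.log (Wn R s n)) := fun Z => by ring
    simp only [e]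
    rw [int_affine μ i1]
    ring
  have e2 : ∫ Z, Real.log 4 * ((N : ℝ) - cx U (pre Z N) + c0 + cU + 2) ∂μ =
      Real.log 4 * ((N : ℝ) - ∫ Z, (cx U (pre Z N) : ℝ) ∂μ + c0 + cU + 2) := by
    have e : ∀ Z : ℕ → Bool, Real.log 4 * ((N : ℝ) - cx U (pre Z N) + c0 + cU + 2) =
        (-Real.log 4) * (cx U (pre Z N) : ℝ) + Real.log 4 * ((N : ℝ) + c0 + cU + 2) :=
      fun Z => by ring
    simp only [e]
    rw [int_affine μ i2]
    ring
  rw [e1, e2] at hint
  have h1 := hc1 n s hWpos
  have h2 := mul_le_mul_of_nonneg_left (show (N : ℝ) - ∫ Z, (cx U (pre Z N) : ℝ) ∂μ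
    + c0 + cU + 2 ≤ d + c0 + cU + 2 by linarith [hd N]) hl4.le
  have hfinal : ((n : ℝ) + cx V (code n) - ∫ Z, (cx V (pre Z n) : ℝ) ∂μ - c1)
      ≤ D / Real.log 2 := by
    rw [le_div_iff₀ hl2]
    nlinarith
  linarith

end Pool.Agent.V11169.MC
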