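import Mathlib
import Pool.Agent.V11169.MC5

set_option autoImplicit false

namespace Pool.Agent.V11169.CT

open Encodable Pool.Agent.H561R3 Pool.Agent.Helper227 Pool.Agent.V11169.KR Pool.Agent.V11169.MC
open MeasureTheory

/-- by stage `s`, some string of length `m` extending `y` has a program of length at most `k` -/
def DD (R : List Bool × List Bool → ℕ → Prop) (k s m : ℕ) (y : List Bool) : Prop :=
  ∃ q ∈ upTo k, ∃ x ∈ strs m, x.take y.length = y ∧ R (q, x) s

open Classical in
/-- the number of lengths in `[2^n, 2^(n+1))` where this happens -/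
noncomputable def cnt (R : List Bool × List Bool → ℕ → Prop) (i s n : ℕ) (y : List Bool) : ℕ :=
  ((List.range (2 ^ n)).map fun j => if DD R (n + i) s (2 ^ n + j) y then 1 else 0).sum

/-- this happens for at least half of the lengths -/
def SS (R : List Bool × List Bool → ℕ → Prop) (i s n : ℕ) (y : List Bool) : Prop :=
  2 ^ n ≤ 2 * cnt R i s n y

open Classical in
/-- the enumeration -/
noncomputable def EL (R : List Bool × List Bool → ℕ → Prop) (n i s : ℕ) : List (List Bool) :=
  Nat.rec [] (fun s L => L ++ (strs n).filterMap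
    (fun y => if SS R i s n y ∧ ¬ (∃ z ∈ L, z = y) then some y else none)) s

section prim
variable {α : Type*} [Primcodable α] {R : List Bool × List Bool → ℕ → Prop}

theorem pr_DD (hR : PrimrecRel R) {k s m : α → ℕ} {y : α → List Bool} (hk : Primrec k)
    (hs : Primrec s) (hm : Primrec m) (hy : Primrec y) :
    PrimrecPred fun a => DD R (k a) (s a) (m a) (y a) := by
  unfold DD
  refine PP.ex_mem (α := α) (p := fun a q => ∃ x ∈ strs (m a), x.take (y a).length = y a ∧
    R (q, x) (s a)) ?_ (pr_upTo.comp hk)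
  refine PP.ex_mem (α := α × List Bool) (p := fun p x => x.take (y p.1).length = y p.1 ∧
    R (p.2, x) (s p.1)) ?_ (pr_strs.comp (hm.comp Primrec.fst))
  refine PrimrecPred.and ?_ ?_
  · exact Primrec.eq.comp (Primrec.list_take.comp (Primrec.list_length.comp
      (hy.comp (Primrec.fst.comp Primrec.fst))) Primrec.snd)
      (hy.comp (Primrec.fst.comp Primrec.fst))
  · exact hR.comp ((Primrec.snd.comp Primrec.fst).pair Primrec.snd)
      (hs.comp (Primrec.fst.comp Primrec.fst))

theorem pr_cnt (hR : PrimrecRel R) {i s n : α → ℕ} {y : α → List Bool} (hi : Primrec i)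
    (hs : Primrec s) (hn : Primrec n) (hy : Primrec y) :
    Primrec fun a => cnt R (i a) (s a) (n a) (y a) := by
  classical
  unfold cnt
  have h2 : Primrec fun a => 2 ^ n a := pr_pow.comp (Primrec.const 2) hn
  refine pr_sum (f := fun a => List.range (2 ^ n a)) (g := fun a j =>
    if DD R (n a + i a) (s a) (2 ^ n a + j) (y a) then 1 else 0) (Primrec.list_range.comp h2) ?_
  refine Primrec.ite ?_ (Primrec.const 1) (Primrec.const 0)
  exact pr_DD hR ((Primrec.nat_add.comp hn hi).comp Primrec.fst) (hs.comp Primrec.fst)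
    (Primrec.nat_add.comp (h2.comp Primrec.fst) Primrec.snd) (hy.comp Primrec.fst)

theorem pr_SS (hR : PrimrecRel R) {i s n : α → ℕ} {y : α → List Bool} (hi : Primrec i)
    (hs : Primrec s) (hn : Primrec n) (hy : Primrec y) :
    PrimrecPred fun a => SS R (i a) (s a) (n a) (y a) :=
  Primrec.nat_le.comp (pr_pow.comp (Primrec.const 2) hn)
    (Primrec.nat_mul.comp (Primrec.const 2) (pr_cnt hR hi hs hn hy))

theorem pr_EL (hR : PrimrecRel R) {n i s : α → ℕ} (hn : Primrec n) (hi : Primrec i)
    (hs : Primrec s) : Primrec fun a => EL R (n a) (i a) (s a) := by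
  classical
  unfold EL
  refine Primrec.nat_rec' (f := s) (g := fun _ => ([] : List (List Bool)))
    (h := fun a (p : ℕ × List (List Bool)) => p.2 ++ (strs (n a)).filterMap
    (fun y => if SS R (i a) p.1 (n a) y ∧ ¬ (∃ z ∈ p.2, z = y) then some y else none))
    hs (Primrec.const []) ?_
  refine Primrec.list_append.comp (Primrec.snd.comp Primrec.snd) ?_
  refine Primrec.listFilterMap (f := fun p : α × (ℕ × List (List Bool)) => strs (n p.1))
    (pr_strs.comp (hn.comp Primrec.fst)) ?_
  refine Primrec.ite ?_ (Primrec.option_some.comp Primrec.snd) (Primrec.const none)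
  refine PrimrecPred.and ?_ (PrimrecPred.not ?_)
  · exact pr_SS hR (hi.comp (Primrec.fst.comp Primrec.fst))
      (Primrec.fst.comp (Primrec.snd.comp Primrec.fst))
      (hn.comp (Primrec.fst.comp Primrec.fst)) Primrec.snd
  · refine PP.ex_mem (α := (α × (ℕ × List (List Bool))) × List Bool)
      (f := fun p => p.1.2.2) (p := fun p z => z = p.2) ?_
      (Primrec.snd.comp (Primrec.snd.comp Primrec.fst))
    exact Primrec.eq.comp Primrec.snd (Primrec.snd.comp Primrec.fst)

end prim

variable {R : List Bool × List Bool → ℕ → Prop} {U : List Bool →. List Bool}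

open Classical in
theorem EL_succ (n i s : ℕ) : EL R n i (s + 1) = EL R n i s ++ (strs n).filterMap
    (fun y => if SS R i s n y ∧ ¬ (∃ z ∈ EL R n i s, z = y) then some y else none) := rfl

open Classical in
theorem mem_new {n i s : ℕ} {L : List (List Bool)} {y : List Bool} :
    y ∈ (strs n).filterMap (fun y => if SS R i s n y ∧ ¬ (∃ z ∈ L, z = y) then some y else none)
      ↔ y.length = n ∧ SS R i s n y ∧ y ∉ L := by
  rw [List.mem_filterMap]
  constructor
  · rintro ⟨z, h1, h2⟩
    by_cases h3 : SS R i s n z ∧ ¬ (∃ w ∈ L, w = z)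
    · rw [if_pos h3] at h2
      simp only [Option.some.injEq] at h2
      subst h2
      exact ⟨mem_strs.1 h1, h3.1, fun h => h3.2 ⟨z, h, rfl⟩⟩
    · rw [if_neg h3] at h2
      simp at h2
  · rintro ⟨h1, h2, h3⟩
    refine ⟨y, mem_strs.2 h1, ?_⟩
    have h5 : ¬ (∃ z ∈ L, z = y) := by
      rintro ⟨z, h4, rfl⟩
      exact h3 h4
    rw [if_pos ⟨h2, h5⟩]

theorem EL_mem {n i s : ℕ} {y : List Bool} (h : y ∈ EL R n i s) :
    y.length = n ∧ ∃ s', SS R i s' n y := by
  induction s with
  | zero => simp [EL] at h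
  | succ s ih =>
    rw [EL_succ, List.mem_append] at h
    rcases h with h | h
    · exact ih h
    · have := mem_new.1 h
      exact ⟨this.1, s, this.2.1⟩

theorem mem_EL {n i s : ℕ} {y : List Bool} (hy : y.length = n) (h : SS R i s n y) :
    y ∈ EL R n i (s + 1) := by
  rw [EL_succ, List.mem_append]
  by_cases h1 : y ∈ EL R n i s
  · exact Or.inl h1
  · exact Or.inr (mem_new.2 ⟨hy, h, h1⟩)

theorem EL_nodup (n i s : ℕ) : (EL R n i s).Nodup := by
  classical
  induction s with
  | zero => simp [EL]
  | succ s ih =>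
    rw [EL_succ, List.nodup_append']
    refine ⟨ih, ?_, ?_⟩
    · refine List.Nodup.filterMap ?_ (nodup_strs n)
      intro a b c h1 h2
      rw [Option.mem_def] at h1 h2
      split_ifs at h1 h2
      · simp only [Option.some.injEq] at h1 h2
        rw [h1, h2]
    · intro y h1 h2
      exact (mem_new.1 h2).2.2 h1

theorem EL_mono {n i s t : ℕ} (h : s ≤ t) {k : ℕ} {y : List Bool}
    (hk : (EL R n i s)[k]? = some y) : (EL R n i t)[k]? = some y := by
  induction t, h using Nat.le_induction with
  | base => exact hk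
  | succ t h ih =>
    rw [EL_succ, List.getElem?_append_left]
    · exact ih
    · exact (List.getElem?_eq_some_iff.1 ih).1

theorem card_AS_le (k : ℕ) : (AS k).card ≤ 2 ^ (k + 1) := by
  unfold AS
  refine Finset.card_biUnion_le.trans ?_
  simp only [card_FS]
  have : ∀ n : ℕ, ∑ i ∈ Finset.range n, 2 ^ i ≤ 2 ^ n := by
    intro n
    induction n with
    | zero => simp
    | succ n ih => rw [Finset.sum_range_succ, pow_succ]; omega
  exact this _

/-- some string of length `m` extending `y` has a program of length at most `k` -/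
def TD (U : List Bool →. List Bool) (k m : ℕ) (y : List Bool) : Prop :=
  ∃ x : List Bool, x.length = m ∧ x.take y.length = y ∧ ∃ q : List Bool, q.length ≤ k ∧ x ∈ U q

open Classical in
/-- the number of lengths in `[2^n, 2^(n+1))` where this happens -/
noncomputable def tcnt (U : List Bool →. List Bool) (i n : ℕ) (y : List Bool) : ℕ :=
  ((Finset.range (2 ^ n)).filter fun j => TD U (n + i) (2 ^ n + j) y).card

theorem cnt_le (hRU : ∀ q x, x ∈ U q ↔ ∃ s, R (q, x) s) (i s n : ℕ) (y : List Bool) :
    cnt R i s n y ≤ tcnt U i n y := by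
  classical
  unfold cnt tcnt
  rw [sum_range_list, ← Finset.card_filter]
  refine Finset.card_le_card ?_
  intro j hj
  rw [Finset.mem_filter] at hj ⊢
  obtain ⟨h1, q, h2, x, h3, h4, h5⟩ := hj
  exact ⟨h1, x, mem_strs.1 h3, h4, q, mem_upTo.1 h2, (hRU q x).2 ⟨s, h5⟩⟩

theorem tcnt_le (hmono : ∀ a m n, m ≤ n → R a m → R a n)
    (hRU : ∀ q x, x ∈ U q ↔ ∃ s, R (q, x) s) (i n : ℕ) (y : List Bool) :
    ∃ s, tcnt U i n y ≤ cnt R i s n y := by
  classical
  have h1 : ∀ j, ∃ s, TD U (n + i) (2 ^ n + j) y → DD R (n + i) s (2 ^ n + j) y := by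
    intro j
    by_cases h : TD U (n + i) (2 ^ n + j) y
    · obtain ⟨x, h2, h3, q, h4, h5⟩ := h
      obtain ⟨s, hs⟩ := (hRU q x).1 h5
      exact ⟨s, fun _ => ⟨q, mem_upTo.2 h4, x, mem_strs.2 h2, h3, hs⟩⟩
    · exact ⟨0, fun h' => absurd h' h⟩
  choose f hf using h1
  refine ⟨(Finset.range (2 ^ n)).sup f, ?_⟩
  unfold cnt tcnt
  rw [sum_range_list, ← Finset.card_filter]
  refine Finset.card_le_card ?_
  intro j hj
  rw [Finset.mem_filter] at hj ⊢
  obtain ⟨q, h2, x, h3, h4, h5⟩ := hf j hj.2
  exact ⟨hj.1, q, h2, x, h3, h4, hmono _ _ _ (Finset.le_sup (f := f) hj.1) h5⟩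

theorem card_big {n i : ℕ} (F : Finset (List Bool)) (hF : ∀ y ∈ F, y.length = n)
    (hF2 : ∀ y ∈ F, 2 ^ n ≤ 2 * tcnt U i n y) : F.card ≤ 2 ^ (i + 2) := by
  classical
  have h1 : F.card * 2 ^ n ≤ 2 * ∑ y ∈ F, tcnt U i n y := by
    rw [Finset.mul_sum, ← smul_eq_mul, ← Finset.sum_const]
    exact Finset.sum_le_sum hF2
  have h2 : ∑ y ∈ F, tcnt U i n y =
      ((F ×ˢ Finset.range (2 ^ n)).filter fun p => TD U (n + i) (2 ^ n + p.2) p.1).card := by
    unfold tcnt
    simp only [Finset.card_filter]
    rw [Finset.sum_product]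
  have h3 : ((F ×ˢ Finset.range (2 ^ n)).filter
      fun p => TD U (n + i) (2 ^ n + p.2) p.1).card ≤ (AS (n + i)).card := by
    have hch : ∀ p : List Bool × ℕ, ∃ x q : List Bool, TD U (n + i) (2 ^ n + p.2) p.1 →
        (x.length = 2 ^ n + p.2 ∧ x.take p.1.length = p.1 ∧ q.length ≤ n + i ∧ x ∈ U q) := by
      intro p
      by_cases h : TD U (n + i) (2 ^ n + p.2) p.1
      · obtain ⟨x, a1, a2, q, a3, a4⟩ := h
        exact ⟨x, q, fun _ => ⟨a1, a2, a3, a4⟩⟩
      · exact ⟨[], [], fun h' => absurd h' h⟩
    choose fx fq hf using hch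
    refine Finset.card_le_card_of_injOn fq ?_ ?_
    · intro p hp
      rw [Finset.mem_coe, Finset.mem_filter] at hp
      rw [Finset.mem_coe, mem_AS]
      exact (hf p hp.2).2.2.1
    · intro p hp p' hp' heq
      rw [Finset.mem_coe, Finset.mem_filter, Finset.mem_product] at hp hp'
      obtain ⟨l1, t1, _, a2⟩ := hf p hp.2
      obtain ⟨l2, t2, _, b2⟩ := hf p' hp'.2
      rw [heq] at a2
      have hx := Part.mem_unique a2 b2
      rw [hx] at l1 t1
      rw [hF _ hp.1.1] at t1
      rw [hF _ hp'.1.1] at t2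
      refine Prod.ext ?_ ?_
      · exact t1.symm.trans t2
      · omega
  have h4 := card_AS_le (n + i)
  have h5 : F.card * 2 ^ n ≤ 2 ^ (i + 2) * 2 ^ n := by
    calc F.card * 2 ^ n ≤ 2 * ∑ y ∈ F, tcnt U i n y := h1
      _ ≤ 2 * 2 ^ (n + i + 1) := by rw [h2]; exact Nat.mul_le_mul_left _ (h3.trans h4)
      _ = 2 ^ (i + 2) * 2 ^ n := by rw [← pow_succ', ← pow_add]; congr 1; omega
  exact Nat.le_of_mul_le_mul_right h5 (by positivity)

theorem length_EL (hRU : ∀ q x, x ∈ U q ↔ ∃ s, R (q, x) s) (n i s : ℕ) :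
    (EL R n i s).length ≤ 2 ^ (i + 2) := by
  classical
  rw [← List.toFinset_card_of_nodup (EL_nodup n i s)]
  refine card_big (U := U) (n := n) _ ?_ ?_
  · intro y hy
    exact (EL_mem (List.mem_toFinset.1 hy)).1
  · intro y hy
    obtain ⟨s', hs'⟩ := (EL_mem (List.mem_toFinset.1 hy)).2
    unfold SS at hs'
    exact hs'.trans (Nat.mul_le_mul_left _ (cnt_le hRU i s' n y))

/-- well-formed programs -/
def wf (p : List Bool) : Prop :=
  p.idxOf false < p.length ∧ p.idxOf false + 2 ≤ (p.drop (p.idxOf false + 1)).length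

instance (p : List Bool) : Decidable (wf p) := by unfold wf; infer_instance

/-- the machine -/
noncomputable def Mx (R : List Bool × List Bool → ℕ → Prop) (V : List Bool →. List Bool)
    (code : ℕ → List Bool) (p : List Bool) : Part (List Bool) :=
  cond (decide (wf p)) ((V ((p.drop (p.idxOf false + 1)).drop (p.idxOf false + 2))).bind fun w =>
    (Nat.rfind fun n => Part.some (decide (code n = w))).bind fun n =>
      Nat.rfindOpt fun s => (EL R n (p.idxOf false) s)[
        ix ((p.drop (p.idxOf false + 1)).take (p.idxOf false + 2))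
          (strs (p.idxOf false + 2))]?) Part.none

theorem partrec_Mx (hR : PrimrecRel R) {V : List Bool →. List Bool} (hV : Partrec V)
    {code : ℕ → List Bool} (hcode : Computable code) :
    Partrec fun p : List Bool => Mx R V code p := by
  have i' : Primrec fun p : List Bool => p.idxOf false :=
    Primrec.list_idxOf.comp (Primrec.const false) Primrec.id
  have r' : Primrec fun p : List Bool => p.drop (p.idxOf false + 1) :=
    Primrec.list_drop.comp (Primrec.succ.comp i') Primrec.id
  have i2 : Primrec fun p : List Bool => p.idxOf false + 2 :=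
    Primrec.succ.comp (Primrec.succ.comp i')
  have q' : Primrec fun p : List Bool => (p.drop (p.idxOf false + 1)).drop (p.idxOf false + 2) :=
    Primrec.list_drop.comp i2 r'
  have z' : Primrec fun p : List Bool => (p.drop (p.idxOf false + 1)).take (p.idxOf false + 2) :=
    Primrec.list_take.comp i2 r'
  have k' : Primrec fun p : List Bool => ix ((p.drop (p.idxOf false + 1)).take
      (p.idxOf false + 2)) (strs (p.idxOf false + 2)) :=
    Primrec.list_idxOf.comp z' (pr_strs.comp i2)
  have hwf : PrimrecPred wf := PrimrecPred.and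
    (Primrec.nat_lt.comp i' Primrec.list_length)
    (Primrec.nat_le.comp i2 (Primrec.list_length.comp r'))
  unfold Mx
  refine Partrec.cond (hwf.decide.to_comp) ?_ Partrec.none
  refine Partrec.bind (hV.comp q'.to_comp) ?_
  have h1 : Partrec fun a : List Bool × List Bool =>
      Nat.rfind fun n => Part.some (decide (code n = a.2)) := by
    refine Partrec.rfind (p := fun (a : List Bool × List Bool) n =>
      Part.some (decide (code n = a.2))) ?_
    have h2 : Computable₂ fun (a b : List Bool) => decide (a = b) :=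
      (Primrec.eq (α := List Bool)).decide.to_comp
    exact (h2.comp (hcode.comp Computable.snd) (Computable.snd.comp Computable.fst)).partrec
  refine Partrec.bind h1 ?_
  refine Partrec.rfindOpt (f := fun (a : (List Bool × List Bool) × ℕ) s =>
    (EL R a.2 (a.1.1.idxOf false) s)[ix ((a.1.1.drop (a.1.1.idxOf false + 1)).take
      (a.1.1.idxOf false + 2)) (strs (a.1.1.idxOf false + 2))]?) ?_
  have p' : Primrec fun a : ((List Bool × List Bool) × ℕ) × ℕ => a.1.1.1 :=
    Primrec.fst.comp (Primrec.fst.comp Primrec.fst)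
  have h3 : Primrec fun a : ((List Bool × List Bool) × ℕ) × ℕ =>
      (EL R a.1.2 (a.1.1.1.idxOf false) a.2)[ix ((a.1.1.1.drop (a.1.1.1.idxOf false + 1)).take
      (a.1.1.1.idxOf false + 2)) (strs (a.1.1.1.idxOf false + 2))]? :=
    Primrec.list_getElem?.comp (pr_EL hR (Primrec.snd.comp Primrec.fst) (i'.comp p') Primrec.snd)
      (k'.comp p')
  exact h3.to_comp

theorem Mx_dom {V : List Bool →. List Bool} {code : ℕ → List Bool} {p : List Bool}
    (h : (Mx R V code p).Dom) :
    wf p ∧ (V ((p.drop (p.idxOf false + 1)).drop (p.idxOf false + 2))).Dom := by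
  unfold Mx at h
  by_cases hw : wf p
  · rw [decide_eq_true hw, cond_true, Part.bind_dom] at h
    exact ⟨hw, h.1⟩
  · rw [decide_eq_false hw, cond_false] at h
    exact h.elim

theorem Mx_pf {V : List Bool →. List Bool} (hV : PF V) (code : ℕ → List Bool) :
    PF fun p => Mx R V code p := by
  intro p p' h1 h2 h3
  obtain ⟨⟨a1, a2⟩, a3⟩ := Mx_dom h1
  obtain ⟨⟨b1, b2⟩, b3⟩ := Mx_dom h2
  obtain ⟨t, rfl⟩ := h3
  have hmem : false ∈ p := List.idxOf_lt_length_iff.1 a1
  have e1 : (p ++ t).idxOf false = p.idxOf false := List.idxOf_append_of_mem hmem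
  rw [e1] at b3
  have e2 : (p ++ t).drop (p.idxOf false + 1) = p.drop (p.idxOf false + 1) ++ t :=
    List.drop_append_of_le_length (by omega)
  rw [e2, List.drop_append_of_le_length a2] at b3
  have h4 := hV _ _ a3 b3 (List.prefix_append _ _)
  have h5 : t = [] := by
    have := congrArg List.length h4
    rw [List.length_append] at this
    exact List.eq_nil_of_length_eq_zero (by omega)
  rw [h5, List.append_nil]

theorem Mx_spec (hRU : ∀ q x, x ∈ U q ↔ ∃ s, R (q, x) s)
    (hmono : ∀ a m n, m ≤ n → R a m → R a n) {V : List Bool →. List Bool}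
    {code : ℕ → List Bool} (hinj : Function.Injective code) {n i : ℕ} {y q : List Bool}
    (hy : y.length = n) (h : 2 ^ n ≤ 2 * tcnt U i n y) (hq : code n ∈ V q) :
    ∃ p : List Bool, y ∈ Mx R V code p ∧ p.length = 2 * i + 3 + q.length := by
  classical
  obtain ⟨s, hs⟩ := tcnt_le hmono hRU i n y
  have hSS : SS R i s n y := h.trans (Nat.mul_le_mul_left _ hs)
  have h1 := mem_EL hy hSS
  obtain ⟨k, hk, hky⟩ := List.getElem_of_mem h1
  have h2 := length_EL hRU n i (s + 1)
  have hlen : (strs (i + 2)).length = 2 ^ (i + 2) := by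
    have := card_FS (i + 2)
    unfold FS at this
    rwa [List.toFinset_card_of_nodup (nodup_strs (i + 2))] at this
  have hk2 : k < (strs (i + 2)).length := by omega
  set z := (strs (i + 2))[k] with hz
  have hzl : z.length = i + 2 := mem_strs.1 (List.getElem_mem hk2)
  have hzi : ix z (strs (i + 2)) = k := by
    unfold ix
    exact @List.Nodup.idxOf_getElem _ instBEqOfDecidableEq _ (strs (i + 2))
      (nodup_strs (i + 2)) k hk2
  refine ⟨List.replicate i true ++ false :: (z ++ q), ?_, ?_⟩
  · unfold Mx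
    have e1 := idxOf_rep i (z ++ q)
    have e2 := drop_rep i (z ++ q)
    have hw : wf (List.replicate i true ++ false :: (z ++ q)) := by
      unfold wf
      rw [e1, e2]
      simp only [List.length_append, List.length_replicate, List.length_cons, hzl]
      omega
    rw [decide_eq_true hw, cond_true, e1, e2]
    have e3 : (z ++ q).drop (i + 2) = q := by
      rw [← hzl, List.drop_left]
    have e4 : (z ++ q).take (i + 2) = z := by
      rw [← hzl, List.take_left]
    rw [e3, e4, hzi, Part.mem_bind_iff]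
    refine ⟨code n, hq, ?_⟩
    rw [Part.mem_bind_iff]
    refine ⟨n, ?_, ?_⟩
    · refine Nat.mem_rfind.2 ⟨by simp, fun {m} hm => ?_⟩
      simp only [Part.mem_some_iff, Bool.false_eq, decide_eq_false_iff_not]
      intro h3
      exact absurd (hinj h3) (by omega)
    · rw [Nat.rfindOpt_mono]
      · exact ⟨s + 1, by rw [List.getElem?_eq_getElem hk, hky]; rfl⟩
      · intro a m n' hmn ha
        exact EL_mono hmn ha
  · simp only [List.length_append, List.length_replicate, List.length_cons, hzl]
    omega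

/-- the complexity bound -/
theorem K_bound {U V : List Bool →. List Bool} (hUP : Partrec U) (hVP : Partrec V) (hpf : PF V)
    (hV : OptPF V) {code : ℕ → List Bool} (hcode : Computable code)
    (hinj : Function.Injective code) : ∃ c, ∀ n i (y : List Bool), y.length = n →
      2 ^ n ≤ 2 * tcnt U i n y → cx V y ≤ cx V (code n) + 2 * i + c := by
  obtain ⟨R, hR, hmono, hRU⟩ := s1_graph hUP
  have hRU' : ∀ q x, x ∈ U q ↔ ∃ s, R (q, x) s := fun q x => hRU (q, x)
  obtain ⟨c, hc⟩ := hV _ (partrec_Mx hR hVP hcode) (Mx_pf hpf code)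
  refine ⟨c + 3, fun n i y hy h => ?_⟩
  obtain ⟨q, hq1, hq2⟩ := cx_spec (hV.exists_program (code n))
  obtain ⟨p, hp1, hp2⟩ := Mx_spec hRU' hmono hinj hy h hq1
  obtain ⟨q', h1, h2⟩ := hc p y hp1
  have := cx_le h1
  omega

end Pool.Agent.V11169.CT
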