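import Mathlib
import Pool.Agent.V11169.CT1

set_option autoImplicit false

namespace Pool.Agent.V11169.CT

open Encodable Pool.Agent.H561R3 Pool.Agent.Helper227 Pool.Agent.V11169.KR Pool.Agent.V11169.MC
open MeasureTheory

variable {U V : List Bool →. List Bool}

theorem cx_code_le (hU : Opt U) {code : ℕ → List Bool} (hcode : Computable code) :
    ∃ c1, ∀ n j, j < 2 ^ n → cx U (code (2 ^ n + j)) ≤ n + c1 := by
  have h1 : Computable fun p : List Bool => code (2 ^ p.length + ix p (strs p.length)) := by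
    have h2 : Primrec fun p : List Bool => 2 ^ p.length + ix p (strs p.length) :=
      Primrec.nat_add.comp (pr_pow.comp (Primrec.const 2) Primrec.list_length)
        (Primrec.list_idxOf.comp Primrec.id (pr_strs.comp Primrec.list_length))
    exact hcode.comp h2.to_comp
  obtain ⟨c, hc⟩ := hU _ h1.partrec
  refine ⟨c, fun n j hj => ?_⟩
  have hlen : (strs n).length = 2 ^ n := by
    have := card_FS n
    unfold FS at this
    rwa [List.toFinset_card_of_nodup (nodup_strs n)] at this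
  have hj2 : j < (strs n).length := by omega
  set p := (strs n)[j] with hp
  have hpl : p.length = n := mem_strs.1 (List.getElem_mem hj2)
  have hpi : ix p (strs n) = j := by
    unfold ix
    exact @List.Nodup.idxOf_getElem _ instBEqOfDecidableEq _ (strs n) (nodup_strs n) j hj2
  obtain ⟨q, h3, h4⟩ := hc p (code (2 ^ n + j)) (by
    simp only [PFun.coe_val, Part.mem_some_iff]
    rw [hpl, hpi])
  have := cx_le h3
  omega

theorem low_count (hU : Opt U) (Z : ℕ → Bool) (n d : ℕ) :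
    ((Finset.range (2 ^ n)).filter fun j => cx U (pre Z (2 ^ n + j)) + d ≤ n).card * 2 ^ d
      ≤ 2 ^ (n + 1) := by
  classical
  obtain ⟨c0, hc0⟩ := exists_c0 hU
  by_cases hd : d ≤ n
  · have h1 : ((Finset.range (2 ^ n)).filter fun j => cx U (pre Z (2 ^ n + j)) + d ≤ n).card
        ≤ (AS (n - d)).card := by
      have hch : ∀ j : ℕ, ∃ q, pre Z (2 ^ n + j) ∈ U q ∧ q.length = cx U (pre Z (2 ^ n + j)) :=
        fun j => cx_spec (hc0 _).1
      choose f hf using hch
      refine Finset.card_le_card_of_injOn f ?_ ?_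
      · intro j hj
        rw [Finset.mem_coe, Finset.mem_filter] at hj
        rw [Finset.mem_coe, mem_AS, (hf j).2]
        omega
      · intro j _ j' _ heq
        have a1 := (hf j).1
        have a2 := (hf j').1
        rw [heq] at a1
        have h2 := congrArg List.length (Part.mem_unique a1 a2)
        rw [length_pre, length_pre] at h2
        omega
    calc _ ≤ 2 ^ (n - d + 1) * 2 ^ d := Nat.mul_le_mul_right _ (h1.trans (card_AS_le _))
      _ = 2 ^ (n + 1) := by rw [← pow_add]; congr 1; omega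
  · have : (Finset.range (2 ^ n)).filter (fun j => cx U (pre Z (2 ^ n + j)) + d ≤ n) = ∅ := by
      rw [Finset.filter_eq_empty_iff]
      intro j _
      omega
    rw [this]; simp

theorem low_sum (hU : Opt U) (Z : ℕ → Bool) (n : ℕ) :
    ∑ j ∈ Finset.range (2 ^ n), (n - cx U (pre Z (2 ^ n + j))) ≤ 2 * 2 ^ n := by
  classical
  have h1 : ∀ j ∈ Finset.range (2 ^ n), n - cx U (pre Z (2 ^ n + j)) =
      ∑ d ∈ Finset.range n, if cx U (pre Z (2 ^ n + j)) + (d + 1) ≤ n then 1 else 0 := by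
    intro j _
    rw [← Finset.card_filter]
    have h2 : (Finset.range n).filter (fun d => cx U (pre Z (2 ^ n + j)) + (d + 1) ≤ n)
        = Finset.range (n - cx U (pre Z (2 ^ n + j))) := by
      ext d
      simp only [Finset.mem_filter, Finset.mem_range]
      omega
    rw [h2, Finset.card_range]
  rw [Finset.sum_congr rfl h1, Finset.sum_comm]
  have h3 := geom_aux (fun d => ∑ j ∈ Finset.range (2 ^ n),
    if cx U (pre Z (2 ^ n + j)) + (d + 1) ≤ n then 1 else 0) (2 ^ n) (fun d => by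
      have h4 := low_count hU Z n (d + 1)
      rw [← Finset.card_filter]
      rw [pow_succ, pow_succ] at h4
      nlinarith) n
  have h5 : (∑ d ∈ Finset.range n, ∑ j ∈ Finset.range (2 ^ n),
      if cx U (pre Z (2 ^ n + j)) + (d + 1) ≤ n then 1 else 0) * 2 ^ n ≤ (2 * 2 ^ n) * 2 ^ n := by
    omega
  exact Nat.le_of_mul_le_mul_right h5 (by positivity)

theorem tcnt_ge (hU : Opt U) (Z : ℕ → Bool) (n i : ℕ) :
    ((Finset.range (2 ^ n)).filter fun j => cx U (pre Z (2 ^ n + j)) ≤ n + i).card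
      ≤ tcnt U i n (pre Z n) := by
  classical
  obtain ⟨c0, hc0⟩ := exists_c0 hU
  unfold tcnt
  refine Finset.card_le_card ?_
  intro j hj
  rw [Finset.mem_filter] at hj ⊢
  refine ⟨hj.1, pre Z (2 ^ n + j), length_pre _ _, ?_, ?_⟩
  · rw [length_pre]
    exact take_pre Z (by have := Nat.lt_two_pow_self (n := n); omega)
  · obtain ⟨q, h1, h2⟩ := cx_spec (hc0 (pre Z (2 ^ n + j))).1
    exact ⟨q, by omega, h1⟩

theorem high_sum (hU : Opt U) {k c : ℕ} (Z : ℕ → Bool) (n : ℕ)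
    (hK : ∀ i, 2 ^ n ≤ 2 * tcnt U i n (pre Z n) → cx V (pre Z n) ≤ k + 2 * i + c) :
    (cx V (pre Z n) - (k + c)) * 2 ^ n ≤
      4 * ∑ j ∈ Finset.range (2 ^ n), (cx U (pre Z (2 ^ n + j)) - n) := by
  classical
  rcases Nat.eq_zero_or_pos (cx V (pre Z n) - (k + c)) with h0 | h0
  · rw [h0]; simp
  · set t := cx V (pre Z n) - (k + c) with ht
    set i := (t - 1) / 2 with hi
    have h1 : ¬ 2 ^ n ≤ 2 * tcnt U i n (pre Z n) := by
      intro h
      have := hK i h
      omega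
    have h2 := tcnt_ge hU Z n i
    have h3 : ((Finset.range (2 ^ n)).filter fun j => cx U (pre Z (2 ^ n + j)) ≤ n + i).card
        + ((Finset.range (2 ^ n)).filter fun j => ¬ cx U (pre Z (2 ^ n + j)) ≤ n + i).card
        = 2 ^ n := by
      rw [Finset.card_filter_add_card_filter_not, Finset.card_range]
    have h4 : (i + 1) * ((Finset.range (2 ^ n)).filter
        fun j => ¬ cx U (pre Z (2 ^ n + j)) ≤ n + i).card ≤
        ∑ j ∈ Finset.range (2 ^ n), (cx U (pre Z (2 ^ n + j)) - n) := by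
      rw [Finset.card_filter, Finset.mul_sum]
      refine Finset.sum_le_sum fun j _ => ?_
      split_ifs with h5
      · simp
      · omega
    have h5 : 2 ^ n ≤ 2 * ((Finset.range (2 ^ n)).filter
        fun j => ¬ cx U (pre Z (2 ^ n + j)) ≤ n + i).card := by omega
    have h6 : t ≤ 2 * (i + 1) := by omega
    calc t * 2 ^ n ≤ (2 * (i + 1)) * (2 * ((Finset.range (2 ^ n)).filter
          fun j => ¬ cx U (pre Z (2 ^ n + j)) ≤ n + i).card) := Nat.mul_le_mul h6 h5
      _ = 4 * ((i + 1) * ((Finset.range (2 ^ n)).filter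
          fun j => ¬ cx U (pre Z (2 ^ n + j)) ≤ n + i).card) := by ring
      _ ≤ _ := Nat.mul_le_mul_left _ h4

theorem pointwise (hU : Opt U) {k c : ℕ} (Z : ℕ → Bool) (n : ℕ)
    (hK : ∀ i, 2 ^ n ≤ 2 * tcnt U i n (pre Z n) → cx V (pre Z n) ≤ k + 2 * i + c) :
    ((cx V (pre Z n) : ℝ) - k - c - 8) * 2 ^ n ≤
      4 * ∑ j ∈ Finset.range (2 ^ n), ((cx U (pre Z (2 ^ n + j)) : ℝ) - n) := by
  have h1 := high_sum hU Z n hK
  have h2 := low_sum hU Z n
  have h3 : (((cx V (pre Z n) - (k + c)) * 2 ^ n : ℕ) : ℝ) ≤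
      ((4 * ∑ j ∈ Finset.range (2 ^ n), (cx U (pre Z (2 ^ n + j)) - n) : ℕ) : ℝ) := by
    exact_mod_cast h1
  have h4 : ((∑ j ∈ Finset.range (2 ^ n), (n - cx U (pre Z (2 ^ n + j))) : ℕ) : ℝ) ≤
      ((2 * 2 ^ n : ℕ) : ℝ) := by exact_mod_cast h2
  rw [Nat.cast_mul, Nat.cast_mul] at h3
  push_cast [-Nat.cast_sub] at h3 h4
  have h5 := MC.cast_sub_ge (cx V (pre Z n)) (k + c)
  push_cast [-Nat.cast_sub] at h5
  have h6 : ∑ j ∈ Finset.range (2 ^ n), ((cx U (pre Z (2 ^ n + j)) : ℝ) - n) =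
      ∑ j ∈ Finset.range (2 ^ n), ((cx U (pre Z (2 ^ n + j)) - n : ℕ) : ℝ)
        - ∑ j ∈ Finset.range (2 ^ n), ((n - cx U (pre Z (2 ^ n + j)) : ℕ) : ℝ) := by
    rw [← Finset.sum_sub_distrib]
    refine Finset.sum_congr rfl fun j _ => ?_
    rcases le_total (cx U (pre Z (2 ^ n + j))) n with h | h
    · rw [Nat.sub_eq_zero_of_le h, Nat.cast_sub h]; push_cast; ring
    · rw [Nat.sub_eq_zero_of_le h, Nat.cast_sub h]; push_cast; ring
  rw [h6]
  have h7 : (0 : ℝ) < 2 ^ n := by positivity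
  have h8 := mul_le_mul_of_nonneg_right h5 h7.le
  linarith

theorem main_triv (hUP : Partrec U) (hU : Opt U) (hVP : Partrec V) (hpf : PF V) (hV : OptPF V)
    {code : ℕ → List Bool} (hcode : Computable code) (hinj : Function.Injective code)
    (μ : Measure (ℕ → Bool)) [IsProbabilityMeasure μ]
    (h : ∃ c : ℝ, ∀ n : ℕ, ∫ Z, (cx U (pre Z n) : ℝ) ∂μ ≤ cx U (code n) + c) :
    ∃ c : ℝ, ∀ n : ℕ, ∫ Z, (cx V (pre Z n) : ℝ) ∂μ ≤ cx V (code n) + c := by
  obtain ⟨c1, hc1⟩ := cx_code_le hU hcode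
  obtain ⟨cK, hcK⟩ := K_bound hUP hVP hpf hV hcode hinj
  obtain ⟨c, hc⟩ := h
  refine ⟨cK + 8 + 4 * (c1 + c), fun n => ?_⟩
  have hpt : ∀ Z : ℕ → Bool, ((cx V (pre Z n) : ℝ) - cx V (code n) - cK - 8) * 2 ^ n ≤
      4 * ∑ j ∈ Finset.range (2 ^ n), ((cx U (pre Z (2 ^ n + j)) : ℝ) - n) := fun Z =>
    pointwise hU Z n fun i hi => hcK n i (pre Z n) (length_pre _ _) hi
  have i1 : Integrable (fun Z : ℕ → Bool => (cx V (pre Z n) : ℝ)) μ :=
    integrable_pre μ n (fun x => (cx V x : ℝ))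
  have i2 : ∀ m, Integrable (fun Z : ℕ → Bool => (cx U (pre Z m) : ℝ)) μ := fun m =>
    integrable_pre μ m (fun x => (cx U x : ℝ))
  have i3 : Integrable (fun Z : ℕ → Bool =>
      ((cx V (pre Z n) : ℝ) - cx V (code n) - cK - 8) * 2 ^ n) μ :=
    integrable_pre μ n (fun x => ((cx V x : ℝ) - cx V (code n) - cK - 8) * 2 ^ n)
  have i4 : ∀ j ∈ Finset.range (2 ^ n), Integrable (fun Z : ℕ → Bool =>
      (cx U (pre Z (2 ^ n + j)) : ℝ) - n) μ := fun j _ =>
    integrable_pre μ (2 ^ n + j) (fun x => (cx U x : ℝ) - n)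
  have hint := integral_mono i3 ((integrable_finsetSum _ i4).const_mul 4) hpt
  rw [integral_const_mul, integral_finsetSum _ i4] at hint
  have e1 : ∫ Z, ((cx V (pre Z n) : ℝ) - cx V (code n) - cK - 8) * 2 ^ n ∂μ =
      (∫ Z, (cx V (pre Z n) : ℝ) ∂μ - cx V (code n) - cK - 8) * 2 ^ n := by
    have e : ∀ Z : ℕ → Bool, ((cx V (pre Z n) : ℝ) - cx V (code n) - cK - 8) * 2 ^ n =
        2 ^ n * (cx V (pre Z n) : ℝ) + (- cx V (code n) - cK - 8) * 2 ^ n := fun Z => by ring
    simp only [e]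
    rw [int_affine μ i1]
    ring
  have e2 : ∀ j, ∫ Z, ((cx U (pre Z (2 ^ n + j)) : ℝ) - n) ∂μ =
      ∫ Z, (cx U (pre Z (2 ^ n + j)) : ℝ) ∂μ - n := by
    intro j
    rw [integral_sub (i2 _) (integrable_const _), integral_const]
    simp
  rw [e1] at hint
  simp only [e2] at hint
  have hj : ∀ j ∈ Finset.range (2 ^ n), ∫ Z, (cx U (pre Z (2 ^ n + j)) : ℝ) ∂μ - n
      ≤ c1 + c := by
    intro j hj
    rw [Finset.mem_range] at hj
    have h1 := hc (2 ^ n + j)
    have h2 : ((cx U (code (2 ^ n + j)) : ℕ) : ℝ) ≤ ((n + c1 : ℕ) : ℝ) := by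
      exact_mod_cast hc1 n j hj
    push_cast at h2
    linarith
  have hs := Finset.sum_le_sum hj
  rw [Finset.sum_const, Finset.card_range, nsmul_eq_mul] at hs
  push_cast at hs
  have h7 : (0 : ℝ) < 2 ^ n := by positivity
  have h8 : (∫ Z, (cx V (pre Z n) : ℝ) ∂μ - cx V (code n) - cK - 8) * 2 ^ n
      ≤ (4 * (c1 + c)) * 2 ^ n := by
    refine hint.trans ?_
    nlinarith
  have h9 := le_of_mul_le_mul_right h8 h7
  linarith

end Pool.Agent.V11169.CT
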