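import Mathlib

set_option autoImplicit false

namespace Pool.Agent.V11169

open Finset Equiv

variable {n : ℕ}

/-- content of a word -/
noncomputable def cont (v : Fin n → ℕ) : ℕ →₀ ℕ := ∑ j, Finsupp.single (v j) 1

lemma cont_apply (v : Fin n → ℕ) (k : ℕ) :
    cont v k = (univ.filter fun i => v i = k).card := by
  unfold cont
  rw [Finsupp.finsetSum_apply, Finset.card_filter]
  refine Finset.sum_congr rfl fun i _ => ?_
  rw [Finsupp.single_apply]

lemma cont_map (v : Fin n → ℕ) (f : ℕ → ℕ) : (cont v).mapDomain f = cont (fun i => f (v i)) := by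
  unfold cont
  rw [Finsupp.mapDomain_finsetSum]
  simp [Finsupp.mapDomain_single]

lemma cont_comp (v : Fin n → ℕ) (σ : Perm (Fin n)) : cont (fun i => v (σ i)) = cont v := by
  unfold cont
  exact Equiv.sum_comp σ (fun j => Finsupp.single (v j) 1)

lemma card_le_eq (v : Fin n → ℕ) (a : ℕ) :
    (univ.filter fun i => v i ≤ a).card = ∑ k ∈ range (a + 1), cont v k := by
  simp only [cont_apply]
  rw [← Finset.card_biUnion]
  · congr 1
    ext i
    simp only [mem_filter, mem_univ, true_and, mem_biUnion, mem_range]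
    constructor
    · intro h; exact ⟨v i, by omega, rfl⟩
    · rintro ⟨k, h1, h2⟩; omega
  · intro x _ y _ hxy
    rw [Function.onFun, Finset.disjoint_left]
    intro i h1 h2
    rw [mem_filter] at h1 h2
    exact hxy (h1.2.symm.trans h2.2)

lemma mono_unique (v w : Fin n → ℕ) (hv : Monotone v) (hw : Monotone w) (h : cont v = cont w) :
    v = w := by
  funext j
  have key : ∀ a, v j ≤ a ↔ w j ≤ a := by
    intro a
    rw [← Tuple.lt_card_le_iff_apply_le_of_monotone hv,
      ← Tuple.lt_card_le_iff_apply_le_of_monotone hw, card_le_eq, card_le_eq, h]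
  exact le_antisymm ((key _).mpr le_rfl) ((key _).mp le_rfl)

lemma mono_of_adj (z : Fin n → ℕ)
    (h : ∀ (i : ℕ) (h : i + 1 < n), z ⟨i, Nat.lt_of_succ_lt h⟩ ≤ z ⟨i + 1, h⟩) : Monotone z := by
  have key : ∀ (i j : ℕ) (hij : i ≤ j) (hj : j < n), z ⟨i, lt_of_le_of_lt hij hj⟩ ≤ z ⟨j, hj⟩ := by
    intro i j hij
    induction j, hij using Nat.le_induction with
    | base => intro _; exact le_rfl
    | succ j hij ih => intro hj; exact (ih (by omega)).trans (h j hj)
  intro a b hab
  exact key a b hab b.2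

/-- ties of a monotone word from adjacent ties -/
lemma tie_adj (v : Fin n → ℕ) (hv : Monotone v) (u : Fin n → Fin n)
    (h : ∀ (i : ℕ) (h : i + 1 < n), v ⟨i, Nat.lt_of_succ_lt h⟩ = v ⟨i + 1, h⟩ →
      u ⟨i, Nat.lt_of_succ_lt h⟩ < u ⟨i + 1, h⟩) (a b : Fin n)
    (hab : a < b) (he : v a = v b) : u a < u b := by
  have key : ∀ (i j : ℕ) (hij : i < j) (hj : j < n),
      v ⟨i, lt_trans hij hj⟩ = v ⟨j, hj⟩ → u ⟨i, lt_trans hij hj⟩ < u ⟨j, hj⟩ := by
    intro i j hij
    induction j, hij using Nat.le_induction with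
    | base =>
      intro hj he
      exact h i hj he
    | succ j hij ih =>
      intro hj he
      have h1 : v ⟨i, by omega⟩ ≤ v ⟨j, by omega⟩ := hv (by
        show i ≤ j
        omega)
      have h2 : v ⟨j, by omega⟩ ≤ v ⟨j + 1, hj⟩ := hv (by
        show j ≤ j + 1
        omega)
      have h3 := ih (by omega) (le_antisymm h1 (by rw [he]; exact h2))
      exact h3.trans (h j hj (le_antisymm h2 (by rw [← he]; exact h1)))
  exact key a b hab b.2 he

lemma exists_any : ∀ (n : ℕ) (a : ℕ →₀ ℕ), (a.sum fun _ c => c) = n →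
    ∃ z : Fin n → ℕ, cont z = a := by
  intro n
  induction n with
  | zero =>
    intro a ha
    refine ⟨fun i => i.elim0, ?_⟩
    have : a = 0 := by
      ext k
      by_contra hk
      have hk' : k ∈ a.support := by
        rw [Finsupp.mem_support_iff]
        intro h; exact hk (by rw [h]; rfl)
      have h1 : a k ≤ a.sum fun _ c => c :=
        Finset.single_le_sum (f := fun k => a k) (fun _ _ => Nat.zero_le _) hk'
      rw [ha] at h1
      exact hk (by rw [Nat.le_zero.mp h1]; rfl)
    rw [this]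
    unfold cont
    simp
  | succ n ih =>
    intro a ha
    have hne : a ≠ 0 := by
      rintro rfl
      simp at ha
    obtain ⟨k, hk⟩ := Finsupp.support_nonempty_iff.mpr hne
    rw [Finsupp.mem_support_iff] at hk
    have hdec : a = Finsupp.single k 1 + (a - Finsupp.single k 1) := by
      ext j
      simp only [Finsupp.add_apply, Finsupp.tsub_apply, Finsupp.single_apply]
      split_ifs with h
      · subst h; omega
      · omega
    have hsum : ((a - Finsupp.single k 1).sum fun _ c => c) = n := by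
      have h1 : (a.sum fun _ c => c) = ((Finsupp.single k 1 + (a - Finsupp.single k 1)).sum
          fun _ c => c) := by rw [← hdec]
      rw [Finsupp.sum_add_index' (fun _ => rfl) (fun _ _ _ => rfl), ha,
        Finsupp.sum_single_index rfl] at h1
      omega
    obtain ⟨z, hz⟩ := ih _ hsum
    refine ⟨Fin.cons k z, ?_⟩
    unfold cont at hz ⊢
    rw [Fin.sum_univ_succ]
    simp only [Fin.cons_zero, Fin.cons_succ]
    rw [hz]
    exact hdec.symm

lemma exists_word (n : ℕ) (a : ℕ →₀ ℕ) (ha : (a.sum fun _ c => c) = n) :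
    ∃ z : Fin n → ℕ, Monotone z ∧ cont z = a := by
  obtain ⟨z, hz⟩ := exists_any n a ha
  refine ⟨fun i => z (Tuple.sort z i), Tuple.monotone_sort z, ?_⟩
  rw [cont_comp z (Tuple.sort z), hz]

/-- exchange the two base-`N` digits of the numbers below `N * N` -/
def tr (N z : ℕ) : ℕ := if z < N * N then (z % N) * N + z / N else z

lemma tr_facts (N z : ℕ) (hz : z < N * N) :
    tr N z < N * N ∧ tr N z / N = z % N ∧ tr N z % N = z / N := by
  have h0 : 0 < N := by
    rcases Nat.eq_zero_or_pos N with h | h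
    · subst h; omega
    · exact h
  have h1 : z / N < N := (Nat.div_lt_iff_lt_mul h0).mpr hz
  have h2 : z % N < N := Nat.mod_lt z h0
  unfold tr
  rw [if_pos hz]
  refine ⟨?_, ?_, ?_⟩
  · have h5 : (z % N + 1) * N ≤ N * N := Nat.mul_le_mul_right N h2
    rw [Nat.add_mul] at h5
    omega
  · rw [mul_comm, Nat.mul_add_div h0, Nat.div_eq_of_lt h1]; rfl
  · rw [mul_comm, Nat.mul_add_mod, Nat.mod_eq_of_lt h1]

lemma tr_tr (N z : ℕ) : tr N (tr N z) = z := by
  by_cases hz : z < N * N
  · obtain ⟨h1, h2, h3⟩ := tr_facts N z hz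
    have h4 : tr N (tr N z) = (tr N z % N) * N + tr N z / N := by
      conv_lhs => rw [tr]
      rw [if_pos h1]
    rw [h4, h2, h3, mul_comm]
    exact Nat.div_add_mod z N
  · have : tr N z = z := by unfold tr; rw [if_neg hz]
    rw [this, this]

lemma pair_div (K a b : ℕ) (hb : b < K) : (a * K + b) / K = a := by
  rw [mul_comm, Nat.mul_add_div (by omega), Nat.div_eq_of_lt hb]; rfl

lemma pair_mod (K a b : ℕ) (hb : b < K) : (a * K + b) % K = b := by
  rw [mul_comm, Nat.mul_add_mod, Nat.mod_eq_of_lt hb]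

lemma pair_lt (K a b : ℕ) (ha : a < K) (hb : b < K) : a * K + b < K * K := by
  have h5 : (a + 1) * K ≤ K * K := Nat.mul_le_mul_right K ha
  rw [Nat.add_mul] at h5
  omega

lemma tr_pair (K a b : ℕ) (ha : a < K) (hb : b < K) : tr K (a * K + b) = b * K + a := by
  unfold tr
  rw [if_pos (pair_lt K a b ha hb), pair_div K a b hb, pair_mod K a b hb]

end Pool.Agent.V11169
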