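import Mathlib
import Pool.Agent.V11169.Words

set_option autoImplicit false

namespace Pool.Agent.V11169.Rot

open Finset Equiv

variable {n : ℕ}

/-- the rearrangements of a word -/
def rearr (u : Fin n → ℕ) : Finset (Fin n → ℕ) :=
  (univ : Finset (Perm (Fin n))).image (fun τ : Perm (Fin n) => u ∘ (τ : Fin n → Fin n))

lemma mem_rearr (u g : Fin n → ℕ) : g ∈ rearr u ↔ ∃ τ : Perm (Fin n), u ∘ τ = g := by
  unfold rearr
  simp

lemma rearr_comp (u g : Fin n → ℕ) (ρ : Perm (Fin n)) : g ∘ ρ ∈ rearr u ↔ g ∈ rearr u := by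
  rw [mem_rearr, mem_rearr]
  constructor
  · rintro ⟨τ, h⟩
    refine ⟨τ * ρ.symm, ?_⟩
    funext i
    have := congrFun h (ρ.symm i)
    simp only [Function.comp_apply, apply_symm_apply] at this
    simp only [Function.comp_apply, Perm.mul_apply]
    exact this
  · rintro ⟨τ, h⟩
    refine ⟨τ * ρ, ?_⟩
    rw [← h]
    rfl

/-- composing a family of words with a permutation -/
lemma card_comp (u : Fin n → ℕ) (ρ : Perm (Fin n)) (A B : (Fin n → ℕ) → Prop) [DecidablePred A]
    [DecidablePred B] (h : ∀ g, g ∈ rearr u → (A g ↔ B (g ∘ ρ))) :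
    ((rearr u).filter A).card = ((rearr u).filter B).card := by
  refine Finset.card_bij' (fun g _ => g ∘ ρ) (fun g _ => g ∘ ρ.symm) ?_ ?_ ?_ ?_
  · intro g hg
    rw [mem_filter] at hg ⊢
    exact ⟨(rearr_comp u g ρ).mpr hg.1, (h g hg.1).mp hg.2⟩
  · intro g hg
    rw [mem_filter] at hg ⊢
    have h1 : g ∘ ρ.symm ∈ rearr u := (rearr_comp u g ρ.symm).mpr hg.1
    refine ⟨h1, (h _ h1).mpr ?_⟩
    have : (g ∘ ρ.symm) ∘ ρ = g := by funext i; simp
    rw [this]; exact hg.2
  · intro g _; funext i; simp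
  · intro g _; funext i; simp

/-- increasing along the ties of `u` -/
def Ti (u : Fin n → ℕ) (π : Perm (Fin n)) : Prop := ∀ i j : Fin n, i < j → u i = u j → π i < π j

instance (u : Fin n → ℕ) (π : Perm (Fin n)) : Decidable (Ti u π) := by
  unfold Ti; infer_instance

lemma Ti_order (u : Fin n → ℕ) (hu : Monotone u) (π : Perm (Fin n)) (h : Ti u π) (b c : Fin n) :
    π.symm b < π.symm c ↔ (u (π.symm b) < u (π.symm c) ∨ (u (π.symm b) = u (π.symm c) ∧ b < c)) := by
  constructor
  · intro hbc
    rcases lt_or_eq_of_le (hu hbc.le) with h1 | h1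
    · exact Or.inl h1
    · right
      refine ⟨h1, ?_⟩
      have := h _ _ hbc h1
      simpa using this
  · intro hh
    by_contra hcon
    rw [not_lt] at hcon
    rcases lt_or_eq_of_le hcon with h1 | h1
    · rcases hh with h2 | ⟨h2, h3⟩
      · exact absurd (hu hcon) (not_le.mpr h2)
      · have := h _ _ h1 h2.symm
        simp only [apply_symm_apply] at this
        exact lt_asymm this h3
    · rw [h1] at hh
      rcases hh with h2 | ⟨_, h3⟩
      · exact lt_irrefl _ h2
      · have : c = b := π.symm.injective h1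
        rw [this] at h3
        exact lt_irrefl _ h3

/-- standardisation count -/
lemma std_count (u : Fin n → ℕ) (hu : Monotone u) (Q : (Fin n → ℕ) → Prop) [DecidablePred Q] :
    ((univ : Finset (Perm (Fin n))).filter (fun π => Ti u π ∧ Q (u ∘ π.symm))).card =
      ((rearr u).filter Q).card := by
  refine Finset.card_bij' (fun π _ => u ∘ π.symm) (fun g _ => Tuple.sort g) ?_ ?_ ?_ ?_
  · intro π hπ
    rw [mem_filter] at hπ ⊢
    exact ⟨(mem_rearr _ _).mpr ⟨π.symm, rfl⟩, hπ.2.2⟩
  · intro g hg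
    rw [mem_filter] at hg ⊢
    obtain ⟨τ, hτ⟩ := (mem_rearr _ _).mp hg.1
    have h1 : g ∘ Tuple.sort g = u := by
      apply Pool.Agent.V11169.mono_unique _ _ (Tuple.monotone_sort g) hu
      have e1 := Pool.Agent.V11169.cont_comp g (Tuple.sort g)
      have e2 := Pool.Agent.V11169.cont_comp u τ
      have e3 : Pool.Agent.V11169.cont (fun i => u (τ i)) = Pool.Agent.V11169.cont g :=
        congrArg _ hτ
      calc Pool.Agent.V11169.cont (g ∘ Tuple.sort g) = Pool.Agent.V11169.cont g := e1
        _ = Pool.Agent.V11169.cont (fun i => u (τ i)) := e3.symm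
        _ = Pool.Agent.V11169.cont u := e2
    have h2 : u ∘ (Tuple.sort g).symm = g := by
      rw [← h1]
      funext i
      simp
    refine ⟨mem_univ _, ?_, ?_⟩
    · have := (Tuple.eq_sort_iff (f := g) (σ := Tuple.sort g)).mp rfl
      intro i j hij he
      apply this.2 i j hij
      have e1 := congrFun h1 i
      have e2 := congrFun h1 j
      simp only [Function.comp_apply] at e1 e2
      rw [e1, e2, he]
    · rw [h2]; exact hg.2
  · intro π hπ
    rw [mem_filter] at hπ
    symm
    rw [Tuple.eq_sort_iff]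
    constructor
    · have : (u ∘ π.symm) ∘ π = u := by funext i; simp
      rw [this]; exact hu
    · intro i j hij he
      simp only [Function.comp_apply, symm_apply_apply] at he
      exact hπ.2.1 i j hij he
  · intro g hg
    rw [mem_filter] at hg
    obtain ⟨τ, hτ⟩ := (mem_rearr _ _).mp hg.1
    have h1 : g ∘ Tuple.sort g = u := by
      apply Pool.Agent.V11169.mono_unique _ _ (Tuple.monotone_sort g) hu
      have e1 := Pool.Agent.V11169.cont_comp g (Tuple.sort g)
      have e2 := Pool.Agent.V11169.cont_comp u τ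
      have e3 : Pool.Agent.V11169.cont (fun i => u (τ i)) = Pool.Agent.V11169.cont g :=
        congrArg _ hτ
      calc Pool.Agent.V11169.cont (g ∘ Tuple.sort g) = Pool.Agent.V11169.cont g := e1
        _ = Pool.Agent.V11169.cont (fun i => u (τ i)) := e3.symm
        _ = Pool.Agent.V11169.cont u := e2
    show u ∘ (Tuple.sort g).symm = g
    rw [← h1]
    funext i
    simp

/-- the variant with a left factor -/
lemma std_count' (u : Fin n → ℕ) (hu : Monotone u) (ρ : Perm (Fin n)) (Q : (Fin n → ℕ) → Prop)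
    [DecidablePred Q] :
    ((univ : Finset (Perm (Fin n))).filter (fun σ => Ti u (ρ * σ) ∧ Q (u ∘ σ.symm))).card =
      ((rearr u).filter Q).card := by
  have h1 : ((rearr u).filter (fun g => Q (g ∘ ρ))).card = ((rearr u).filter Q).card :=
    card_comp u ρ _ _ (fun g _ => Iff.rfl)
  rw [← h1, ← std_count u hu]
  refine Finset.card_bij' (fun σ _ => ρ * σ) (fun π _ => ρ⁻¹ * π) ?_ ?_ ?_ ?_
  · intro σ hσ
    rw [mem_filter] at hσ ⊢
    refine ⟨mem_univ _, hσ.2.1, ?_⟩
    have : (u ∘ (ρ * σ).symm) ∘ ρ = u ∘ σ.symm := by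
      funext i
      simp [Perm.mul_def]
    rw [this]; exact hσ.2.2
  · intro π hπ
    rw [mem_filter] at hπ ⊢
    refine ⟨mem_univ _, ?_, ?_⟩
    · rw [mul_inv_cancel_left]; exact hπ.2.1
    · have : u ∘ (ρ⁻¹ * π).symm = (u ∘ π.symm) ∘ ρ := by
        funext i
        simp [Perm.mul_def, Perm.inv_def]
      rw [this]; exact hπ.2.2
  · intro σ _; simp
  · intro π _; simp

/-- the step word of a set of positive integers -/
def stp (I : Finset ℕ) : Fin n → ℕ := fun p => (I.filter (fun i => i ≤ (p : ℕ))).card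

lemma stp_mono (I : Finset ℕ) : Monotone (stp I : Fin n → ℕ) := by
  intro a b hab
  unfold stp
  apply card_le_card
  intro i hi
  rw [mem_filter] at hi ⊢
  exact ⟨hi.1, hi.2.trans hab⟩

lemma stp_adj (I : Finset ℕ) (a b : Fin n) (h : (b : ℕ) = a + 1) :
    stp I a = stp I b ↔ (b : ℕ) ∉ I := by
  unfold stp
  constructor
  · intro h1 hb
    have : (I.filter (fun i => i ≤ (a : ℕ))) ⊂ (I.filter (fun i => i ≤ (b : ℕ))) := by
      rw [Finset.ssubset_iff_of_subset]
      · refine ⟨b, ?_, ?_⟩
        · rw [mem_filter]; exact ⟨hb, le_rfl⟩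
        · rw [mem_filter]; rintro ⟨_, h2⟩; omega
      · intro i hi
        rw [mem_filter] at hi ⊢
        exact ⟨hi.1, by omega⟩
    exact absurd h1 (card_lt_card this).ne
  · intro hb
    congr 1
    ext i
    rw [mem_filter, mem_filter]
    constructor
    · rintro ⟨h1, h2⟩; exact ⟨h1, by omega⟩
    · rintro ⟨h1, h2⟩
      refine ⟨h1, ?_⟩
      rcases Nat.lt_or_ge i b with h3 | h3
      · omega
      · have : i = b := le_antisymm h2 h3
        rw [this] at h1
        exact absurd h1 hb

/-- ties of the step word are the adjacent non-descents -/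
lemma Ti_stp (I : Finset ℕ) (π : Perm (Fin n)) :
    Ti (stp I) π ↔ ∀ a b : Fin n, (b : ℕ) = a + 1 → (b : ℕ) ∉ I → π a < π b := by
  constructor
  · intro h a b hab hb
    exact h a b (by show (a : ℕ) < b; omega) ((stp_adj I a b hab).mpr hb)
  · intro h i j hij he
    refine Pool.Agent.V11169.tie_adj (stp I) (stp_mono I) (fun i => π i) ?_ i j hij he
    intro i hi he
    have hab : ((⟨i + 1, hi⟩ : Fin n) : ℕ) = ((⟨i, Nat.lt_of_succ_lt hi⟩ : Fin n) : ℕ) + 1 := rfl
    exact h _ _ hab ((stp_adj I _ _ hab).mp he)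

end Pool.Agent.V11169.Rot
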