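import Mathlib
import Pool.Agent.V11169.Rot1

set_option autoImplicit false

namespace Pool.Agent.V11169.Rot

open Finset Equiv

/-- the local transformation of the two systems of inequalities -/
lemma core (N d e : ℕ) (P : ℕ → Prop) (G G' : ℕ → ℕ) (hd : d ≤ e) (he : e < N)
    (hP : ∀ a, d ≤ a → a < e → P a) (hPe : ¬ P e) (hPN : ∀ a, P a → a + 1 < N)
    (h1 : ∀ p, p < d → G' p = G p) (h2 : ∀ p, d ≤ p → p < e → G' p = G (p + 1))
    (h3 : G' e = G N) (h4 : ∀ p, e < p → p < N → G' p = G p) (h5 : G' N = G d) :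
    ((∀ b, b ≤ d → G b < G N) ∧ (∀ b, d < b → b ≤ N → G b ≤ G N) ∧
      (∀ a, P a → G a ≤ G (a + 1)) ∧ (P d → G d < G (d + 1))) ↔
    ((∀ a, P a → G' a ≤ G' (a + 1)) ∧ G' N < G' d ∧ (∀ p, p ≤ N → G' p ≤ G' e) ∧
      (∀ p, p < d → G' p < G' e) ∧
      (∀ p, p < d → (∀ a, p ≤ a → a < d → P a) → G' p ≤ G' N)) := by
  constructor
  · rintro ⟨a1, a2, a3, a4⟩
    have hmax : ∀ p, p ≤ N → G p ≤ G N := by
      intro p hp
      rcases Nat.lt_or_ge d p with hh | hh
      · exact a2 p hh hp
      · exact (a1 p hh).le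
    have b2 : G' N < G' d := by
      rw [h5]
      rcases Nat.eq_or_lt_of_le hd with hde | hde
      · rw [hde, h3]
        have := a1 d le_rfl
        rw [hde] at this; exact this
      · rw [h2 d le_rfl hde]
        exact a4 (hP d le_rfl hde)
    refine ⟨?_, b2, ?_, ?_, ?_⟩
    · intro a ha
      have haN := hPN a ha
      rcases Nat.lt_or_ge (a + 1) d with hh | hh
      · rw [h1 a (by omega), h1 (a + 1) hh]; exact a3 a ha
      rcases Nat.eq_or_lt_of_le hh with hh1 | hh1
      · rw [h1 a (by omega), ← hh1]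
        have e1 := a3 a ha
        rw [← hh1, ← h5] at e1
        exact e1.trans b2.le
      rcases Nat.lt_or_ge a e with hh2 | hh2
      · rw [h2 a (by omega) hh2]
        rcases Nat.lt_or_ge (a + 1) e with hh3 | hh3
        · rw [h2 (a + 1) (by omega) hh3]
          exact a3 (a + 1) (hP _ (by omega) hh3)
        · have : a + 1 = e := by omega
          rw [this, h3]
          exact hmax e he.le
      rcases Nat.eq_or_lt_of_le hh2 with hh3 | hh3
      · rw [hh3] at hPe; exact absurd ha hPe
      · rw [h4 a hh3 (by omega), h4 (a + 1) (by omega) haN]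
        exact a3 a ha
    · intro p hp
      rw [h3]
      rcases Nat.lt_or_ge p d with hh | hh
      · rw [h1 p hh]; exact hmax p hp
      rcases Nat.lt_or_ge p e with hh2 | hh2
      · rw [h2 p hh hh2]; exact hmax _ (by omega)
      rcases Nat.eq_or_lt_of_le hh2 with hh3 | hh3
      · rw [← hh3, h3]
      rcases Nat.eq_or_lt_of_le hp with hh4 | hh4
      · rw [hh4, h5]; exact hmax _ (by omega)
      · rw [h4 p hh3 hh4]; exact hmax p hp
    · intro p hp
      rw [h3, h1 p hp]
      exact a1 p hp.le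
    · intro p hp hlink
      have key : ∀ q, p ≤ q → q ≤ d → G p ≤ G q := by
        intro q hq
        induction q, hq using Nat.le_induction with
        | base => intro _; exact le_rfl
        | succ q hq ih =>
          intro hqd
          exact (ih (by omega)).trans (a3 q (hlink q hq (by omega)))
      rw [h1 p hp, h5]
      exact key d hp.le le_rfl
  · rintro ⟨b1, b2, b3, b4, b5⟩
    have hGd : G d < G N := by
      rw [← h5, ← h3]
      exact lt_of_lt_of_le b2 (b3 d (by omega))
    have hmax : ∀ p, p ≤ N → G p ≤ G N := by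
      intro p hp
      rcases Nat.lt_or_ge p d with hh | hh
      · rw [← h1 p hh, ← h3]; exact b3 p hp
      rcases Nat.eq_or_lt_of_le hh with hh1 | hh1
      · rw [← hh1]; exact hGd.le
      rcases Nat.lt_or_ge e p with hh2 | hh2
      · rcases Nat.eq_or_lt_of_le hp with hh4 | hh4
        · rw [hh4]
        · rw [← h4 p hh2 hh4, ← h3]; exact b3 p hp
      · have e1 := h2 (p - 1) (by omega) (by omega)
        rw [show p - 1 + 1 = p by omega] at e1
        rw [← e1, ← h3]
        exact b3 (p - 1) (by omega)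
    refine ⟨?_, ?_, ?_, ?_⟩
    · intro b hb
      rcases Nat.eq_or_lt_of_le hb with hh | hh
      · rw [hh]; exact hGd
      · rw [← h1 b hh, ← h3]; exact b4 b hh
    · intro b _ hb
      exact hmax b hb
    · intro a ha
      have haN := hPN a ha
      rcases Nat.lt_or_ge (a + 1) d with hh | hh
      · rw [← h1 a (by omega), ← h1 (a + 1) hh]; exact b1 a ha
      rcases Nat.eq_or_lt_of_le hh with hh1 | hh1
      · rw [← h1 a (by omega), ← hh1, ← h5]
        refine b5 a (by omega) ?_
        intro c hc hc'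
        have : c = a := by omega
        rw [this]; exact ha
      rcases Nat.eq_or_lt_of_le (show d ≤ a by omega) with hh2 | hh2
      · rcases Nat.eq_or_lt_of_le hd with hde | hde
        · rw [← hde, hh2] at hPe; exact absurd ha hPe
        · rw [← hh2, ← h5, ← h2 d le_rfl hde]
          exact b2.le
      rcases Nat.lt_or_ge a e with hh3 | hh3
      · rw [← h2 a (by omega) hh3]
        have e1 := h2 (a - 1) (by omega) (by omega)
        rw [show a - 1 + 1 = a by omega] at e1
        rw [← e1]
        have e2 := b1 (a - 1) (hP _ (by omega) (by omega))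
        rw [show a - 1 + 1 = a by omega] at e2
        exact e2
      rcases Nat.eq_or_lt_of_le hh3 with hh4 | hh4
      · rw [hh4] at hPe; exact absurd ha hPe
      · rw [← h4 a hh4 (by omega), ← h4 (a + 1) (by omega) haN]
        exact b1 a ha
    · intro hPd
      rcases Nat.eq_or_lt_of_le hd with hde | hde
      · rw [← hde] at hPe; exact absurd hPd hPe
      · rw [← h5, ← h2 d le_rfl hde]
        exact b2

/-- the end of the block of `d` -/
lemma exists_end (N d : ℕ) (P : ℕ → Prop) (hd : d < N) (hPN : ∀ a, P a → a + 1 < N) :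
    ∃ e, d ≤ e ∧ e < N ∧ (∀ a, d ≤ a → a < e → P a) ∧ ¬ P e := by
  classical
  have hex : ∃ e, d ≤ e ∧ ¬ P e := ⟨N - 1, by omega, fun h => by have := hPN _ h; omega⟩
  refine ⟨Nat.find hex, (Nat.find_spec hex).1, ?_, ?_, (Nat.find_spec hex).2⟩
  · have : Nat.find hex ≤ N - 1 :=
      Nat.find_min' hex ⟨by omega, fun h => by have := hPN _ h; omega⟩
    omega
  · intro a ha hae
    by_contra hcon
    exact Nat.find_min hex hae ⟨ha, hcon⟩

/-- the property that characterises the rotation index of a word on the horizontal side -/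
def HD (N : ℕ) (P : ℕ → Prop) (G : ℕ → ℕ) (d : ℕ) : Prop :=
  G N < G d ∧ (∀ p, p < d → (∀ a, p ≤ a → a < d → P a) → G p ≤ G N) ∧
    ∃ e, d ≤ e ∧ e < N ∧ (∀ a, d ≤ a → a < e → P a) ∧ ¬ P e ∧ (∀ p, p ≤ N → G p ≤ G e) ∧
      (∀ p, p < d → G p < G e)

lemma HD_unique (N : ℕ) (P : ℕ → Prop) (G : ℕ → ℕ) (d d' : ℕ) (h : HD N P G d)
    (h' : HD N P G d') : d = d' := by
  by_contra hne
  wlog hlt : d < d' generalizing d d' with H
  · exact H d' d h' h (Ne.symm hne) (by omega)
  obtain ⟨a1, a2, e, a3, a4, a5, a6, a7, a8⟩ := h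
  obtain ⟨b1, b2, e', b3, b4, b5, b6, b7, b8⟩ := h'
  rcases Nat.lt_or_ge e d' with hh | hh
  · have := b8 e hh
    have := a7 e' (by omega)
    omega
  · have := b2 d hlt (fun a ha hb => a5 a ha (by omega))
    omega

lemma HD_exists (N : ℕ) (P : ℕ → Prop) (G : ℕ → ℕ) (hPN : ∀ a, P a → a + 1 < N)
    (hG : ∀ a, P a → G a ≤ G (a + 1)) (hN : ∃ p, p ≤ N ∧ G N < G p) :
    ∃ d, d < N ∧ HD N P G d := by
  classical
  -- the maximum
  obtain ⟨q, hq, hqm⟩ := Finset.exists_max_image (Finset.range (N + 1)) G ⟨0, by simp⟩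
  rw [Finset.mem_range] at hq
  have hqm' : ∀ p, p ≤ N → G p ≤ G q := fun p hp => hqm p (by rw [Finset.mem_range]; omega)
  have hqN : G N < G q := by
    obtain ⟨p, hp, hp'⟩ := hN
    exact lt_of_lt_of_le hp' (hqm' p hp)
  have hex : ∃ p, G p = G q := ⟨q, rfl⟩
  set p0 := Nat.find hex with hp0
  have hp0q : G p0 = G q := Nat.find_spec hex
  have hp0min : ∀ p, p < p0 → G p < G q := by
    intro p hp
    have h1 := Nat.find_min hex hp
    have h2 := hqm' p (by
      have : p0 ≤ q := Nat.find_min' hex rfl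
      omega)
    exact lt_of_le_of_ne h2 h1
  have hp0N : p0 < N := by
    have : p0 ≤ q := Nat.find_min' hex rfl
    rcases Nat.eq_or_lt_of_le (show p0 ≤ N by omega) with h | h
    · rw [h] at hp0q; omega
    · exact h
  have hex2 : ∃ d, d ≤ p0 ∧ G N < G d ∧ (∀ a, d ≤ a → a < p0 → P a) :=
    ⟨p0, le_rfl, by rw [hp0q]; exact hqN, fun a ha hb => by omega⟩
  set d := Nat.find hex2 with hd
  obtain ⟨c1, c2, c3⟩ := Nat.find_spec hex2
  rw [← hd] at c1 c2 c3
  obtain ⟨e, e1, e2, e3, e4⟩ := exists_end N p0 P hp0N hPN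
  have hup : ∀ r, p0 ≤ r → r ≤ e → G p0 ≤ G r := by
    intro r hr
    induction r, hr using Nat.le_induction with
    | base => intro _; exact le_rfl
    | succ r hr ih =>
      intro hre
      exact (ih (by omega)).trans (hG r (e3 r hr (by omega)))
  have hGe : G e = G q := le_antisymm (hqm' e (by omega)) (by rw [← hp0q]; exact hup e e1 le_rfl)
  refine ⟨d, by omega, c2, ?_, e, by omega, e2, ?_, e4, ?_, ?_⟩
  · intro p hp hlink
    by_contra hcon
    rw [not_le] at hcon
    refine Nat.find_min hex2 hp ⟨by omega, hcon, ?_⟩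
    intro a ha hb
    rcases Nat.lt_or_ge a d with h | h
    · exact hlink a ha h
    · exact c3 a h hb
  · intro a ha hb
    rcases Nat.lt_or_ge a p0 with h | h
    · exact c3 a ha h
    · exact e3 a h hb
  · intro p hp
    rw [hGe]; exact hqm' p hp
  · intro p hp
    rw [hGe]; exact hp0min p (by omega)

/-- the block rotation, as a function -/
def cfun (N d e p : ℕ) : ℕ :=
  if p = N then d else if p < d then p else if p < e then p + 1 else if p = e then N else p

def cinv (N d e q : ℕ) : ℕ :=
  if q = N then e else if q < d then q else if q = d then N else if q ≤ e then q - 1 else q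

/-- the block rotation -/
def cper (N d e : ℕ) (hd : d ≤ e) (he : e < N) : Perm (Fin (N + 1)) where
  toFun p := ⟨cfun N d e p, by unfold cfun; split_ifs <;> omega⟩
  invFun q := ⟨cinv N d e q, by unfold cinv; split_ifs <;> omega⟩
  left_inv p := by
    apply Fin.ext
    show cinv N d e (cfun N d e p) = p
    have := p.2
    unfold cfun cinv
    split_ifs <;> omega
  right_inv q := by
    apply Fin.ext
    show cfun N d e (cinv N d e q) = q
    have := q.2
    unfold cfun cinv
    split_ifs <;> omega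

/-- extension of a word to the natural numbers -/
def ext {N : ℕ} (g : Fin (N + 1) → ℕ) (p : ℕ) : ℕ := if h : p < N + 1 then g ⟨p, h⟩ else 0

lemma ext_val {N : ℕ} (g : Fin (N + 1) → ℕ) (a : Fin (N + 1)) : ext g a = g a := by
  unfold ext; rw [dif_pos a.2]

lemma ext_comp {N : ℕ} (g : Fin (N + 1) → ℕ) (d e : ℕ) (hd : d ≤ e) (he : e < N) (p : ℕ)
    (hp : p < N + 1) : ext (g ∘ cper N d e hd he) p = ext g (cfun N d e p) := by
  have h1 : cfun N d e p < N + 1 := by unfold cfun; split_ifs <;> omega
  unfold ext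
  rw [dif_pos hp, dif_pos h1]
  rfl

end Pool.Agent.V11169.Rot
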