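import Mathlib
import Pool.Agent.V11169.Rot2

set_option autoImplicit false

namespace Pool.Agent.V11169.Rot

open Finset Equiv

variable {N : ℕ}

lemma add_lt (a b k : Fin (N + 1)) (hab : (a : ℕ) < b) :
    a + k < b + k ↔ ¬ ((a : ℕ) + k ≤ N ∧ N < (b : ℕ) + k) := by
  rw [Fin.lt_def, Fin.val_add, Fin.val_add]
  have h1 := a.2
  have h2 := b.2
  have h3 := k.2
  have key : ∀ x, x < 2 * (N + 1) → x % (N + 1) = if x < N + 1 then x else x - (N + 1) := by
    intro x hx
    split_ifs with h
    · exact Nat.mod_eq_of_lt h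
    · rw [Nat.mod_eq_sub_mod (by omega)]
      exact Nat.mod_eq_of_lt (by omega)
  rw [key _ (by omega), key _ (by omega)]
  split_ifs <;> omega

/-- unique index counting -/
lemma card_unique {α ι : Type*} [Fintype ι] [DecidableEq α] [DecidableEq ι] (S : Finset α)
    (D : ι → α → Prop) [∀ i, DecidablePred (D i)] (h : ∀ x ∈ S, ∃! i, D i x) :
    S.card = ∑ i : ι, (S.filter (D i)).card := by
  classical
  have h1 : ∑ i : ι, (S.filter (D i)).card = ∑ x ∈ S, ((univ : Finset ι).filter (fun i => D i x)).card := by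
    simp only [card_filter]
    exact Finset.sum_comm
  rw [h1, Finset.card_eq_sum_ones]
  refine Finset.sum_congr rfl fun x hx => ?_
  obtain ⟨i, hi, hu⟩ := h x hx
  symm
  rw [Finset.card_eq_one]
  refine ⟨i, ?_⟩
  ext j
  rw [mem_filter, mem_singleton]
  constructor
  · intro hj; exact hu j hj.2
  · rintro rfl; exact ⟨mem_univ _, hi⟩

/-- the link relation -/
def Lk (N : ℕ) (J : Finset ℕ) (a : ℕ) : Prop := a + 1 < N ∧ a + 1 ∉ J

/-- weakly increasing along links -/
def HC (J : Finset ℕ) (f : Fin (N + 1) → ℕ) : Prop :=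
  ∀ a b : Fin (N + 1), (b : ℕ) = a + 1 → (b : ℕ) < N → (b : ℕ) ∉ J → f a ≤ f b

def QV (J : Finset ℕ) (k : Fin (N + 1)) (f : Fin (N + 1) → ℕ) : Prop :=
  (∀ b : Fin (N + 1), b ≠ Fin.last N → f b < f (Fin.last N) ∨
      (f b = f (Fin.last N) ∧ b + k < Fin.last N + k)) ∧
  (∀ a b : Fin (N + 1), (b : ℕ) = a + 1 → (b : ℕ) < N → (b : ℕ) ∉ J →
    f a < f b ∨ (f a = f b ∧ a + k < b + k))

def HK (J : Finset ℕ) (k : Fin (N + 1)) (f : Fin (N + 1) → ℕ) : Prop :=
  (k = 0 ∧ ∀ b, f b ≤ f (Fin.last N)) ∨ (k ≠ 0 ∧ HD N (Lk N J) (ext f) (N - k))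

lemma HC_iff (J : Finset ℕ) (f : Fin (N + 1) → ℕ) :
    HC J f ↔ ∀ a, Lk N J a → ext f a ≤ ext f (a + 1) := by
  constructor
  · rintro h a ⟨h1, h2⟩
    have := h ⟨a, by omega⟩ ⟨a + 1, by omega⟩ rfl h1 h2
    rw [← ext_val f, ← ext_val f] at this
    exact this
  · intro h a b hab h1 h2
    have := h a ⟨by omega, by rw [← hab]; exact h2⟩
    rw [← hab, ext_val, ext_val] at this
    exact this

lemma QV_zero (J : Finset ℕ) (f : Fin (N + 1) → ℕ) :
    QV J 0 f ↔ HC J f ∧ ∀ b, f b ≤ f (Fin.last N) := by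
  unfold QV HC
  simp only [add_zero]
  constructor
  · rintro ⟨h1, h2⟩
    refine ⟨?_, ?_⟩
    · intro a b hab hb hJ
      rcases h2 a b hab hb hJ with h | h
      · exact h.le
      · exact h.1.le
    · intro b
      by_cases hb : b = Fin.last N
      · rw [hb]
      · rcases h1 b hb with h | h
        · exact h.le
        · exact h.1.le
  · rintro ⟨h1, h2⟩
    refine ⟨?_, ?_⟩
    · intro b hb
      rcases lt_or_eq_of_le (h2 b) with h | h
      · exact Or.inl h
      · exact Or.inr ⟨h, lt_of_le_of_ne (Fin.le_last b) hb⟩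
    · intro a b hab hb hJ
      rcases lt_or_eq_of_le (h1 a b hab hb hJ) with h | h
      · exact Or.inl h
      · exact Or.inr ⟨h, by rw [Fin.lt_def]; omega⟩

lemma QV_pos (J : Finset ℕ) (k : Fin (N + 1)) (hk : k ≠ 0) (f : Fin (N + 1) → ℕ) :
    QV J k f ↔ ((∀ b, b ≤ N - (k : ℕ) → ext f b < ext f N) ∧
      (∀ b, N - (k : ℕ) < b → b ≤ N → ext f b ≤ ext f N) ∧
      (∀ a, Lk N J a → ext f a ≤ ext f (a + 1)) ∧
      (Lk N J (N - k) → ext f (N - k) < ext f (N - k + 1))) := by
  have hk0 : 0 < (k : ℕ) := by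
    rcases Nat.eq_zero_or_pos (k : ℕ) with h | h
    · exact absurd (Fin.ext h) hk
    · exact h
  have hkN := k.2
  have hlast : ext f N = f (Fin.last N) := ext_val f (Fin.last N)
  constructor
  · rintro ⟨h1, h2⟩
    refine ⟨?_, ?_, ?_, ?_⟩
    · intro b hb
      have hbl : (⟨b, by omega⟩ : Fin (N + 1)) ≠ Fin.last N := by
        intro h; have := congrArg Fin.val h; simp at this; omega
      rw [hlast]
      have he : ext f b = f ⟨b, by omega⟩ := ext_val f ⟨b, by omega⟩
      rw [he]
      rcases h1 ⟨b, by omega⟩ hbl with h | ⟨_, h⟩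
      · exact h
      · exfalso
        rw [add_lt _ _ _ (by show b < N; omega)] at h
        apply h
        exact ⟨by show b + (k : ℕ) ≤ N; omega, by show N < N + (k : ℕ); omega⟩
    · intro b _ hb
      rw [hlast]
      have he : ext f b = f ⟨b, by omega⟩ := ext_val f ⟨b, by omega⟩
      rw [he]
      by_cases hbl : (⟨b, by omega⟩ : Fin (N + 1)) = Fin.last N
      · rw [hbl]
      · rcases h1 ⟨b, by omega⟩ hbl with h | h
        · exact h.le
        · exact h.1.le
    · rw [← HC_iff]
      intro a b hab hb hJ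
      rcases h2 a b hab hb hJ with h | h
      · exact h.le
      · exact h.1.le
    · rintro ⟨h3, h4⟩
      have he : ext f (N - k) = f ⟨N - k, by omega⟩ := ext_val f ⟨N - k, by omega⟩
      have he' : ext f (N - k + 1) = f ⟨N - k + 1, by omega⟩ := ext_val f ⟨N - k + 1, by omega⟩
      rw [he, he']
      rcases h2 ⟨N - k, by omega⟩ ⟨N - k + 1, by omega⟩ rfl h3 h4 with h | ⟨_, h⟩
      · exact h
      · exfalso
        rw [add_lt _ _ _ (by show N - (k : ℕ) < N - k + 1; omega)] at h
        apply h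
        exact ⟨by show N - (k : ℕ) + k ≤ N; omega, by show N < N - (k : ℕ) + 1 + k; omega⟩
  · rintro ⟨h1, h2, h3, h4⟩
    refine ⟨?_, ?_⟩
    · intro b hb
      have hbN : (b : ℕ) < N := by
        have := Fin.val_lt_last hb
        exact this
      rw [← hlast, ← ext_val f b]
      rcases Nat.lt_or_ge (N - (k : ℕ)) b with h | h
      · rcases lt_or_eq_of_le (h2 b h (by omega)) with h' | h'
        · exact Or.inl h'
        · right
          refine ⟨h', ?_⟩
          rw [add_lt _ _ _ (by show (b : ℕ) < N; exact hbN)]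
          rintro ⟨h5, _⟩
          omega
      · exact Or.inl (h1 b h)
    · intro a b hab hb hJ
      rw [← ext_val f a, ← ext_val f b]
      have hL : Lk N J a := ⟨by omega, by rw [← hab]; exact hJ⟩
      by_cases hak : (a : ℕ) = N - k
      · left
        rw [hab, hak]
        exact h4 (by rw [← hak]; exact hL)
      · have h5 := h3 a hL
        rw [← hab] at h5
        rcases lt_or_eq_of_le h5 with h' | h'
        · exact Or.inl h'
        · right
          refine ⟨h', ?_⟩
          rw [add_lt _ _ _ (by omega)]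
          rintro ⟨h6, h7⟩
          omega

open Classical in
/-- for each rotation index the two families of words are equinumerous -/
lemma card_k (u : Fin (N + 1) → ℕ) (J : Finset ℕ) (k : Fin (N + 1)) :
    ((rearr u).filter (QV J k)).card = ((rearr u).filter (fun f => HC J f ∧ HK J k f)).card := by
  by_cases hk : k = 0
  · subst hk
    congr 1
    apply filter_congr
    intro f _
    rw [QV_zero]
    constructor
    · rintro ⟨h1, h2⟩; exact ⟨h1, Or.inl ⟨rfl, h2⟩⟩
    · rintro ⟨h1, h2⟩
      refine ⟨h1, ?_⟩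
      rcases h2 with h2 | h2
      · exact h2.2
      · exact absurd rfl h2.1
  · have hk0 : 0 < (k : ℕ) := by
      rcases Nat.eq_zero_or_pos (k : ℕ) with h | h
      · exact absurd (Fin.ext h) hk
      · exact h
    have hkN := k.2
    have hPN : ∀ a, Lk N J a → a + 1 < N := fun a h => h.1
    obtain ⟨e, e1, e2, e3, e4⟩ := exists_end N (N - k) (Lk N J) (by omega) hPN
    refine card_comp u (cper N (N - k) e e1 e2) _ _ ?_
    intro g _
    rw [QV_pos J k hk, core N (N - k) e (Lk N J) (ext g) (ext (g ∘ cper N (N - k) e e1 e2)) e1 e2 e3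
      e4 hPN, HC_iff]
    · unfold HK
      constructor
      · rintro ⟨h1, h2, h3, h4, h5⟩
        exact ⟨h1, Or.inr ⟨hk, h2, h5, e, e1, e2, e3, e4, h3, h4⟩⟩
      · rintro ⟨h1, h2⟩
        rcases h2 with h2 | ⟨_, h2, h3, e', e1', e2', e3', e4', h4, h5⟩
        · exact absurd h2.1 hk
        · have hee : e = e' := by
            rcases lt_trichotomy e e' with h | h | h
            · exact absurd (e3' e e1 h) e4
            · exact h
            · exact absurd (e3 e' e1' h) e4'
          rw [← hee] at h4 h5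
          exact ⟨h1, h2, h4, h5, h3⟩
    · intro p hp
      rw [ext_comp _ _ _ _ _ _ (by omega)]
      congr 1
      unfold cfun; split_ifs <;> omega
    · intro p hp hp'
      rw [ext_comp _ _ _ _ _ _ (by omega)]
      congr 1
      unfold cfun; split_ifs <;> omega
    · rw [ext_comp _ _ _ _ _ _ (by omega)]
      congr 1
      unfold cfun; split_ifs <;> omega
    · intro p hp hp'
      rw [ext_comp _ _ _ _ _ _ (by omega)]
      congr 1
      unfold cfun; split_ifs <;> omega
    · rw [ext_comp _ _ _ _ _ _ (by omega)]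
      congr 1
      unfold cfun; split_ifs <;> omega

lemma HK_unique (J : Finset ℕ) (f : Fin (N + 1) → ℕ) (hf : HC J f) : ∃! k, HK J k f := by
  have hPN : ∀ a, Lk N J a → a + 1 < N := fun a h => h.1
  have hlast : ext f N = f (Fin.last N) := ext_val f (Fin.last N)
  by_cases hmax : ∀ b, f b ≤ f (Fin.last N)
  · refine ⟨0, Or.inl ⟨rfl, hmax⟩, ?_⟩
    rintro k (⟨h, _⟩ | ⟨h1, h2, _⟩)
    · exact h
    · exfalso
      rw [hlast] at h2
      have he : ext f (N - k) = f ⟨N - k, by omega⟩ := ext_val f ⟨N - k, by omega⟩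
      rw [he] at h2
      have := hmax ⟨N - k, by omega⟩
      omega
  · push Not at hmax
    obtain ⟨b, hb⟩ := hmax
    obtain ⟨d, hd, hD⟩ := HD_exists N (Lk N J) (ext f) hPN ((HC_iff J f).mp hf)
      ⟨b, by omega, by rw [hlast, ext_val]; exact hb⟩
    refine ⟨⟨N - d, by omega⟩, Or.inr ⟨?_, ?_⟩, ?_⟩
    · intro h
      have := congrArg Fin.val h
      simp at this
      omega
    · show HD N (Lk N J) (ext f) (N - (N - d))
      rw [show N - (N - d) = d by omega]
      exact hD
    · rintro k (⟨_, h⟩ | ⟨h1, h2⟩)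
      · exact absurd (h b) (not_le.mpr hb)
      · have := HD_unique N (Lk N J) (ext f) _ _ h2 hD
        apply Fin.ext
        show (k : ℕ) = N - d
        have := k.2
        omega

open Classical in
lemma card_H (u : Fin (N + 1) → ℕ) (J : Finset ℕ) :
    ((rearr u).filter (HC J)).card = ∑ k : Fin (N + 1), ((rearr u).filter (QV J k)).card := by
  rw [card_unique ((rearr u).filter (HC J)) (HK J) (by
    intro f hf
    rw [mem_filter] at hf
    exact HK_unique J f hf.2)]
  refine Finset.sum_congr rfl fun k _ => ?_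
  rw [card_k, filter_filter]

end Pool.Agent.V11169.Rot
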