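import Mathlib
import Pool.Agent.V11169.Rot3

set_option autoImplicit false

namespace Pool.Agent.V11169.Rot

open Finset Equiv

variable {N : ℕ}

/-- descents contained in `I` -/
def DI (I : Finset ℕ) (π : Perm (Fin (N + 1))) : Prop :=
  ∀ a b : Fin (N + 1), (b : ℕ) = a + 1 → (b : ℕ) ∉ I → π a < π b

/-- rotation by `k` -/
def R (k : Fin (N + 1)) : Perm (Fin (N + 1)) := Equiv.addRight k

lemma R_apply (k a : Fin (N + 1)) : R k a = a + k := rfl

lemma last_iff (σ : Perm (Fin (N + 1))) :
    σ (Fin.last N) = Fin.last N ↔ ∀ b, b ≠ Fin.last N → σ.symm b < σ.symm (Fin.last N) := by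
  constructor
  · intro h b hb
    have h1 : σ.symm (Fin.last N) = Fin.last N := by rw [symm_apply_eq]; exact h.symm
    rw [h1]
    apply lt_of_le_of_ne (Fin.le_last _)
    intro h2
    apply hb
    rw [symm_apply_eq] at h2
    rw [h2, h]
  · intro h
    by_contra hcon
    have := h _ hcon
    rw [symm_apply_apply] at this
    exact absurd this (not_lt.mpr (Fin.le_last _))

lemma DI_last (J : Finset ℕ) (σ : Perm (Fin (N + 1))) (h : σ (Fin.last N) = Fin.last N) :
    DI J σ.symm ↔ ∀ a b : Fin (N + 1), (b : ℕ) = a + 1 → (b : ℕ) < N → (b : ℕ) ∉ J →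
      σ.symm a < σ.symm b := by
  constructor
  · intro h1 a b hab _ hJ
    exact h1 a b hab hJ
  · intro h1 a b hab hJ
    rcases Nat.lt_or_ge b N with hb | hb
    · exact h1 a b hab hb hJ
    · have hbl : b = Fin.last N := Fin.ext (by have := b.2; show (b : ℕ) = N; omega)
      rw [hbl]
      apply (last_iff σ).mp h
      intro hal
      rw [hal] at hab
      have : (Fin.last N : ℕ) = N := rfl
      have := b.2
      omega

open Classical in
/-- vertical rotations -/
lemma vert_k (I J : Finset ℕ) (k : Fin (N + 1)) :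
    ((univ : Finset (Perm (Fin (N + 1)))).filter (fun σ => σ (Fin.last N) = Fin.last N ∧
      DI J σ.symm ∧ DI I (R k * σ))).card = ((rearr (stp I)).filter (QV J k)).card := by
  rw [← std_count' (stp I) (stp_mono I) (R k)]
  congr 1
  apply filter_congr
  intro σ _
  have hT : Ti (stp I) (R k * σ) ↔ DI I (R k * σ) := Ti_stp I _
  have key : Ti (stp I) (R k * σ) → ∀ b c : Fin (N + 1), (σ.symm b < σ.symm c ↔
      ((stp I ∘ σ.symm) b < (stp I ∘ σ.symm) c ∨
        ((stp I ∘ σ.symm) b = (stp I ∘ σ.symm) c ∧ b + k < c + k))) := by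
    intro h b c
    have := Ti_order (stp I) (stp_mono I) (R k * σ) h (b + k) (c + k)
    have e1 : ∀ b, (R k * σ).symm (b + k) = σ.symm b := by
      intro b
      rw [symm_apply_eq]
      simp [Perm.mul_apply, R_apply]
    rw [e1, e1] at this
    exact this
  constructor
  · rintro ⟨h1, h2, h3⟩
    have hh := key (hT.mpr h3)
    refine ⟨hT.mpr h3, ?_, ?_⟩
    · intro b hb
      exact (hh b _).mp ((last_iff σ).mp h1 b hb)
    · intro a b hab hb hJ
      exact (hh a b).mp ((DI_last J σ h1).mp h2 a b hab hb hJ)
  · rintro ⟨h1, h2, h3⟩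
    have hh := key h1
    have hl : σ (Fin.last N) = Fin.last N := by
      rw [last_iff]
      intro b hb
      exact (hh b _).mpr (h2 b hb)
    refine ⟨hl, ?_, hT.mp h1⟩
    rw [DI_last J σ hl]
    intro a b hab hb hJ
    exact (hh a b).mpr (h3 a b hab hb hJ)

/-- strict descents of a word contained in `I` -/
def SD (I : Finset ℕ) (b : Fin (N + 1) → ℕ) : Prop :=
  ∀ a c : Fin (N + 1), (c : ℕ) = a + 1 → (c : ℕ) ∉ I → b a ≤ b c

lemma stp_last (J : Finset ℕ) (p : Fin (N + 1)) (hp : p ≠ Fin.last N) :
    stp (insert N J) p < stp (insert N J) (Fin.last N) := by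
  have hpN : (p : ℕ) < N := by
    have := Fin.val_lt_last hp
    exact this
  have h1 : stp (insert N J) p ≤ stp (insert N J) (⟨N - 1, by omega⟩ : Fin (N + 1)) :=
    stp_mono _ (by rw [Fin.le_def]; show (p : ℕ) ≤ N - 1; omega)
  have h2 : stp (insert N J) (⟨N - 1, by omega⟩ : Fin (N + 1)) ≤ stp (insert N J) (Fin.last N) :=
    stp_mono _ (Fin.le_last _)
  have h3 : stp (insert N J) (⟨N - 1, by omega⟩ : Fin (N + 1)) ≠
      stp (insert N J) (Fin.last N) := by
    intro h
    have := (stp_adj (insert N J) (⟨N - 1, by omega⟩ : Fin (N + 1)) (Fin.last N)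
      (by show N = N - 1 + 1; omega)).mp h
    apply this
    show N ∈ insert N J
    exact Finset.mem_insert_self _ _
  omega

lemma last_iff' (J : Finset ℕ) (σ : Perm (Fin (N + 1))) :
    σ (Fin.last N) = Fin.last N ↔ ∀ p, p ≠ Fin.last N →
      (stp (insert N J) ∘ σ) p < (stp (insert N J) ∘ σ) (Fin.last N) := by
  constructor
  · intro h p hp
    simp only [Function.comp_apply]
    rw [h]
    apply stp_last
    intro h2
    apply hp
    apply σ.injective
    rw [h2, h]
  · intro h
    by_contra hcon
    have hp : σ.symm (Fin.last N) ≠ Fin.last N := by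
      intro h2
      rw [symm_apply_eq] at h2
      exact hcon h2.symm
    have := h _ hp
    simp only [Function.comp_apply, apply_symm_apply] at this
    exact absurd (stp_mono (insert N J) (Fin.le_last (σ (Fin.last N)))) (not_le.mpr this)

lemma DI_insert (J : Finset ℕ) (σ : Perm (Fin (N + 1))) (h : σ (Fin.last N) = Fin.last N) :
    DI J σ.symm ↔ Ti (stp (insert N J)) σ.symm := by
  rw [DI_last J σ h, Ti_stp]
  constructor
  · intro h1 a b hab hb
    rw [Finset.mem_insert] at hb
    push Not at hb
    exact h1 a b hab (by have := b.2; omega) hb.2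
  · intro h1 a b hab hb hJ
    apply h1 a b hab
    rw [Finset.mem_insert]
    push Not
    exact ⟨by omega, hJ⟩

lemma add_one_val (q q' : Fin (N + 1)) (h : q ≠ Fin.last N) (h' : q' = q + 1) : q < q' := by
  rw [h']
  rw [Fin.lt_def, Fin.val_add_one_of_lt (lt_of_le_of_ne (Fin.le_last _) h)]
  omega

lemma cast_adj (a b : Fin (N + 1)) (h : (b : ℕ) = a + 1) : b = a + 1 := by
  apply Fin.ext
  rw [Fin.val_add_one_of_lt (by rw [Fin.lt_def]; show (a : ℕ) < N; have := b.2; omega)]
  exact h

open Classical in
/-- horizontal rotations by `k` as words -/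
lemma hor_k (I J : Finset ℕ) (k : Fin (N + 1)) :
    ((univ : Finset (Perm (Fin (N + 1)))).filter (fun σ => σ (Fin.last N) = Fin.last N ∧
      DI J σ.symm ∧ DI I (σ * R k))).card =
    ((rearr (stp (insert N J))).filter (fun b : Fin (N + 1) → ℕ =>
      (∀ p, p ≠ Fin.last N - k → b p < b (Fin.last N - k)) ∧ SD I b)).card := by
  have h1 : ((rearr (stp (insert N J))).filter (fun w : Fin (N + 1) → ℕ =>
      (∀ p, p ≠ Fin.last N → w p < w (Fin.last N)) ∧ SD I (w ∘ R k))).card =
      ((rearr (stp (insert N J))).filter (fun b : Fin (N + 1) → ℕ =>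
      (∀ p, p ≠ Fin.last N - k → b p < b (Fin.last N - k)) ∧ SD I b)).card := by
    refine card_comp _ (R k) _ _ ?_
    intro g _
    constructor
    · rintro ⟨h1, h2⟩
      refine ⟨?_, h2⟩
      intro p hp
      have e1 : (g ∘ R k) (Fin.last N - k) = g (Fin.last N) := by
        simp [R_apply]
      rw [e1]
      apply h1
      rw [R_apply]
      intro h3
      apply hp
      rw [← h3]
      simp
    · rintro ⟨h1, h2⟩
      refine ⟨?_, h2⟩
      intro p hp
      have := h1 (p - k) (by
        intro h3
        apply hp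
        have := congrArg (· + k) h3
        simpa using this)
      simpa [R_apply] using this
  rw [← h1, ← std_count (stp (insert N J)) (stp_mono _)]
  refine Finset.card_bij' (fun σ _ => σ.symm) (fun π _ => π.symm) ?_ ?_ ?_ ?_
  · intro σ hσ
    rw [mem_filter] at hσ ⊢
    obtain ⟨_, h2, h3, h4⟩ := hσ
    have hT := (DI_insert J σ h2).mp h3
    refine ⟨mem_univ _, hT, ?_, ?_⟩
    · exact (last_iff' J σ).mp h2
    · intro a c hac hc
      have h5 := h4 a c hac hc
      simp only [Perm.mul_apply] at h5
      have h6 : stp (insert N J) (σ (R k a)) ≤ stp (insert N J) (σ (R k c)) :=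
        stp_mono _ h5.le
      exact h6
  · intro π hπ
    rw [mem_filter] at hπ ⊢
    obtain ⟨_, h2, h3, h4⟩ := hπ
    have hl : π.symm (Fin.last N) = Fin.last N := (last_iff' J π.symm).mpr h3
    have hT : Ti (stp (insert N J)) π.symm.symm := by rw [symm_symm]; exact h2
    refine ⟨mem_univ _, hl, (DI_insert J π.symm hl).mpr hT, ?_⟩
    intro a c hac hc
    have h5 := h4 a c hac hc
    simp only [Function.comp_apply] at h5
    have hc' := cast_adj a c hac
    have hq : R k c = R k a + 1 := by
      rw [R_apply, R_apply, hc']; abel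
    simp only [Perm.mul_apply]
    by_cases hql : R k a = Fin.last N
    · exfalso
      have h7 : R k c ≠ Fin.last N := by
        intro h8
        rw [← hql] at h8
        have := (R k).injective h8
        rw [this] at hac
        omega
      have h8 := h3 _ h7
      simp only [Function.comp_apply] at h8
      rw [hql] at h5
      exact absurd h5 (not_le.mpr h8)
    · have hlt : R k a < R k c := add_one_val _ _ hql hq
      rw [Ti_order _ (stp_mono (insert N J)) π h2]
      rcases lt_or_eq_of_le h5 with h9 | h9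
      · exact Or.inl h9
      · exact Or.inr ⟨h9, hlt⟩
  · intro σ _; simp
  · intro π _; simp

open Classical in
/-- all horizontal rotations as words -/
lemma hor_sum (I J : Finset ℕ) :
    ∑ k : Fin (N + 1), ((univ : Finset (Perm (Fin (N + 1)))).filter (fun σ =>
      σ (Fin.last N) = Fin.last N ∧ DI J σ.symm ∧ DI I (σ * R k))).card =
    ((rearr (stp (insert N J))).filter (SD (N := N) I)).card := by
  rw [card_unique ((rearr (stp (insert N J))).filter (SD (N := N) I))
    (fun k b => ∀ p, p ≠ Fin.last N - k → b p < b (Fin.last N - k)) ?_]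
  · refine Finset.sum_congr rfl fun k _ => ?_
    rw [hor_k, filter_filter]
    congr 1
    apply filter_congr
    intro b _
    exact and_comm
  · intro b hb
    rw [mem_filter, mem_rearr] at hb
    obtain ⟨⟨τ, hτ⟩, _⟩ := hb
    refine ⟨Fin.last N - τ.symm (Fin.last N), ?_, ?_⟩
    · intro p hp
      rw [sub_sub_cancel] at hp ⊢
      rw [← hτ]
      simp only [Function.comp_apply, apply_symm_apply]
      apply stp_last
      intro h
      apply hp
      rw [← h]
      simp
    · intro k hk
      by_contra hne
      have h1 : τ.symm (Fin.last N) ≠ Fin.last N - k := by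
        intro h
        apply hne
        rw [h, sub_sub_cancel]
      have h2 := hk _ h1
      rw [← hτ] at h2
      simp only [Function.comp_apply, apply_symm_apply] at h2
      exact absurd (stp_mono (insert N J) (Fin.le_last _)) (not_le.mpr h2)

open Classical in
lemma words_eq (I J : Finset ℕ) :
    ((rearr (stp (insert N J))).filter (SD (N := N) I)).card =
      ((rearr (stp I)).filter (HC (N := N) J)).card := by
  rw [← std_count (stp (insert N J)) (stp_mono _), ← std_count (stp I) (stp_mono _)]
  refine Finset.card_bij' (fun σ _ => σ.symm) (fun π _ => π.symm) ?_ ?_ ?_ ?_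
  · intro σ hσ
    rw [mem_filter] at hσ ⊢
    obtain ⟨_, h2, h3⟩ := hσ
    refine ⟨mem_univ _, ?_, ?_⟩
    · rw [Ti_stp]
      intro a c hac hc
      rw [Ti_order _ (stp_mono (insert N J)) σ h2]
      rcases lt_or_eq_of_le (h3 a c hac hc) with h9 | h9
      · exact Or.inl h9
      · exact Or.inr ⟨h9, by rw [Fin.lt_def]; omega⟩
    · intro a b hab hb hJ
      rw [symm_symm]
      have := (Ti_stp (insert N J) σ).mp h2 a b hab (by
        rw [Finset.mem_insert]; push Not; exact ⟨by omega, hJ⟩)
      exact stp_mono I this.le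
  · intro π hπ
    rw [mem_filter] at hπ ⊢
    obtain ⟨_, h2, h3⟩ := hπ
    refine ⟨mem_univ _, ?_, ?_⟩
    · rw [Ti_stp]
      intro a b hab hb
      rw [Finset.mem_insert] at hb
      push Not at hb
      have hbN : (b : ℕ) < N := by have := b.2; omega
      rw [Ti_order _ (stp_mono I) π h2]
      rcases lt_or_eq_of_le (h3 a b hab hbN hb.2) with h9 | h9
      · exact Or.inl h9
      · exact Or.inr ⟨h9, by rw [Fin.lt_def]; omega⟩
    · intro a c hac hc
      rw [symm_symm]
      have := (Ti_stp I π).mp h2 a c hac hc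
      exact stp_mono (insert N J) this.le
  · intro σ _; simp
  · intro π _; simp

open Classical in
/-- the cumulative form of the theorem -/
theorem cumulative (N : ℕ) (I J : Finset ℕ) :
    ∑ k : Fin (N + 1), ((univ : Finset (Perm (Fin (N + 1)))).filter (fun σ =>
      σ (Fin.last N) = Fin.last N ∧ DI J σ.symm ∧ DI I (R k * σ))).card =
    ∑ k : Fin (N + 1), ((univ : Finset (Perm (Fin (N + 1)))).filter (fun σ =>
      σ (Fin.last N) = Fin.last N ∧ DI J σ.symm ∧ DI I (σ * R k))).card := by
  rw [hor_sum, words_eq, card_H]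
  exact Finset.sum_congr rfl fun k _ => vert_k I J k

end Pool.Agent.V11169.Rot
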