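import Pool.Agent.V11169.InvB7
import Pool.Agent.Results.MP_eb5881_co.InvolutionDescents

set_option autoImplicit false

namespace Pool.Agent.V11169

open Finset Pool.Agent.Results.MP_eb5881_co.InvolutionDescents

variable {n : ℕ}

/-- the shift `Fin n ≃ {1, …, n}` -/
def xs : Fin n ≃ Xn n where
  toFun i := ⟨(i : ℕ) + 1, by have := i.2; rw [Finset.mem_Icc]; omega⟩
  invFun x := ⟨(x : ℕ) - 1, by have := Finset.mem_Icc.mp x.2; omega⟩
  left_inv i := by apply Fin.ext; simp
  right_inv x := by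
    apply Subtype.ext
    have := Finset.mem_Icc.mp x.2
    simp only
    omega

lemma xs_val (i : Fin n) : ((xs i : Xn n) : ℕ) = (i : ℕ) + 1 := rfl

/-- from a signed permutation to a pair -/
def toJ (w : Equiv.Perm (Fin n) × (Fin n → Bool)) : (Xn n → Xn n) × Finset (Xn n) :=
  (fun x => xs (w.1 (xs.symm x)), univ.filter fun x => w.2 (xs.symm x) = true)

open Classical in
/-- from a pair to a signed permutation -/
noncomputable def ofJ (p : (Xn n → Xn n) × Finset (Xn n)) : Equiv.Perm (Fin n) × (Fin n → Bool) :=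
  (if h : Function.Involutive (fun i : Fin n => xs.symm (p.1 (xs i))) then h.toPerm else 1,
    fun i => decide (xs i ∈ p.2))

lemma toJ_mem (w : Equiv.Perm (Fin n) × (Fin n → Bool)) (hw : w ∈ WI n) : toJ w ∈ J n := by
  unfold WI at hw
  rw [mem_filter] at hw
  unfold J
  rw [mem_filter]
  refine ⟨mem_univ _, ?_, ?_⟩
  · intro x
    show xs (w.1 (xs.symm (xs (w.1 (xs.symm x))))) = x
    rw [Equiv.symm_apply_apply, (hw.2 _).1, Equiv.apply_symm_apply]
  · intro x hx
    unfold toJ at hx ⊢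
    simp only [mem_filter, mem_univ, true_and] at hx ⊢
    rw [Equiv.symm_apply_apply, (hw.2 _).2]
    exact hx

lemma ofJ_fst (p : (Xn n → Xn n) × Finset (Xn n)) (hp : p ∈ J n) (i : Fin n) :
    (ofJ p).1 i = xs.symm (p.1 (xs i)) := by
  unfold J at hp
  rw [mem_filter] at hp
  have h : Function.Involutive (fun i : Fin n => xs.symm (p.1 (xs i))) := by
    intro i
    simp only [Equiv.apply_symm_apply, hp.2.1, Equiv.symm_apply_apply]
  unfold ofJ
  simp only
  rw [dif_pos h]
  rfl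

lemma ofJ_mem (p : (Xn n → Xn n) × Finset (Xn n)) (hp : p ∈ J n) : ofJ p ∈ WI n := by
  have hp' := hp
  unfold J at hp
  rw [mem_filter] at hp
  unfold WI
  rw [mem_filter]
  refine ⟨mem_univ _, fun i => ?_⟩
  rw [ofJ_fst p hp', ofJ_fst p hp']
  constructor
  · simp only [Equiv.apply_symm_apply, hp.2.1, Equiv.symm_apply_apply]
  · unfold ofJ
    simp only [Equiv.apply_symm_apply]
    have h3 : p.1 (xs i) ∈ p.2 ↔ xs i ∈ p.2 :=
      ⟨fun h => by have := hp.2.2 _ h; rwa [hp.2.1] at this, hp.2.2 _⟩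
    rw [decide_eq_decide]
    exact h3

lemma ofJ_toJ (w : Equiv.Perm (Fin n) × (Fin n → Bool)) (hw : w ∈ WI n) : ofJ (toJ w) = w := by
  apply Prod.ext
  · apply Equiv.ext
    intro i
    rw [ofJ_fst _ (toJ_mem w hw)]
    unfold toJ
    simp
  · funext i
    unfold ofJ toJ
    simp

lemma toJ_ofJ (p : (Xn n → Xn n) × Finset (Xn n)) (hp : p ∈ J n) : toJ (ofJ p) = p := by
  apply Prod.ext
  · funext x
    show xs ((ofJ p).1 (xs.symm x)) = p.1 x
    rw [ofJ_fst p hp]
    simp
  · ext x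
    unfold toJ ofJ
    simp

lemma sum_WI (F : (ℕ → ℤ) → Polynomial ℤ) :
    ∑ w ∈ WI n, F (vl (toJ w)) = ∑ p ∈ J n, F (vl p) := by
  refine Finset.sum_bij' (fun w _ => toJ w) (fun p _ => ofJ p) ?_ ?_ ?_ ?_ ?_
  · intro w hw; exact toJ_mem w hw
  · intro p hp; exact ofJ_mem p hp
  · intro w hw; exact ofJ_toJ w hw
  · intro p hp; exact toJ_ofJ p hp
  · intro w _; rfl

lemma vl_zero (w : Equiv.Perm (Fin n) × (Fin n → Bool)) : vl (toJ w) 0 = 0 :=
  vl_out _ _ (by simp)

lemma vl_toJ (w : Equiv.Perm (Fin n) × (Fin n → Bool)) (i : Fin n) :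
    vl (toJ w) ((i : ℕ) + 1) =
      (if w.2 i then (-1 : ℤ) else 1) * (((w.1 i : ℕ) : ℤ) + 1) := by
  have h := vl_eq (toJ w) (xs i)
  rw [xs_val] at h
  rw [h]
  unfold toJ
  simp only [mem_filter, mem_univ, true_and, Equiv.symm_apply_apply]
  rw [xs_val]
  split_ifs <;> push_cast <;> ring

lemma card_UA (v : ℕ → ℤ) : (EE n v).card + (UA n v).card =
    ((range n).filter fun i => v (i + 1) < v i).card := by
  rw [← Finset.card_union_of_disjoint]
  · congr 1
    unfold EE UA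
    ext i
    simp only [mem_union, mem_filter, mem_range]
    constructor
    · rintro (⟨a, b, c⟩ | ⟨a, b, c, d⟩)
      · exact ⟨a, c⟩
      · exact ⟨a, d⟩
    · rintro ⟨a, b⟩
      by_cases h : v i < 0 ∧ v (i + 1) < 0
      · right; exact ⟨a, h.1, h.2, b⟩
      · left; exact ⟨a, h, b⟩
  · rw [Finset.disjoint_left]
    intro i h3 h4
    unfold EE at h3
    unfold UA at h4
    rw [mem_filter] at h3 h4
    exact h3.2.1 ⟨h4.2.1, h4.2.2.1⟩

lemma card_UD (v : ℕ → ℤ) : (EE n v).card + (UD n v).card =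
    ((range n).filter fun i => rlt (v (i + 1)) (v i)).card := by
  have h5 : ((range n).filter fun i : ℕ => rlt (v (i + 1)) (v i)) = EE n v ∪ UD n v := by
    unfold EE UD
    ext i
    simp only [mem_union, mem_filter, mem_range]
    generalize v i = a
    generalize v (i + 1) = b
    have h7 : rlt b a ↔ (¬ (a < 0 ∧ b < 0) ∧ b < a) ∨ (a < 0 ∧ b < 0 ∧ a < b) := by
      unfold rlt
      constructor
      · rintro (h | h | h) <;> omega
      · rintro (h | h) <;> omega
    rw [h7]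
    tauto
  rw [h5, Finset.card_union_of_disjoint]
  rw [Finset.disjoint_left]
  intro i h3 h4
  unfold EE at h3
  unfold UD at h4
  rw [mem_filter] at h3 h4
  exact h3.2.1 ⟨h4.2.1, h4.2.2.1⟩

lemma sgn_cases (b : Bool) (x : ℕ) :
    (b = true ∧ (if b then (-1 : ℤ) else 1) * ((x : ℤ) + 1) = -((x : ℤ) + 1)) ∨
    (b = false ∧ (if b then (-1 : ℤ) else 1) * ((x : ℤ) + 1) = (x : ℤ) + 1) := by
  cases b <;> simp

lemma card_DL (w : Equiv.Perm (Fin n) × (Fin n → Bool)) :
    (DL w).card = (EE n (vl (toJ w))).card + (UD n (vl (toJ w))).card := by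
  rw [card_UD]
  congr 1
  ext i
  rcases Nat.lt_or_ge i n with h | h
  · rw [mem_filter, mem_range]
    simp only [h, true_and]
    rcases i with _ | i
    · rw [zero_mem_DL w h, vl_zero]
      have h1 := vl_toJ w ⟨0, h⟩
      simp only at h1
      rw [h1]
      rcases sgn_cases (w.2 ⟨0, h⟩) (w.1 ⟨0, h⟩ : ℕ) with ⟨h2, h3⟩ | ⟨h2, h3⟩
      · rw [h3, h2]; unfold rlt; simp; omega
      · rw [h3, h2]; unfold rlt; simp; omega
    · rw [succ_mem_DL w i h]
      have h1 := vl_toJ w ⟨i, Nat.lt_of_succ_lt h⟩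
      have h2 := vl_toJ w ⟨i + 1, h⟩
      simp only at h1 h2
      rw [h1, h2]
      unfold dAdj
      rcases sgn_cases (w.2 ⟨i, Nat.lt_of_succ_lt h⟩) (w.1 ⟨i, Nat.lt_of_succ_lt h⟩ : ℕ) with
        ⟨h3, h4⟩ | ⟨h3, h4⟩ <;>
      rcases sgn_cases (w.2 ⟨i + 1, h⟩) (w.1 ⟨i + 1, h⟩ : ℕ) with ⟨h5, h6⟩ | ⟨h5, h6⟩ <;>
      · rw [h4, h6, h3, h5]
        unfold rlt
        rw [Fin.lt_def]
        simp
        try omega
  · have h1 : i ∉ DL w := fun h' => by
      have := mem_range.mp (DL_subset w h'); omega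
    have h2 : i ∉ (range n).filter fun i => rlt (vl (toJ w) (i + 1)) (vl (toJ w) i) := fun h' => by
      have := mem_range.mp (mem_filter.mp h').1; omega
    exact ⟨fun h' => absurd h' h1, fun h' => absurd h' h2⟩

/-- the descent number in the frozen statement -/
def fe (w : Equiv.Perm (Fin n) × (Fin n → Bool)) : ℕ :=
  (Finset.univ.filter (fun j : Fin n => j.val = 0 ∧ w.2 j = true)).card +
          (Finset.univ.filter (fun p : Fin n × Fin n => p.2.val = p.1.val + 1 ∧
            (if w.2 p.2 then (-1 : ℤ) else 1) * (((w.1 p.2 : ℕ) : ℤ) + 1) <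
            (if w.2 p.1 then (-1 : ℤ) else 1) * (((w.1 p.1 : ℕ) : ℤ) + 1))).card

lemma card_fe (w : Equiv.Perm (Fin n) × (Fin n → Bool)) :
    fe w = (EE n (vl (toJ w))).card + (UA n (vl (toJ w))).card := by
  rw [card_UA]
  rw [← Finset.card_filter_add_card_filter_not (s := (range n).filter fun i =>
    vl (toJ w) (i + 1) < vl (toJ w) i) (p := fun i => i = 0)]
  unfold fe
  congr 1
  · refine Finset.card_bij (fun j _ => (j : ℕ)) ?_ ?_ ?_
    · intro j hj
      simp only [mem_filter, mem_univ, true_and, mem_range] at hj ⊢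
      obtain ⟨h0, h1⟩ := hj
      refine ⟨⟨j.2, ?_⟩, h0⟩
      rw [vl_toJ, h0, vl_zero, h1]
      simp
      omega
    · intro a _ b _ h
      exact Fin.ext h
    · intro i hi
      simp only [mem_filter, mem_range] at hi
      obtain ⟨⟨h1, h2⟩, h3⟩ := hi
      subst h3
      refine ⟨⟨0, h1⟩, ?_, rfl⟩
      simp only [mem_filter, mem_univ, true_and]
      rw [vl_zero] at h2
      have h4 := vl_toJ w ⟨0, h1⟩
      simp only at h4
      rw [h4] at h2
      rcases sgn_cases (w.2 ⟨0, h1⟩) (w.1 ⟨0, h1⟩ : ℕ) with ⟨h5, h6⟩ | ⟨h5, h6⟩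
      · exact h5
      · rw [h6] at h2; omega
  · refine Finset.card_bij (fun p _ => (p.2 : ℕ)) ?_ ?_ ?_
    · intro p hp
      simp only [mem_filter, mem_univ, true_and, mem_range] at hp ⊢
      obtain ⟨h0, h1⟩ := hp
      refine ⟨⟨p.2.2, ?_⟩, by omega⟩
      rw [vl_toJ w p.2, h0, vl_toJ w p.1]
      exact h1
    · intro a ha b hb h
      simp only [mem_filter, mem_univ, true_and] at ha hb
      apply Prod.ext
      · apply Fin.ext; omega
      · exact Fin.ext h
    · intro i hi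
      simp only [mem_filter, mem_range] at hi
      obtain ⟨⟨h1, h2⟩, h3⟩ := hi
      obtain ⟨k, rfl⟩ : ∃ k, i = k + 1 := ⟨i - 1, by omega⟩
      refine ⟨(⟨k, by omega⟩, ⟨k + 1, h1⟩), ?_, rfl⟩
      simp only [mem_filter, mem_univ, true_and]
      have h4 := vl_toJ w ⟨k, by omega⟩
      have h5 := vl_toJ w ⟨k + 1, h1⟩
      simp only at h4 h5
      rw [h4, h5] at h2
      exact h2

theorem sum_fe (n : ℕ) : ∑ w ∈ WI n, (Polynomial.X : Polynomial ℤ) ^ fe w = AA n := by
  unfold AA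
  simp only [card_fe, card_DL]
  rw [sum_WI (fun v => (Polynomial.X : Polynomial ℤ) ^ ((EE n v).card + (UA n v).card)),
    sum_WI (fun v => (Polynomial.X : Polynomial ℤ) ^ ((EE n v).card + (UD n v).card))]
  exact sum_J n

end Pool.Agent.V11169
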