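import Mathlib

namespace Pool.Agent.V11169.Circ

open Finset

section Ghost

variable {R : Type*} [CommRing R]

/-- The image of the `k`-th ghost map: all `x_0^(p^k) + p x_1^(p^(k-1)) + ... + p^k x_k`. -/
def ghost (p k : ℕ) (R : Type*) [CommRing R] : Set R :=
  {a | ∃ x : ℕ → R, a = ∑ j ∈ Finset.range (k + 1), (p : R) ^ j * (x j) ^ (p ^ (k - j))}

variable (p : ℕ) [hp : Fact p.Prime]

/-- The same set as a subring. -/
noncomputable def gring (k : ℕ) (R : Type*) [CommRing R] : Subring R :=
  (WittVector.ghostComponent (p := p) (R := R) k).range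

theorem mem_gring {k : ℕ} {a : R} : a ∈ gring p k R ↔ a ∈ ghost p k R := by
  simp only [gring, ghost, Set.mem_ofPred_eq, RingHom.mem_range]
  constructor
  · rintro ⟨w, rfl⟩
    refine ⟨w.coeff, ?_⟩
    rw [WittVector.ghostComponent_apply, aeval_wittPolynomial]
  · rintro ⟨x, rfl⟩
    refine ⟨WittVector.mk p x, ?_⟩
    rw [WittVector.ghostComponent_apply, aeval_wittPolynomial]
    rfl

theorem gen_mem {k j : ℕ} (hj : j ≤ k) (x : R) : (p : R) ^ j * x ^ (p ^ (k - j)) ∈ gring p k R := by
  rw [mem_gring]
  refine ⟨fun i => if i = j then x else 0, ?_⟩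
  rw [Finset.sum_eq_single j]
  · simp
  · intro b _ hb
    simp [hb, hp.out.ne_zero]
  · intro h
    exact absurd (Finset.mem_range.2 (Nat.lt_succ_of_le hj)) h

theorem pow_mem {k : ℕ} (x : R) : x ^ (p ^ k) ∈ gring p k R := by
  have := gen_mem p (Nat.zero_le k) x
  simpa using this

/-- splitting off the leading term -/
theorem split_gring {k : ℕ} {a : R} (ha : a ∈ gring p (k + 1) R) :
    ∃ x : R, ∃ s ∈ gring p k R, a = x ^ (p ^ (k + 1)) + p * s := by
  rw [mem_gring] at ha
  obtain ⟨x, rfl⟩ := ha
  refine ⟨x 0, ∑ j ∈ Finset.range (k + 1), (p : R) ^ j * (x (j + 1)) ^ (p ^ (k - j)), ?_, ?_⟩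
  · rw [mem_gring]
    exact ⟨fun j => x (j + 1), rfl⟩
  · rw [Finset.sum_range_succ', Finset.mul_sum]
    simp only [pow_zero, one_mul, Nat.sub_zero]
    rw [add_comm]
    congr 1
    apply Finset.sum_congr rfl
    intro j hj
    have : k + 1 - (j + 1) = k - j := by omega
    rw [this]
    ring

theorem gring_succ_le (k : ℕ) : gring p (k + 1) R ≤ gring p k R := by
  intro a ha
  rw [mem_gring] at ha
  obtain ⟨x, rfl⟩ := ha
  apply Subring.sum_mem
  intro j hj
  have hj' : j ≤ k + 1 := Nat.lt_succ_iff.1 (Finset.mem_range.1 hj)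
  rcases Nat.lt_or_ge k j with h | h
  · have : j = k + 1 := by omega
    subst this
    have h2 := gen_mem p (le_refl k) ((p : R) * x (k + 1))
    simp only [Nat.sub_self, pow_zero, pow_one] at h2 ⊢
    convert h2 using 1
    ring
  · have h2 := gen_mem p h (x j ^ p)
    convert h2 using 1
    rw [← pow_mul, ← pow_succ']
    congr 3
    omega

theorem gring_le {k l : ℕ} (h : l ≤ k) : gring p k R ≤ gring p l R := by
  induction k, h using Nat.le_induction with
  | base => exact le_refl _
  | succ k hk ih => exact (gring_succ_le p k).trans ih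

end Ghost

section Orbit

/-- Sum of an invariant function over the orbits of a permutation of prime power order. -/
theorem orbit_sum {X : Type*} [Fintype X] {R : Type*} [CommRing R] (p k : ℕ) (hp : p.Prime)
    (c : Equiv.Perm X) (hc : c ^ (p ^ k) = 1) (f : X → R) (hf : ∀ x, f (c x) = f x)
    (P : AddSubgroup R)
    (hP : ∀ x, ∀ i ≤ k, (c ^ (p ^ i)) x = x → (p : R) ^ i * f x ∈ P) :
    ∑ x, f x ∈ P := by
  classical
  let s := MulAction.orbitRel (Subgroup.zpowers c) X
  have h1 : ∑ x, f x = ∑ w : Quotient s, ∑ x with (Quotient.mk s x) = w, f x := by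
    rw [Finset.sum_fiberwise]
  rw [h1]
  apply AddSubgroup.sum_mem
  intro w _
  obtain ⟨y, rfl⟩ := Quotient.exists_rep w
  have hf' : ∀ (g : Subgroup.zpowers c) x, f (g • x) = f x := by
    rintro ⟨g, hg⟩ x
    obtain ⟨m, rfl⟩ := Subgroup.mem_zpowers_iff.1 hg
    change f ((c ^ m) x) = f x
    have hz : ∀ (m : ℕ) x, f ((c ^ m) x) = f x := by
      intro m
      induction m with
      | zero => intro x; simp
      | succ m ih => intro x; rw [pow_succ, Equiv.Perm.mul_apply, ih, hf]
    cases m with
    | ofNat m => simpa using hz m x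
    | negSucc m =>
      have := hz (m + 1) ((c ^ (Int.negSucc m)) x)
      rw [← this]
      congr 1
      simp [zpow_negSucc]
  have h2 : ∀ x ∈ (Finset.univ.filter fun x => Quotient.mk s x = Quotient.mk s y), f x = f y := by
    intro x hx
    have hx' : Quotient.mk s x = Quotient.mk s y := (Finset.mem_filter.1 hx).2
    have : s.r x y := Quotient.exact hx'
    have h3 : x ∈ MulAction.orbit (Subgroup.zpowers c) y := this
    obtain ⟨g, rfl⟩ := h3
    exact hf' g y
  rw [Finset.sum_congr rfl h2, Finset.sum_const]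
  have hcard : (Finset.univ.filter fun x => Quotient.mk s x = Quotient.mk s y).card
      = Function.minimalPeriod (fun x => c • x) y := by
    rw [MulAction.minimalPeriod_eq_card]
    rw [← Set.toFinset_card]
    congr 1
    ext x
    simp only [Finset.mem_filter, Finset.mem_univ, true_and, Set.mem_toFinset]
    constructor
    · intro h
      exact (Quotient.exact h : s.r x y)
    · intro h
      exact Quotient.sound (show s.r x y from h)
  have hper : Function.IsPeriodicPt (fun x => c • x) (p ^ k) y := by
    unfold Function.IsPeriodicPt Function.IsFixedPt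
    rw [smul_iterate]
    change ((c ^ (p ^ k)) • y) = y
    rw [hc, one_smul]
  obtain ⟨i, hi, hi2⟩ := (Nat.dvd_prime_pow hp).1 hper.minimalPeriod_dvd
  rw [hcard, hi2, nsmul_eq_mul]
  push_cast
  apply hP y i hi
  have h5 := Function.isPeriodicPt_minimalPeriod (fun x => c • x) y
  rw [hi2] at h5
  unfold Function.IsPeriodicPt Function.IsFixedPt at h5
  rw [smul_iterate] at h5
  exact h5

end Orbit

section Block

theorem prod_range_block {M : Type*} [CommMonoid M] (h : ℕ → M) (a b : ℕ)
    (hh : ∀ t, h (t + a) = h t) :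
    ∏ t ∈ Finset.range (a * b), h t = (∏ t ∈ Finset.range a, h t) ^ b := by
  induction b with
  | zero => simp
  | succ b ih =>
    rw [Nat.mul_succ, Finset.prod_range_add, ih, pow_succ]
    congr 1
    apply Finset.prod_congr rfl
    intro t _
    have : ∀ b, h (a * b + t) = h t := by
      intro b
      induction b with
      | zero => simp
      | succ b ih => rw [Nat.mul_succ, show a * b + a + t = a * b + t + a by ring, hh, ih]
    exact this b

theorem prod_zmod {M : Type*} [CommMonoid M] (n : ℕ) [NeZero n] (g : ZMod n → M) :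
    ∏ x : ZMod n, g x = ∏ t ∈ Finset.range n, g (t : ZMod n) := by
  symm
  refine Finset.prod_bij (fun (t : ℕ) _ => (t : ZMod n)) ?_ ?_ ?_ ?_
  · intro t _; simp
  · intro a ha b hb h
    rw [ZMod.natCast_eq_natCast_iff'] at h
    rwa [Nat.mod_eq_of_lt (Finset.mem_range.1 ha), Nat.mod_eq_of_lt (Finset.mem_range.1 hb)] at h
  · intro b _
    exact ⟨b.val, Finset.mem_range.2 (ZMod.val_lt b), by simp⟩
  · intro t _; rfl

/-- product over `ZMod (a * b)` of an `a`-periodic function -/
theorem prod_block {M : Type*} [CommMonoid M] (n a b : ℕ) [NeZero n] (hn : n = a * b)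
    (g : ZMod n → M) (hg : ∀ x, g (x + (a : ZMod n)) = g x) :
    ∏ x : ZMod n, g x = (∏ t ∈ Finset.range a, g (t : ZMod n)) ^ b := by
  rw [prod_zmod, ← prod_range_block (fun t => g (t : ZMod n)) a b]
  · exact Finset.prod_congr (by rw [hn]) (fun _ _ => rfl)
  · intro t
    have := hg (t : ZMod n)
    simpa using this

end Block

end Pool.Agent.V11169.Circ
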