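import Pool.Agent.V11169.Circ9

namespace Pool.Agent.V11169.Circ

open Finset Polynomial IsLocalRing

variable {R : Type*} [CommRing R] [IsLocalRing R] [Finite R] (p : ℕ) [hp : Fact p.Prime]
  [CharP (ResidueField R) p]

instance finF : Finite (ResidueField R) :=
  Finite.of_surjective (residue R) residue_surjective

theorem p_mem : residue R (p : R) = 0 := by
  rw [map_natCast]
  exact CharP.cast_eq_zero _ p

theorem hloc (x : R) : IsUnit (1 + (p : R) * x) := by
  rw [← residue_ne_zero_iff_isUnit, map_add, map_mul, p_mem]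
  simp

/-- units as a subtype -/
noncomputable def uEquiv (M : Type*) [Monoid M] : {a : M // IsUnit a} ≃ Mˣ where
  toFun a := a.2.unit
  invFun u := ⟨u, u.isUnit⟩
  left_inv a := by simp
  right_inv u := by ext; simp

section Count

variable (n k m : ℕ) [NeZero n]

/-- the additive map to the residue group algebra -/
noncomputable def Phi (R : Type*) [CommRing R] [IsLocalRing R] :
    (ZMod n → R) →+ ((ResidueField R)[X] ⧸ Ideal.span {(X ^ m - 1 : (ResidueField R)[X])}) where
  toFun v := Ideal.Quotient.mk _ (pol n (fun x => residue R (v x)))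
  map_zero' := by simp [pol]
  map_add' := by
    intro v w
    rw [← map_add]
    congr 1
    simp only [pol, Pi.add_apply, map_add, add_mul, Finset.sum_add_distrib]

theorem Phi_surj (hm : 0 < m) (hmn : m ≤ n) : Function.Surjective (Phi n m R) := by
  intro y
  obtain ⟨f, rfl⟩ := Ideal.Quotient.mk_surjective y
  have hmon : (X ^ m - 1 : (ResidueField R)[X]).Monic := by
    have := monic_X_pow_sub_C (1 : ResidueField R) hm.ne'
    simpa using this
  have hdeg : (X ^ m - 1 : (ResidueField R)[X]).degree = m := by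
    have := degree_X_pow_sub_C hm (1 : ResidueField R)
    simpa using this
  let g := f %ₘ (X ^ m - 1)
  have hg : g.degree < m := by
    rw [← hdeg]
    exact degree_modByMonic_lt f hmon
  choose s hs using (residue_surjective (R := R))
  refine ⟨fun x => s (g.coeff x.val), ?_⟩
  change Ideal.Quotient.mk _ (pol n (fun x => residue R (s (g.coeff x.val)))) = _
  have h1 : pol n (fun x : ZMod n => residue R (s (g.coeff x.val))) = g := by
    simp only [hs]
    unfold pol
    ext i
    rw [finsetSum_coeff]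
    simp only [coeff_C_mul, coeff_X_pow, mul_ite, mul_one, mul_zero]
    rw [Finset.sum_ite_eq]
    split_ifs with h
    · rw [ZMod.val_natCast, Nat.mod_eq_of_lt (Finset.mem_range.1 h)]
    · rw [Finset.mem_range, not_lt] at h
      symm
      apply coeff_eq_zero_of_degree_lt
      apply lt_of_lt_of_le hg
      exact_mod_cast hmn.trans h
  rw [h1, Ideal.Quotient.eq, Ideal.mem_span_singleton]
  refine ⟨-(f /ₘ (X ^ m - 1)), ?_⟩
  have h2 := modByMonic_add_div f (X ^ m - 1 : (ResidueField R)[X])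
  linear_combination h2

theorem isUnit_det_iff (hn : n = p ^ k * m) (v : ZMod n → R) :
    IsUnit (cir n v).det ↔ IsUnit (Phi n m R v) := by
  have h1 : IsUnit (Phi n m R v) ↔ IsCoprime (pol n (fun x => residue R (v x))) (X ^ m - 1) :=
    isUnit_quot_iff _ _
  rw [h1, ← residue_ne_zero_iff_isUnit, RingHom.map_det]
  have h2 : (residue R).mapMatrix (cir n v) = cir n (fun x => residue R (v x)) := by
    ext i j
    rfl
  rw [h2, det_ne_zero_iff]
  have h3 : (X ^ n - 1 : (ResidueField R)[X]) = (X ^ m - 1) ^ (p ^ k) := by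
    rw [sub_pow_char_pow, one_pow, ← pow_mul, hn, mul_comm]
  rw [h3]
  exact IsCoprime.pow_right_iff (pow_pos hp.out.pos k)

theorem card_units (hn : n = p ^ k * m) (hm : ¬ p ∣ m) :
    Nat.card {v : ZMod n → R // IsUnit (cir n v).det} * Nat.card (ResidueField R) ^ m =
      uc (X ^ m - 1 : (ResidueField R)[X]) * Nat.card R ^ n := by
  have hm0 : 0 < m := Nat.pos_of_ne_zero (fun h => hm (by rw [h]; exact dvd_zero p))
  have hmn : m ≤ n := by
    rw [hn]
    exact Nat.le_mul_of_pos_left m (pow_pos hp.out.pos k)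
  have h := card_preimage (Phi n m R) (Phi_surj n m hm0 hmn) (fun y => IsUnit y)
  have h1 : Nat.card {v : ZMod n → R // IsUnit (cir n v).det} =
      Nat.card {v : ZMod n → R // IsUnit (Phi n m R v)} :=
    Nat.card_congr (Equiv.subtypeEquivRight fun v => isUnit_det_iff p n k m hn v)
  have hne : (X ^ m - 1 : (ResidueField R)[X]) ≠ 0 := by
    have := (monic_X_pow_sub_C (1 : ResidueField R) hm0.ne').ne_zero
    simpa using this
  have hdeg : (X ^ m - 1 : (ResidueField R)[X]).natDegree = m := by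
    have := natDegree_X_pow_sub_C (n := m) (r := (1 : ResidueField R))
    simpa using this
  have h2 := card_quot (F := ResidueField R) hne
  rw [hdeg] at h2
  have h3 : Nat.card {h : ((ResidueField R)[X] ⧸ Ideal.span {(X ^ m - 1 :
      (ResidueField R)[X])}) // IsUnit h} = uc (X ^ m - 1 : (ResidueField R)[X]) := by
    unfold uc
    exact Nat.card_congr (uEquiv _)
  have h4 : Nat.card (ZMod n → R) = Nat.card R ^ n := by
    rw [Nat.card_fun, Nat.card_zmod]
  rw [h1, ← h2, h, h3, h4]

end Count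

section Ghost

theorem card_gring_units (k : ℕ) :
    Nat.card {a : R // IsUnit a ∧ a ∈ gring p k R} * Nat.card (ResidueField R) =
      (Nat.card (ResidueField R) - 1) * Nat.card (gring p k R) := by
  let φ : (gring p k R) →+ ResidueField R :=
    ((residue R).comp (gring p k R).subtype : (gring p k R) →+* ResidueField R)
  have hφ : Function.Surjective φ := by
    intro y
    have := Fintype.ofFinite (ResidueField R)
    obtain ⟨f, _, hf⟩ := FiniteField.card (ResidueField R) p
    have hpow : y ^ (p ^ (f * k)) = y := by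
      have := FiniteField.pow_card_pow k y
      rwa [hf, ← pow_mul] at this
    obtain ⟨x, hx⟩ := residue_surjective (R := R) (y ^ (p ^ (f * k - k)))
    refine ⟨⟨x ^ (p ^ k), pow_mem p x⟩, ?_⟩
    change residue R (x ^ (p ^ k)) = y
    rw [map_pow, hx, ← pow_mul, ← pow_add, Nat.sub_add_cancel, hpow]
    exact Nat.le_mul_of_pos_left k f.2
  have h := card_preimage φ hφ (fun y => y ≠ 0)
  have h1 : Nat.card {a : R // IsUnit a ∧ a ∈ gring p k R} =
      Nat.card {g : gring p k R // φ g ≠ 0} := by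
    apply Nat.card_congr
    refine ⟨fun a => ⟨⟨a.1, a.2.2⟩, (residue_ne_zero_iff_isUnit a.1).2 a.2.1⟩,
      fun g => ⟨g.1.1, (residue_ne_zero_iff_isUnit g.1.1).1 g.2, g.1.2⟩, ?_, ?_⟩
    · intro a; rfl
    · intro g; rfl
  have h2 : Nat.card {h : ResidueField R // h ≠ 0} = Nat.card (ResidueField R) - 1 := by
    rw [← Nat.card_units]
    exact Nat.card_congr (unitsEquivNeZero).symm
  rw [h1, h, h2]

end Ghost

section Final

variable (n : ℕ) [NeZero n]

/-- the number of circulants of determinant `a` -/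
noncomputable def cn (R : Type*) [CommRing R] (a : R) : ℕ :=
  Nat.card {A : Matrix (ZMod n) (ZMod n) R // (∃ v, A = cir n v) ∧ A.det = a}

omit [NeZero n] in
theorem cir_inj {R : Type*} {v w : ZMod n → R} (h : cir n v = cir n w) : v = w := by
  funext x
  have := congrFun (congrFun h 0) x
  simpa [cir] using this

theorem cn_eq (R : Type*) [CommRing R] (a : R) :
    cn n R a = Nat.card {v : ZMod n → R // (cir n v).det = a} := by
  unfold cn
  symm
  refine Nat.card_congr (Equiv.ofBijective (fun v => ⟨cir n v.1, ⟨v.1, rfl⟩, v.2⟩) ⟨?_, ?_⟩)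
  · rintro ⟨v, hv⟩ ⟨w, hw⟩ h
    simp only [Subtype.mk.injEq] at h
    exact Subtype.ext (cir_inj n h)
  · rintro ⟨A, ⟨v, rfl⟩, hA⟩
    exact ⟨⟨v, hA⟩, rfl⟩

omit [IsLocalRing R] in
theorem cn_const (a : R) (ha : IsUnit a) (h : a ∈ Dm n R) : cn n R a = cn n R 1 := by
  obtain ⟨v, hv⟩ := (mem_Dm n).1 h
  have hu : IsUnit (cir n v) := (Matrix.isUnit_iff_isUnit_det _).2 (by rw [hv]; exact ha)
  obtain ⟨M, hM⟩ := hu
  obtain ⟨r, hr0, hr1⟩ := isOfFinOrder_iff_pow_eq_one.1 (isOfFinOrder_of_finite M)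
  have hMC : (M : Matrix (ZMod n) (ZMod n) R) ∈ Cm n R := by rw [hM]; exact mem_Cm n v
  set N : Matrix (ZMod n) (ZMod n) R := (M : Matrix (ZMod n) (ZMod n) R) ^ (r - 1) with hN
  have hNC : N ∈ Cm n R := Submonoid.pow_mem _ hMC _
  have hMN : (M : Matrix (ZMod n) (ZMod n) R) * N = 1 := by
    rw [hN, ← pow_succ', Nat.sub_add_cancel hr0, ← Units.val_pow_eq_pow_val, hr1, Units.val_one]
  have hNM : N * (M : Matrix (ZMod n) (ZMod n) R) = 1 := by
    rw [hN, ← pow_succ, Nat.sub_add_cancel hr0, ← Units.val_pow_eq_pow_val, hr1, Units.val_one]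
  have hMd : (M : Matrix (ZMod n) (ZMod n) R).det = a := by rw [hM, hv]
  have hNd : N.det * a = 1 := by
    have := congrArg Matrix.det hNM
    rwa [Matrix.det_mul, hMd, Matrix.det_one] at this
  unfold cn
  symm
  refine Nat.card_congr ⟨fun A => ⟨(M : Matrix (ZMod n) (ZMod n) R) * A.1,
    Submonoid.mul_mem (Cm n R) hMC A.2.1, by rw [Matrix.det_mul, A.2.2, hMd, mul_one]⟩,
    fun A => ⟨N * A.1, Submonoid.mul_mem (Cm n R) hNC A.2.1,
      by rw [Matrix.det_mul, A.2.2, hNd]⟩, ?_, ?_⟩
  · intro A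
    apply Subtype.ext
    simp only [← Matrix.mul_assoc, hNM, Matrix.one_mul]
  · intro A
    apply Subtype.ext
    simp only [← Matrix.mul_assoc, hMN, Matrix.one_mul]

/-- which units are circulant determinants -/
theorem mem_Dm_iff (k m : ℕ) (hn : n = p ^ k * m) (hm : ¬ p ∣ m) (a : R) (ha : IsUnit a) :
    a ∈ Dm n R ↔ a ∈ gring p k R := by
  constructor
  · intro h
    obtain ⟨v, rfl⟩ := (mem_Dm n).1 h
    exact det_cir_mem p n k m hn v
  · intro h
    have : NeZero (p ^ k) := ⟨pow_ne_zero _ hp.out.ne_zero⟩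
    obtain ⟨v, hv⟩ := (mem_Dm _).1 (mem_Dm_of_mem_gring p (hloc p) k a ha h)
    have hmu : IsUnit (m : R) := by
      rw [← residue_ne_zero_iff_isUnit, map_natCast]
      intro h0
      exact hm ((CharP.cast_eq_zero_iff (ResidueField R) p m).1 h0)
    obtain ⟨u, hu⟩ := hmu.exists_right_inv
    obtain ⟨w, hw⟩ := lift_det n (p ^ k) m hn u hu v
    exact (mem_Dm n).2 ⟨w, by rw [hw, hv]⟩

theorem card_units_eq (k m : ℕ) (hn : n = p ^ k * m) (hm : ¬ p ∣ m) :
    Nat.card {v : ZMod n → R // IsUnit (cir n v).det} =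
      Nat.card {a : R // IsUnit a ∧ a ∈ gring p k R} * cn n R 1 := by
  have e : {v : ZMod n → R // IsUnit (cir n v).det} ≃
      Σ a : {a : R // IsUnit a ∧ a ∈ gring p k R}, {v : ZMod n → R // (cir n v).det = a.1} :=
    ⟨fun v => ⟨⟨(cir n v.1).det, v.2, det_cir_mem p n k m hn v.1⟩, ⟨v.1, rfl⟩⟩,
     fun x => ⟨x.2.1, by rw [x.2.2]; exact x.1.2.1⟩,
     fun v => rfl,
     by
      rintro ⟨⟨a, ha⟩, ⟨v, hv⟩⟩
      simp only at hv
      subst hv
      rfl⟩
  have := Fintype.ofFinite {a : R // IsUnit a ∧ a ∈ gring p k R}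
  rw [Nat.card_congr e, Nat.card_sigma]
  have h1 : ∀ a : {a : R // IsUnit a ∧ a ∈ gring p k R},
      Nat.card {v : ZMod n → R // (cir n v).det = a.1} = cn n R 1 := by
    intro a
    rw [← cn_eq]
    exact cn_const n a.1 a.2.1 ((mem_Dm_iff p n k m hn hm a.1 a.2.1).2 a.2.2)
  rw [Finset.sum_congr rfl (fun a _ => h1 a), Finset.sum_const, Finset.card_univ, smul_eq_mul,
    ← Nat.card_eq_fintype_card]

end Final

end Pool.Agent.V11169.Circ
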