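import Pool.Agent.V11169.Circ1

namespace Pool.Agent.V11169.Circ

open Finset Equiv

/-- The circulant matrix whose first row is `v`; entry `(i, j)` is `v (j - i)`, the index being
taken modulo `n`. -/
def cir {R : Type*} (n : ℕ) (v : ZMod n → R) : Matrix (ZMod n) (ZMod n) R :=
  Matrix.of fun i j => v (j - i)

variable {R : Type*} [CommRing R] (p : ℕ) [hp : Fact p.Prime]

theorem addRight_pow_apply (n : ℕ) (t : ZMod n) (m : ℕ) (x : ZMod n) :
    ((Equiv.addRight t) ^ m) x = x + m * t := by
  induction m generalizing x with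
  | zero => simp
  | succ m ih =>
    rw [pow_succ, Equiv.Perm.mul_apply, ih]
    simp only [Equiv.coe_addRight, Nat.cast_succ]
    ring

/-- Every `n × n` circulant determinant lies in the ghost subring. -/
theorem det_cir_mem (n k n' : ℕ) [NeZero n] (hn : n = p ^ k * n') (v : ZMod n → R) :
    (cir n v).det ∈ gring p k R := by
  rw [Matrix.det_apply']
  set τ : Perm (ZMod n) := Equiv.addRight (n' : ZMod n) with hτ
  have hτm : ∀ (m : ℕ) x, (τ ^ m) x = x + m * (n' : ZMod n) := fun m x =>
    addRight_pow_apply n _ m x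
  set c : Perm (Perm (ZMod n)) := MulAut.toPerm _ (MulAut.conj τ) with hc
  have hcm : ∀ (m : ℕ) (π : Perm (ZMod n)), (c ^ m) π = τ ^ m * π * (τ ^ m)⁻¹ := by
    intro m π
    rw [hc, ← map_pow, ← map_pow]
    rfl
  refine orbit_sum p k hp.out c ?_ (fun π => ((Perm.sign π : ℤ) : R) * ∏ i, (cir n v) (π i) i)
    ?_ (gring p k R).toAddSubgroup ?_
  rotate_left
  · intro π
    have h1 : c π = τ * π * τ⁻¹ := by
      have := hcm 1 π
      simpa using this
    simp only [h1]
    congr 1
    · rw [Perm.sign_mul, Perm.sign_mul, Perm.sign_inv]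
      congr 2
      rw [mul_comm (Perm.sign τ), mul_assoc, Int.units_mul_self, mul_one]
    · rw [← Equiv.prod_comp τ]
      apply Finset.prod_congr rfl
      intro i _
      have hi : τ⁻¹ (τ i) = i := by rw [← Perm.mul_apply, inv_mul_cancel]; rfl
      simp only [Perm.mul_apply, hi]
      simp only [cir, Matrix.of_apply, hτ, Equiv.coe_addRight]
      congr 1
      ring
  · intro π i hi hfix
    rw [hcm] at hfix
    have hcomm : τ ^ (p ^ i) * π = π * τ ^ (p ^ i) := by
      rw [mul_inv_eq_iff_eq_mul] at hfix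
      exact hfix
    have hcomm2 : ∀ x, π (x + ((p ^ i * n' : ℕ) : ZMod n)) = π x + ((p ^ i * n' : ℕ) : ZMod n) := by
      intro x
      have h := congrArg (fun σ : Perm (ZMod n) => σ x) hcomm
      simp only [Perm.mul_apply, hτm] at h
      push_cast at h ⊢
      exact h.symm
    have hn2 : n = (p ^ i * n') * p ^ (k - i) := by
      rw [hn]
      have : p ^ k = p ^ i * p ^ (k - i) := by rw [← pow_add]; congr 1; omega
      rw [this]; ring
    have hblock := prod_block n (p ^ i * n') (p ^ (k - i)) hn2 (fun x => (cir n v) (π x) x)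
      (by
        intro x
        simp only [cir, Matrix.of_apply]
        rw [hcomm2]
        congr 1
        ring)
    simp only [hblock]
    have hmem := gen_mem p hi (∏ t ∈ Finset.range (p ^ i * n'),
      (cir n v) (π (t : ZMod n)) (t : ZMod n))
    have : (p : R) ^ i * (((Perm.sign π : ℤ) : R) * (∏ t ∈ Finset.range (p ^ i * n'),
      (cir n v) (π (t : ZMod n)) (t : ZMod n)) ^ (p ^ (k - i))) =
      ((Perm.sign π : ℤ) : R) * ((p : R) ^ i * (∏ t ∈ Finset.range (p ^ i * n'),
      (cir n v) (π (t : ZMod n)) (t : ZMod n)) ^ (p ^ (k - i))) := by ring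
    rw [this]
    exact Subring.mul_mem _ (intCast_mem _ _) hmem
  · ext π x
    rw [hcm]
    have : τ ^ (p ^ k) = 1 := by
      ext y
      rw [hτm]
      have : ((p ^ k : ℕ) : ZMod n) * (n' : ZMod n) = 0 := by
        rw [← Nat.cast_mul, ← hn]
        simp
      rw [this]
      simp
    rw [this]
    simp

end Pool.Agent.V11169.Circ
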