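import Pool.Agent.V11169.Circ2

namespace Pool.Agent.V11169.Circ

open Finset Equiv

theorem sum_zmod {M : Type*} [AddCommMonoid M] (n : ℕ) [NeZero n] (g : ZMod n → M) :
    ∑ x : ZMod n, g x = ∑ t ∈ Finset.range n, g (t : ZMod n) := by
  symm
  refine Finset.sum_bij (fun (t : ℕ) _ => (t : ZMod n)) ?_ ?_ ?_ ?_
  · intro t _; simp
  · intro a ha b hb h
    rw [ZMod.natCast_eq_natCast_iff'] at h
    rwa [Nat.mod_eq_of_lt (Finset.mem_range.1 ha), Nat.mod_eq_of_lt (Finset.mem_range.1 hb)] at h
  · intro b _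
    exact ⟨b.val, Finset.mem_range.2 (ZMod.val_lt b), by simp⟩
  · intro t _; rfl

theorem det_expand {R : Type*} [CommRing R] {m : Type*} [Fintype m] [DecidableEq m]
    (r : R) (T : Matrix m m R) :
    (1 + r • T).det = ∑ A : Finset m, r ^ A.card *
      (Matrix.of fun a b => if a ∈ A then T a b else (1 : Matrix m m R) a b).det := by
  rw [add_comm]
  have h := (Matrix.detRowAlternating (n := m) (R := R)).toMultilinearMap.map_add_univ
    (fun a => r • T a) (fun a => (1 : Matrix m m R) a)
  have h1 : (r • T + 1).det = (Matrix.detRowAlternating (n := m) (R := R)).toMultilinearMap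
    ((fun a => r • T a) + (fun a => (1 : Matrix m m R) a)) := rfl
  rw [h1, h]
  apply Finset.sum_congr rfl
  intro A _
  have h2 := (Matrix.detRowAlternating (n := m) (R := R)).toMultilinearMap.map_piecewise_smul
    (fun _ => r) (fun a => if a ∈ A then T a else (1 : Matrix m m R) a) A
  have h3 : A.piecewise (fun a => r • T a) (fun a => (1 : Matrix m m R) a) =
      A.piecewise (fun i => (fun _ => r) i • (fun a => if a ∈ A then T a else
        (1 : Matrix m m R) a) i) (fun a => if a ∈ A then T a else (1 : Matrix m m R) a) := by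
    funext a
    by_cases ha : a ∈ A
    · simp [Finset.piecewise, ha]
    · simp [Finset.piecewise, ha]
  rw [h3, h2, Finset.prod_const, smul_eq_mul]
  congr 1
  change Matrix.det (fun a => if a ∈ A then T a else (1 : Matrix m m R) a) = _
  congr 1
  funext a b
  by_cases ha : a ∈ A
  · simp [ha]
  · simp [ha]

section Window

variable (p k j : ℕ) [hp : Fact p.Prime]

/-- the integer matrix with rows in `A` taken from the window matrix, other rows from `1` -/
def W (A : Finset (ZMod (p ^ k))) : Matrix (ZMod (p ^ k)) (ZMod (p ^ k)) ℤ :=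
  Matrix.of fun a b => if a ∈ A then (if (b - a).val < p ^ j then 1 else 0)
    else (if a = b then 1 else 0)

/-- the minor -/
noncomputable def E (A : Finset (ZMod (p ^ k))) : ℤ :=
  haveI : NeZero (p ^ k) := ⟨pow_ne_zero _ hp.out.ne_zero⟩
  (W p k j A).det

/-- reduction -/
noncomputable def red (hj : j ≤ k) : ZMod (p ^ k) →+* ZMod (p ^ j) :=
  ZMod.castHom (pow_dvd_pow p hj) _

theorem red_eq_zero (hj : j ≤ k) (z : ZMod (p ^ k)) (hz : red p k j hj z = 0) :
    ∃ m : ℕ, z = (p ^ j : ℕ) * (m : ZMod (p ^ k)) := by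
  have : NeZero (p ^ k) := ⟨pow_ne_zero _ hp.out.ne_zero⟩
  have h1 : z = ((z.val : ℕ) : ZMod (p ^ k)) := (ZMod.natCast_zmod_val z).symm
  rw [h1, map_natCast] at hz
  rw [ZMod.natCast_eq_zero_iff] at hz
  obtain ⟨m, hm⟩ := hz
  refine ⟨m, ?_⟩
  rw [h1, hm]
  push_cast
  ring

theorem red_eq_zero_of_lt (hj : j ≤ k) (z : ZMod (p ^ k)) (hz : red p k j hj z = 0)
    (hlt : z.val < p ^ j) : z = 0 := by
  have : NeZero (p ^ k) := ⟨pow_ne_zero _ hp.out.ne_zero⟩
  have h1 : z = ((z.val : ℕ) : ZMod (p ^ k)) := (ZMod.natCast_zmod_val z).symm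
  rw [h1, map_natCast] at hz
  rw [ZMod.natCast_eq_zero_iff] at hz
  have := Nat.eq_zero_of_dvd_of_lt hz hlt
  rw [h1, this]
  simp

theorem window_sum (hj : j ≤ k) {M : Type*} [AddCommMonoid M] (v : ZMod (p ^ j) → M)
    (a : ZMod (p ^ k)) [NeZero (p ^ k)] [NeZero (p ^ j)] :
    ∑ b : ZMod (p ^ k), (if (b - a).val < p ^ j then v (red p k j hj b) else 0) = ∑ y, v y := by
  rw [← Equiv.sum_comp (Equiv.addLeft a)]
  simp only [Equiv.coe_addLeft, add_sub_cancel_left, map_add]
  have h1 := sum_zmod (p ^ k) (fun s : ZMod (p ^ k) =>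
    if s.val < p ^ j then v (red p k j hj a + red p k j hj s) else 0)
  have h1' : ∑ x : ZMod (p ^ k), (if x.val < p ^ j then
      v (red p k j hj a + red p k j hj x) else 0) = ∑ t ∈ Finset.range (p ^ k),
      (fun s : ZMod (p ^ k) => if s.val < p ^ j then
        v (red p k j hj a + red p k j hj s) else 0) (t : ZMod (p ^ k)) := by
    rw [← h1]
  rw [h1']
  have h2 : ∑ y : ZMod (p ^ j), v y = ∑ t ∈ Finset.range (p ^ j),
      v (red p k j hj a + (t : ZMod (p ^ j))) := by
    rw [← sum_zmod (p ^ j) (fun y => v (red p k j hj a + y))]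
    exact (Equiv.sum_comp (Equiv.addLeft (red p k j hj a)) v).symm
  rw [h2]
  have hle : p ^ j ≤ p ^ k := Nat.pow_le_pow_right hp.out.pos hj
  rw [← Finset.sum_subset (Finset.range_mono hle)]
  · apply Finset.sum_congr rfl
    intro t ht
    have ht' := Finset.mem_range.1 ht
    have : ((t : ZMod (p ^ k))).val = t := by
      rw [ZMod.val_natCast]
      exact Nat.mod_eq_of_lt (lt_of_lt_of_le ht' hle)
    simp only [this, ht', if_true, map_natCast]
  · intro t ht ht2
    have ht' := Finset.mem_range.1 ht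
    have : ((t : ZMod (p ^ k))).val = t := by
      rw [ZMod.val_natCast]
      exact Nat.mod_eq_of_lt ht'
    rw [Finset.mem_range] at ht2
    simp only [this, ht2, if_false]

end Window

end Pool.Agent.V11169.Circ
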