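import Pool.Agent.V11169.Circ3

namespace Pool.Agent.V11169.Circ

open Finset Equiv

variable (p k j : ℕ) [hp : Fact p.Prime] [NeZero (p ^ k)]

theorem E_eq (A : Finset (ZMod (p ^ k))) : E p k j A = (W p k j A).det := by
  unfold E
  congr

/-- shift of subsets -/
def sh : Perm (Finset (ZMod (p ^ k))) := (Equiv.addRight (1 : ZMod (p ^ k))).finsetCongr

omit hp [NeZero (p ^ k)] in
theorem mem_sh_pow (m : ℕ) (A : Finset (ZMod (p ^ k))) (x : ZMod (p ^ k)) :
    x ∈ (sh p k ^ m) A ↔ x - m ∈ A := by
  induction m generalizing A x with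
  | zero => simp
  | succ m ih =>
    rw [pow_succ, Equiv.Perm.mul_apply, ih]
    unfold sh
    rw [Equiv.finsetCongr_apply, Finset.mem_map_equiv]
    simp only [Equiv.addRight_symm, Equiv.coe_addRight, Nat.cast_succ]
    rw [← sub_eq_add_neg, sub_sub]

omit hp [NeZero (p ^ k)] in
theorem sh_card (A : Finset (ZMod (p ^ k))) : (sh p k A).card = A.card := by
  unfold sh
  rw [Equiv.finsetCongr_apply, Finset.card_map]

theorem E_sh (A : Finset (ZMod (p ^ k))) : E p k j (sh p k A) = E p k j A := by
  rw [E_eq, E_eq]
  rw [← Matrix.det_submatrix_equiv_self (Equiv.addRight (1 : ZMod (p ^ k))) (W p k j (sh p k A))]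
  congr 1
  ext a b
  have h := mem_sh_pow p k 1 A (a + 1)
  simp only [pow_one, Nat.cast_one, add_sub_cancel_right] at h
  simp only [Matrix.submatrix_apply, W, Matrix.of_apply, Equiv.coe_addRight, h,
    add_sub_add_right_eq_sub, add_left_inj]

theorem E_empty : E p k j ∅ = 1 := by
  rw [E_eq]
  have : W p k j ∅ = 1 := by
    ext a b
    simp [W, Matrix.one_apply]
  rw [this, Matrix.det_one]

omit hp [NeZero (p ^ k)] in
theorem periodic_add (A : Finset (ZMod (p ^ k))) (hA : (sh p k ^ (p ^ j)) A = A)
    (x : ZMod (p ^ k)) (m : ℕ) : x + (p ^ j : ℕ) * (m : ZMod (p ^ k)) ∈ A ↔ x ∈ A := by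
  induction m with
  | zero => simp
  | succ m ih =>
    rw [← ih]
    conv_lhs => rw [← hA]
    rw [mem_sh_pow]
    have : x + (p ^ j : ℕ) * ((m + 1 : ℕ) : ZMod (p ^ k)) - ((p ^ j : ℕ) : ZMod (p ^ k)) =
      x + (p ^ j : ℕ) * (m : ZMod (p ^ k)) := by push_cast; ring
    rw [this]

theorem periodic_red (hj : j ≤ k) (A : Finset (ZMod (p ^ k))) (hA : (sh p k ^ (p ^ j)) A = A)
    (x y : ZMod (p ^ k)) (h : red p k j hj x = red p k j hj y) : x ∈ A ↔ y ∈ A := by
  have h0 : red p k j hj (y - x) = 0 := by rw [map_sub, h, sub_self]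
  obtain ⟨m, hm⟩ := red_eq_zero p k j hj _ h0
  have : y = x + (p ^ j : ℕ) * (m : ZMod (p ^ k)) := by rw [← hm]; ring
  rw [this, periodic_add p k j A hA]

/-- residue class -/
noncomputable def cls (hj : j ≤ k) (y : ZMod (p ^ j)) : Finset (ZMod (p ^ k)) :=
  Finset.univ.filter fun x => red p k j hj x = y

theorem E_zero (hj : j ≤ k) (A : Finset (ZMod (p ^ k))) (hA : (sh p k ^ (p ^ j)) A = A)
    (x y : ZMod (p ^ k)) (hx : x ∈ A) (hy : y ∈ A) (hxy : red p k j hj x ≠ red p k j hj y) :
    E p k j A = 0 := by
  classical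
  have : NeZero (p ^ j) := ⟨pow_ne_zero _ hp.out.ne_zero⟩
  rw [E_eq, ← Matrix.exists_mulVec_eq_zero_iff]
  let v : ZMod (p ^ j) → ℤ := fun z => (if z = red p k j hj x then 1 else 0) -
    (if z = red p k j hj y then 1 else 0)
  refine ⟨fun b => v (red p k j hj b), ?_, ?_⟩
  · intro h
    have := congrFun h x
    simp [v, hxy] at this
  · funext a
    simp only [Matrix.mulVec, dotProduct, Pi.zero_apply]
    by_cases ha : a ∈ A
    · have h1 : ∀ b, W p k j A a b * v (red p k j hj b) =
          if (b - a).val < p ^ j then v (red p k j hj b) else 0 := by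
        intro b
        simp only [W, Matrix.of_apply, ha, if_true]
        split_ifs <;> simp
      rw [Finset.sum_congr rfl (fun b _ => h1 b), window_sum p k j hj v a]
      simp only [v, Finset.sum_sub_distrib]
      simp
    · have h1 : ∀ b, W p k j A a b * v (red p k j hj b) =
          if a = b then v (red p k j hj a) else 0 := by
        intro b
        simp only [W, Matrix.of_apply, ha, if_false]
        split_ifs with h
        · simp [h]
        · simp
      rw [Finset.sum_congr rfl (fun b _ => h1 b)]
      simp only [Finset.sum_ite_eq, Finset.mem_univ, if_true]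
      have h2 : red p k j hj a ≠ red p k j hj x := by
        intro h
        exact ha ((periodic_red p k j hj A hA a x h).2 hx)
      have h3 : red p k j hj a ≠ red p k j hj y := by
        intro h
        exact ha ((periodic_red p k j hj A hA a y h).2 hy)
      simp [v, h2, h3]

theorem E_cls (hj : j ≤ k) (y : ZMod (p ^ j)) : E p k j (cls p k j hj y) = 1 := by
  classical
  rw [E_eq]
  rw [Matrix.twoBlockTriangular_det (W p k j (cls p k j hj y)) (fun x => red p k j hj x = y)]
  · have h1 : (W p k j (cls p k j hj y)).toSquareBlockProp (fun x => red p k j hj x = y) = 1 := by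
      ext ⟨a, ha⟩ ⟨b, hb⟩
      change W p k j (cls p k j hj y) a b = _
      simp only [W, Matrix.of_apply]
      have hm : a ∈ cls p k j hj y := by simp [cls, ha]
      simp only [hm, if_true]
      by_cases hab : a = b
      · subst hab
        simp [Matrix.one_apply, hp.out.pos]
      · have : ¬ (b - a).val < p ^ j := by
          intro hlt
          have h0 : red p k j hj (b - a) = 0 := by rw [map_sub, ha, hb, sub_self]
          have := red_eq_zero_of_lt p k j hj _ h0 hlt
          exact hab (sub_eq_zero.1 this).symm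
        simp [Matrix.one_apply, this, hab]
    have h2 : (W p k j (cls p k j hj y)).toSquareBlockProp (fun x => ¬ red p k j hj x = y) = 1 := by
      ext ⟨a, ha⟩ ⟨b, hb⟩
      change W p k j (cls p k j hj y) a b = _
      simp only [W, Matrix.of_apply]
      have hm : a ∉ cls p k j hj y := by simp [cls, ha]
      simp only [hm, if_false]
      simp [Matrix.one_apply]
    rw [h1, h2, Matrix.det_one, Matrix.det_one, one_mul]
  · intro a ha b hb
    have hm : a ∉ cls p k j hj y := by simp [cls, ha]
    simp only [W, Matrix.of_apply, hm, if_false]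
    rw [if_neg]
    intro h
    subst h
    exact ha hb

end Pool.Agent.V11169.Circ
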