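import Pool.Agent.V11169.Circ4

namespace Pool.Agent.V11169.Circ

open Finset Equiv

variable (p k j : ℕ) [hp : Fact p.Prime] [NeZero (p ^ k)] {R : Type*} [CommRing R]

theorem pow_card_periodic (i : ℕ) (hi : i ≤ k) (A : Finset (ZMod (p ^ k)))
    (hA : (sh p k ^ (p ^ i)) A = A) (r : R) :
    r ^ A.card = (∏ t ∈ Finset.range (p ^ i),
      (if (t : ZMod (p ^ k)) ∈ A then r else 1)) ^ (p ^ (k - i)) := by
  classical
  have hn : p ^ k = p ^ i * p ^ (k - i) := by rw [← pow_add]; congr 1; omega
  rw [← prod_block (p ^ k) (p ^ i) (p ^ (k - i)) hn (fun x => if x ∈ A then r else 1)]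
  · rw [Finset.prod_ite_mem, Finset.univ_inter, Finset.prod_const]
  · intro x
    have h := periodic_add p k i A hA x 1
    simp only [Nat.cast_one, mul_one] at h
    simp only [h]

theorem cls_periodic (hj : j ≤ k) (y : ZMod (p ^ j)) :
    (sh p k ^ (p ^ j)) (cls p k j hj y) = cls p k j hj y := by
  ext x
  rw [mem_sh_pow]
  simp only [cls, Finset.mem_filter, Finset.mem_univ, true_and, map_sub, map_natCast]
  simp

theorem pow_card_cls (hj : j ≤ k) (y : ZMod (p ^ j)) (r : R) :
    r ^ (cls p k j hj y).card = r ^ (p ^ (k - j)) := by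
  classical
  have : NeZero (p ^ j) := ⟨pow_ne_zero _ hp.out.ne_zero⟩
  rw [pow_card_periodic p k j hj _ (cls_periodic p k j hj y)]
  congr 1
  have h1 : ∀ t ∈ Finset.range (p ^ j), (if (t : ZMod (p ^ k)) ∈ cls p k j hj y then r else 1) =
      (fun z : ZMod (p ^ j) => if z = y then r else 1) (t : ZMod (p ^ j)) := by
    intro t _
    simp only [cls, Finset.mem_filter, Finset.mem_univ, true_and, map_natCast]
  rw [Finset.prod_congr rfl h1]
  have h2 := prod_zmod (p ^ j) (fun z : ZMod (p ^ j) => if z = y then r else 1)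
  rw [← h2]
  simp

theorem cls_inj (hj : j ≤ k) {y z : ZMod (p ^ j)} (h : cls p k j hj y = cls p k j hj z) :
    y = z := by
  have : NeZero (p ^ j) := ⟨pow_ne_zero _ hp.out.ne_zero⟩
  have h1 : ((y.val : ℕ) : ZMod (p ^ k)) ∈ cls p k j hj y := by
    simp [cls]
  rw [h] at h1
  simpa [cls] using h1

theorem cls_nonempty (hj : j ≤ k) (y : ZMod (p ^ j)) : cls p k j hj y ≠ ∅ := by
  have : NeZero (p ^ j) := ⟨pow_ne_zero _ hp.out.ne_zero⟩
  have h1 : ((y.val : ℕ) : ZMod (p ^ k)) ∈ cls p k j hj y := by
    simp [cls]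
  intro h
  rw [h] at h1
  simp at h1

/-- the periodic part of the expansion -/
theorem sum_periodic (hj : j ≤ k) (r : R) :
    ∑ A ∈ Finset.univ.filter (fun A => (sh p k ^ (p ^ j)) A = A),
      r ^ A.card * ((E p k j A : ℤ) : R) = 1 + (p : R) ^ j * r ^ (p ^ (k - j)) := by
  classical
  have : NeZero (p ^ j) := ⟨pow_ne_zero _ hp.out.ne_zero⟩
  have hsub : insert ∅ (Finset.univ.image (cls p k j hj)) ⊆
      Finset.univ.filter (fun A => (sh p k ^ (p ^ j)) A = A) := by
    intro A hA
    rw [Finset.mem_insert] at hA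
    rw [Finset.mem_filter]
    refine ⟨Finset.mem_univ _, ?_⟩
    rcases hA with rfl | hA
    · ext x
      rw [mem_sh_pow]
      simp
    · obtain ⟨y, _, rfl⟩ := Finset.mem_image.1 hA
      exact cls_periodic p k j hj y
  rw [← Finset.sum_subset hsub]
  · rw [Finset.sum_insert, Finset.sum_image]
    · rw [E_empty, Finset.card_empty]
      simp only [pow_card_cls, E_cls]
      rw [Finset.sum_const, Finset.card_univ, ZMod.card]
      simp [nsmul_eq_mul]
    · intro y _ z _ h
      exact cls_inj p k j hj h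
    · intro h
      obtain ⟨y, _, hy⟩ := Finset.mem_image.1 h
      exact cls_nonempty p k j hj y hy
  · intro A hA hA2
    have hper := (Finset.mem_filter.1 hA).2
    have hne : A ≠ ∅ := by
      intro h
      exact hA2 (by rw [h]; exact Finset.mem_insert_self _ _)
    obtain ⟨x, hx⟩ := Finset.nonempty_iff_ne_empty.2 hne
    have : ∃ y ∈ A, red p k j hj x ≠ red p k j hj y := by
      by_contra hcon
      push Not at hcon
      apply hA2
      rw [Finset.mem_insert]
      right
      rw [Finset.mem_image]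
      refine ⟨red p k j hj x, Finset.mem_univ _, ?_⟩
      ext z
      simp only [cls, Finset.mem_filter, Finset.mem_univ, true_and]
      constructor
      · intro hz
        exact (periodic_red p k j hj A hper x z hz.symm).1 hx
      · intro hz
        exact (hcon z hz).symm
    obtain ⟨y, hy, hxy⟩ := this
    rw [E_zero p k j hj A hper x y hx hy hxy]
    simp

/-- the non-periodic part of the expansion -/
theorem sum_nonperiodic (r : R) :
    ∃ s : R, s ∈ gring p (k - j - 1) R ∧ (j = k → s = 0) ∧
    ∑ A ∈ Finset.univ.filter (fun A => ¬ (sh p k ^ (p ^ j)) A = A),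
      r ^ A.card * ((E p k j A : ℤ) : R) = (p : R) ^ (j + 1) * s := by
  classical
  have hone : sh p k ^ (p ^ k) = 1 := by
    ext A x
    rw [mem_sh_pow]
    simp
  by_cases hjk : j = k
  · refine ⟨0, Subring.zero_mem _, fun _ => rfl, ?_⟩
    rw [mul_zero]
    apply Finset.sum_eq_zero
    intro A hA
    exfalso
    apply (Finset.mem_filter.1 hA).2
    rw [hjk, hone]
    rfl
  let P : AddSubgroup R := (gring p (k - j - 1) R).toAddSubgroup.map
    (AddMonoidHom.mulLeft ((p : R) ^ (j + 1)))
  suffices h : ∑ A ∈ Finset.univ.filter (fun A => ¬ (sh p k ^ (p ^ j)) A = A),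
      r ^ A.card * ((E p k j A : ℤ) : R) ∈ P by
    obtain ⟨s, hs, hs2⟩ := h
    exact ⟨s, hs, fun h => absurd h hjk, hs2.symm⟩
  rw [Finset.sum_filter]
  have hcomm : ∀ m A, (sh p k ^ m) (sh p k A) = sh p k ((sh p k ^ m) A) := by
    intro m A
    rw [← Equiv.Perm.mul_apply, ← Equiv.Perm.mul_apply, ← pow_succ, ← pow_succ']
  refine orbit_sum p k hp.out (sh p k) hone _ ?_ P ?_
  · intro A
    simp only [hcomm, (sh p k).injective.eq_iff, sh_card, E_sh]
  · intro A i hi hA
    split_ifs with hper
    · rw [mul_zero]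
      exact P.zero_mem
    · have hij : j < i := by
        by_contra hcon
        apply hper
        have : p ^ j = p ^ i * p ^ (j - i) := by rw [← pow_add]; congr 1; omega
        rw [this, pow_mul]
        generalize p ^ (j - i) = m
        induction m with
        | zero => simp
        | succ m ih => rw [pow_succ, Equiv.Perm.mul_apply, hA, ih]
      rw [pow_card_periodic p k i hi A hA]
      refine ⟨(p : R) ^ (i - j - 1) * (∏ t ∈ Finset.range (p ^ i),
        (if (t : ZMod (p ^ k)) ∈ A then r else 1)) ^ (p ^ ((k - j - 1) - (i - j - 1))) *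
        ((E p k j A : ℤ) : R), ?_, ?_⟩
      · apply Subring.mul_mem
        · exact gen_mem p (by omega) _
        · exact intCast_mem _ _
      · have h1 : k - j - 1 - (i - j - 1) = k - i := by omega
        have h2 : (p : R) ^ i = (p : R) ^ (j + 1) * (p : R) ^ (i - j - 1) := by
          rw [← pow_add]; congr 1; omega
        rw [h1, h2]
        simp only [AddMonoidHom.coe_mulLeft]
        ring

theorem step (hj : j ≤ k) (r : R) : ∃ v : ZMod (p ^ k) → R, ∃ s : R,
    s ∈ gring p (k - j - 1) R ∧ (j = k → s = 0) ∧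
    (cir (p ^ k) v).det = 1 + (p : R) ^ j * r ^ (p ^ (k - j)) + (p : R) ^ (j + 1) * s := by
  classical
  obtain ⟨s, hs, hs0, hs2⟩ := sum_nonperiodic p k j r
  refine ⟨fun x => (if x = 0 then 1 else 0) + r * (if x.val < p ^ j then 1 else 0), s, hs, hs0, ?_⟩
  have h1 : cir (p ^ k) (fun x : ZMod (p ^ k) => (if x = 0 then (1 : R) else 0) +
      r * (if x.val < p ^ j then 1 else 0)) =
      1 + r • (Matrix.of fun a b : ZMod (p ^ k) => if (b - a).val < p ^ j then (1 : R) else 0) := by
    ext a b
    simp only [cir, Matrix.of_apply, Matrix.add_apply, Matrix.smul_apply, smul_eq_mul,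
      Matrix.one_apply, sub_eq_zero]
    congr 1
    by_cases h : a = b
    · simp [h]
    · have : ¬ b = a := fun h' => h h'.symm
      simp [h, this]
  rw [h1, det_expand]
  have h2 : ∀ A : Finset (ZMod (p ^ k)), (Matrix.of fun a b => if a ∈ A then
      (Matrix.of fun a b : ZMod (p ^ k) => if (b - a).val < p ^ j then (1 : R) else 0) a b
      else (1 : Matrix (ZMod (p ^ k)) (ZMod (p ^ k)) R) a b).det = ((E p k j A : ℤ) : R) := by
    intro A
    rw [E_eq]
    have := (Int.castRingHom R).map_det (W p k j A)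
    rw [eq_intCast] at this
    rw [this]
    congr 1
    ext a b
    simp only [Matrix.of_apply, RingHom.mapMatrix_apply, Matrix.map_apply, W, Matrix.one_apply]
    split_ifs <;> simp
  simp only [h2]
  rw [← Finset.sum_filter_add_sum_filter_not Finset.univ
    (fun A => (sh p k ^ (p ^ j)) A = A), sum_periodic p k j hj, hs2]

end Pool.Agent.V11169.Circ
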