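import Pool.Agent.V11169.Circ5

namespace Pool.Agent.V11169.Circ

open Finset Equiv

section Mul

variable {R : Type*} [CommRing R] (n : ℕ) [NeZero n]

theorem cir_mul (v w : ZMod n → R) :
    cir n v * cir n w = cir n (fun t => ∑ m, v m * w (t - m)) := by
  ext i j
  simp only [Matrix.mul_apply, cir, Matrix.of_apply]
  rw [← Equiv.sum_comp (Equiv.addRight i)]
  apply Finset.sum_congr rfl
  intro m _
  simp only [Equiv.coe_addRight, add_sub_cancel_right]
  congr 2
  ring

theorem cir_single (a : R) : cir n (fun x => if x = 0 then a else 0) = a • 1 := by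
  ext i j
  simp only [cir, Matrix.of_apply, Matrix.smul_apply, Matrix.one_apply, sub_eq_zero, smul_eq_mul]
  by_cases h : i = j
  · simp [h]
  · have : ¬ j = i := fun h' => h h'.symm
    simp [h, this]

/-- circulant matrices -/
def Cm (R : Type*) [CommRing R] : Submonoid (Matrix (ZMod n) (ZMod n) R) where
  carrier := {A | ∃ v, A = cir n v}
  mul_mem' := by
    rintro _ _ ⟨v, rfl⟩ ⟨w, rfl⟩
    exact ⟨_, cir_mul n v w⟩
  one_mem' := ⟨fun x => if x = 0 then 1 else 0, by rw [cir_single, one_smul]⟩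

theorem mem_Cm (v : ZMod n → R) : cir n v ∈ Cm n R := ⟨v, rfl⟩

/-- the monoid of determinants -/
def Dm (R : Type*) [CommRing R] : Submonoid R := (Cm n R).map (Matrix.detMonoidHom)

theorem mem_Dm {a : R} : a ∈ Dm n R ↔ ∃ v, (cir n v).det = a := by
  constructor
  · rintro ⟨A, ⟨v, rfl⟩, rfl⟩
    exact ⟨v, rfl⟩
  · rintro ⟨v, rfl⟩
    exact ⟨cir n v, mem_Cm n v, rfl⟩

end Mul

section Surj

variable (p : ℕ) [hp : Fact p.Prime] {R : Type*} [CommRing R]

theorem exists_inv_mem [Finite R] {k : ℕ} {u : R} (hu : IsUnit u) (hm : u ∈ gring p k R) :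
    ∃ u' ∈ gring p k R, u * u' = 1 := by
  obtain ⟨u, rfl⟩ := hu
  obtain ⟨m, hm0, hm1⟩ := isOfFinOrder_iff_pow_eq_one.1 (isOfFinOrder_of_finite u)
  refine ⟨(u : R) ^ (m - 1), Subring.pow_mem _ hm _, ?_⟩
  rw [← pow_succ', Nat.sub_add_cancel hm0, ← Units.val_pow_eq_pow_val, hm1, Units.val_one]

theorem D_of [Finite R] (hloc : ∀ x : R, IsUnit (1 + (p : R) * x)) (k : ℕ) [NeZero (p ^ k)] (d : ℕ) :
    ∀ j, 1 ≤ j → j + d = k → ∀ s ∈ gring p d R, 1 + (p : R) ^ j * s ∈ Dm (p ^ k) R := by
  induction d with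
  | zero =>
    intro j _ hjk s _
    have hjk' : j = k := by omega
    obtain ⟨v, s', _, hs0, hv⟩ := step p k j (by omega) s
    rw [mem_Dm]
    refine ⟨v, ?_⟩
    rw [hv, hs0 hjk', hjk']
    simp
  | succ d ih =>
    intro j hj hjk s hs
    obtain ⟨y, s1, hs1, rfl⟩ := split_gring p hs
    obtain ⟨v, s2, hs2, _, hv⟩ := step p k j (by omega) y
    have hkj : k - j = d + 1 := by omega
    have hkj1 : k - j - 1 = d := by omega
    rw [hkj1] at hs2
    rw [hkj] at hv
    have humem : (cir (p ^ k) v).det ∈ gring p d R :=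
      gring_le p (by omega) (det_cir_mem p (p ^ k) k 1 (by simp) v)
    have hj' : (p : R) ^ j = p * (p : R) ^ (j - 1) := by
      rw [← pow_succ']; congr 1; omega
    have hunit : IsUnit (cir (p ^ k) v).det := by
      rw [hv]
      have := hloc ((p : R) ^ (j - 1) * y ^ (p ^ (d + 1)) + (p : R) ^ j * s2)
      convert this using 1
      rw [pow_succ (p : R) j, hj']
      ring
    obtain ⟨u', hu', huu⟩ := exists_inv_mem p hunit humem
    have h1 := ih (j + 1) (by omega) (by omega) ((s1 - s2) * u')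
      (Subring.mul_mem _ (Subring.sub_mem _ hs1 hs2) hu')
    have h2 : (cir (p ^ k) v).det ∈ Dm (p ^ k) R := (mem_Dm _).2 ⟨v, rfl⟩
    have h3 := Submonoid.mul_mem _ h2 h1
    convert h3 using 1
    have : (cir (p ^ k) v).det * (1 + (p : R) ^ (j + 1) * ((s1 - s2) * u')) =
        (cir (p ^ k) v).det + (p : R) ^ (j + 1) * (s1 - s2) * ((cir (p ^ k) v).det * u') := by ring
    rw [this, huu, hv]
    ring

theorem mem_Dm_of_mem_gring [Finite R] (hloc : ∀ x : R, IsUnit (1 + (p : R) * x)) (k : ℕ)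
    [NeZero (p ^ k)] (a : R) (ha : IsUnit a) (hak : a ∈ gring p k R) : a ∈ Dm (p ^ k) R := by
  have hscal : ∀ x : R, x ^ (p ^ k) ∈ Dm (p ^ k) R := by
    intro x
    rw [mem_Dm]
    refine ⟨fun t => if t = 0 then x else 0, ?_⟩
    rw [cir_single, Matrix.det_smul, Matrix.det_one, mul_one, ZMod.card]
  rcases k with _ | k
  · simpa using hscal a
  · obtain ⟨x, s, hs, hx⟩ := split_gring p hak
    obtain ⟨a', ha'⟩ := ha
    have hxu : IsUnit (x ^ (p ^ (k + 1))) := by
      have h1 : x ^ (p ^ (k + 1)) = a * (1 + p * (-s * ((a'⁻¹ : Rˣ) : R))) := by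
        have : a * ((a'⁻¹ : Rˣ) : R) = 1 := by rw [← ha']; simp
        calc x ^ (p ^ (k + 1)) = a - p * s := by rw [hx]; ring
        _ = a - p * s * 1 := by ring
        _ = a - p * s * (a * ((a'⁻¹ : Rˣ) : R)) := by rw [this]
        _ = _ := by ring
      rw [h1]
      exact IsUnit.mul (by rw [← ha']; exact a'.isUnit) (hloc _)
    have hpk : p ^ (k + 1) ≠ 0 := pow_ne_zero _ hp.out.ne_zero
    have hxu' : IsUnit x := (isUnit_pow_iff hpk).1 hxu
    obtain ⟨x', rfl⟩ := hxu'
    have h2 : s * (((x'⁻¹ : Rˣ) : R) ^ p) ^ (p ^ k) ∈ gring p k R :=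
      Subring.mul_mem _ hs (pow_mem p _)
    have h3 := D_of p hloc (k + 1) k 1 (le_refl _) (by omega) _ h2
    have h4 := Submonoid.mul_mem _ (hscal (x' : R)) h3
    convert h4 using 1
    rw [hx, pow_one]
    have h5 : ((x' : R) ^ (p ^ (k + 1))) * (((x'⁻¹ : Rˣ) : R) ^ p) ^ (p ^ k) = 1 := by
      rw [← pow_mul, ← pow_succ', ← mul_pow]
      simp
    calc (x' : R) ^ (p ^ (k + 1)) + p * s = (x' : R) ^ (p ^ (k + 1)) + p * s * 1 := by ring
    _ = (x' : R) ^ (p ^ (k + 1)) + p * s * (((x' : R) ^ (p ^ (k + 1))) *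
        (((x'⁻¹ : Rˣ) : R) ^ p) ^ (p ^ k)) := by rw [h5]
    _ = _ := by ring

end Surj

section Lift

variable {R : Type*} [CommRing R]

theorem sum_range_block {M : Type*} [AddCommMonoid M] (h : ℕ → M) (a b : ℕ)
    (hh : ∀ t, h (t + a) = h t) :
    ∑ t ∈ Finset.range (a * b), h t = b • (∑ t ∈ Finset.range a, h t) := by
  induction b with
  | zero => simp
  | succ b ih =>
    rw [Nat.mul_succ, Finset.sum_range_add, ih, succ_nsmul]
    congr 1
    apply Finset.sum_congr rfl
    intro t _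
    have : ∀ b, h (a * b + t) = h t := by
      intro b
      induction b with
      | zero => simp
      | succ b ih => rw [Nat.mul_succ, show a * b + a + t = a * b + t + a by ring, hh, ih]
    exact this b

/-- sums over the fibres of reduction -/
theorem sum_castHom {M : Type*} [AddCommMonoid M] (n m b : ℕ) [NeZero n] [NeZero m]
    (hn : n = m * b) (h : m ∣ n) (g : ZMod m → M) :
    ∑ x : ZMod n, g (ZMod.castHom h (ZMod m) x) = b • ∑ y : ZMod m, g y := by
  rw [sum_zmod, sum_zmod m, ← sum_range_block (fun t => g (t : ZMod m)) m b]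
  · simp only [map_natCast]
    rw [hn]
  · intro t
    simp

theorem lift_det (n m b : ℕ) [NeZero n] [NeZero m] (hn : n = m * b) (u : R)
    (hu : (b : R) * u = 1) (v : ZMod m → R) :
    ∃ w : ZMod n → R, (cir n w).det = (cir m v).det := by
  classical
  have h : m ∣ n := ⟨b, hn⟩
  set ρ := ZMod.castHom h (ZMod m) with hρ
  let B : Matrix (ZMod m) (ZMod n) R := Matrix.of fun s a => if ρ a = s then 1 else 0
  let M : Matrix (ZMod m) (ZMod m) R := u • (cir m v - 1)
  refine ⟨fun x => (if x = 0 then 1 else 0) + u * (v (ρ x) - (if ρ x = 0 then 1 else 0)), ?_⟩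
  have h1 : cir n (fun x => (if x = 0 then (1 : R) else 0) +
      u * (v (ρ x) - (if ρ x = 0 then 1 else 0))) = 1 + B.transpose * (M * B) := by
    ext i j
    simp only [Matrix.add_apply, Matrix.mul_apply, Matrix.transpose_apply, B, Matrix.of_apply,
      cir, Matrix.one_apply, M, Matrix.smul_apply, Matrix.sub_apply, smul_eq_mul, map_sub]
    congr 1
    · by_cases hij : i = j
      · simp [hij]
      · have : ¬ (j - i = 0) := fun h' => hij (sub_eq_zero.1 h').symm
        simp [hij, this]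
    · simp only [ite_mul, one_mul, zero_mul, mul_ite, mul_one, mul_zero, Finset.sum_ite_eq,
        Finset.mem_univ, if_true]
      congr 2
      by_cases hij : ρ i = ρ j
      · simp [hij]
      · have : ¬ (ρ j - ρ i = 0) := fun h' => hij (sub_eq_zero.1 h').symm
        simp [hij, this]
  rw [h1, Matrix.det_one_add_mul_comm, Matrix.mul_assoc]
  have h2 : B * B.transpose = (b : R) • 1 := by
    ext s t
    simp only [Matrix.mul_apply, Matrix.transpose_apply, B, Matrix.of_apply, Matrix.smul_apply,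
      Matrix.one_apply, smul_eq_mul]
    have := sum_castHom n m b hn h (fun y => (if y = s then (1 : R) else 0) *
      (if y = t then (1 : R) else 0))
    rw [← hρ] at this
    rw [this]
    simp only [ite_mul, one_mul, zero_mul, Finset.sum_ite_eq', Finset.mem_univ, if_true,
      nsmul_eq_mul]
  rw [h2]
  congr 1
  simp only [M, Matrix.mul_smul, Matrix.mul_one, smul_smul, hu, one_smul]
  abel

end Lift

end Pool.Agent.V11169.Circ
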