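import Pool.Agent.V11169.Circ6

namespace Pool.Agent.V11169.Circ

open Finset Polynomial

section Fib

/-- Fibres of a surjective homomorphism all have the same size. -/
noncomputable def fibEquiv {G H : Type*} [AddGroup G] [AddGroup H] (φ : G →+ H)
    (hφ : Function.Surjective φ) (U : H → Prop) :
    {g // U (φ g)} ≃ {h // U h} × φ.ker where
  toFun g := (⟨φ g.1, g.2⟩, ⟨-(Function.surjInv hφ (φ g.1)) + g.1, by
    rw [AddMonoidHom.mem_ker, map_add, map_neg, Function.surjInv_eq hφ, neg_add_cancel]⟩)
  invFun x := ⟨Function.surjInv hφ x.1.1 + x.2.1, by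
    have h : φ x.2.1 = 0 := x.2.2
    rw [map_add, Function.surjInv_eq hφ, h, add_zero]
    exact x.1.2⟩
  left_inv g := by
    apply Subtype.ext
    simp
  right_inv x := by
    have h : φ x.2.1 = 0 := x.2.2
    have h2 : φ (Function.surjInv hφ x.1.1 + x.2.1) = x.1.1 := by
      rw [map_add, Function.surjInv_eq hφ, h, add_zero]
    ext
    · exact h2
    · simp only [h2, neg_add_cancel_left]

theorem card_preimage {G H : Type*} [AddGroup G] [AddGroup H] (φ : G →+ H)
    (hφ : Function.Surjective φ) (U : H → Prop) :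
    Nat.card {g // U (φ g)} * Nat.card H = Nat.card {h // U h} * Nat.card G := by
  have h1 := Nat.card_congr (fibEquiv φ hφ U)
  have h2 := Nat.card_congr (fibEquiv φ hφ (fun _ => True))
  rw [Nat.card_prod] at h1 h2
  have h3 : Nat.card {g : G // True} = Nat.card G := Nat.card_congr (Equiv.Set.univ G)
  have h4 : Nat.card {h : H // True} = Nat.card H := Nat.card_congr (Equiv.Set.univ H)
  rw [h3, h4] at h2
  rw [h1, h2]
  ring

end Fib

section Units

variable {F : Type*} [Field F]

/-- number of units modulo a polynomial -/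
noncomputable def uc (g : F[X]) : ℕ := Nat.card (F[X] ⧸ Ideal.span {g})ˣ

theorem uc_mul {f g : F[X]} (h : IsCoprime f g) : uc (f * g) = uc f * uc g := by
  unfold uc
  rw [← Nat.card_prod]
  have h1 : IsCoprime (Ideal.span {f}) (Ideal.span {g}) :=
    (Ideal.isCoprime_span_singleton_iff f g).2 h
  have e := Ideal.quotientMulEquivQuotientProd _ _ h1
  rw [Ideal.span_singleton_mul_span_singleton] at e
  exact Nat.card_congr ((Units.mapEquiv e.toMulEquiv).trans MulEquiv.prodUnits).toEquiv

theorem uc_one : uc (1 : F[X]) = 1 := by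
  unfold uc
  have : Subsingleton (F[X] ⧸ Ideal.span {(1 : F[X])}) := by
    rw [Ideal.Quotient.subsingleton_iff]
    exact Ideal.span_singleton_one
  exact Nat.card_unique

theorem card_quot [Finite F] {g : F[X]} (hg : g ≠ 0) :
    Nat.card (F[X] ⧸ Ideal.span {g}) = Nat.card F ^ g.natDegree := by
  have := Fintype.ofFinite F
  let pb := AdjoinRoot.powerBasis hg
  have h1 : Module.Finite F (AdjoinRoot g) := pb.finite
  have h2 : Nat.card (AdjoinRoot g) = Nat.card F ^ Module.finrank F (AdjoinRoot g) :=
    Module.natCard_eq_pow_finrank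
  rw [pb.finrank, AdjoinRoot.powerBasis_dim] at h2
  exact h2

theorem uc_irred [Finite F] {g : F[X]} (hg : Irreducible g) :
    uc g = Nat.card F ^ g.natDegree - 1 := by
  have hmax : (Ideal.span {g}).IsMaximal := PrincipalIdealRing.isMaximal_of_irreducible hg
  let _ := Ideal.Quotient.field (Ideal.span {g})
  unfold uc
  rw [← card_quot hg.ne_zero]
  exact Nat.card_units _

theorem uc_multiset [Finite F] (s : Multiset F[X]) (hs : s.Nodup)
    (h1 : ∀ P ∈ s, Irreducible P) (h2 : ∀ P ∈ s, P.Monic) :
    uc s.prod = (s.map fun P => Nat.card F ^ P.natDegree - 1).prod := by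
  induction s using Multiset.induction_on with
  | empty => simp [uc_one]
  | cons P s ih =>
    rw [Multiset.prod_cons, Multiset.map_cons, Multiset.prod_cons]
    rw [Multiset.nodup_cons] at hs
    rw [uc_mul, uc_irred (h1 P (Multiset.mem_cons_self _ _)),
      ih hs.2 (fun Q hQ => h1 Q (Multiset.mem_cons_of_mem hQ))
        (fun Q hQ => h2 Q (Multiset.mem_cons_of_mem hQ))]
    have hP := h1 P (Multiset.mem_cons_self _ _)
    rw [hP.coprime_iff_not_dvd]
    intro hd
    obtain ⟨Q, hQ, hPQ⟩ := Prime.exists_mem_multiset_dvd hP.prime hd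
    have hQi := h1 Q (Multiset.mem_cons_of_mem hQ)
    have hass := (hP.associated_of_dvd hQi hPQ)
    have := eq_of_monic_of_associated (h2 P (Multiset.mem_cons_self _ _))
      (h2 Q (Multiset.mem_cons_of_mem hQ)) hass
    rw [this] at hs
    exact hs.1 hQ

end Units

end Pool.Agent.V11169.Circ
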