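import Pool.Agent.V11169.Circ7

namespace Pool.Agent.V11169.Circ

open Finset Polynomial UniqueFactorizationMonoid

variable {F : Type*} [Field F] [Finite F] (p : ℕ) [hp : Fact p.Prime] [CharP F p]

theorem coprime_card {m : ℕ} (hm : ¬ p ∣ m) : (Nat.card F).Coprime m := by
  have := Fintype.ofFinite F
  obtain ⟨f, _, hf⟩ := FiniteField.card F p
  rw [Nat.card_eq_fintype_card, hf]
  exact Nat.Coprime.pow_left _ ((Nat.Prime.coprime_iff_not_dvd hp.out).2 hm)

theorem map_normalizedFactors_prod {ι : Type*} (S : Finset ι) (f : ι → F[X])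
    (hf : ∀ i ∈ S, f i ≠ 0) (φ : F[X] → ℕ) [DecidableEq F] :
    ((normalizedFactors (∏ i ∈ S, f i)).map φ).prod =
      ∏ i ∈ S, ((normalizedFactors (f i)).map φ).prod := by
  classical
  induction S using Finset.induction_on with
  | empty => simp
  | insert a s ha ih =>
    rw [Finset.prod_insert ha, Finset.prod_insert ha, normalizedFactors_mul, Multiset.map_add,
      Multiset.prod_add, ih (fun i hi => hf i (Finset.mem_insert_of_mem hi))]
    · exact hf a (Finset.mem_insert_self _ _)
    · exact Finset.prod_ne_zero_iff.2 (fun i hi => hf i (Finset.mem_insert_of_mem hi))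

theorem cyc_prod (d : ℕ) (hd : ¬ p ∣ d) [DecidableEq F] :
    ((normalizedFactors (cyclotomic d F)).map fun P => Nat.card F ^ P.natDegree - 1).prod =
      (Nat.card F ^ (orderOf ((Nat.card F : ℕ) : ZMod d)) - 1) ^
        (Nat.totient d / orderOf ((Nat.card F : ℕ) : ZMod d)) ∧
    orderOf ((Nat.card F : ℕ) : ZMod d) ∣ Nat.totient d ∧
    0 < orderOf ((Nat.card F : ℕ) : ZMod d) := by
  have := Fintype.ofFinite F
  obtain ⟨f, _, hf⟩ := FiniteField.card F p
  have hcop : p.Coprime d := (Nat.Prime.coprime_iff_not_dvd hp.out).2 hd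
  have hord : orderOf (ZMod.unitOfCoprime _ (hcop.pow_left f)) =
      orderOf ((Nat.card F : ℕ) : ZMod d) := by
    rw [← orderOf_units, ZMod.coe_unitOfCoprime, Nat.card_eq_fintype_card, hf]
  have hdeg : ∀ P ∈ normalizedFactors (cyclotomic d F), P.natDegree =
      orderOf ((Nat.card F : ℕ) : ZMod d) := by
    intro P hP
    rw [← hord]
    exact natDegree_of_mem_normalizedFactors_cyclotomic hf hcop hP
  have h := prod_normalizedFactors (cyclotomic_ne_zero d F)
  have H := natDegree_eq_of_degree_eq <| degree_eq_degree_of_associated h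
  rw [natDegree_cyclotomic, natDegree_multiset_prod _ (zero_notMem_normalizedFactors _),
    Multiset.map_congr rfl hdeg] at H
  simp only [Multiset.map_const', Multiset.sum_replicate, smul_eq_mul] at H
  have hpos : 0 < orderOf ((Nat.card F : ℕ) : ZMod d) := by
    rw [← hord]
    exact orderOf_pos _
  refine ⟨?_, ⟨_, by rw [← H, mul_comm]⟩, hpos⟩
  rw [Multiset.map_congr rfl (fun P hP => by rw [hdeg P hP])]
  simp only [Multiset.map_const', Multiset.prod_replicate]
  congr 1
  rw [← H, Nat.mul_div_cancel _ hpos]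

theorem uc_X_pow (m : ℕ) (hm : ¬ p ∣ m) :
    uc (X ^ m - 1 : F[X]) = ∏ d ∈ m.divisors,
      (Nat.card F ^ (orderOf ((Nat.card F : ℕ) : ZMod d)) - 1) ^
        (Nat.totient d / orderOf ((Nat.card F : ℕ) : ZMod d)) := by
  classical
  have hm0 : 0 < m := Nat.pos_of_ne_zero (fun h => hm (by rw [h]; exact dvd_zero p))
  have hmF : (m : F) ≠ 0 := by
    intro h
    exact hm ((CharP.cast_eq_zero_iff F p m).1 h)
  have hne : (X ^ m - 1 : F[X]) ≠ 0 := by
    have := (monic_X_pow_sub_C (1 : F) hm0.ne').ne_zero
    simpa using this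
  have hsq : Squarefree (X ^ m - 1 : F[X]) :=
    (X_pow_sub_one_separable_iff.2 hmF).squarefree
  have hass := prod_normalizedFactors hne
  have h1 : uc (X ^ m - 1 : F[X]) = uc ((normalizedFactors (X ^ m - 1 : F[X])).prod) := by
    unfold uc
    rw [Ideal.span_singleton_eq_span_singleton.2 hass]
  rw [h1, uc_multiset]
  · have h2 : (X ^ m - 1 : F[X]) = ∏ d ∈ m.divisors, cyclotomic d F :=
      (prod_cyclotomic_eq_X_pow_sub_one hm0 F).symm
    rw [h2, map_normalizedFactors_prod _ _ (fun d _ => cyclotomic_ne_zero d F)]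
    apply Finset.prod_congr rfl
    intro d hd
    have hdm := Nat.dvd_of_mem_divisors hd
    exact (cyc_prod p d (fun h => hm (h.trans hdm))).1
  · exact (squarefree_iff_nodup_normalizedFactors hne).1 hsq
  · intro P hP
    exact irreducible_of_normalized_factor P hP
  · intro P hP
    have h3 := normalize_normalized_factor P hP
    rw [← h3]
    exact monic_normalize (irreducible_of_normalized_factor P hP).ne_zero

end Pool.Agent.V11169.Circ
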