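import Pool.Agent.V11169.Circ8

namespace Pool.Agent.V11169.Circ

open Finset Polynomial

section Shift

variable {F : Type*} [CommRing F] (n : ℕ) [NeZero n]

/-- the shift matrix -/
def shiftM (F : Type*) [CommRing F] : Matrix (ZMod n) (ZMod n) F :=
  cir n (fun x => if x = 1 then 1 else 0)

theorem shiftM_pow (m : ℕ) :
    shiftM n F ^ m = cir n (fun x => if x = (m : ZMod n) then 1 else 0) := by
  induction m with
  | zero =>
    rw [pow_zero, Nat.cast_zero, cir_single, one_smul]
  | succ m ih =>
    rw [pow_succ, ih, shiftM, cir_mul]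
    congr 1
    funext t
    simp only [ite_mul, one_mul, zero_mul, Finset.sum_ite_eq', Finset.mem_univ, if_true,
      Nat.cast_succ]
    congr 1
    rw [eq_iff_iff]
    constructor
    · intro h
      rw [← h]; ring
    · intro h
      rw [h]; ring

theorem sum_shift (c : ℕ → F) :
    ∑ t ∈ Finset.range n, c t • shiftM n F ^ t = cir n (fun x => c x.val) := by
  ext i j
  rw [Matrix.sum_apply]
  simp only [shiftM_pow, Matrix.smul_apply, cir, Matrix.of_apply, smul_eq_mul, mul_ite, mul_one,
    mul_zero]
  rw [Finset.sum_eq_single (j - i).val]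
  · simp
  · intro t ht hne
    rw [if_neg]
    intro h
    apply hne
    rw [h, ZMod.val_natCast, Nat.mod_eq_of_lt (Finset.mem_range.1 ht)]
  · intro h
    exact absurd (Finset.mem_range.2 (ZMod.val_lt _)) h

theorem aeval_shift (h : F[X]) (hd : h.natDegree < n) :
    aeval (shiftM n F) h = cir n (fun x => h.coeff x.val) := by
  rw [aeval_eq_sum_range' hd, sum_shift]

theorem shiftM_pow_n : shiftM n F ^ n = 1 := by
  rw [shiftM_pow, ZMod.natCast_self, cir_single, one_smul]

/-- the polynomial of a vector -/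
noncomputable def pol (v : ZMod n → F) : F[X] := ∑ t ∈ Finset.range n, C (v t) * X ^ t

theorem aeval_pol (v : ZMod n → F) : aeval (shiftM n F) (pol n v) = cir n v := by
  unfold pol
  rw [map_sum]
  have : ∀ t ∈ Finset.range n, aeval (shiftM n F) (C (v (t : ZMod n)) * X ^ t) =
      (fun t : ℕ => v (t : ZMod n)) t • shiftM n F ^ t := by
    intro t _
    rw [map_mul, aeval_C, map_pow, aeval_X, Algebra.smul_def]
  rw [Finset.sum_congr rfl this, sum_shift]
  congr 1
  funext x
  simp

end Shift

section Cop

variable {F : Type*} [Field F] (n : ℕ) [NeZero n]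

theorem det_ne_zero_iff (v : ZMod n → F) :
    (cir n v).det ≠ 0 ↔ IsCoprime (pol n v) (X ^ n - 1) := by
  constructor
  · intro hdet
    by_contra hcop
    have hn0 : n ≠ 0 := NeZero.ne n
    have hXn : (X ^ n - 1 : F[X]) ≠ 0 := by
      have := (monic_X_pow_sub_C (1 : F) hn0).ne_zero
      simpa using this
    obtain ⟨g, hg1, hg2, hg3⟩ : ∃ g : F[X], g ∣ pol n v ∧ g ∣ X ^ n - 1 ∧ ¬ IsUnit g := by
      by_contra hcon
      push Not at hcon
      apply hcop
      exact isCoprime_of_dvd _ _ (fun h => hXn h.2) (fun z hz _ h1 h2 => hz (hcon z h1 h2))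
    obtain ⟨a, ha⟩ := hg1
    obtain ⟨h, hh⟩ := hg2
    have hg0 : g ≠ 0 := by rintro rfl; rw [zero_mul] at hh; exact hXn hh
    have hh0 : h ≠ 0 := by rintro rfl; rw [mul_zero] at hh; exact hXn hh
    have hdeg : (X ^ n - 1 : F[X]).natDegree = n := by
      have := natDegree_X_pow_sub_C (n := n) (r := (1 : F))
      simpa using this
    have hgdeg : 0 < g.natDegree := by
      rw [Nat.pos_iff_ne_zero]
      intro h0
      rw [eq_C_of_natDegree_eq_zero h0] at hg3
      apply hg3
      rw [isUnit_C, isUnit_iff_ne_zero]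
      intro h1
      rw [eq_C_of_natDegree_eq_zero h0, h1, C_0] at hg0
      exact hg0 rfl
    have hhdeg : h.natDegree < n := by
      rw [← hdeg, hh, natDegree_mul hg0 hh0]
      omega
    have hprod : pol n v * h = a * (X ^ n - 1) := by rw [ha, hh]; ring
    have h1 := congrArg (aeval (shiftM n F)) hprod
    rw [map_mul, map_mul, map_sub, map_pow, aeval_X, map_one, shiftM_pow_n, sub_self, mul_zero,
      aeval_pol] at h1
    have hunit : IsUnit (cir n v) := (Matrix.isUnit_iff_isUnit_det _).2 (isUnit_iff_ne_zero.2 hdet)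
    rw [hunit.mul_right_eq_zero] at h1
    rw [aeval_shift n h hhdeg] at h1
    apply hh0
    ext i
    rw [coeff_zero]
    by_cases hi : i < n
    · have h2 := congrFun (congrFun h1 0) (i : ZMod n)
      simp only [cir, Matrix.of_apply, sub_zero, Matrix.zero_apply] at h2
      rwa [ZMod.val_natCast, Nat.mod_eq_of_lt hi] at h2
    · exact coeff_eq_zero_of_natDegree_lt (by omega)
  · rintro ⟨a, b, hab⟩
    have h1 := congrArg (aeval (shiftM n F)) hab
    rw [map_add, map_mul, map_mul, map_sub, map_pow, aeval_X, map_one, shiftM_pow_n, sub_self,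
      mul_zero, add_zero, aeval_pol] at h1
    have h2 := congrArg Matrix.det h1
    rw [Matrix.det_mul, Matrix.det_one] at h2
    intro h0
    rw [h0, mul_zero] at h2
    exact zero_ne_one h2

theorem isUnit_quot_iff (f g : F[X]) :
    IsUnit (Ideal.Quotient.mk (Ideal.span {g}) f) ↔ IsCoprime f g := by
  constructor
  · intro h
    obtain ⟨y, hy⟩ := h.exists_right_inv
    obtain ⟨a, rfl⟩ := Ideal.Quotient.mk_surjective y
    rw [← map_mul, ← map_one (Ideal.Quotient.mk (Ideal.span {g})), Ideal.Quotient.eq,
      Ideal.mem_span_singleton] at hy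
    obtain ⟨b, hb⟩ := hy
    refine ⟨a, -b, ?_⟩
    linear_combination hb
  · rintro ⟨a, b, hab⟩
    apply IsUnit.of_mul_eq_one (Ideal.Quotient.mk (Ideal.span {g}) a)
    rw [← map_mul, ← map_one (Ideal.Quotient.mk (Ideal.span {g})), Ideal.Quotient.eq,
      Ideal.mem_span_singleton]
    exact ⟨-b, by linear_combination hab⟩

end Cop

end Pool.Agent.V11169.Circ
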