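import Pool.Agent.V11169.InvB3

set_option autoImplicit false

namespace Pool.Agent.V11169

open Finset Equiv

variable {n : ℕ}

lemma inv_app (σ : Perm (Fin n)) (x : Fin n) : σ⁻¹ (σ x) = x := σ.symm_apply_apply x

lemma app_inv (σ : Perm (Fin n)) (x : Fin n) : σ (σ⁻¹ x) = x := σ.apply_symm_apply x

/-- descent number -/
def dS (π : Perm (Fin n)) : ℕ :=
  (univ.filter (fun k : Fin n => ∃ l : Fin n, l.val = k.val + 1 ∧ π l < π k)).card

/-- descent gaps -/
noncomputable def DG (π : Perm (Fin n)) : Finset ℕ :=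
  open Classical in
  (range n).filter fun j => ∃ (i : ℕ) (h : i + 1 < n), j = i + 1 ∧
    π ⟨i + 1, h⟩ < π ⟨i, Nat.lt_of_succ_lt h⟩

lemma mem_DG (π : Perm (Fin n)) (i : ℕ) (h : i + 1 < n) : i + 1 ∈ DG π ↔
    π ⟨i + 1, h⟩ < π ⟨i, Nat.lt_of_succ_lt h⟩ := by
  classical
  unfold DG
  rw [mem_filter, mem_range]
  constructor
  · rintro ⟨_, i', h', h1, h2⟩
    have : i = i' := by omega
    subst this; exact h2
  · intro h1
    exact ⟨h, i, h, rfl, h1⟩

lemma zero_notMem_DG (π : Perm (Fin n)) : 0 ∉ DG π := by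
  classical
  unfold DG
  rw [mem_filter]
  rintro ⟨_, i, h, h1, _⟩
  omega

lemma DG_subset (π : Perm (Fin n)) : DG π ⊆ range n := by
  classical
  unfold DG
  exact filter_subset _ _

lemma card_DG (π : Perm (Fin n)) : (DG π).card = dS π := by
  unfold dS
  symm
  refine Finset.card_bij (fun k _ => (k : ℕ) + 1) ?_ ?_ ?_
  · intro k hk
    rw [mem_filter] at hk
    obtain ⟨-, l, h1, h2⟩ := hk
    have hl := l.2
    rw [mem_DG π k (by omega)]
    have e : (⟨(k : ℕ) + 1, by omega⟩ : Fin n) = l := Fin.ext h1.symm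
    rw [e]
    exact h2
  · intro a _ b _ h
    exact Fin.ext (by omega)
  · intro j hj
    rcases j with _ | i
    · exact absurd hj (zero_notMem_DG π)
    · have hi := mem_range.mp (DG_subset π hj)
      refine ⟨⟨i, by omega⟩, ?_, rfl⟩
      rw [mem_filter]
      exact ⟨mem_univ _, ⟨i + 1, hi⟩, rfl, (mem_DG π i hi).mp hj⟩

lemma dS_lt (π : Perm (Fin n)) (hn : 0 < n) : dS π < n := by
  rw [← card_DG]
  have h1 : DG π ⊆ (range n).erase 0 := by
    intro j hj
    rw [mem_erase]
    exact ⟨fun h => zero_notMem_DG π (h ▸ hj), DG_subset π hj⟩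
  have h2 := card_le_card h1
  rw [card_erase_of_mem (mem_range.mpr hn), card_range] at h2
  omega

/-- words `0 ≤ g_0 ≤ ⋯ ≤ g_{n-1} < v` whose ties are ordered by `π` -/
noncomputable def GS (π : Perm (Fin n)) (v : ℕ) : Finset (Fin n → ℕ) :=
  open Classical in
  (Fintype.piFinset fun _ => range v).filter fun g =>
    Monotone g ∧ ∀ i j, i < j → g i = g j → π i < π j

lemma mem_GS (π : Perm (Fin n)) (v : ℕ) (g : Fin n → ℕ) : g ∈ GS π v ↔
    (∀ i, g i < v) ∧ Monotone g ∧ ∀ i j, i < j → g i = g j → π i < π j := by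
  unfold GS
  rw [mem_filter, Fintype.mem_piFinset]
  simp only [mem_range]

lemma GS_eq (π : Perm (Fin n)) (m : ℕ) : GS π (m + 1) = GC n (DG π) m := by
  ext g
  rw [mem_GS, mem_GC]
  constructor
  · rintro ⟨h1, h2, h3⟩
    refine ⟨fun i => Nat.lt_succ_iff.mp (h1 i), fun _ h => absurd h (zero_notMem_DG π), ?_⟩
    intro i h
    have h4 : g ⟨i, Nat.lt_of_succ_lt h⟩ ≤ g ⟨i + 1, h⟩ := h2 (by
      show i ≤ i + 1
      omega)
    refine ⟨h4, fun h5 => ?_⟩
    rw [mem_DG π i h] at h5
    refine lt_of_le_of_ne h4 fun h6 => ?_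
    have h7 := h3 ⟨i, Nat.lt_of_succ_lt h⟩ ⟨i + 1, h⟩ (by
      show i < i + 1
      omega) h6
    exact absurd h5 (not_lt.mpr h7.le)
  · rintro ⟨h1, -, h3⟩
    have hm := mono_of_adj g fun i h => (h3 i h).1
    refine ⟨fun i => Nat.lt_succ_iff.mpr (h1 i), hm, ?_⟩
    intro a b hab he
    refine tie_adj g hm π ?_ a b hab he
    intro i h he2
    by_contra hc
    have h5 : π ⟨i + 1, h⟩ < π ⟨i, Nat.lt_of_succ_lt h⟩ := by
      rcases lt_trichotomy (π ⟨i, Nat.lt_of_succ_lt h⟩) (π ⟨i + 1, h⟩) with h6 | h6 | h6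
      · exact absurd h6 hc
      · have := congrArg Fin.val (π.injective h6)
        simp only at this
        omega
      · exact h6
    have h6 := (h3 i h).2 ((mem_DG π i h).mpr h5)
    omega

lemma card_GS (π : Perm (Fin n)) (hn : 0 < n) (v : ℕ) :
    (GS π v).card = (v + n - (dS π + 1)).choose n := by
  have hd := dS_lt π hn
  rcases v with _ | m
  · have : GS π 0 = ∅ := by
      rw [Finset.eq_empty_iff_forall_notMem]
      intro g hg
      rw [mem_GS] at hg
      exact absurd (hg.1 ⟨0, hn⟩) (Nat.not_lt_zero _)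
    rw [this, card_empty, Nat.choose_eq_zero_of_lt (by omega)]
  · rw [GS_eq, card_GC n _ (DG_subset π), card_DG]
    congr 1
    omega

/-- pairs of words -/
noncomputable def PW (τ : Perm (Fin n)) (u v : ℕ) : Finset ((Fin n → ℕ) × (Fin n → ℕ)) :=
  open Classical in
  ((Fintype.piFinset fun _ => range v) ×ˢ (Fintype.piFinset fun _ => range u)).filter fun p =>
    p.2 ∈ GS ((Tuple.sort p.1)⁻¹ * τ) u

lemma mem_PW (τ : Perm (Fin n)) (u v : ℕ) (p : (Fin n → ℕ) × (Fin n → ℕ)) :
    p ∈ PW τ u v ↔ (∀ i, p.1 i < v) ∧ p.2 ∈ GS ((Tuple.sort p.1)⁻¹ * τ) u := by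
  unfold PW
  rw [mem_filter, mem_product, Fintype.mem_piFinset, Fintype.mem_piFinset]
  simp only [mem_range]
  constructor
  · rintro ⟨⟨h1, _⟩, h2⟩; exact ⟨h1, h2⟩
  · rintro ⟨h1, h2⟩
    exact ⟨⟨h1, ((mem_GS _ _ _).mp h2).1⟩, h2⟩

lemma card_PW_one (τ : Perm (Fin n)) (u v : ℕ) :
    (PW τ u v).card = ∑ π : Perm (Fin n), (GS π v).card * (GS (π⁻¹ * τ) u).card := by
  classical
  rw [Finset.card_eq_sum_card_fiberwise (f := fun p : (Fin n → ℕ) × (Fin n → ℕ) =>
    Tuple.sort p.1) (t := univ) (fun _ _ => mem_coe.mpr (mem_univ _))]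
  refine Finset.sum_congr rfl fun π _ => ?_
  rw [← Finset.card_product]
  refine Finset.card_bij' (fun p _ => (fun i => p.1 (π i), p.2))
    (fun q _ => (fun i => q.1 (π⁻¹ i), q.2)) ?_ ?_ ?_ ?_
  · rintro ⟨w, α⟩ hp
    rw [mem_filter, mem_PW] at hp
    obtain ⟨⟨h1, h2⟩, h3⟩ := hp
    simp only at h1 h2 h3
    obtain ⟨h4, h5⟩ := Tuple.eq_sort_iff.mp h3.symm
    rw [mem_product, mem_GS]
    rw [h3] at h2
    exact ⟨⟨fun i => h1 _, h4, h5⟩, h2⟩
  · rintro ⟨g, α⟩ hp
    rw [mem_product, mem_GS] at hp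
    obtain ⟨⟨h1, h2, h3⟩, h4⟩ := hp
    simp only at h1 h2 h3 h4
    have h5 : Tuple.sort (fun i => g (π⁻¹ i)) = π := by
      symm
      rw [Tuple.eq_sort_iff]
      constructor
      · intro i j hij
        simp only [Function.comp, inv_app]
        exact h2 hij
      · intro i j hij he
        simp only [inv_app] at he
        exact h3 i j hij he
    rw [mem_filter, mem_PW]
    simp only
    rw [h5]
    exact ⟨⟨fun i => h1 _, h4⟩, rfl⟩
  · rintro ⟨w, α⟩ _
    simp
  · rintro ⟨g, α⟩ _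
    simp

lemma card_PW_two (τ : Perm (Fin n)) (u v : ℕ) :
    (PW τ u v).card = (GS τ (u * v)).card := by
  rcases Nat.eq_zero_or_pos n with hn | hn
  · subst hn
    have h1 : PW τ u v = univ := by
      ext p
      rw [mem_PW, mem_GS]
      simp only [mem_univ, iff_true]
      exact ⟨fun i => i.elim0, fun i => i.elim0, fun i => i.elim0, fun i => i.elim0⟩
    have h2 : GS τ (u * v) = univ := by
      ext p
      rw [mem_GS]
      simp only [mem_univ, iff_true]
      exact ⟨fun i => i.elim0, fun i => i.elim0, fun i => i.elim0⟩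
    rw [h1, h2]
    simp
  refine Finset.card_bij' (fun p _ => fun l => p.2 l * v + p.1 (τ l))
    (fun z _ => (fun x => z (τ⁻¹ x) % v, fun l => z l / v)) ?_ ?_ ?_ ?_
  · rintro ⟨w, α⟩ hp
    rw [mem_PW, mem_GS] at hp
    obtain ⟨h1, h2, h3, h4⟩ := hp
    simp only at h1 h2 h3 h4 ⊢
    obtain ⟨s1, s2⟩ := Tuple.eq_sort_iff.mp (rfl : Tuple.sort w = Tuple.sort w)
    set π := Tuple.sort w
    have tie : ∀ i j, i < j → α i = α j → w (τ i) ≤ w (τ j) ∧
        (w (τ i) = w (τ j) → τ i < τ j) := by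
      intro i j hij he
      have h5 := h4 i j hij he
      simp only [Perm.mul_apply] at h5
      have h6 := s1 h5.le
      have h7 := s2 _ _ h5
      simp only [Function.comp, app_inv] at h6 h7
      exact ⟨h6, h7⟩
    rw [mem_GS]
    refine ⟨?_, ?_, ?_⟩
    · intro i
      have h5 := h1 (τ i)
      have h6 : (α i + 1) * v ≤ u * v := Nat.mul_le_mul_right v (h2 i)
      rw [Nat.add_mul] at h6
      omega
    · intro i j hij
      rcases hij.eq_or_lt with rfl | hlt
      · exact le_rfl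
      apply lex_le v _ _ _ _ (h1 _)
      rcases (h3 hij).lt_or_eq with h5 | h5
      · exact Or.inl h5
      · exact Or.inr ⟨h5, (tie i j hlt h5).1⟩
    · intro i j hij he
      have h5 := congrArg (fun z => z / v) he
      have h6 := congrArg (fun z => z % v) he
      simp only [pair_div v _ _ (h1 _), pair_mod v _ _ (h1 _)] at h5 h6
      exact (tie i j hij h5).2 h6
  · intro z hz
    rw [mem_GS] at hz
    obtain ⟨h1, h2, h3⟩ := hz
    have hv : 0 < v := by
      rcases Nat.eq_zero_or_pos v with h | h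
      · subst h
        exact absurd (h1 ⟨0, hn⟩) (by simp)
      · exact h
    rw [mem_PW, mem_GS]
    simp only
    set w : Fin n → ℕ := fun x => z (τ⁻¹ x) % v with hw
    obtain ⟨s1, s2⟩ := Tuple.eq_sort_iff.mp (rfl : Tuple.sort w = Tuple.sort w)
    set π := Tuple.sort w
    refine ⟨fun i => Nat.mod_lt _ hv, ?_, ?_, ?_⟩
    · intro i
      exact (Nat.div_lt_iff_lt_mul hv).mpr (h1 i)
    · intro i j hij
      exact Nat.div_le_div_right (h2 hij)
    · intro i j hij he
      simp only [Perm.mul_apply]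
      by_contra hc
      have h4 : π⁻¹ (τ j) < π⁻¹ (τ i) := by
        rcases lt_trichotomy (π⁻¹ (τ i)) (π⁻¹ (τ j)) with h5 | h5 | h5
        · exact absurd h5 hc
        · exact absurd (τ.injective (π⁻¹.injective h5)) hij.ne
        · exact h5
      have h5 := s1 h4.le
      have h6 := s2 _ _ h4
      simp only [Function.comp, app_inv] at h5 h6
      have e1 : w (τ i) = z i % v := by simp [hw]
      have e2 : w (τ j) = z j % v := by simp [hw]
      have h7 := h2 hij.le
      have h8 := Nat.div_add_mod (z i) v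
      have h9 := Nat.div_add_mod (z j) v
      rw [e1, e2] at h5 h6
      rw [he] at h8
      have h10 : z i = z j := by omega
      have h11 := h3 i j hij h10
      have h12 := h6 (by rw [h10])
      exact absurd h11 (not_lt.mpr h12.le)
  · rintro ⟨w, α⟩ hp
    rw [mem_PW, mem_GS] at hp
    obtain ⟨h1, h2, h3, h4⟩ := hp
    simp only at h1
    apply Prod.ext
    · funext x
      simp only
      rw [pair_mod v _ _ (h1 _)]
      simp
    · funext l
      simp only
      rw [pair_div v _ _ (h1 _)]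
  · intro z hz
    funext l
    simp only [inv_app]
    rw [mul_comm]
    exact Nat.div_add_mod (z l) v

/-- Gessel's identity -/
theorem gessel_id (τ : Perm (Fin n)) (hn : 0 < n) (u v : ℕ) :
    ∑ π : Perm (Fin n), (v + n - (dS π + 1)).choose n * (u + n - (dS (π⁻¹ * τ) + 1)).choose n =
      (u * v + n - (dS τ + 1)).choose n := by
  rw [← card_GS τ hn, ← card_PW_two, card_PW_one]
  exact Finset.sum_congr rfl fun π _ => by rw [card_GS π hn, card_GS _ hn]

end Pool.Agent.V11169
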