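import Pool.Agent.V11169.InvB5

set_option autoImplicit false

namespace Pool.Agent.V11169

open Finset PowerSeries

/-- power series in `t` over power series in `s` -/
abbrev R2 : Type := PowerSeries (PowerSeries ℚ)

/-- `s d/ds` -/
noncomputable def ths (F : R2) : R2 := PowerSeries.mk fun v => th (coeff v F)

/-- `t d/dt` -/
noncomputable def tht (F : R2) : R2 := PowerSeries.mk fun v => (v : PowerSeries ℚ) * coeff v F

lemma th_zero : th 0 = 0 := by unfold th; simp

lemma ths_add (F G : R2) : ths (F + G) = ths F + ths G := by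
  ext1 v
  unfold ths
  rw [coeff_mk, map_add, map_add, th_add, coeff_mk, coeff_mk]

lemma tht_add (F G : R2) : tht (F + G) = tht F + tht G := by
  ext1 v
  unfold tht
  rw [coeff_mk, map_add, map_add, coeff_mk, coeff_mk]; ring

lemma ths_mul (F G : R2) : ths (F * G) = ths F * G + F * ths G := by
  ext1 v
  unfold ths
  rw [coeff_mk, map_add, coeff_mul, coeff_mul, coeff_mul, th_sum, ← Finset.sum_add_distrib]
  refine Finset.sum_congr rfl fun x _ => ?_
  rw [th_mul, coeff_mk, coeff_mk]

lemma tht_mul (F G : R2) : tht (F * G) = tht F * G + F * tht G := by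
  ext1 v
  unfold tht
  rw [coeff_mk, map_add, coeff_mul, coeff_mul, coeff_mul, Finset.mul_sum,
    ← Finset.sum_add_distrib]
  refine Finset.sum_congr rfl fun x hx => ?_
  rw [coeff_mk, coeff_mk]
  have : v = x.1 + x.2 := (Finset.HasAntidiagonal.mem_antidiagonal.mp hx).symm
  rw [this]
  push_cast
  ring

/-- the rational scalars -/
noncomputable def κ : ℚ →+* R2 := (PowerSeries.C (R := PowerSeries ℚ)).comp (PowerSeries.C (R := ℚ))

lemma ths_κ (q : ℚ) : ths (κ q) = 0 := by
  ext1 v
  unfold ths κ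
  rw [coeff_mk, RingHom.comp_apply, coeff_C]
  split_ifs with h
  · rw [th_C]; simp
  · rw [th_zero]; simp

lemma tht_κ (q : ℚ) : tht (κ q) = 0 := by
  ext1 v
  unfold tht κ
  rw [coeff_mk, RingHom.comp_apply, coeff_C]
  split_ifs with h
  · subst h; simp
  · simp

lemma ths_one : ths 1 = 0 := by
  have := ths_κ 1
  rwa [map_one] at this

lemma tht_one : tht 1 = 0 := by
  have := tht_κ 1
  rwa [map_one] at this

lemma κ_nat (k : ℕ) : κ (k : ℚ) = (k : R2) := map_natCast κ k

lemma ths_nat (k : ℕ) : ths (k : R2) = 0 := by rw [← κ_nat, ths_κ]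

lemma tht_nat (k : ℕ) : tht (k : R2) = 0 := by rw [← κ_nat, tht_κ]

lemma ths_pow (F : R2) (k : ℕ) : ths (F ^ k) = (k : R2) * F ^ (k - 1) * ths F := by
  induction k with
  | zero => simp [ths_one]
  | succ k ih =>
    rw [pow_succ, ths_mul, ih]
    rcases k with _ | k
    · simp
    · simp only [Nat.add_sub_cancel]
      push_cast
      ring

lemma tht_pow (F : R2) (k : ℕ) : tht (F ^ k) = (k : R2) * F ^ (k - 1) * tht F := by
  induction k with
  | zero => simp [tht_one]
  | succ k ih =>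
    rw [pow_succ, tht_mul, ih]
    rcases k with _ | k
    · simp
    · simp only [Nat.add_sub_cancel]
      push_cast
      ring

/-- `s/(1-s)` -/
noncomputable def xx : R2 := PowerSeries.C (X * ww)

/-- `t/(1-t)` -/
noncomputable def yy : R2 := X * PowerSeries.mk 1

lemma th_X_mul_ww : th (X * ww) = X * ww * (1 + X * ww) := by
  rw [th_mul, th_X, th_ww]
  unfold vv
  ring

lemma ths_xx : ths xx = xx * (1 + xx) := by
  have h1 : xx * (1 + xx) = PowerSeries.C (X * ww * (1 + X * ww)) := by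
    unfold xx
    simp only [map_mul, map_add, map_one]
  rw [h1]
  ext1 v
  unfold ths xx
  rw [coeff_mk, coeff_C, coeff_C]
  split_ifs with h
  · exact th_X_mul_ww
  · exact th_zero

lemma tht_xx : tht xx = 0 := by
  ext1 v
  unfold tht xx
  rw [coeff_mk, coeff_C]
  split_ifs with h
  · subst h; simp
  · simp

lemma coeff_yy (v : ℕ) : coeff v yy = if v = 0 then 0 else 1 := by
  unfold yy
  rcases v with _ | v
  · simp
  · rw [coeff_succ_X_mul, coeff_mk, if_neg (by omega)]; rfl

lemma ths_yy : ths yy = 0 := by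
  ext1 v
  unfold ths
  rw [coeff_mk, coeff_yy]
  split_ifs with h
  · rw [th_zero]; simp
  · have h1 : th (1 : PowerSeries ℚ) = 0 := by
      have := th_C 1
      rwa [map_one] at this
    rw [h1]; simp

lemma yy_eq : yy = X * (1 + yy) := by
  ext1 v
  rcases v with _ | v
  · simp [coeff_yy]
  · rw [coeff_succ_X_mul, map_add, coeff_yy, coeff_yy, coeff_one]
    rcases v with _ | v <;> simp

lemma tht_X : tht (X : R2) = X := by
  ext1 v
  unfold tht
  rw [coeff_mk, coeff_X]
  split_ifs with h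
  · subst h; simp
  · simp

lemma tht_yy : tht yy = yy * (1 + yy) := by
  have h1 := congrArg tht yy_eq
  rw [tht_mul, tht_X, tht_add, tht_one, zero_add] at h1
  -- tht yy * (1 - X) = X * (1 + yy)
  have h2 : (1 - X) * (tht yy) = X * (1 + yy) := by linear_combination h1
  have h3 : (1 - X) * (yy * (1 + yy)) = X * (1 + yy) := by
    have h4 := yy_eq
    linear_combination (1 + yy) * h4
  have h5 : (1 - X : R2) * (1 + yy) = 1 := by
    have h4 := yy_eq
    linear_combination h4
  calc tht yy = ((1 - X) * (1 + yy)) * tht yy := by rw [h5, one_mul]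
    _ = (1 + yy) * ((1 - X) * tht yy) := by ring
    _ = (1 + yy) * ((1 - X) * (yy * (1 + yy))) := by rw [h2, h3]
    _ = ((1 - X) * (1 + yy)) * (yy * (1 + yy)) := by ring
    _ = _ := by rw [h5, one_mul]

noncomputable def aa : R2 := 1 + xx + yy + 2 * xx * yy
noncomputable def bb : R2 := xx + yy + 2 * xx * yy
noncomputable def cc : R2 := xx * (1 + xx) * (yy * (1 + yy))

lemma aa_sub_bb : aa - bb = 1 := by unfold aa bb; ring

lemma two_eq : (2 : R2) = ((2 : ℕ) : R2) := by norm_num

lemma ths_two : ths (2 : R2) = 0 := by rw [two_eq, ths_nat]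
lemma tht_two : tht (2 : R2) = 0 := by rw [two_eq, tht_nat]

lemma ths_bb : ths bb = xx * (1 + xx) * (1 + 2 * yy) := by
  unfold bb
  simp only [ths_add, ths_mul, ths_xx, ths_yy, ths_two]
  ring

lemma ths_aa : ths aa = xx * (1 + xx) * (1 + 2 * yy) := by
  unfold aa
  simp only [ths_add, ths_mul, ths_xx, ths_yy, ths_two, ths_one]
  ring

lemma ths_cc : ths cc = cc * (1 + 2 * xx) := by
  unfold cc
  simp only [ths_add, ths_mul, ths_xx, ths_yy, ths_one]
  ring

lemma tht_bb : tht bb = yy * (1 + yy) * (1 + 2 * xx) := by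
  unfold bb
  simp only [tht_add, tht_mul, tht_xx, tht_yy, tht_two]
  ring

lemma tht_aa : tht aa = yy * (1 + yy) * (1 + 2 * xx) := by
  unfold aa
  simp only [tht_add, tht_mul, tht_xx, tht_yy, tht_two, tht_one]
  ring

lemma tht_cc : tht cc = cc * (1 + 2 * yy) := by
  unfold cc
  simp only [tht_add, tht_mul, tht_xx, tht_yy, tht_one]
  ring

lemma ths_cc_pow (i : ℕ) : ths (cc ^ i) = (i : R2) * cc ^ i * (1 + 2 * xx) := by
  rw [ths_pow, ths_cc]
  rcases i with _ | i
  · simp
  · simp only [Nat.add_sub_cancel]; ring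

lemma tht_cc_pow (i : ℕ) : tht (cc ^ i) = (i : R2) * cc ^ i * (1 + 2 * yy) := by
  rw [tht_pow, tht_cc]
  rcases i with _ | i
  · simp
  · simp only [Nat.add_sub_cancel]; ring

/-- the operator -/
noncomputable def DD (F : R2) : R2 := tht (ths F)

lemma DD_mono (p j i : ℕ) : DD (aa ^ p * bb ^ j * cc ^ i) =
    (p : R2) * ((p - 1 : ℕ) : R2) * aa ^ (p - 1 - 1) * bb ^ j * cc ^ (i + 1) * (aa + bb) +
    2 * (p : R2) * aa ^ (p - 1) * bb ^ j * cc ^ (i + 1) +
    2 * (p : R2) * (j : R2) * aa ^ (p - 1) * bb ^ (j - 1) * cc ^ (i + 1) * (aa + bb) +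
    (j : R2) * ((j - 1 : ℕ) : R2) * aa ^ p * bb ^ (j - 1 - 1) * cc ^ (i + 1) * (aa + bb) +
    2 * (j : R2) * aa ^ p * bb ^ (j - 1) * cc ^ (i + 1) +
    (aa * bb + 4 * cc) * (i : R2) * cc ^ i * ((p : R2) * aa ^ (p - 1) * bb ^ j +
      (j : R2) * aa ^ p * bb ^ (j - 1)) +
    (i : R2) * (i : R2) * aa ^ p * bb ^ j * cc ^ i * (aa + bb) := by
  unfold DD
  rw [ths_mul, ths_mul, ths_pow aa, ths_pow bb, ths_cc_pow, ths_aa, ths_bb]
  simp only [tht_add, tht_mul, tht_pow aa, tht_pow bb, tht_cc_pow, tht_aa, tht_bb, tht_xx, tht_yy,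
    tht_one, tht_two, tht_nat]
  generalize aa ^ (p - 1 - 1) = a2
  generalize aa ^ (p - 1) = a1
  generalize aa ^ p = a0
  generalize bb ^ (j - 1 - 1) = b2
  generalize bb ^ (j - 1) = b1
  generalize bb ^ j = b0
  rw [pow_succ]
  generalize cc ^ i = c0
  unfold aa bb cc
  ring

end Pool.Agent.V11169
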