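import Pool.Agent.V11169.Ges2

set_option autoImplicit false
set_option linter.unusedSimpArgs false

namespace Pool.Agent.V11169

open Finset PowerSeries

/-- the basis elements -/
noncomputable def MM (n i j : ℕ) : R2 := aa ^ (n + 1 - 2 * i - j) * bb ^ j * cc ^ i

lemma κ_two : κ 2 = 2 := map_ofNat κ 2
lemma κ_four : κ 4 = 4 := map_ofNat κ 4

lemma DD_MM (n i j : ℕ) (e : ℚ) (h : 2 * i + j ≤ n + 1) :
    DD (MM n i j) + κ e * MM n i j =
      κ (i * (i + j) + e) * MM (n + 1) i j +
      κ (i * (i + (n + 1 - 2 * i - j)) - e) * MM (n + 1) i (j + 1) +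
      κ ((n + 1 - 2 * i - j) * ((n + 1 - 2 * i - j) + 1 + 4 * i + 2 * j)) * MM (n + 1) (i + 1) j +
      κ (j * (j + 1 + 4 * i + 2 * (n + 1 - 2 * i - j))) * MM (n + 1) (i + 1) (j - 1) +
      κ ((n + 1 - 2 * i - j) * ((n + 1 - 2 * i - j) - 1)) * MM (n + 1) (i + 1) (j + 1) +
      κ (j * (j - 1)) * MM (n + 1) (i + 1) (j - 2) := by
  obtain ⟨q, hq⟩ : ∃ q, n + 1 = 2 * i + j + q := ⟨n + 1 - (2 * i + j), by omega⟩
  have hq2 : ((n : ℚ) + 1 - 2 * i - j) = q := by
    have : ((n + 1 : ℕ) : ℚ) = ((2 * i + j + q : ℕ) : ℚ) := by rw [hq]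
    push_cast at this
    linarith
  rw [hq2]
  unfold MM
  have e0 : n + 1 - 2 * i - j = q := by omega
  have e1 : n + 1 + 1 - 2 * i - j = q + 1 := by omega
  have e2 : n + 1 + 1 - 2 * i - (j + 1) = q := by omega
  have e3 : n + 1 + 1 - 2 * (i + 1) - j = q - 1 := by omega
  have e5 : n + 1 + 1 - 2 * (i + 1) - (j + 1) = q - 2 := by omega
  rw [e0, e1, e2, e3, e5, DD_mono]
  have hab := aa_sub_bb
  rcases q with _ | _ | q
  · rcases j with _ | _ | j
    · simp only [map_add, map_mul, map_sub, map_natCast, map_ofNat, map_one, κ_two, κ_four]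
      simp only [Nat.cast_zero, Nat.cast_one, Nat.cast_add, map_zero]
      linear_combination (-κ e * cc ^ i) * hab
    · have e4 : n + 1 + 1 - 2 * (i + 1) - (0 + 1 - 1) = 0 := by omega
      rw [e4]
      simp only [map_add, map_mul, map_sub, map_natCast, map_ofNat, map_one, κ_two, κ_four]
      simp only [Nat.cast_zero, Nat.cast_one, Nat.cast_add, map_zero, map_one, map_add,
        Nat.add_sub_cancel, zero_add, Nat.sub_self, pow_zero, pow_one]
      linear_combination (-κ e * bb * cc ^ i) * hab
    · have e4 : n + 1 + 1 - 2 * (i + 1) - (j + 1 + 1 - 1) = 0 := by omega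
      have e6 : n + 1 + 1 - 2 * (i + 1) - (j + 1 + 1 - 2) = 1 := by omega
      have e7 : j + 1 + 1 - 1 = j + 1 := by omega
      have e8 : j + 1 + 1 - 2 = j := by omega
      have e9 : j + 1 - 1 = j := by omega
      rw [e4, e6, e7, e8, e9]
      simp only [map_add, map_mul, map_sub, map_natCast, map_ofNat, map_one, κ_two, κ_four]
      simp only [Nat.cast_zero, Nat.cast_one, Nat.cast_add, map_zero, map_one, map_add,
        map_natCast, zero_add, pow_zero, pow_one]
      linear_combination (-κ e * bb ^ (j + 1 + 1) * cc ^ i) * hab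
  · rcases j with _ | _ | j
    · simp only [map_add, map_mul, map_sub, map_natCast, map_ofNat, map_one, κ_two, κ_four]
      simp only [Nat.cast_zero, Nat.cast_one, Nat.cast_add, map_zero, map_one, map_add,
        Nat.add_sub_cancel, zero_add, Nat.sub_self, pow_zero, pow_one]
      linear_combination (-κ e * aa * cc ^ i) * hab
    · have e4 : n + 1 + 1 - 2 * (i + 1) - (0 + 1 - 1) = 1 := by omega
      rw [e4]
      simp only [map_add, map_mul, map_sub, map_natCast, map_ofNat, map_one, κ_two, κ_four]
      simp only [Nat.cast_zero, Nat.cast_one, Nat.cast_add, map_zero, map_one, map_add,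
        Nat.add_sub_cancel, zero_add, Nat.sub_self, pow_zero, pow_one]
      linear_combination (-κ e * aa * bb * cc ^ i) * hab
    · have e4 : n + 1 + 1 - 2 * (i + 1) - (j + 1 + 1 - 1) = 1 := by omega
      have e6 : n + 1 + 1 - 2 * (i + 1) - (j + 1 + 1 - 2) = 2 := by omega
      have e7 : j + 1 + 1 - 1 = j + 1 := by omega
      have e8 : j + 1 + 1 - 2 = j := by omega
      have e9 : j + 1 - 1 = j := by omega
      rw [e4, e6, e7, e8, e9]
      simp only [map_add, map_mul, map_sub, map_natCast, map_ofNat, map_one, κ_two, κ_four]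
      simp only [Nat.cast_zero, Nat.cast_one, Nat.cast_add, map_zero, map_one, map_add,
        map_natCast, zero_add, pow_zero, pow_one, Nat.sub_self]
      linear_combination (-κ e * aa * bb ^ (j + 1 + 1) * cc ^ i) * hab
  · have e10 : q + 1 + 1 - 1 = q + 1 := by omega
    have e11 : q + 1 + 1 - 2 = q := by omega
    have e12 : q + 1 - 1 = q := by omega
    rw [e10, e11, e12]
    rcases j with _ | _ | j
    · simp only [map_add, map_mul, map_sub, map_natCast, map_ofNat, map_one, κ_two, κ_four]
      simp only [Nat.cast_zero, Nat.cast_one, Nat.cast_add, map_zero, map_one, map_add,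
        map_natCast, zero_add, pow_zero, pow_one]
      linear_combination (-κ e * aa ^ (q + 1 + 1) * cc ^ i) * hab
    · have e4 : n + 1 + 1 - 2 * (i + 1) - (0 + 1 - 1) = q + 1 + 1 := by omega
      rw [e4]
      simp only [map_add, map_mul, map_sub, map_natCast, map_ofNat, map_one, κ_two, κ_four]
      simp only [Nat.cast_zero, Nat.cast_one, Nat.cast_add, map_zero, map_one, map_add,
        map_natCast, Nat.add_sub_cancel, zero_add, Nat.sub_self, pow_zero, pow_one]
      linear_combination (-κ e * aa ^ (q + 1 + 1) * bb * cc ^ i) * hab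
    · have e4 : n + 1 + 1 - 2 * (i + 1) - (j + 1 + 1 - 1) = q + 1 + 1 := by omega
      have e6 : n + 1 + 1 - 2 * (i + 1) - (j + 1 + 1 - 2) = q + 1 + 1 + 1 := by omega
      have e7 : j + 1 + 1 - 1 = j + 1 := by omega
      have e8 : j + 1 + 1 - 2 = j := by omega
      have e9 : j + 1 - 1 = j := by omega
      rw [e4, e6, e7, e8, e9]
      simp only [map_add, map_mul, map_sub, map_natCast, map_ofNat, map_one, κ_two, κ_four]
      simp only [Nat.cast_zero, Nat.cast_one, Nat.cast_add, map_zero, map_one, map_add,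
        map_natCast, zero_add, pow_zero, pow_one]
      linear_combination (-κ e * aa ^ (q + 1 + 1) * bb ^ (j + 1 + 1) * cc ^ i) * hab

end Pool.Agent.V11169
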