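import Pool.Agent.V11169.Ges3

set_option autoImplicit false

namespace Pool.Agent.V11169

open Finset PowerSeries

/-- shift in the first index -/
def shi (f : ℕ → ℕ → ℚ) : ℕ → ℕ → ℚ
  | 0, _ => 0
  | i + 1, j => f i j

/-- shift in the second index -/
def shj (f : ℕ → ℕ → ℚ) : ℕ → ℕ → ℚ
  | _, 0 => 0
  | i, j + 1 => f i j

/-- backward shift in the second index -/
def dnj (f : ℕ → ℕ → ℚ) : ℕ → ℕ → ℚ := fun i j => f i (j + 1)

lemma sum_shj (M : ℕ) (m : ℕ → ℕ → R2) (f : ℕ → ℕ → ℚ) (hf : ∀ i, f i M = 0) :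
    ∑ i ∈ range (M + 1), ∑ j ∈ range (M + 1), κ (f i j) * m i (j + 1) =
    ∑ i ∈ range (M + 1), ∑ j ∈ range (M + 1), κ (shj f i j) * m i j := by
  refine Finset.sum_congr rfl fun i _ => ?_
  rw [Finset.sum_range_succ, Finset.sum_range_succ' (fun j => κ (shj f i j) * m i j)]
  rw [hf i, map_zero, zero_mul]
  have : shj f i 0 = 0 := by cases i <;> rfl
  rw [this, map_zero, zero_mul]
  congr 1

lemma sum_shi (M : ℕ) (m : ℕ → ℕ → R2) (f : ℕ → ℕ → ℚ) (hf : ∀ j, f M j = 0) :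
    ∑ i ∈ range (M + 1), ∑ j ∈ range (M + 1), κ (f i j) * m (i + 1) j =
    ∑ i ∈ range (M + 1), ∑ j ∈ range (M + 1), κ (shi f i j) * m i j := by
  rw [Finset.sum_range_succ,
    Finset.sum_range_succ' (fun i => ∑ j ∈ range (M + 1), κ (shi f i j) * m i j)]
  have h1 : ∑ j ∈ range (M + 1), κ (f M j) * m (M + 1) j = 0 :=
    Finset.sum_eq_zero fun j _ => by rw [hf j, map_zero, zero_mul]
  have h2 : ∑ j ∈ range (M + 1), κ (shi f 0 j) * m 0 j = 0 :=
    Finset.sum_eq_zero fun j _ => by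
      show κ 0 * m 0 j = 0
      rw [map_zero, zero_mul]
  rw [h1, h2]
  rfl

lemma sum_dnj (M : ℕ) (m : ℕ → ℕ → R2) (f : ℕ → ℕ → ℚ) (h0 : ∀ i, f i 0 = 0)
    (hM : ∀ i, f i (M + 1) = 0) :
    ∑ i ∈ range (M + 1), ∑ j ∈ range (M + 1), κ (f i j) * m i (j - 1) =
    ∑ i ∈ range (M + 1), ∑ j ∈ range (M + 1), κ (dnj f i j) * m i j := by
  refine Finset.sum_congr rfl fun i _ => ?_
  rw [Finset.sum_range_succ', h0, map_zero, zero_mul,
    Finset.sum_range_succ (fun j => κ (dnj f i j) * m i j)]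
  have : dnj f i M = 0 := hM i
  rw [this, map_zero, zero_mul]
  rfl

lemma sum_dnj2 (M : ℕ) (m : ℕ → ℕ → R2) (f : ℕ → ℕ → ℚ) (h0 : ∀ i, f i 0 = 0)
    (h1 : ∀ i, f i 1 = 0) (hM : ∀ i, f i (M + 1) = 0) (hM2 : ∀ i, f i (M + 2) = 0) :
    ∑ i ∈ range (M + 1), ∑ j ∈ range (M + 1), κ (f i j) * m i (j - 2) =
    ∑ i ∈ range (M + 1), ∑ j ∈ range (M + 1), κ (dnj (dnj f) i j) * m i j := by
  have e := sum_dnj M (fun i j => m i (j - 1)) f h0 hM
  rw [← sum_dnj M m (dnj f) h1 hM2, ← e]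
  refine Finset.sum_congr rfl fun i _ => Finset.sum_congr rfl fun j _ => ?_
  rw [Nat.sub_sub]

/-- the linear combination of the basis elements -/
noncomputable def LL (M n : ℕ) (f : ℕ → ℕ → ℚ) : R2 :=
  ∑ i ∈ range (M + 1), ∑ j ∈ range (M + 1), κ (f i j) * MM n i j

section coef

variable (n : ℕ) (e : ℚ) (g : ℕ → ℕ → ℚ)

def f1 (i j : ℕ) : ℚ := ((i : ℚ) * (i + j) + e) * g i j
def f2 (i j : ℕ) : ℚ := ((i : ℚ) * (i + (n + 1 - 2 * i - j)) - e) * g i j
def f3 (i j : ℕ) : ℚ :=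
  (((n : ℚ) + 1 - 2 * i - j) * ((n + 1 - 2 * i - j) + 1 + 4 * i + 2 * j)) * g i j
def f4 (i j : ℕ) : ℚ := ((j : ℚ) * (j + 1 + 4 * i + 2 * (n + 1 - 2 * i - j))) * g i j
def f5 (i j : ℕ) : ℚ := (((n : ℚ) + 1 - 2 * i - j) * ((n + 1 - 2 * i - j) - 1)) * g i j
def f6 (i j : ℕ) : ℚ := ((j : ℚ) * (j - 1)) * g i j

/-- the recursion step -/
def step (i j : ℕ) : ℚ :=
  (f1 e g i j + shj (f2 n e g) i j + shi (f3 n g) i j + shi (dnj (f4 n g)) i j +
    shi (shj (f5 n g)) i j + shi (dnj (dnj (f6 g))) i j) / (n + 1)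

end coef

lemma DD_add (F G : R2) : DD (F + G) = DD F + DD G := by
  unfold DD; rw [ths_add, tht_add]

lemma DD_κ (q : ℚ) (F : R2) : DD (κ q * F) = κ q * DD F := by
  unfold DD
  rw [ths_mul, ths_κ, zero_mul, zero_add, tht_mul, tht_κ, zero_mul, zero_add]

lemma DD_zero : DD 0 = 0 := by
  have := DD_κ 0 0
  rwa [map_zero, zero_mul, zero_mul] at this

lemma DD_sum {ι : Type*} (s : Finset ι) (F : ι → R2) : DD (∑ i ∈ s, F i) = ∑ i ∈ s, DD (F i) := by
  classical
  induction s using Finset.induction_on with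
  | empty => simp [DD_zero]
  | insert a s ha ih => rw [Finset.sum_insert ha, Finset.sum_insert ha, DD_add, ih]

lemma LL_step (M n : ℕ) (e : ℚ) (g : ℕ → ℕ → ℚ) (hM : n + 2 ≤ M)
    (hg : ∀ i j, n + 1 < 2 * i + j → g i j = 0) :
    DD (LL M n g) + κ e * LL M n g = κ ((n : ℚ) + 1) * LL M (n + 1) (step n e g) := by
  have hgM : ∀ j, g M j = 0 := fun j => hg _ _ (by omega)
  have hgjM : ∀ i, g i M = 0 := fun i => hg _ _ (by omega)
  have hgj1 : ∀ i, g i (M + 1) = 0 := fun i => hg _ _ (by omega)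
  have hgj2 : ∀ i, g i (M + 2) = 0 := fun i => hg _ _ (by omega)
  have h1 : DD (LL M n g) + κ e * LL M n g =
      ∑ i ∈ range (M + 1), ∑ j ∈ range (M + 1), (κ (f1 e g i j) * MM (n + 1) i j +
        κ (f2 n e g i j) * MM (n + 1) i (j + 1) +
        κ (f3 n g i j) * MM (n + 1) (i + 1) j +
        κ (f4 n g i j) * MM (n + 1) (i + 1) (j - 1) +
        κ (f5 n g i j) * MM (n + 1) (i + 1) (j + 1) +
        κ (f6 g i j) * MM (n + 1) (i + 1) (j - 2)) := by
    unfold LL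
    rw [DD_sum, Finset.mul_sum, ← Finset.sum_add_distrib]
    refine Finset.sum_congr rfl fun i _ => ?_
    rw [DD_sum, Finset.mul_sum, ← Finset.sum_add_distrib]
    refine Finset.sum_congr rfl fun j _ => ?_
    rw [DD_κ]
    by_cases h : 2 * i + j ≤ n + 1
    · have h2 := DD_MM n i j e h
      have h3 : κ (g i j) * DD (MM n i j) + κ e * (κ (g i j) * MM n i j) =
          κ (g i j) * (DD (MM n i j) + κ e * MM n i j) := by ring
      rw [h3, h2]
      unfold f1 f2 f3 f4 f5 f6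
      simp only [map_mul _ _ (g i j)]
      ring
    · have h0 := hg i j (by omega)
      unfold f1 f2 f3 f4 f5 f6
      rw [h0]
      simp
  rw [h1]
  simp only [Finset.sum_add_distrib]
  rw [sum_shj M (fun i j => MM (n + 1) i j) (f2 n e g)
      (fun i => by unfold f2; rw [hgjM]; ring),
    sum_shi M (fun i j => MM (n + 1) i j) (f3 n g)
      (fun j => by unfold f3; rw [hgM]; ring),
    sum_dnj M (fun i j => MM (n + 1) (i + 1) j) (f4 n g)
      (fun i => by unfold f4; simp) (fun i => by unfold f4; rw [hgj1]; ring),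
    sum_shi M (fun i j => MM (n + 1) i j) (dnj (f4 n g))
      (fun j => by unfold dnj f4; rw [hg _ _ (by omega)]; ring),
    sum_shj M (fun i j => MM (n + 1) (i + 1) j) (f5 n g)
      (fun i => by unfold f5; rw [hgjM]; ring),
    sum_shi M (fun i j => MM (n + 1) i j) (shj (f5 n g))
      (fun j => by
        rcases j with _ | j
        · cases M <;> rfl
        · have : shj (f5 n g) M (j + 1) = f5 n g M j := by cases M <;> rfl
          rw [this]; unfold f5; rw [hgM]; ring),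
    sum_dnj2 M (fun i j => MM (n + 1) (i + 1) j) (f6 g)
      (fun i => by unfold f6; simp) (fun i => by unfold f6; simp)
      (fun i => by unfold f6; rw [hgj1]; ring) (fun i => by unfold f6; rw [hgj2]; ring),
    sum_shi M (fun i j => MM (n + 1) i j) (dnj (dnj (f6 g)))
      (fun j => by unfold dnj f6; rw [hg _ _ (by omega)]; ring)]
  unfold LL
  rw [Finset.mul_sum]
  simp only [← Finset.sum_add_distrib]
  refine Finset.sum_congr rfl fun i _ => ?_
  rw [Finset.mul_sum]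
  refine Finset.sum_congr rfl fun j _ => ?_
  have hn : (n : ℚ) + 1 ≠ 0 := by positivity
  have h5 : κ ((n : ℚ) + 1) * (κ (step n e g i j) * MM (n + 1) i j) =
      κ (((n : ℚ) + 1) * step n e g i j) * MM (n + 1) i j := by
    rw [map_mul]; ring
  rw [h5]
  unfold step
  rw [mul_div_cancel₀ _ hn]
  simp only [map_add]
  ring

end Pool.Agent.V11169
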