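import Pool.Agent.V11169.Ges4

set_option autoImplicit false

namespace Pool.Agent.V11169

open Finset PowerSeries

/-- the series `∑ C(uv + m + 1 - k, m + 1) s^u t^v` -/
noncomputable def Ser (m k : ℕ) : R2 :=
  PowerSeries.mk fun v => PowerSeries.mk fun u => (((u * v + (m + 1) - k).choose (m + 1) : ℕ) : ℚ)

/-- the coefficient of `s^u t^v` -/
noncomputable def co (u v : ℕ) (F : R2) : ℚ := coeff u (coeff v F)

lemma co_ext (F G : R2) (h : ∀ u v, co u v F = co u v G) : F = G := by
  ext v u
  exact h u v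

lemma co_add (u v : ℕ) (F G : R2) : co u v (F + G) = co u v F + co u v G := by
  unfold co; rw [map_add, map_add]

lemma co_κ (u v : ℕ) (q : ℚ) (F : R2) : co u v (κ q * F) = q * co u v F := by
  unfold co κ
  rw [RingHom.comp_apply, coeff_C_mul, coeff_C_mul]

lemma co_DD (u v : ℕ) (F : R2) : co u v (DD F) = (u : ℚ) * v * co u v F := by
  unfold co DD tht ths
  rw [coeff_mk, coeff_mk]
  have h1 : ((v : ℕ) : PowerSeries ℚ) = C (v : ℚ) := by rw [map_natCast]
  rw [h1, coeff_C_mul, coeff_th]
  ring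

lemma co_Ser (u v m k : ℕ) : co u v (Ser m k) =
    (((u * v + (m + 1) - k).choose (m + 1) : ℕ) : ℚ) := by
  unfold co Ser
  rw [coeff_mk, coeff_mk]

lemma Ser_rec1 (m k : ℕ) (hk : k ≤ m + 1) : κ ((m : ℚ) + 2) * Ser (m + 1) k =
    DD (Ser m k) + κ ((m : ℚ) + 2 - k) * Ser m k := by
  apply co_ext
  intro u v
  rw [co_add, co_κ, co_κ, co_DD, co_Ser, co_Ser]
  have h1 : u * v + (m + 1 + 1) - k = (u * v + (m + 1) - k) + 1 := by omega
  rw [h1]
  have h2 := Nat.add_one_mul_choose_eq (u * v + (m + 1) - k) (m + 1)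
  have h3 : (((u * v + (m + 1) - k : ℕ) : ℚ)) = (u : ℚ) * v + (m + 1) - k := by
    rw [Nat.cast_sub (by omega)]
    push_cast; ring
  have h4 : (((u * v + (m + 1) - k : ℕ) : ℚ) + 1) * ((u * v + (m + 1) - k).choose (m + 1) : ℚ) =
      ((u * v + (m + 1) - k + 1).choose (m + 1 + 1) : ℚ) * ((m : ℚ) + 1 + 1) := by
    exact_mod_cast h2
  rw [h3] at h4
  linear_combination -h4

lemma Ser_rec2 (m : ℕ) : κ ((m : ℚ) + 2) * Ser (m + 1) (m + 2) =
    DD (Ser m (m + 1)) + κ (-((m : ℚ) + 1)) * Ser m (m + 1) := by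
  apply co_ext
  intro u v
  rw [co_add, co_κ, co_κ, co_DD, co_Ser, co_Ser]
  have h1 : u * v + (m + 1 + 1) - (m + 2) = u * v := by omega
  have h2 : u * v + (m + 1) - (m + 1) = u * v := by omega
  rw [h1, h2]
  have h3 := Nat.choose_succ_right_eq (u * v) (m + 1)
  rcases Nat.lt_or_ge (u * v) (m + 1) with h | h
  · rw [Nat.choose_eq_zero_of_lt h, Nat.choose_eq_zero_of_lt (by omega : u * v < m + 1 + 1)]
    simp
  · have h4 : ((u * v).choose (m + 1 + 1) : ℚ) * ((m : ℚ) + 1 + 1) =
        ((u * v).choose (m + 1) : ℚ) * ((u * v - (m + 1) : ℕ) : ℚ) := by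
      exact_mod_cast h3
    rw [Nat.cast_sub h] at h4
    push_cast at h4
    linear_combination h4

/-- the coefficient arrays, for `n = m + 1` -/
def GG : ℕ → ℕ → ℕ → ℕ → ℚ
  | 0, _ => fun i j => if i = 1 ∧ j = 0 then 1 else 0
  | m + 1, k => if k ≤ m + 1 then step (m + 1) ((m : ℚ) + 2 - k) (GG m k)
      else step (m + 1) (-((m : ℚ) + 1)) (GG m (m + 1))

lemma Ser_base : Ser 0 1 = cc := by
  apply co_ext
  intro u v
  rw [co_Ser]
  have h1 : ∀ v, coeff v (yy * (1 + yy)) = ((v : ℕ) : PowerSeries ℚ) := by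
    intro v
    rw [← tht_yy]
    unfold tht
    rw [coeff_mk, coeff_yy]
    split_ifs with h
    · subst h; simp
    · rw [mul_one]
  have h2 : xx * (1 + xx) = PowerSeries.C (th (X * ww)) := by
    rw [th_X_mul_ww]
    unfold xx
    simp only [map_mul, map_add, map_one]
  unfold co cc
  rw [h2, coeff_C_mul, h1]
  have h3 : ((v : ℕ) : PowerSeries ℚ) = C (v : ℚ) := by rw [map_natCast]
  rw [h3, mul_comm (th (X * ww)) _, coeff_C_mul, coeff_th]
  have h4 : coeff u (X * ww) = if u = 0 then (0 : ℚ) else 1 := by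
    unfold ww
    rcases u with _ | u
    · simp
    · rw [coeff_succ_X_mul, coeff_mk, if_neg (by omega)]; rfl
  rw [h4]
  have h5 : u * v + (0 + 1) - 1 = u * v := by omega
  rw [h5]
  simp only [zero_add, Nat.choose_one_right]
  split_ifs with h
  · subst h; simp
  · push_cast; ring

/-- vanishing outside the triangle -/
lemma step_supp (n : ℕ) (e : ℚ) (g : ℕ → ℕ → ℚ) (hg : ∀ i j, n + 1 < 2 * i + j → g i j = 0)
    (i j : ℕ) (h : n + 1 + 1 < 2 * i + j) : step n e g i j = 0 := by
  have a1 : f1 e g i j = 0 := by unfold f1; rw [hg _ _ (by omega)]; ring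
  have a2 : shj (f2 n e g) i j = 0 := by
    rcases j with _ | j
    · cases i <;> rfl
    · have : shj (f2 n e g) i (j + 1) = f2 n e g i j := by cases i <;> rfl
      rw [this]; unfold f2; rw [hg _ _ (by omega)]; ring
  rcases i with _ | i
  · unfold step
    rw [a1, a2]
    simp [shi]
  · have a3 : shi (f3 n g) (i + 1) j = 0 := by
      show f3 n g i j = 0
      unfold f3
      rcases Nat.lt_or_ge (n + 1) (2 * i + j) with h1 | h1
      · rw [hg _ _ h1]; ring
      · have h2 : 2 * i + j = n + 1 := by omega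
        have h3 : (n : ℚ) + 1 - 2 * i - j = 0 := by
          have : ((2 * i + j : ℕ) : ℚ) = ((n + 1 : ℕ) : ℚ) := by rw [h2]
          push_cast at this
          linarith
        rw [h3]; ring
    have a4 : shi (dnj (f4 n g)) (i + 1) j = 0 := by
      show f4 n g i (j + 1) = 0
      unfold f4
      rw [hg _ _ (by omega)]; ring
    have a5 : shi (shj (f5 n g)) (i + 1) j = 0 := by
      show shj (f5 n g) i j = 0
      rcases j with _ | j
      · cases i <;> rfl
      · have : shj (f5 n g) i (j + 1) = f5 n g i j := by cases i <;> rfl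
        rw [this]
        unfold f5
        rcases Nat.lt_or_ge (n + 1) (2 * i + j) with h1 | h1
        · rw [hg _ _ h1]; ring
        · have h2 : 2 * i + j = n + 1 ∨ 2 * i + j = n := by omega
          rcases h2 with h2 | h2
          · have h3 : (n : ℚ) + 1 - 2 * i - j = 0 := by
              have : ((2 * i + j : ℕ) : ℚ) = ((n + 1 : ℕ) : ℚ) := by rw [h2]
              push_cast at this
              linarith
            rw [h3]; ring
          · have h3 : (n : ℚ) + 1 - 2 * i - j = 1 := by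
              have : ((2 * i + j : ℕ) : ℚ) = ((n : ℕ) : ℚ) := by rw [h2]
              push_cast at this
              linarith
            rw [h3]; ring
    have a6 : shi (dnj (dnj (f6 g))) (i + 1) j = 0 := by
      show f6 g i (j + 1 + 1) = 0
      unfold f6
      rw [hg _ _ (by omega)]; ring
    unfold step
    rw [a1, a2, a3, a4, a5, a6]
    simp

end Pool.Agent.V11169
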