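import Pool.Agent.V11169.Ges5

set_option autoImplicit false

namespace Pool.Agent.V11169

open Finset

lemma shj_cases (f : ℕ → ℕ → ℚ) (i j : ℕ) :
    (j = 0 ∧ shj f i j = 0) ∨ ∃ j', j = j' + 1 ∧ shj f i j = f i j' := by
  rcases j with _ | j
  · left; exact ⟨rfl, by cases i <;> rfl⟩
  · right; exact ⟨j, rfl, by cases i <;> rfl⟩

lemma step_row_zero (n : ℕ) (e : ℚ) (g : ℕ → ℕ → ℚ) (h1 : ∀ j, g 0 j = 0) (j : ℕ) :
    step n e g 0 j = 0 := by
  have a1 : f1 e g 0 j = 0 := by unfold f1; rw [h1]; ring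
  have a2 : shj (f2 n e g) 0 j = 0 := by
    rcases shj_cases (f2 n e g) 0 j with ⟨_, h⟩ | ⟨j', _, h⟩
    · exact h
    · rw [h]; unfold f2; rw [h1]; ring
  unfold step
  rw [a1, a2]
  simp [shi]

lemma step_P2 (n : ℕ) (c : ℤ) (g : ℕ → ℕ → ℚ) (h0 : ∀ i j, n + 1 < 2 * i + j → g i j = 0)
    (h1 : ∀ j, g 0 j = 0)
    (h2 : ∀ i j : ℕ, 1 ≤ i → (i : ℤ) * ((n : ℤ) + 1 - i - j) < c → g i j = 0) (i j : ℕ)
    (hi : 1 ≤ i) (hx : (i : ℤ) * ((n : ℤ) + 2 - i - j) < c + 1) : step n (c : ℚ) g i j = 0 := by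
  by_cases hr : n + 1 + 1 < 2 * i + j
  · exact step_supp n _ g h0 i j hr
  obtain ⟨i, rfl⟩ : ∃ i', i = i' + 1 := ⟨i - 1, by omega⟩
  have hxi : (i : ℤ) + 1 ≤ (n : ℤ) + 1 - i - j := by omega
  push_cast at hx
  have hgz : ∀ j' : ℕ, (i : ℤ) * ((n : ℤ) + 1 - i - j') < c → g i j' = 0 := by
    intro j' h
    rcases Nat.eq_zero_or_pos i with h3 | h3
    · subst h3; exact h1 j'
    · exact h2 i j' h3 h
  have hi0 : (0 : ℤ) ≤ i := Int.natCast_nonneg i
  have a1 : f1 (c : ℚ) g (i + 1) j = 0 := by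
    unfold f1
    rw [h2 (i + 1) j (by omega) (by push_cast; nlinarith)]; ring
  have a2 : shj (f2 n (c : ℚ) g) (i + 1) j = 0 := by
    rcases shj_cases (f2 n (c : ℚ) g) (i + 1) j with ⟨_, h⟩ | ⟨j', hj, h⟩
    · exact h
    · rw [h]; unfold f2
      subst hj
      push_cast at hx
      by_cases h3 : ((i + 1 : ℕ) : ℤ) * ((n : ℤ) + 1 - (i + 1 : ℕ) - j') < c
      · rw [h2 (i + 1) j' (by omega) h3]; ring
      · push_cast at h3
        have h4 : ((i : ℤ) + 1) * ((n : ℤ) + 1 - (i + 1) - j') = c := by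
          apply le_antisymm _ (not_lt.mp h3)
          nlinarith
        have h5 : ((i : ℚ) + 1) * ((n : ℚ) + 1 - (i + 1) - j') = c := by exact_mod_cast h4
        have h6 : (((i + 1 : ℕ) : ℚ) * (((i + 1 : ℕ) : ℚ) + ((n : ℚ) + 1 - 2 * ((i + 1 : ℕ) : ℚ) - j'))
            - (c : ℚ)) = 0 := by
          push_cast
          linear_combination h5
        rw [h6]; ring
  have a3 : shi (f3 n g) (i + 1) j = 0 := by
    show f3 n g i j = 0
    unfold f3
    rw [hgz j (by nlinarith)]; ring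
  have a4 : shi (dnj (f4 n g)) (i + 1) j = 0 := by
    show f4 n g i (j + 1) = 0
    unfold f4
    rw [hgz (j + 1) (by push_cast; nlinarith)]; ring
  have a5 : shi (shj (f5 n g)) (i + 1) j = 0 := by
    show shj (f5 n g) i j = 0
    rcases shj_cases (f5 n g) i j with ⟨_, h⟩ | ⟨j', hj, h⟩
    · exact h
    · rw [h]; unfold f5
      subst hj
      push_cast at hx hxi
      rw [hgz j' (by nlinarith)]; ring
  have a6 : shi (dnj (dnj (f6 g))) (i + 1) j = 0 := by
    show f6 g i (j + 1 + 1) = 0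
    unfold f6
    rw [hgz (j + 1 + 1) (by push_cast; nlinarith)]; ring
  unfold step
  rw [a1, a2, a3, a4, a5, a6]
  simp

lemma step_P3 (n : ℕ) (g : ℕ → ℕ → ℚ) (h1 : ∀ j, g 0 j = 0)
    (h3 : ∀ i j : ℕ, 1 ≤ i → (i : ℤ) * ((i : ℤ) + j) < n → g i j = 0) (i j : ℕ)
    (hi : 1 ≤ i) (hx : (i : ℤ) * ((i : ℤ) + j) < n + 1) : step n (-(n : ℚ)) g i j = 0 := by
  obtain ⟨i, rfl⟩ : ∃ i', i = i' + 1 := ⟨i - 1, by omega⟩
  push_cast at hx
  have hi0 : (0 : ℤ) ≤ i := Int.natCast_nonneg i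
  have hj0 : (0 : ℤ) ≤ j := Int.natCast_nonneg j
  have hgz : ∀ j' : ℕ, (i : ℤ) * ((i : ℤ) + j') < n → g i j' = 0 := by
    intro j' h
    rcases Nat.eq_zero_or_pos i with h3' | h3'
    · subst h3'; exact h1 j'
    · exact h3 i j' h3' h
  have a1 : f1 (-(n : ℚ)) g (i + 1) j = 0 := by
    unfold f1
    by_cases h4 : ((i + 1 : ℕ) : ℤ) * (((i + 1 : ℕ) : ℤ) + j) < n
    · rw [h3 (i + 1) j (by omega) h4]; ring
    · push_cast at h4
      have h5 : ((i : ℤ) + 1) * ((i : ℤ) + 1 + j) = n := by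
        apply le_antisymm _ (not_lt.mp h4)
        omega
      have h6 : ((i : ℚ) + 1) * ((i : ℚ) + 1 + j) = n := by exact_mod_cast h5
      push_cast
      have h7 : (((i : ℚ) + 1) * ((i : ℚ) + 1 + j) + -(n : ℚ)) = 0 := by rw [h6]; ring
      rw [h7]; ring
  have a2 : shj (f2 n (-(n : ℚ)) g) (i + 1) j = 0 := by
    rcases shj_cases (f2 n (-(n : ℚ)) g) (i + 1) j with ⟨_, h⟩ | ⟨j', hj, h⟩
    · exact h
    · rw [h]; unfold f2
      subst hj
      push_cast at hx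
      rw [h3 (i + 1) j' (by omega) (by push_cast; nlinarith)]; ring
  have a3 : shi (f3 n g) (i + 1) j = 0 := by
    show f3 n g i j = 0
    unfold f3
    rw [hgz j (by nlinarith)]; ring
  have a4 : shi (dnj (f4 n g)) (i + 1) j = 0 := by
    show f4 n g i (j + 1) = 0
    unfold f4
    rw [hgz (j + 1) (by push_cast; nlinarith)]; ring
  have a5 : shi (shj (f5 n g)) (i + 1) j = 0 := by
    show shj (f5 n g) i j = 0
    rcases shj_cases (f5 n g) i j with ⟨_, h⟩ | ⟨j', hj, h⟩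
    · exact h
    · rw [h]; unfold f5
      subst hj
      push_cast at hx hj0
      have hj1 : (0 : ℤ) ≤ j' := Int.natCast_nonneg j'
      rw [hgz j' (by nlinarith)]; ring
  have a6 : shi (dnj (dnj (f6 g))) (i + 1) j = 0 := by
    show f6 g i (j + 1 + 1) = 0
    unfold f6
    rw [hgz (j + 1 + 1) (by push_cast; nlinarith)]; ring
  unfold step
  rw [a1, a2, a3, a4, a5, a6]
  simp

lemma nat_mul_pred (q : ℕ) : (0 : ℚ) ≤ (q : ℚ) * ((q : ℚ) - 1) := by
  rcases q with _ | q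
  · simp
  · push_cast
    have : (0 : ℚ) ≤ q := Nat.cast_nonneg q
    nlinarith

lemma rest_nonneg (n : ℕ) (g : ℕ → ℕ → ℚ) (h0 : ∀ i j, n + 1 < 2 * i + j → g i j = 0)
    (h4 : ∀ i j, 0 ≤ g i j) (i j : ℕ) :
    0 ≤ f3 n g i j ∧ 0 ≤ f4 n g i j ∧ 0 ≤ f5 n g i j ∧ 0 ≤ f6 g i j := by
  unfold f3 f4 f5 f6
  refine ⟨?_, ?_, ?_, mul_nonneg (nat_mul_pred j) (h4 i j)⟩
  all_goals
    rcases Nat.lt_or_ge (n + 1) (2 * i + j) with h | h
    · rw [h0 i j h, mul_zero]
    · obtain ⟨q, hq⟩ : ∃ q, n + 1 = 2 * i + j + q := ⟨n + 1 - (2 * i + j), by omega⟩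
      have hq2 : ((n : ℚ) + 1 - 2 * i - j) = q := by
        have : ((n + 1 : ℕ) : ℚ) = ((2 * i + j + q : ℕ) : ℚ) := by rw [hq]
        push_cast at this
        linarith
      rw [hq2]
      apply mul_nonneg _ (h4 i j)
      first
        | exact nat_mul_pred q
        | positivity

lemma step_nonneg_aux (n : ℕ) (e : ℚ) (g : ℕ → ℕ → ℚ)
    (h0 : ∀ i j, n + 1 < 2 * i + j → g i j = 0) (h4 : ∀ i j, 0 ≤ g i j)
    (hf1 : ∀ i j, 0 ≤ f1 e g i j) (hf2 : ∀ i j, 0 ≤ f2 n e g i j) (i j : ℕ) :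
    0 ≤ step n e g i j := by
  have hr := rest_nonneg n g h0 h4
  unfold step
  apply div_nonneg _ (by positivity)
  have a1 := hf1 i j
  have a2 : 0 ≤ shj (f2 n e g) i j := by
    rcases shj_cases (f2 n e g) i j with ⟨_, h⟩ | ⟨j', _, h⟩
    · rw [h]
    · rw [h]; exact hf2 i j'
  rcases i with _ | i
  · show 0 ≤ f1 e g 0 j + shj (f2 n e g) 0 j + 0 + 0 + 0 + 0
    linarith
  · have a3 : 0 ≤ shi (f3 n g) (i + 1) j := (hr i j).1
    have a4 : 0 ≤ shi (dnj (f4 n g)) (i + 1) j := (hr i (j + 1)).2.1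
    have a5 : 0 ≤ shi (shj (f5 n g)) (i + 1) j := by
      show 0 ≤ shj (f5 n g) i j
      rcases shj_cases (f5 n g) i j with ⟨_, h⟩ | ⟨j', _, h⟩
      · rw [h]
      · rw [h]; exact (hr i j').2.2.1
    have a6 : 0 ≤ shi (dnj (dnj (f6 g))) (i + 1) j := (hr i (j + 1 + 1)).2.2.2
    linarith

lemma step_nonneg1 (n : ℕ) (c : ℤ) (hc : 0 ≤ c) (g : ℕ → ℕ → ℚ)
    (h0 : ∀ i j, n + 1 < 2 * i + j → g i j = 0) (h1 : ∀ j, g 0 j = 0)
    (h2 : ∀ i j : ℕ, 1 ≤ i → (i : ℤ) * ((n : ℤ) + 1 - i - j) < c → g i j = 0)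
    (h4 : ∀ i j, 0 ≤ g i j) (i j : ℕ) : 0 ≤ step n (c : ℚ) g i j := by
  apply step_nonneg_aux n _ g h0 h4
  · intro i j
    unfold f1
    apply mul_nonneg _ (h4 i j)
    have : (0 : ℚ) ≤ c := by exact_mod_cast hc
    positivity
  · intro i j
    unfold f2
    rcases Nat.eq_zero_or_pos i with h | h
    · subst h; rw [h1, mul_zero]
    by_cases h5 : (i : ℤ) * ((n : ℤ) + 1 - i - j) < c
    · rw [h2 i j h h5, mul_zero]
    · apply mul_nonneg _ (h4 i j)
      have h6 : (c : ℚ) ≤ (i : ℚ) * ((n : ℚ) + 1 - i - j) := by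
        have := not_lt.mp h5
        exact_mod_cast this
      nlinarith

lemma step_nonneg2 (n : ℕ) (g : ℕ → ℕ → ℚ)
    (h0 : ∀ i j, n + 1 < 2 * i + j → g i j = 0) (h1 : ∀ j, g 0 j = 0)
    (h3 : ∀ i j : ℕ, 1 ≤ i → (i : ℤ) * ((i : ℤ) + j) < n → g i j = 0)
    (h4 : ∀ i j, 0 ≤ g i j) (i j : ℕ) : 0 ≤ step n (-(n : ℚ)) g i j := by
  apply step_nonneg_aux n _ g h0 h4
  · intro i j
    unfold f1
    rcases Nat.eq_zero_or_pos i with h | h
    · subst h; rw [h1, mul_zero]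
    by_cases h5 : (i : ℤ) * ((i : ℤ) + j) < n
    · rw [h3 i j h h5, mul_zero]
    · apply mul_nonneg _ (h4 i j)
      have h6 : (n : ℚ) ≤ (i : ℚ) * ((i : ℚ) + j) := by
        have := not_lt.mp h5
        exact_mod_cast this
      linarith
  · intro i j
    unfold f2
    rcases Nat.lt_or_ge (n + 1) (2 * i + j) with h | h
    · rw [h0 i j h, mul_zero]
    · apply mul_nonneg _ (h4 i j)
      obtain ⟨q, hq⟩ : ∃ q, n + 1 = 2 * i + j + q := ⟨n + 1 - (2 * i + j), by omega⟩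
      have hq2 : ((n : ℚ) + 1 - 2 * i - j) = q := by
        have : ((n + 1 : ℕ) : ℚ) = ((2 * i + j + q : ℕ) : ℚ) := by rw [hq]
        push_cast at this
        linarith
      rw [hq2]
      have : (0 : ℚ) ≤ n := Nat.cast_nonneg n
      have : (0 : ℚ) ≤ (i : ℚ) * (i + q) := by positivity
      linarith

/-- all properties of the arrays, for `n = m + 1` -/
theorem GG_props : ∀ m k : ℕ, 1 ≤ k → k ≤ m + 1 →
    (∀ i j, m + 1 + 1 < 2 * i + j → GG m k i j = 0) ∧ (∀ j, GG m k 0 j = 0) ∧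
    (∀ i j : ℕ, 1 ≤ i → (i : ℤ) * (((m + 1 : ℕ) : ℤ) + 1 - i - j) < (m : ℤ) + 2 - k →
      GG m k i j = 0) ∧
    (k = m + 1 → ∀ i j : ℕ, 1 ≤ i → (i : ℤ) * ((i : ℤ) + j) < ((m + 1 : ℕ) : ℤ) → GG m k i j = 0) ∧
    (∀ i j, 0 ≤ GG m k i j) := by
  intro m
  induction m with
  | zero =>
    intro k hk1 hk2
    have hk : k = 1 := by omega
    subst hk
    have hv : ∀ i j, ¬ (i = 1 ∧ j = 0) → GG 0 1 i j = 0 := by
      intro i j h
      unfold GG
      rw [if_neg h]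
    refine ⟨?_, ?_, ?_, ?_, ?_⟩
    · intro i j h
      apply hv; omega
    · intro j
      apply hv; omega
    · intro i j hi h
      apply hv
      rintro ⟨rfl, rfl⟩
      norm_num at h
    · intro _ i j hi h
      apply hv
      rintro ⟨rfl, rfl⟩
      norm_num at h
    · intro i j
      unfold GG
      split_ifs <;> norm_num
  | succ m ih =>
    intro k hk1 hk2
    by_cases hk : k ≤ m + 1
    · obtain ⟨p0, p1, p2, -, p4⟩ := ih k hk1 hk
      have e : GG (m + 1) k = step (m + 1) (((m : ℤ) + 2 - k : ℤ) : ℚ) (GG m k) := by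
        conv_lhs => unfold GG
        rw [if_pos hk]
        push_cast
        rfl
      rw [e]
      refine ⟨step_supp _ _ _ p0, step_row_zero _ _ _ p1, ?_, ?_, ?_⟩
      · intro i j hi h
        apply step_P2 (m + 1) _ _ p0 p1 p2 i j hi
        push_cast at h ⊢
        nlinarith
      · intro h; omega
      · exact step_nonneg1 _ _ (by omega) _ p0 p1 p2 p4
    · have hk' : k = m + 1 + 1 := by omega
      subst hk'
      obtain ⟨p0, p1, -, p3, p4⟩ := ih (m + 1) (by omega) le_rfl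
      have p3' := p3 rfl
      have e : GG (m + 1) (m + 1 + 1) = step (m + 1) (-((m + 1 : ℕ) : ℚ)) (GG m (m + 1)) := by
        conv_lhs => unfold GG
        rw [if_neg hk]
        push_cast
        rfl
      rw [e]
      refine ⟨step_supp _ _ _ p0, step_row_zero _ _ _ p1, ?_, ?_, ?_⟩
      · intro i j hi h
        apply step_supp _ _ _ p0
        by_contra hc
        have hc' : 2 * i + j ≤ m + 1 + 1 + 1 := by omega
        have h6 : (1 : ℤ) ≤ ((m + 1 + 1 : ℕ) : ℤ) + 1 - i - j := by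
          push_cast; omega
        have h7 : (1 : ℤ) * 1 ≤ (i : ℤ) * (((m + 1 + 1 : ℕ) : ℤ) + 1 - i - j) :=
          mul_le_mul (by exact_mod_cast hi) h6 (by norm_num) (by positivity)
        push_cast at h h7
        linarith
      · intro _ i j hi h
        apply step_P3 _ _ p1 p3' i j hi
        push_cast at h ⊢
        linarith
      · exact step_nonneg2 _ _ p0 p1 p3' p4

open PowerSeries in
/-- the expansion of the series in the basis -/
theorem Ser_eq : ∀ m k : ℕ, 1 ≤ k → k ≤ m + 1 → ∀ M, m + 3 ≤ M →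
    Ser m k = LL M (m + 1) (GG m k) := by
  intro m
  induction m with
  | zero =>
    intro k hk1 hk2 M hM
    have hk : k = 1 := by omega
    subst hk
    rw [Ser_base]
    unfold LL
    rw [Finset.sum_eq_single 1, Finset.sum_eq_single 0]
    · unfold GG MM
      simp
    · intro j _ hj
      unfold GG
      rw [if_neg (by omega), map_zero, zero_mul]
    · intro h
      exact absurd (mem_range.mpr (by omega)) h
    · intro i _ hi
      apply Finset.sum_eq_zero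
      intro j _
      unfold GG
      rw [if_neg (by omega), map_zero, zero_mul]
    · intro h
      exact absurd (mem_range.mpr (by omega)) h
  | succ m ih =>
    intro k hk1 hk2 M hM
    have hcan : ∀ F G : R2, κ ((m : ℚ) + 2) * F = κ ((m : ℚ) + 2) * G → F = G := by
      intro F G h
      have h2 : κ (1 / ((m : ℚ) + 2)) * κ ((m : ℚ) + 2) = 1 := by
        rw [← map_mul, one_div, inv_mul_cancel₀ (by positivity), map_one]
      calc F = (κ (1 / ((m : ℚ) + 2)) * κ ((m : ℚ) + 2)) * F := by rw [h2, one_mul]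
        _ = κ (1 / ((m : ℚ) + 2)) * (κ ((m : ℚ) + 2) * F) := by ring
        _ = κ (1 / ((m : ℚ) + 2)) * (κ ((m : ℚ) + 2) * G) := by rw [h]
        _ = (κ (1 / ((m : ℚ) + 2)) * κ ((m : ℚ) + 2)) * G := by ring
        _ = G := by rw [h2, one_mul]
    apply hcan
    have hc : (((m + 1 : ℕ) : ℚ) + 1) = (m : ℚ) + 2 := by push_cast; ring
    by_cases hk : k ≤ m + 1
    · obtain ⟨p0, -⟩ := GG_props m k hk1 hk
      rw [Ser_rec1 m k hk, ih k hk1 hk M (by omega), LL_step M (m + 1) _ _ (by omega) p0, hc]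
      congr 2
      conv_rhs => unfold GG
      rw [if_pos hk]
    · have hk' : k = m + 1 + 1 := by omega
      subst hk'
      obtain ⟨p0, -⟩ := GG_props m (m + 1) (by omega) le_rfl
      rw [Ser_rec2 m, ih (m + 1) (by omega) le_rfl M (by omega),
        LL_step M (m + 1) _ _ (by omega) p0, hc]
      congr 2
      conv_rhs => unfold GG
      rw [if_neg hk]

end Pool.Agent.V11169
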