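import Pool.Agent.V11169.Ges1
import Pool.Agent.V11169.Ges6

set_option autoImplicit false

namespace Pool.Agent.V11169

open Finset Equiv

/-- the variable `s` -/
noncomputable def sv : R2 := PowerSeries.C (PowerSeries.X)

/-- the variable `t` -/
noncomputable def tv : R2 := PowerSeries.X

/-- `1/(1-s)` -/
noncomputable def w1 : R2 := PowerSeries.C ww

/-- `1/(1-t)` -/
noncomputable def w2 : R2 := PowerSeries.mk 1

lemma xx_eq : xx = sv * w1 := by
  unfold xx sv w1
  rw [← map_mul]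

lemma yy_eq' : yy = tv * w2 := rfl

lemma one_add_xx : 1 + xx = w1 := by
  unfold xx w1
  conv_rhs => rw [ww_eq]
  rw [map_add, map_one]

lemma one_add_yy : 1 + yy = w2 := by
  apply PowerSeries.ext
  intro v
  rw [map_add, coeff_yy, PowerSeries.coeff_one]
  unfold w2
  rw [PowerSeries.coeff_mk]
  split_ifs <;> simp

lemma w1_mul : w1 * (1 - sv) = 1 := by
  unfold w1 sv
  rw [← map_one (PowerSeries.C (R := PowerSeries ℚ)), ← map_sub, ← map_mul, ww_mul]

lemma w2_mul : w2 * (1 - tv) = 1 := by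
  unfold w2 tv
  exact PowerSeries.mk_one_mul_one_sub_eq_one _

lemma aa_eq : aa = (1 + sv * tv) * (w1 * w2) := by
  have h1 := xx_eq
  have h2 := yy_eq'
  have h3 := one_add_xx
  have h4 := one_add_yy
  calc aa = (1 + xx) * (1 + yy) + xx * yy := by unfold aa; ring
    _ = w1 * w2 + (sv * w1) * (tv * w2) := by rw [h3, h4, h1, h2]
    _ = _ := by ring

lemma bb_eq : bb = (sv + tv) * (w1 * w2) := by
  have h1 := xx_eq
  have h2 := yy_eq'
  have h3 := one_add_xx
  have h4 := one_add_yy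
  calc bb = xx * (1 + yy) + yy * (1 + xx) := by unfold bb; ring
    _ = (sv * w1) * w2 + (tv * w2) * w1 := by rw [h3, h4, h1, h2]
    _ = _ := by ring

lemma cc_eq : cc = (sv * tv) * (w1 * w2) ^ 2 := by
  have h1 := xx_eq
  have h2 := yy_eq'
  have h3 := one_add_xx
  have h4 := one_add_yy
  calc cc = xx * (1 + xx) * (yy * (1 + yy)) := by unfold cc; ring
    _ = (sv * w1) * w1 * ((tv * w2) * w2) := by rw [h3, h4, h1, h2]
    _ = _ := by ring

/-- the polynomial basis -/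
noncomputable def BB (n i j : ℕ) : R2 := (1 + sv * tv) ^ (n + 1 - 2 * i - j) * (sv + tv) ^ j *
  (sv * tv) ^ i

lemma MM_eq (n i j : ℕ) (h : 2 * i + j ≤ n + 1) : MM n i j = BB n i j * (w1 * w2) ^ (n + 1) := by
  obtain ⟨q, hq⟩ : ∃ q, n + 1 = 2 * i + j + q := ⟨n + 1 - (2 * i + j), by omega⟩
  unfold MM BB
  have e0 : n + 1 - 2 * i - j = q := by omega
  rw [e0, aa_eq, bb_eq, cc_eq, hq, mul_pow (1 + sv * tv), mul_pow (sv + tv)]
  ring

/-- the descent polynomial of the factorisations of `τ` -/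
noncomputable def FT {n : ℕ} (τ : Perm (Fin n)) : R2 :=
  ∑ π : Perm (Fin n), sv ^ (dS π + 1) * tv ^ (dS (π⁻¹ * τ) + 1)

lemma coeff_geo {R : Type*} [CommRing R] (n d u : ℕ) (hd : d ≤ n) (hn : 0 < n) :
    PowerSeries.coeff u ((PowerSeries.X : PowerSeries R) ^ d * (PowerSeries.mk 1) ^ (n + 1)) =
      (((u + n - d).choose n : ℕ) : R) := by
  rw [PowerSeries.mk_one_pow_eq_mk_choose_add, PowerSeries.coeff_X_pow_mul', PowerSeries.coeff_mk]
  split_ifs with h
  · congr 2; omega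
  · rw [Nat.choose_eq_zero_of_lt (by omega), Nat.cast_zero]

lemma FT_mul {n : ℕ} (hn : 0 < n) (τ : Perm (Fin n)) :
    FT τ * (w1 * w2) ^ (n + 1) = Ser (n - 1) (dS τ + 1) := by
  apply co_ext
  intro u v
  rw [co_Ser]
  have hn1 : n - 1 + 1 = n := by omega
  rw [hn1]
  have h0 : u * v + n - (dS τ + 1) = v * u + n - (dS τ + 1) := by rw [mul_comm]
  rw [h0, ← gessel_id τ hn v u]
  unfold FT
  rw [Finset.sum_mul]
  have h1 : ∀ π : Perm (Fin n), co u v (sv ^ (dS π + 1) * tv ^ (dS (π⁻¹ * τ) + 1) *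
      (w1 * w2) ^ (n + 1)) =
      (((u + n - (dS π + 1)).choose n : ℕ) : ℚ) * ((v + n - (dS (π⁻¹ * τ) + 1)).choose n : ℕ) := by
    intro π
    have h2 : sv ^ (dS π + 1) * tv ^ (dS (π⁻¹ * τ) + 1) * (w1 * w2) ^ (n + 1) =
        PowerSeries.C ((PowerSeries.X : PowerSeries ℚ) ^ (dS π + 1) * (PowerSeries.mk 1) ^ (n + 1)) *
        ((PowerSeries.X : R2) ^ (dS (π⁻¹ * τ) + 1) * (PowerSeries.mk 1) ^ (n + 1)) := by
      unfold sv tv w1 w2 ww
      simp only [map_mul, map_pow]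
      ring
    rw [h2]
    unfold co
    rw [PowerSeries.coeff_C_mul, coeff_geo n _ v (dS_lt _ hn) hn]
    have h3 : ((((v + n - (dS (π⁻¹ * τ) + 1)).choose n : ℕ)) : PowerSeries ℚ) =
        PowerSeries.C (((v + n - (dS (π⁻¹ * τ) + 1)).choose n : ℕ) : ℚ) := by
      rw [map_natCast]
    rw [h3, mul_comm, PowerSeries.coeff_C_mul, coeff_geo n _ u (dS_lt _ hn) hn]
    ring
  have h2 : co u v (∑ π : Perm (Fin n), sv ^ (dS π + 1) * tv ^ (dS (π⁻¹ * τ) + 1) *
      (w1 * w2) ^ (n + 1)) = ∑ π : Perm (Fin n), co u v (sv ^ (dS π + 1) *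
        tv ^ (dS (π⁻¹ * τ) + 1) * (w1 * w2) ^ (n + 1)) := by
    unfold co
    rw [map_sum, map_sum]
  rw [h2]
  push_cast
  exact Finset.sum_congr rfl fun π _ => h1 π

/-- the expansion of the descent polynomial -/
theorem FT_eq {n : ℕ} (hn : 0 < n) (τ : Perm (Fin n)) :
    FT τ = ∑ i ∈ range (n + 3), ∑ j ∈ range (n + 3),
      κ (GG (n - 1) (dS τ + 1) i j) * BB n i j := by
  have hk := dS_lt τ hn
  obtain ⟨p0, -⟩ := GG_props (n - 1) (dS τ + 1) (by omega) (by omega)
  have h1 : FT τ * (w1 * w2) ^ (n + 1) = (∑ i ∈ range (n + 3), ∑ j ∈ range (n + 3),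
      κ (GG (n - 1) (dS τ + 1) i j) * BB n i j) * (w1 * w2) ^ (n + 1) := by
    rw [FT_mul hn, Ser_eq (n - 1) (dS τ + 1) (by omega) (by omega) (n + 2) (by omega)]
    unfold LL
    rw [Finset.sum_mul]
    refine Finset.sum_congr rfl fun i _ => ?_
    rw [Finset.sum_mul]
    refine Finset.sum_congr rfl fun j _ => ?_
    have hn1 : n - 1 + 1 = n := by omega
    rw [hn1]
    rcases Nat.lt_or_ge (n + 1) (2 * i + j) with h | h
    · rw [p0 i j (by omega)]
      simp
    · rw [MM_eq n i j h]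
      ring
  have h2 : (w1 * w2) ^ (n + 1) * ((1 - sv) * (1 - tv)) ^ (n + 1) = 1 := by
    rw [← mul_pow]
    have : w1 * w2 * ((1 - sv) * (1 - tv)) = (w1 * (1 - sv)) * (w2 * (1 - tv)) := by ring
    rw [this, w1_mul, w2_mul]
    simp
  calc FT τ = FT τ * ((w1 * w2) ^ (n + 1) * ((1 - sv) * (1 - tv)) ^ (n + 1)) := by
        rw [h2, mul_one]
    _ = (FT τ * (w1 * w2) ^ (n + 1)) * ((1 - sv) * (1 - tv)) ^ (n + 1) := by ring
    _ = _ := by rw [h1, mul_assoc, h2, mul_one]

/-! ### Integrality -/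

lemma co_mono (a b x y : ℕ) : co x y (sv ^ a * tv ^ b) = if x = a ∧ y = b then 1 else 0 := by
  unfold co sv tv
  rw [← map_pow, PowerSeries.coeff_C_mul, PowerSeries.coeff_X_pow]
  by_cases h : y = b
  · rw [if_pos h, mul_one, PowerSeries.coeff_X_pow]
    by_cases h2 : x = a
    · rw [if_pos h2, if_pos ⟨h2, h⟩]
    · rw [if_neg h2, if_neg (fun h3 => h2 h3.1)]
  · rw [if_neg h, mul_zero, if_neg (fun h3 => h h3.2)]
    simp

lemma co_sum {ι : Type*} (s : Finset ι) (F : ι → R2) (x y : ℕ) :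
    co x y (∑ i ∈ s, F i) = ∑ i ∈ s, co x y (F i) := by
  unfold co
  rw [map_sum, map_sum]

lemma BB_expand (n i j : ℕ) : BB n i j =
    ∑ r ∈ range (n + 1 - 2 * i - j + 1), ∑ q ∈ range (j + 1),
      κ ((((n + 1 - 2 * i - j).choose r * j.choose q : ℕ)) : ℚ) *
        (sv ^ (i + r + q) * tv ^ (i + r + (j - q))) := by
  unfold BB
  generalize n + 1 - 2 * i - j = p
  rw [add_comm 1 (sv * tv), add_pow, add_pow, Finset.sum_mul, Finset.sum_mul]
  refine Finset.sum_congr rfl fun r _ => ?_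
  rw [Finset.mul_sum, Finset.sum_mul]
  refine Finset.sum_congr rfl fun q _ => ?_
  rw [κ_nat]
  push_cast
  rw [one_pow, mul_pow, mul_pow, pow_add, pow_add, pow_add, pow_add]
  ring

/-- the integers inside the rationals -/
def ZZ : Subring ℚ := (Int.castRingHom ℚ).range

lemma mem_ZZ (q : ℚ) : q ∈ ZZ ↔ ∃ z : ℤ, q = z := by
  unfold ZZ
  rw [RingHom.mem_range]
  constructor
  · rintro ⟨z, hz⟩; exact ⟨z, by rw [← hz]; rfl⟩
  · rintro ⟨z, hz⟩; exact ⟨z, by rw [hz]; rfl⟩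

lemma co_BB (n i j x y : ℕ) : co x y (BB n i j) =
    ∑ r ∈ range (n + 1 - 2 * i - j + 1), ∑ q ∈ range (j + 1),
      if x = i + r + q ∧ y = i + r + (j - q) then
        ((((n + 1 - 2 * i - j).choose r * j.choose q : ℕ)) : ℚ) else 0 := by
  rw [BB_expand, co_sum]
  refine Finset.sum_congr rfl fun r _ => ?_
  rw [co_sum]
  refine Finset.sum_congr rfl fun q _ => ?_
  rw [co_κ, co_mono]
  split_ifs <;> simp

lemma co_BB_int (n i j x y : ℕ) : co x y (BB n i j) ∈ ZZ := by
  rw [co_BB]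
  refine ZZ.sum_mem fun r _ => ZZ.sum_mem fun q _ => ?_
  split_ifs
  · exact natCast_mem ZZ _
  · exact ZZ.zero_mem

lemma co_BB_zero (n i j i0 j0 : ℕ) (h : 2 * i0 + j0 < 2 * i + j ∨ (2 * i0 + j0 = 2 * i + j ∧ i0 < i)) :
    co (i0 + j0) i0 (BB n i j) = 0 := by
  rw [co_BB]
  refine Finset.sum_eq_zero fun r _ => Finset.sum_eq_zero fun q hq => ?_
  rw [mem_range] at hq
  rw [if_neg]
  rintro ⟨h1, h2⟩
  omega

lemma co_BB_one (n i0 j0 : ℕ) : co (i0 + j0) i0 (BB n i0 j0) = 1 := by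
  rw [co_BB, Finset.sum_eq_single 0, Finset.sum_eq_single j0]
  · rw [if_pos (by omega)]
    simp
  · intro q hq hne
    rw [mem_range] at hq
    rw [if_neg (by omega)]
  · intro h
    exact absurd (mem_range.mpr (by omega)) h
  · intro r _ hr
    refine Finset.sum_eq_zero fun q hq => ?_
    rw [mem_range] at hq
    rw [if_neg (by omega)]
  · intro h
    exact absurd (mem_range.mpr (by omega)) h

lemma co_FT_int {n : ℕ} (τ : Perm (Fin n)) (x y : ℕ) : co x y (FT τ) ∈ ZZ := by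
  unfold FT
  rw [co_sum]
  refine ZZ.sum_mem fun π _ => ?_
  rw [co_mono]
  split_ifs
  · exact ZZ.one_mem
  · exact ZZ.zero_mem

theorem GG_int {n : ℕ} (hn : 0 < n) (τ : Perm (Fin n)) :
    ∀ W i0 j0 : ℕ, (2 * i0 + j0) * (n + 3) + i0 = W → GG (n - 1) (dS τ + 1) i0 j0 ∈ ZZ := by
  have hk := dS_lt τ hn
  obtain ⟨p0, -⟩ := GG_props (n - 1) (dS τ + 1) (by omega) (by omega)
  have hF := FT_eq hn τ
  set g := GG (n - 1) (dS τ + 1) with hg
  intro W
  induction W using Nat.strong_induction_on with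
  | _ W ih =>
  intro i0 j0 hW
  rcases Nat.lt_or_ge (n + 1) (2 * i0 + j0) with h | h
  · rw [p0 i0 j0 (by omega)]
    exact ZZ.zero_mem
  have h1 := congrArg (co (i0 + j0) i0) hF
  rw [co_sum] at h1
  simp only [co_sum, co_κ] at h1
  rw [← Finset.sum_product'] at h1
  have hmem : (i0, j0) ∈ range (n + 3) ×ˢ range (n + 3) := by
    rw [mem_product, mem_range, mem_range]
    exact ⟨by omega, by omega⟩
  rw [← Finset.add_sum_erase _ _ hmem] at h1
  simp only at h1
  rw [co_BB_one, mul_one] at h1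
  have h2 : ∑ x ∈ (range (n + 3) ×ˢ range (n + 3)).erase (i0, j0),
      g x.1 x.2 * co (i0 + j0) i0 (BB n x.1 x.2) ∈ ZZ := by
    refine ZZ.sum_mem fun x hx => ?_
    rw [mem_erase, mem_product, mem_range, mem_range] at hx
    obtain ⟨hne, hx1, hx2⟩ := hx
    by_cases hc : 2 * i0 + j0 < 2 * x.1 + x.2 ∨ (2 * i0 + j0 = 2 * x.1 + x.2 ∧ i0 < x.1)
    · rw [co_BB_zero n _ _ _ _ hc, mul_zero]
      exact ZZ.zero_mem
    · apply ZZ.mul_mem _ (co_BB_int _ _ _ _ _)
      refine ih ((2 * x.1 + x.2) * (n + 3) + x.1) ?_ x.1 x.2 rfl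
      rw [← hW]
      push Not at hc
      rcases hc.1.lt_or_eq with h3 | h3
      · have h4 : (2 * x.1 + x.2 + 1) * (n + 3) ≤ (2 * i0 + j0) * (n + 3) :=
          Nat.mul_le_mul_right _ h3
        have h5 : (2 * x.1 + x.2 + 1) * (n + 3) = (2 * x.1 + x.2) * (n + 3) + (n + 3) := by ring
        omega
      · have h4 := hc.2 h3.symm
        have h5 : x.1 ≠ i0 := by
          intro h6
          apply hne
          apply Prod.ext
          · exact h6
          · simp only; omega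
        rw [h3]
        omega
  have h3 := ZZ.sub_mem (co_FT_int τ (i0 + j0) i0) h2
  rw [h1, add_sub_cancel_right] at h3
  exact h3

/-! ### Passage to polynomials and evaluation -/

/-- the embedding of polynomials into power series -/
noncomputable def ιι : Polynomial (Polynomial ℚ) →+* R2 :=
  (Polynomial.coeToPowerSeries.ringHom (R := PowerSeries ℚ)).comp
    (Polynomial.mapRingHom (Polynomial.coeToPowerSeries.ringHom (R := ℚ)))

lemma ιι_inj : Function.Injective ιι := by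
  unfold ιι
  rw [RingHom.coe_comp]
  apply Function.Injective.comp
  · intro a b h
    exact Polynomial.coe_injective _ h
  · rw [Polynomial.coe_mapRingHom]
    apply Polynomial.map_injective
    intro a b h
    exact Polynomial.coe_injective _ h

lemma ιι_X : ιι Polynomial.X = tv := by
  unfold ιι tv
  simp

lemma ιι_CX : ιι (Polynomial.C Polynomial.X) = sv := by
  unfold ιι sv
  simp

lemma ιι_CC (q : ℚ) : ιι (Polynomial.C (Polynomial.C q)) = κ q := by
  unfold ιι κ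
  simp

theorem eval_identity {n : ℕ} (hn : 0 < n) (τ : Perm (Fin n)) (s t : ℚ) :
    ∑ π : Perm (Fin n), s ^ (dS π + 1) * t ^ (dS (π⁻¹ * τ) + 1) =
    ∑ i ∈ range (n + 3), ∑ j ∈ range (n + 3), GG (n - 1) (dS τ + 1) i j *
      ((1 + s * t) ^ (n + 1 - 2 * i - j) * (s + t) ^ j * (s * t) ^ i) := by
  have h1 : (∑ π : Perm (Fin n), (Polynomial.C Polynomial.X : Polynomial (Polynomial ℚ)) ^ (dS π + 1) *
      Polynomial.X ^ (dS (π⁻¹ * τ) + 1)) =
      ∑ i ∈ range (n + 3), ∑ j ∈ range (n + 3),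
        Polynomial.C (Polynomial.C (GG (n - 1) (dS τ + 1) i j)) *
        ((1 + Polynomial.C Polynomial.X * Polynomial.X) ^ (n + 1 - 2 * i - j) *
          (Polynomial.C Polynomial.X + Polynomial.X) ^ j *
          (Polynomial.C Polynomial.X * Polynomial.X) ^ i) := by
    apply ιι_inj
    simp only [map_sum, map_mul, map_pow, map_add, map_one, ιι_X, ιι_CX, ιι_CC]
    exact FT_eq hn τ
  have h2 := congrArg ((Polynomial.evalRingHom s).comp (Polynomial.evalRingHom (Polynomial.C t))) h1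
  simp only [map_sum, map_mul, map_pow, map_add, map_one, RingHom.comp_apply,
    Polynomial.coe_evalRingHom, Polynomial.eval_X, Polynomial.eval_C] at h2
  exact h2

end Pool.Agent.V11169
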