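import Pool.Agent.V11169.Words

set_option autoImplicit false

namespace Pool.Agent.V11169

open Finset Equiv

variable {n : ℕ}

lemma lex_le (K a b a' b' : ℕ) (hb : b < K) (h : a < a' ∨ (a = a' ∧ b ≤ b')) :
    a * K + b ≤ a' * K + b' := by
  rcases h with h | ⟨h1, h2⟩
  · have h3 : (a + 1) * K ≤ a' * K := Nat.mul_le_mul_right K h
    rw [Nat.add_mul] at h3
    omega
  · rw [h1]; omega

/-- pairs (involution, colouring word) -/
noncomputable def PP (n K : ℕ) : Finset (Perm (Fin n) × (Fin n → ℕ)) :=
  open Classical in
  (univ ×ˢ (Fintype.piFinset fun _ => range K)).filter fun p =>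
    (∀ i, p.1 (p.1 i) = i) ∧ Monotone p.2 ∧ (∀ i j, i < j → p.2 i = p.2 j → p.1 i < p.1 j) ∧
    ∀ i, (p.2 (p.1 i) + p.2 i) % 2 = 0

/-- sorted words of pairs with symmetric content -/
noncomputable def ZP (n K : ℕ) : Finset (Fin n → ℕ) :=
  open Classical in
  (Fintype.piFinset fun _ => range (K * K)).filter fun z =>
    Monotone z ∧ cont (fun i => tr K (z i)) = cont z ∧ ∀ i, (z i / K + z i % K) % 2 = 0

lemma mem_PP (K : ℕ) (p : Perm (Fin n) × (Fin n → ℕ)) : p ∈ PP n K ↔ (∀ i, p.2 i < K) ∧
    (∀ i, p.1 (p.1 i) = i) ∧ Monotone p.2 ∧ (∀ i j, i < j → p.2 i = p.2 j → p.1 i < p.1 j) ∧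
    ∀ i, (p.2 (p.1 i) + p.2 i) % 2 = 0 := by
  unfold PP
  rw [mem_filter, mem_product, Fintype.mem_piFinset]
  simp only [mem_univ, true_and, mem_range]

lemma mem_ZP (K : ℕ) (z : Fin n → ℕ) : z ∈ ZP n K ↔ (∀ i, z i < K * K) ∧
    Monotone z ∧ cont (fun i => tr K (z i)) = cont z ∧ ∀ i, (z i / K + z i % K) % 2 = 0 := by
  unfold ZP
  rw [mem_filter, Fintype.mem_piFinset]
  simp only [mem_range]

lemma card_PP_eq (n K : ℕ) : (PP n K).card = (ZP n K).card := by
  refine Finset.card_bij (fun p _ => fun i => p.2 i * K + p.2 (p.1 i)) ?_ ?_ ?_
  · rintro ⟨f, g⟩ hp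
    rw [mem_PP] at hp
    obtain ⟨hK, hinv, hmono, htie, hpar⟩ := hp
    simp only at hK hinv hmono htie hpar ⊢
    rw [mem_ZP]
    refine ⟨fun i => pair_lt K _ _ (hK i) (hK _), ?_, ?_, ?_⟩
    · intro i j hij
      rcases hij.eq_or_lt with rfl | hlt
      · exact le_rfl
      · have h1 := hmono hij
        apply lex_le K _ _ _ _ (hK _)
        rcases h1.lt_or_eq with h2 | h2
        · exact Or.inl h2
        · exact Or.inr ⟨h2, hmono (htie i j hlt h2).le⟩
    · have : (fun i => tr K (g i * K + g (f i))) =
          fun i => (fun j => g j * K + g (f j)) (f i) := by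
        funext i
        rw [tr_pair K _ _ (hK i) (hK _)]
        simp only [hinv]
      rw [this]
      exact cont_comp (fun j => g j * K + g (f j)) f
    · intro i
      rw [pair_div K _ _ (hK _), pair_mod K _ _ (hK _), add_comm]
      exact hpar i
  · rintro ⟨f, g⟩ hp ⟨f', g'⟩ hp' heq
    rw [mem_PP] at hp hp'
    obtain ⟨hK, hinv, hmono, htie, hpar⟩ := hp
    obtain ⟨hK', hinv', hmono', htie', hpar'⟩ := hp'
    simp only at hK hinv hmono htie hpar hK' hinv' hmono' htie' hpar' heq
    have hg : g = g' := by
      funext i
      have h1 := congrFun heq i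
      have h2 := pair_div K (g i) (g (f i)) (hK _)
      have h3 := pair_div K (g' i) (g' (f' i)) (hK' _)
      rw [h1, h3] at h2
      exact h2.symm
    subst hg
    have hu : (fun i => g (f i)) = fun i => g (f' i) := by
      funext i
      have h1 := congrFun heq i
      omega
    have e1 : f = Tuple.sort (fun i => g (f i)) := by
      rw [Tuple.eq_sort_iff]
      refine ⟨?_, ?_⟩
      · intro i j hij
        simp only [Function.comp, hinv]
        exact hmono hij
      · intro i j hij h
        simp only [hinv] at h
        exact htie i j hij h
    have e2 : f' = Tuple.sort (fun i => g (f' i)) := by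
      rw [Tuple.eq_sort_iff]
      refine ⟨?_, ?_⟩
      · intro i j hij
        simp only [Function.comp, hinv']
        exact hmono' hij
      · intro i j hij h
        simp only [hinv'] at h
        exact htie' i j hij h
    rw [e1, e2, hu]
  · intro z hz
    rw [mem_ZP] at hz
    obtain ⟨hK, hmono, hsym, hpar⟩ := hz
    set g : Fin n → ℕ := fun i => z i / K with hg
    set u : Fin n → ℕ := fun i => z i % K with hu
    set f := Tuple.sort u with hf
    obtain ⟨hf1, hf2⟩ := Tuple.eq_sort_iff.mp hf
    have hgmono : Monotone g := fun i j hij => Nat.div_le_div_right (hmono hij)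
    have hcu : cont u = cont g := by
      rw [hu, ← cont_map z (fun x => x % K), ← hsym, cont_map, hg]
      congr 1
      funext i
      exact (tr_facts K _ (hK i)).2.2
    have huf : (fun i => u (f i)) = g := by
      apply mono_unique _ _ hf1 hgmono
      rw [← hcu]
      exact cont_comp u f
    have hz' : (fun i => tr K (z (f i))) = z := by
      apply mono_unique _ _ _ hmono
      · rw [← hsym]
        exact cont_comp (fun i => tr K (z i)) f
      · intro i j hij
        rcases hij.eq_or_lt with rfl | hlt
        · exact le_rfl
        · have k0 : 0 < K := by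
            rcases Nat.eq_zero_or_pos K with h | h
            · have := hK i
              rw [h] at this
              omega
            · exact h
          have b1 : z (f i) / K < K := (Nat.div_lt_iff_lt_mul k0).mpr (hK _)
          have t1 : tr K (z (f i)) = (z (f i) % K) * K + z (f i) / K := by
            rw [tr, if_pos (hK _)]
          have t2 : tr K (z (f j)) = (z (f j) % K) * K + z (f j) / K := by
            rw [tr, if_pos (hK _)]
          simp only
          rw [t1, t2]
          apply lex_le K _ _ _ _ b1
          have h1 : u (f i) ≤ u (f j) := hf1 hij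
          rcases h1.lt_or_eq with h2 | h2
          · exact Or.inl h2
          · exact Or.inr ⟨h2, hgmono (hf2 i j hlt h2).le⟩
    have hgf : ∀ i, g (f i) = u i := by
      intro i
      have h1 := congrFun hz' i
      have h2 := (tr_facts K _ (hK (f i))).2.2
      rw [h1] at h2
      exact h2.symm
    have hinv : ∀ i, f (f i) = i := by
      have h1 : f.symm = Tuple.sort u := by
        rw [Tuple.eq_sort_iff]
        have hui : ∀ i, u (f.symm i) = g i := by
          intro i
          rw [← hgf, apply_symm_apply]
        refine ⟨?_, ?_⟩
        · intro i j hij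
          simp only [Function.comp, hui]
          exact hgmono hij
        · intro i j hij h
          rw [hui, hui] at h
          -- `g i = g j`
          have hne : f.symm i ≠ f.symm j := fun hc => hij.ne (f.symm.injective hc)
          rcases lt_or_gt_of_ne hne with h3 | h3
          · exact h3
          · exfalso
            have h4 : z i ≤ z j := hmono hij.le
            have h5 : u i ≤ u j := by
              have e1 := Nat.div_add_mod (z i) K
              have e2 := Nat.div_add_mod (z j) K
              have e3 : z i / K = z j / K := h
              show z i % K ≤ z j % K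
              rw [e3] at e1
              generalize K * (z j / K) = q at e1 e2
              omega
            -- values at `f.symm j < f.symm i`
            have h6 : g (f.symm j) ≤ g (f.symm i) := hgmono h3.le
            rcases h6.lt_or_eq with h7 | h7
            · rw [← huf] at h7
              simp only [apply_symm_apply] at h7
              omega
            · have h8 : u (f (f.symm j)) = u (f (f.symm i)) := by
                have a1 := congrFun huf (f.symm j)
                have a2 := congrFun huf (f.symm i)
                rw [a1, a2, h7]
              have h9 := hf2 _ _ h3 h8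
              rw [apply_symm_apply, apply_symm_apply] at h9
              exact absurd hij (not_lt.mpr h9.le)
      intro i
      have h2 : f.symm = f := h1
      have h3 : f.symm (f i) = f (f i) := by rw [h2]
      rw [← h3]
      exact symm_apply_apply f i
    refine ⟨(f, g), ?_, ?_⟩
    · rw [mem_PP]
      refine ⟨fun i => ?_, hinv, hgmono, ?_, ?_⟩
      · have k0 : 0 < K := by
          rcases Nat.eq_zero_or_pos K with h | h
          · have := hK i
            rw [h] at this
            omega
          · exact h
        exact (Nat.div_lt_iff_lt_mul k0).mpr (hK _)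
      · intro i j hij h
        apply hf2 i j hij
        have a1 := congrFun huf i
        have a2 := congrFun huf j
        simp only at a1 a2 h
        rw [a1, a2, h]
      · intro i
        simp only
        rw [hgf, add_comm]
        exact hpar i
    · funext i
      simp only
      rw [hgf, mul_comm]
      exact Nat.div_add_mod (z i) K

end Pool.Agent.V11169
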