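import Pool.Agent.V11169.InvB1

set_option autoImplicit false

namespace Pool.Agent.V11169

open Finset Equiv

variable {n : ℕ}

/-- kinds of cells -/
def SK (K : ℕ) : Finset (ℕ × ℕ) :=
  (range K ×ˢ range K).filter fun p => p.1 ≤ p.2 ∧ (p.1 + p.2) % 2 = 0

/-- weight of a kind -/
def wt (p : ℕ × ℕ) : ℕ := if p.1 = p.2 then 1 else 2

lemma wt_pos (p : ℕ × ℕ) : 0 < wt p := by unfold wt; split_ifs <;> norm_num

lemma mem_SK (K : ℕ) (p : ℕ × ℕ) : p ∈ SK K ↔ (p.1 < K ∧ p.2 < K) ∧ p.1 ≤ p.2 ∧
    (p.1 + p.2) % 2 = 0 := by
  unfold SK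
  rw [mem_filter, mem_product, mem_range, mem_range]

/-- sum over all cells of a symmetric function supported on cells of even parity -/
lemma sum_cells (K : ℕ) (c : ℕ × ℕ → ℕ) (hsym : ∀ a b, a < K → b < K → c (a, b) = c (b, a))
    (hpar : ∀ a b, a < K → b < K → (a + b) % 2 ≠ 0 → c (a, b) = 0) :
    ∑ p ∈ range K ×ˢ range K, c p = ∑ p ∈ SK K, wt p * c p := by
  have h1 : ∑ p ∈ SK K, wt p * c p = ∑ p ∈ range K ×ˢ range K,
      ((if p.1 = p.2 then c p else 0) + 2 * (if p.1 < p.2 then c p else 0)) := by
    unfold SK
    rw [Finset.sum_filter]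
    refine Finset.sum_congr rfl fun p hp => ?_
    rw [mem_product, mem_range, mem_range] at hp
    obtain ⟨a, b⟩ := p
    simp only at hp ⊢
    unfold wt
    simp only
    rcases lt_trichotomy a b with h | h | h
    · by_cases h2 : (a + b) % 2 = 0
      · rw [if_pos ⟨h.le, h2⟩, if_neg h.ne, if_neg h.ne, if_pos h]; omega
      · rw [if_neg (fun hh => h2 hh.2), if_neg h.ne, if_pos h, hpar a b hp.1 hp.2 h2]
        simp
    · subst h
      have h2 : (a + a) % 2 = 0 := by omega
      rw [if_pos ⟨le_rfl, h2⟩, if_pos rfl, if_pos rfl, if_neg (lt_irrefl _)]; omega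
    · rw [if_neg (fun hh => absurd hh.1 (not_le.mpr h)), if_neg h.ne', if_neg (not_lt.mpr h.le)]
      simp
  have h2 : ∑ p ∈ range K ×ˢ range K, (if p.1 < p.2 then c p else 0) =
      ∑ p ∈ range K ×ˢ range K, (if p.2 < p.1 then c p else 0) := by
    refine Finset.sum_bij' (fun p _ => p.swap) (fun p _ => p.swap) ?_ ?_ ?_ ?_ ?_
    · intro p hp; rw [mem_product] at hp ⊢; exact ⟨hp.2, hp.1⟩
    · intro p hp; rw [mem_product] at hp ⊢; exact ⟨hp.2, hp.1⟩
    · intro p _; exact Prod.swap_swap p
    · intro p _; exact Prod.swap_swap p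
    · rintro ⟨a, b⟩ hp
      rw [mem_product, mem_range, mem_range] at hp
      simp only [Prod.swap]
      rw [hsym a b hp.1 hp.2]
  rw [h1, Finset.sum_add_distrib, ← Finset.mul_sum, two_mul]
  nth_rewrite 2 [h2]
  rw [← Finset.sum_add_distrib, ← Finset.sum_add_distrib]
  refine Finset.sum_congr rfl fun p _ => ?_
  rcases lt_trichotomy p.1 p.2 with h | h | h
  · rw [if_neg h.ne, if_pos h, if_neg (not_lt.mpr h.le)]; omega
  · rw [if_pos h, if_neg (by omega), if_neg (by omega)]; omega
  · rw [if_neg h.ne', if_neg (not_lt.mpr h.le), if_pos h]; omega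

lemma sum_range_sq (K : ℕ) (F : ℕ → ℕ) :
    ∑ x ∈ range (K * K), F x = ∑ p ∈ range K ×ˢ range K, F (p.1 * K + p.2) := by
  have : ∀ V, ∑ x ∈ range (V * K), F x = ∑ v ∈ range V, ∑ k ∈ range K, F (v * K + k) := by
    intro V
    induction V with
    | zero => simp
    | succ V ih => rw [Nat.succ_mul, Finset.sum_range_add, ih, Finset.sum_range_succ]
  rw [this K, Finset.sum_product]

lemma sum_cont (N : ℕ) (z : Fin n → ℕ) (hz : ∀ i, z i < N) : ∑ x ∈ range N, cont z x = n := by
  simp only [cont_apply]
  rw [← Finset.card_biUnion]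
  · have : ((range N).biUnion fun x => univ.filter fun i => z i = x) = univ := by
      ext i
      simp only [mem_biUnion, mem_range, mem_filter, mem_univ, true_and, iff_true]
      exact ⟨z i, hz i, rfl⟩
    rw [this, card_univ, Fintype.card_fin]
  · intro x _ y _ hxy
    rw [Function.onFun, Finset.disjoint_left]
    intro i h1 h2
    rw [mem_filter] at h1 h2
    exact hxy (h1.2.symm.trans h2.2)

lemma cont_zero (z : Fin n → ℕ) (x : ℕ) (h : ∀ i, z i ≠ x) : cont z x = 0 := by
  rw [cont_apply, Finset.card_eq_zero, Finset.filter_eq_empty_iff]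
  intro i _; exact h i

lemma cont_ne_zero (z : Fin n → ℕ) (i : Fin n) : cont z (z i) ≠ 0 := by
  rw [cont_apply]
  apply Finset.card_ne_zero_of_mem (a := i)
  rw [mem_filter]; exact ⟨mem_univ _, rfl⟩

lemma cont_tr (K : ℕ) (z : Fin n → ℕ) (x : ℕ) :
    cont (fun i => tr K (z i)) x = cont z (tr K x) := by
  rw [cont_apply, cont_apply]
  congr 1
  ext i
  simp only [mem_filter, mem_univ, true_and]
  constructor
  · intro h; rw [← h, tr_tr]
  · intro h; rw [h, tr_tr]

/-- multiplicities of the kinds -/
noncomputable def lz (K : ℕ) (z : Fin n → ℕ) : ℕ × ℕ →₀ ℕ :=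
  Finsupp.onFinset (SK K) (fun p => if p ∈ SK K then wt p * cont z (p.1 * K + p.2) else 0)
    (fun p hp => by by_contra h; rw [if_neg h] at hp; exact hp rfl)

lemma lz_apply (K : ℕ) (z : Fin n → ℕ) (p : ℕ × ℕ) :
    lz K z p = if p ∈ SK K then wt p * cont z (p.1 * K + p.2) else 0 := rfl

lemma card_ZP (n K : ℕ) : (ZP n K).card =
    ((finsuppAntidiag (SK K) n).filter fun l => ∀ p ∈ SK K, wt p ∣ l p).card := by
  refine Finset.card_bij (fun z _ => lz K z) ?_ ?_ ?_
  · intro z hz
    rw [mem_ZP] at hz
    obtain ⟨hK, hmono, hsym, hpar⟩ := hz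
    rw [mem_filter, mem_finsuppAntidiag]
    refine ⟨⟨?_, ?_⟩, ?_⟩
    · have h1 := sum_cells K (fun p => cont z (p.1 * K + p.2)) (by
        intro a b ha hb
        simp only
        conv_lhs => rw [← hsym]
        rw [cont_tr, tr_pair K a b ha hb]) (by
        intro a b ha hb hab
        simp only
        apply cont_zero
        intro i hi
        have h2 := hpar i
        rw [hi, pair_div K a b hb, pair_mod K a b hb] at h2
        exact hab h2)
      have h2 := sum_cont (K * K) z hK
      rw [sum_range_sq, h1] at h2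
      conv_rhs => rw [← h2]
      refine Finset.sum_congr rfl fun p hp => ?_
      rw [lz_apply, if_pos hp]
    · intro p hp
      rw [Finsupp.mem_support_iff, lz_apply] at hp
      by_contra h
      rw [if_neg h] at hp
      exact hp rfl
    · intro p hp
      rw [lz_apply, if_pos hp]
      exact dvd_mul_right _ _
  · intro z hz z' hz' heq
    rw [mem_ZP] at hz hz'
    obtain ⟨hK, hmono, hsym, hpar⟩ := hz
    obtain ⟨hK', hmono', hsym', hpar'⟩ := hz'
    apply mono_unique _ _ hmono hmono'
    have key : ∀ a b, a < K → b < K → a ≤ b → cont z (a * K + b) = cont z' (a * K + b) := by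
      intro a b ha hb hab
      by_cases h2 : (a + b) % 2 = 0
      · have hS : (a, b) ∈ SK K := by
          rw [mem_SK]; exact ⟨⟨ha, hb⟩, hab, h2⟩
        have h3 := DFunLike.congr_fun heq (a, b)
        rw [lz_apply, lz_apply, if_pos hS, if_pos hS] at h3
        exact Nat.eq_of_mul_eq_mul_left (wt_pos _) h3
      · rw [cont_zero z, cont_zero z']
        · intro i hi
          have h3 := hpar' i
          rw [hi, pair_div K a b hb, pair_mod K a b hb] at h3
          exact h2 h3
        · intro i hi
          have h3 := hpar i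
          rw [hi, pair_div K a b hb, pair_mod K a b hb] at h3
          exact h2 h3
    ext x
    by_cases hx : x < K * K
    · have hk0 : 0 < K := by
        rcases Nat.eq_zero_or_pos K with h | h
        · rw [h] at hx; omega
        · exact h
      have ha : x / K < K := (Nat.div_lt_iff_lt_mul hk0).mpr hx
      have hb : x % K < K := Nat.mod_lt x hk0
      have hxe : x = x / K * K + x % K := by
        rw [mul_comm]; exact (Nat.div_add_mod x K).symm
      rcases le_total (x / K) (x % K) with h | h
      · rw [hxe]; exact key _ _ ha hb h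
      · rw [← hsym, ← hsym', cont_tr, cont_tr]
        have : tr K x = x % K * K + x / K := by rw [tr, if_pos hx]
        rw [this]
        exact key _ _ hb ha h
    · rw [cont_zero z, cont_zero z']
      · intro i hi; exact hx (hi ▸ hK' i)
      · intro i hi; exact hx (hi ▸ hK i)
  · intro l hl
    rw [mem_filter, mem_finsuppAntidiag] at hl
    obtain ⟨⟨hsum, hsupp⟩, hdvd⟩ := hl
    -- the symmetric content
    let c : ℕ × ℕ → ℕ := fun p => if p.1 ≤ p.2 then l p / wt p else l p.swap / wt p.swap
    have hcsym : ∀ a b, c (a, b) = c (b, a) := by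
      intro a b
      simp only [c, Prod.swap]
      rcases lt_trichotomy a b with h | h | h
      · rw [if_pos h.le, if_neg (not_le.mpr h)]
      · rw [h]
      · rw [if_neg (not_le.mpr h), if_pos h.le]
    have hl0 : ∀ p, p ∉ SK K → l p = 0 := by
      intro p hp
      by_contra h
      exact hp (hsupp (Finsupp.mem_support_iff.mpr h))
    have hcS : ∀ p ∈ SK K, wt p * c p = l p := by
      intro p hp
      have h1 := (mem_SK K p).mp hp
      simp only [c]
      rw [if_pos h1.2.1]
      exact Nat.mul_div_cancel' (hdvd p hp)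
    have hcpar : ∀ a b, (a + b) % 2 ≠ 0 → c (a, b) = 0 := by
      intro a b hab
      simp only [c, Prod.swap]
      split_ifs with h
      · rw [hl0 (a, b) (by rw [mem_SK]; tauto)]; simp
      · rw [hl0 (b, a) (by
          rw [mem_SK]
          intro h2
          exact hab (by
            have := h2.2.2
            simp only at this
            omega))]; simp
    let a : ℕ →₀ ℕ := Finsupp.onFinset (range (K * K))
      (fun x => if x < K * K then c (x / K, x % K) else 0)
      (fun x hx => by
        rw [mem_range]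
        by_contra h
        rw [if_neg h] at hx
        exact hx rfl)
    have ha : ∀ x, a x = if x < K * K then c (x / K, x % K) else 0 := fun x => rfl
    have hatot : (a.sum fun _ c => c) = n := by
      have h1 : (a.sum fun _ c => c) = ∑ x ∈ range (K * K), a x := by
        unfold Finsupp.sum
        apply Finset.sum_subset
        · intro x hx
          rw [Finsupp.mem_support_iff, ha] at hx
          rw [mem_range]
          by_contra h
          rw [if_neg h] at hx
          exact hx rfl
        · intro x _ hx
          rwa [Finsupp.notMem_support_iff] at hx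
      rw [h1, sum_range_sq]
      have h2 : ∑ p ∈ range K ×ˢ range K, a (p.1 * K + p.2) = ∑ p ∈ range K ×ˢ range K, c p := by
        refine Finset.sum_congr rfl fun p hp => ?_
        rw [mem_product, mem_range, mem_range] at hp
        rw [ha, if_pos (pair_lt K _ _ hp.1 hp.2), pair_div K _ _ hp.2, pair_mod K _ _ hp.2]
      rw [h2, sum_cells K c (fun a b _ _ => hcsym a b) (fun a b _ _ => hcpar a b), ← hsum]
      exact Finset.sum_congr rfl hcS
    obtain ⟨z, hz1, hz2⟩ := exists_word n a hatot
    have hzK : ∀ i, z i < K * K := by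
      intro i
      by_contra h
      have := cont_ne_zero z i
      rw [hz2, ha, if_neg h] at this
      exact this rfl
    refine ⟨z, ?_, ?_⟩
    · rw [mem_ZP]
      refine ⟨hzK, hz1, ?_, ?_⟩
      · ext x
        rw [cont_tr, hz2, ha, ha]
        by_cases hx : x < K * K
        · obtain ⟨t1, t2, t3⟩ := tr_facts K x hx
          rw [if_pos hx, if_pos t1, t2, t3]
          exact hcsym _ _
        · have : tr K x = x := by rw [tr, if_neg hx]
          rw [this]
      · intro i
        by_contra h
        have h1 := cont_ne_zero z i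
        rw [hz2, ha, if_pos (hzK i), hcpar _ _ h] at h1
        exact h1 rfl
    · ext p
      rw [lz_apply]
      by_cases hp : p ∈ SK K
      · have h1 := (mem_SK K p).mp hp
        rw [if_pos hp, hz2, ha, if_pos (pair_lt K _ _ h1.1.1 h1.1.2), pair_div K _ _ h1.1.2,
          pair_mod K _ _ h1.1.2]
        exact hcS p hp
      · rw [if_neg hp, hl0 p hp]

/-! ### The product formula -/

open PowerSeries in
/-- the geometric series in `X ^ w` -/
noncomputable def geo (w : ℕ) : PowerSeries ℤ := PowerSeries.mk fun l => if w ∣ l then 1 else 0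

lemma card_ZP_coeff (n K : ℕ) : ((ZP n K).card : ℤ) =
    PowerSeries.coeff n (∏ p ∈ SK K, geo (wt p)) := by
  rw [card_ZP, PowerSeries.coeff_prod, Finset.card_filter]
  push_cast
  refine Finset.sum_congr rfl fun l _ => ?_
  unfold geo
  simp only [PowerSeries.coeff_mk]
  rw [Finset.prod_ite_zero]
  simp

lemma card_lt_par (b : ℕ) : ((range b).filter fun a => (a + b) % 2 = 0).card = b / 2 := by
  have key : ∀ b, ((range b).filter fun a => (a + b) % 2 = 0).card = b / 2 ∧
      ((range b).filter fun a => (a + b) % 2 = 1).card = (b + 1) / 2 := by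
    intro b
    induction b with
    | zero => simp
    | succ b ih =>
      have h1 : ((range (b + 1)).filter fun a => (a + (b + 1)) % 2 = 0) =
          (range b).filter fun a => (a + b) % 2 = 1 := by
        ext a
        simp only [mem_filter, mem_range]
        omega
      have h2 : ((range (b + 1)).filter fun a => (a + (b + 1)) % 2 = 1) =
          insert b ((range b).filter fun a => (a + b) % 2 = 0) := by
        ext a
        simp only [mem_filter, mem_range, mem_insert]
        omega
      rw [h1, h2, card_insert_of_notMem (by simp)]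
      omega
  exact (key b).1

lemma sum_half (m : ℕ) : ∑ b ∈ range (2 * m + 1), b / 2 = m * m := by
  induction m with
  | zero => simp
  | succ m ih =>
    rw [show 2 * (m + 1) + 1 = 2 * m + 1 + 1 + 1 by ring, Finset.sum_range_succ,
      Finset.sum_range_succ, ih]
    have h1 : (2 * m + 1) / 2 = m := by omega
    have h2 : (2 * m + 1 + 1) / 2 = m + 1 := by omega
    rw [h1, h2]; ring

lemma prod_SK (K : ℕ) : ∏ p ∈ SK K, geo (wt p) =
    geo 1 ^ K * geo 2 ^ (∑ b ∈ range K, b / 2) := by
  unfold SK
  rw [Finset.prod_filter, Finset.prod_product_right]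
  have h1 : ∀ b ∈ range K, (∏ a ∈ range K, if (a, b).1 ≤ (a, b).2 ∧ ((a, b).1 + (a, b).2) % 2 = 0
      then geo (wt (a, b)) else 1) = geo 1 * geo 2 ^ (b / 2) := by
    intro b hb
    rw [mem_range] at hb
    rw [← Finset.prod_filter]
    have h2 : ((range K).filter fun a => (a, b).1 ≤ (a, b).2 ∧ ((a, b).1 + (a, b).2) % 2 = 0) =
        insert b ((range b).filter fun a => (a + b) % 2 = 0) := by
      ext a
      simp only [mem_filter, mem_range, mem_insert]
      omega
    rw [h2, Finset.prod_insert (by simp)]
    have h3 : wt (b, b) = 1 := by unfold wt; simp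
    rw [h3]
    congr 1
    rw [← card_lt_par b, ← Finset.prod_const]
    refine Finset.prod_congr rfl fun a ha => ?_
    rw [mem_filter, mem_range] at ha
    have h4 : wt (a, b) = 2 := by unfold wt; rw [if_neg]; simp only; omega
    rw [h4]
  rw [Finset.prod_congr rfl h1, Finset.prod_mul_distrib, Finset.prod_const, card_range,
    Finset.prod_pow_eq_pow_sum]

/-- The number of pairs with `2m+1` colours. -/
theorem card_PP (n m : ℕ) : ((PP n (2 * m + 1)).card : ℤ) =
    PowerSeries.coeff n (geo 1 ^ (2 * m + 1) * geo 2 ^ (m * m)) := by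
  rw [card_PP_eq, card_ZP_coeff, prod_SK, sum_half]

end Pool.Agent.V11169
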