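import Pool.Agent.V11169.InvB2

set_option autoImplicit false

namespace Pool.Agent.V11169

open Finset Equiv

/-! ### Counting weakly increasing words with prescribed strict increases -/

theorem card_strictMono (n M : ℕ) :
    (Finset.univ.filter (fun f : Fin n → Fin M => StrictMono f)).card = M.choose n := by
  classical
  have h0 : M.choose n = (Finset.powersetCard n (Finset.univ : Finset (Fin M))).card := by
    rw [Finset.card_powersetCard, Finset.card_fin]
  rw [h0]
  refine Finset.card_bij (fun f _ => Finset.univ.image f) ?_ ?_ ?_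
  · intro f hf
    simp only [Finset.mem_filter, Finset.mem_univ, true_and] at hf
    simp [Finset.mem_powersetCard, Finset.card_image_of_injective _ hf.injective]
  · intro f hf g hg h
    simp only [Finset.mem_filter, Finset.mem_univ, true_and] at hf hg
    have h2 : Set.range f = Set.range g := by
      have := congrArg (fun s : Finset (Fin M) => (s : Set (Fin M))) h
      simpa using this
    exact (StrictMono.range_inj hf hg).1 h2
  · intro s hs
    rw [Finset.mem_powersetCard] at hs
    refine ⟨s.orderEmbOfFin hs.2, ?_, ?_⟩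
    · simp [OrderEmbedding.strictMono]
    · apply Finset.coe_injective
      rw [Finset.coe_image, Finset.coe_univ, Set.image_univ, Finset.range_orderEmbOfFin]

/-- words `0 ≤ g_0 ≤ … ≤ g_{n-1} ≤ m` with strict increases at the gaps in `D` -/
def GC (n : ℕ) (D : Finset ℕ) (m : ℕ) : Finset (Fin n → ℕ) :=
  (Fintype.piFinset fun _ => range (m + 1)).filter fun g =>
    (∀ h : 0 < n, 0 ∈ D → 0 < g ⟨0, h⟩) ∧
    ∀ i : Fin n, ∀ h : (i : ℕ) + 1 < n, g i ≤ g ⟨i + 1, h⟩ ∧ ((i : ℕ) + 1 ∈ D → g i < g ⟨i + 1, h⟩)

lemma mem_GC (n : ℕ) (D : Finset ℕ) (m : ℕ) (g : Fin n → ℕ) : g ∈ GC n D m ↔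
    (∀ i, g i ≤ m) ∧ (∀ h : 0 < n, 0 ∈ D → 0 < g ⟨0, h⟩) ∧
    ∀ (i : ℕ) (h : i + 1 < n), g ⟨i, Nat.lt_of_succ_lt h⟩ ≤ g ⟨i + 1, h⟩ ∧
      (i + 1 ∈ D → g ⟨i, Nat.lt_of_succ_lt h⟩ < g ⟨i + 1, h⟩) := by
  unfold GC
  rw [mem_filter, Fintype.mem_piFinset]
  simp only [mem_range, Nat.lt_succ_iff]
  constructor
  · rintro ⟨h1, h2, h3⟩
    exact ⟨h1, h2, fun i h => h3 ⟨i, Nat.lt_of_succ_lt h⟩ h⟩
  · rintro ⟨h1, h2, h3⟩
    exact ⟨h1, h2, fun i h => h3 i h⟩

/-- number of gaps in `D` up to `i` -/
def bD (D : Finset ℕ) (i : ℕ) : ℕ := (D.filter fun j => j ≤ i).card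

lemma bD_zero (D : Finset ℕ) : bD D 0 = if 0 ∈ D then 1 else 0 := by
  unfold bD
  split_ifs with h
  · have : (D.filter fun j => j ≤ 0) = {0} := by
      ext j
      simp only [mem_filter, mem_singleton]
      constructor
      · rintro ⟨_, h2⟩; omega
      · rintro rfl; exact ⟨h, le_rfl⟩
    rw [this, card_singleton]
  · rw [Finset.card_eq_zero, Finset.filter_eq_empty_iff]
    intro j hj hj2
    have : j = 0 := by omega
    subst this; exact h hj

lemma bD_succ (D : Finset ℕ) (i : ℕ) : bD D (i + 1) = bD D i + if i + 1 ∈ D then 1 else 0 := by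
  unfold bD
  split_ifs with h
  · have : (D.filter fun j => j ≤ i + 1) = insert (i + 1) (D.filter fun j => j ≤ i) := by
      ext j
      simp only [mem_filter, mem_insert]
      constructor
      · rintro ⟨h1, h2⟩
        rcases Nat.lt_or_ge i j with h3 | h3
        · left; omega
        · right; exact ⟨h1, h3⟩
      · rintro (rfl | ⟨h1, h2⟩)
        · exact ⟨h, le_rfl⟩
        · exact ⟨h1, by omega⟩
    rw [this, card_insert_of_notMem (by simp)]
  · rw [add_zero]
    congr 1
    ext j
    simp only [mem_filter]
    constructor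
    · rintro ⟨h1, h2⟩
      refine ⟨h1, ?_⟩
      rcases Nat.lt_or_ge i j with h3 | h3
      · exfalso; have : j = i + 1 := by omega
        subst this; exact h h1
      · exact h3
    · rintro ⟨h1, h2⟩
      exact ⟨h1, by omega⟩

lemma bD_last (D : Finset ℕ) (N : ℕ) (hD : D ⊆ range (N + 1)) : bD D N = D.card := by
  unfold bD
  congr 1
  rw [Finset.filter_eq_self]
  intro j hj
  have := mem_range.mp (hD hj)
  omega

lemma card_GC (n : ℕ) (D : Finset ℕ) (hD : D ⊆ range n) (m : ℕ) :
    (GC n D m).card = (m + n - D.card).choose n := by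
  rcases Nat.eq_zero_or_pos n with h0 | h0
  · subst h0
    have : GC 0 D m = univ := by
      ext g
      rw [mem_GC]
      simp only [mem_univ, iff_true]
      exact ⟨fun i => i.elim0, fun h => absurd h (lt_irrefl 0), fun i h => by omega⟩
    rw [this]
    simp
  obtain ⟨N, rfl⟩ : ∃ N, n = N + 1 := ⟨n - 1, by omega⟩
  rw [← card_strictMono]
  -- facts on admissible words
  have hg : ∀ g ∈ GC (N + 1) D m, (∀ (i : ℕ) (h : i < N + 1), bD D i ≤ g ⟨i, h⟩ + i) ∧
      ∀ (i : ℕ) (h : i + 1 < N + 1), g ⟨i, by omega⟩ + i - bD D i <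
        g ⟨i + 1, h⟩ + (i + 1) - bD D (i + 1) := by
    intro g hg
    rw [mem_GC] at hg
    obtain ⟨h1, h2, h3⟩ := hg
    have key : ∀ (i : ℕ) (h : i < N + 1), bD D i ≤ g ⟨i, h⟩ + i := by
      intro i
      induction i with
      | zero =>
        intro h
        rw [bD_zero]
        split_ifs with h4
        · have := h2 h h4; omega
        · omega
      | succ i ih =>
        intro h
        have h5 := ih (by omega)
        obtain ⟨h6, h7⟩ := h3 i h
        rw [bD_succ]
        split_ifs with h4
        · have := h7 h4; omega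
        · omega
    refine ⟨key, ?_⟩
    intro i h
    have h5 := key i (by omega)
    obtain ⟨h6, h7⟩ := h3 i h
    rw [bD_succ]
    split_ifs with h4
    · have := h7 h4; omega
    · omega
  have hstrict : ∀ (u : Fin (N + 1) → ℕ), (∀ (i : ℕ) (h : i + 1 < N + 1),
      u ⟨i, by omega⟩ < u ⟨i + 1, h⟩) → StrictMono u := by
    intro u hu
    rw [Fin.strictMono_iff_lt_succ]
    intro l
    exact hu l (by omega)
  have hlast := bD_last D N hD
  refine Finset.card_bij (fun g hgm => fun i => (⟨g i + i - bD D i, ?_⟩ : Fin (m + (N + 1) - D.card)))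
    ?_ ?_ ?_
  · obtain ⟨h1, h2⟩ := hg g hgm
    have h3 := hstrict (fun i => g i + i - bD D i) h2
    have h4 := h3.monotone (Fin.le_last i)
    have h5 : g (Fin.last N) ≤ m := ((mem_GC _ _ _ _).mp hgm).1 _
    have h6 : D.card ≤ g (Fin.last N) + N := by
      rw [← hlast]; exact h1 N (by omega)
    simp only [Fin.val_last, hlast] at h4
    omega
  · intro g hgm
    rw [mem_filter]
    refine ⟨mem_univ _, ?_⟩
    obtain ⟨h1, h2⟩ := hg g hgm
    have h3 := hstrict (fun i => g i + i - bD D i) h2
    intro i j hij
    exact h3 hij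
  · intro g hgm g' hgm' heq
    funext i
    have h1 := congrFun heq i
    simp only [Fin.mk.injEq] at h1
    have h2 := (hg g hgm).1 i i.2
    have h3 := (hg g' hgm').1 i i.2
    simp only [Fin.eta] at h2 h3
    omega
  · intro s hs
    rw [mem_filter] at hs
    have hs := hs.2
    have hstep : ∀ (i : ℕ) (h : i + 1 < N + 1), (s ⟨i, by omega⟩ : ℕ) < s ⟨i + 1, h⟩ := by
      intro i h
      exact hs (by
        show i < i + 1
        omega)
    have hlow : ∀ (i : ℕ) (h : i < N + 1), i ≤ (s ⟨i, h⟩ : ℕ) := by
      intro i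
      induction i with
      | zero => intro h; omega
      | succ i ih =>
        intro h
        have h1 := ih (by omega)
        have h2 := hstep i h
        omega
    have hup : ∀ (k i : ℕ) (h : i + k < N + 1),
        (s ⟨i, by omega⟩ : ℕ) + k ≤ s ⟨i + k, h⟩ := by
      intro k
      induction k with
      | zero => intro i h; simp
      | succ k ih =>
        intro i h
        have h1 := ih i (by omega)
        have h2 := hstep (i + k) (by omega)
        have h3 : (s ⟨i + (k + 1), h⟩ : ℕ) = s ⟨i + k + 1, by omega⟩ := rfl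
        omega
    have hbm : ∀ i, bD D i ≤ D.card := by
      intro i
      unfold bD
      exact card_filter_le _ _
    refine ⟨fun i => s i + bD D i - i, ?_, ?_⟩
    · rw [mem_GC]
      refine ⟨?_, ?_, ?_⟩
      · intro i
        have h1 := hup (N - i) i (by have := i.2; omega)
        have h2 := (s ⟨(i : ℕ) + (N - i), by have := i.2; omega⟩).2
        have h3 := hbm i
        have h4 := hlow i i.2
        have h5 := i.2
        simp only [Fin.eta] at h1 h4
        omega
      · intro h h4
        have : bD D 0 = 1 := by rw [bD_zero, if_pos h4]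
        simp only
        omega
      · intro i h
        have h1 := hstep i h
        have h2 := hlow i (by omega)
        have h3 := hlow (i + 1) h
        simp only
        rw [bD_succ]
        split_ifs with h4
        · constructor
          · omega
          · intro _; omega
        · constructor
          · omega
          · intro h5; exact absurd h5 h4
    · funext i
      apply Fin.ext
      have h2 := hlow i i.2
      simp only [Fin.eta] at h2 ⊢
      omega

/-! ### Signed involutions and their `<_r`-descents -/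

variable {n : ℕ}

/-- signed involutions -/
def WI (n : ℕ) : Finset (Perm (Fin n) × (Fin n → Bool)) :=
  univ.filter fun w => ∀ i : Fin n, w.1 (w.1 i) = i ∧ w.2 (w.1 i) = w.2 i

/-- the gap `i | i+1` is a descent with respect to the order `-1 < -2 < … < 0 < 1 < 2 < …` -/
def dAdj (w : Perm (Fin n) × (Fin n → Bool)) (i j : Fin n) : Prop :=
  (w.2 i = w.2 j ∧ w.1 j < w.1 i) ∨ (w.2 i = false ∧ w.2 j = true)

/-- the descents with respect to the order `-1 < -2 < … < 0 < 1 < 2 < …` -/
noncomputable def DL (w : Perm (Fin n) × (Fin n → Bool)) : Finset ℕ :=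
  open Classical in
  (range n).filter fun j => (j = 0 ∧ ∃ h : 0 < n, w.2 ⟨0, h⟩ = true) ∨
    ∃ (i : ℕ) (h : i + 1 < n), j = i + 1 ∧ dAdj w ⟨i, Nat.lt_of_succ_lt h⟩ ⟨i + 1, h⟩

lemma zero_mem_DL (w : Perm (Fin n) × (Fin n → Bool)) (h : 0 < n) :
    0 ∈ DL w ↔ w.2 ⟨0, h⟩ = true := by
  classical
  unfold DL
  rw [mem_filter, mem_range]
  constructor
  · rintro ⟨_, ⟨_, _, h2⟩ | ⟨i, _, h2, _⟩⟩
    · exact h2
    · omega
  · intro h2
    exact ⟨h, Or.inl ⟨rfl, h, h2⟩⟩

lemma succ_mem_DL (w : Perm (Fin n) × (Fin n → Bool)) (i : ℕ) (h : i + 1 < n) :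
    i + 1 ∈ DL w ↔ dAdj w ⟨i, Nat.lt_of_succ_lt h⟩ ⟨i + 1, h⟩ := by
  classical
  unfold DL
  rw [mem_filter, mem_range]
  constructor
  · rintro ⟨_, ⟨h1, _⟩ | ⟨i', h', h2, h3⟩⟩
    · omega
    · have : i = i' := by omega
      subst this; exact h3
  · intro h2
    exact ⟨h, Or.inr ⟨i, h, rfl, h2⟩⟩

lemma DL_subset (w : Perm (Fin n) × (Fin n → Bool)) : DL w ⊆ range n := by
  classical
  unfold DL
  exact filter_subset _ _

/-- the sign pattern of a colouring word -/
def par (g : Fin n → ℕ) : Fin n → Bool := fun i => decide (g i % 2 = 1)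

lemma fiber_card (m : ℕ) (w : Perm (Fin n) × (Fin n → Bool)) (hw : w ∈ WI n) :
    ((PP n (2 * m + 1)).filter fun p => (p.1, par p.2) = w).card = (GC n (DL w) m).card := by
  obtain ⟨π, s⟩ := w
  unfold WI at hw
  rw [mem_filter] at hw
  have hinv : ∀ i, π (π i) = i := fun i => (hw.2 i).1
  have hs : ∀ i, s (π i) = s i := fun i => (hw.2 i).2
  refine Finset.card_bij' (fun p _ => fun i => (p.2 i + 1) / 2)
    (fun g _ => (π, fun i => 2 * g i - (if s i then 1 else 0))) ?_ ?_ ?_ ?_
  · rintro ⟨f, g⟩ hp
    rw [mem_filter, mem_PP] at hp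
    obtain ⟨⟨hK, hi, hmono, htie, hpar⟩, heq⟩ := hp
    simp only [Prod.mk.injEq] at heq
    obtain ⟨rfl, rfl⟩ := heq
    simp only at hK hmono htie hpar
    rw [mem_GC]
    refine ⟨fun i => ?_, ?_, ?_⟩
    · have := hK i
      simp only
      omega
    · intro h h0
      rw [zero_mem_DL _ h] at h0
      simp only [par, decide_eq_true_eq] at h0 ⊢
      omega
    · intro i h
      have h1 : g ⟨i, Nat.lt_of_succ_lt h⟩ ≤ g ⟨i + 1, h⟩ := hmono (by
        show i ≤ i + 1
        omega)
      simp only
      refine ⟨by omega, ?_⟩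
      intro hd
      rw [succ_mem_DL _ i h] at hd
      rcases hd with ⟨h2, h3⟩ | ⟨h2, h3⟩
      · simp only [par, decide_eq_decide] at h2
        simp only at h3
        have h4 : g ⟨i, Nat.lt_of_succ_lt h⟩ ≠ g ⟨i + 1, h⟩ := by
          intro hc
          have := htie _ _ (by
            show i < i + 1
            omega) hc
          exact absurd this (not_lt.mpr h3.le)
        omega
      · simp only [par, decide_eq_false_iff_not, decide_eq_true_eq] at h2 h3
        omega
  · intro g hg
    rw [mem_GC] at hg
    obtain ⟨h1, h2, h3⟩ := hg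
    have hpos : ∀ i, s i = true → 0 < g i := by
      -- a negative entry forces a positive value
      have key : ∀ (i : ℕ) (h : i < n), s ⟨i, h⟩ = true → 0 < g ⟨i, h⟩ := by
        intro i
        induction i with
        | zero =>
          intro h hs0
          exact h2 h ((zero_mem_DL _ h).mpr hs0)
        | succ i ih =>
          intro h hs1
          obtain ⟨h4, h5⟩ := h3 i h
          by_cases hs0 : s ⟨i, by omega⟩ = true
          · exact lt_of_lt_of_le (ih (by omega) hs0) h4
          · have : i + 1 ∈ DL (π, s) := by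
              rw [succ_mem_DL _ i h]
              exact Or.inr ⟨by simpa using hs0, hs1⟩
            exact lt_of_le_of_lt (Nat.zero_le _) (h5 this)
      intro i hi
      exact key i i.2 hi
    have hpp : ∀ i, (2 * g i - (if s i then 1 else 0)) % 2 = if s i then 1 else 0 := by
      intro i
      by_cases hsi : s i = true
      · have := hpos i hsi
        rw [if_pos hsi]; omega
      · rw [if_neg hsi]; omega
    have hadj : ∀ (i : ℕ) (h : i + 1 < n),
        (2 * g ⟨i, by omega⟩ - (if s ⟨i, by omega⟩ then 1 else 0)) ≤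
          (2 * g ⟨i + 1, h⟩ - (if s ⟨i + 1, h⟩ then 1 else 0)) ∧
        ((2 * g ⟨i, by omega⟩ - (if s ⟨i, by omega⟩ then 1 else 0)) =
          (2 * g ⟨i + 1, h⟩ - (if s ⟨i + 1, h⟩ then 1 else 0)) →
            π ⟨i, by omega⟩ < π ⟨i + 1, h⟩) := by
      intro i h
      obtain ⟨h4, h5⟩ := h3 i h
      have hp0 := hpos ⟨i, by omega⟩
      have hp1 := hpos ⟨i + 1, h⟩
      rw [succ_mem_DL _ i h] at h5
      have hne : π ⟨i, by omega⟩ ≠ π ⟨i + 1, h⟩ := by
        intro hc
        have := π.injective hc
        have := congrArg Fin.val this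
        simp at this
      by_cases hs0 : s ⟨i, by omega⟩ = true
      · by_cases hs1 : s ⟨i + 1, h⟩ = true
        · rw [if_pos hs0, if_pos hs1]
          have a0 := hp0 hs0
          have a1 := hp1 hs1
          refine ⟨by omega, fun he => ?_⟩
          rcases lt_or_gt_of_ne hne with h6 | h6
          · exact h6
          · have := h5 (Or.inl ⟨by simp only [hs0, hs1], h6⟩)
            omega
        · rw [if_pos hs0, if_neg hs1]
          have a0 := hp0 hs0
          refine ⟨by omega, fun he => by omega⟩
      · by_cases hs1 : s ⟨i + 1, h⟩ = true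
        · rw [if_neg hs0, if_pos hs1]
          have a1 := hp1 hs1
          have := h5 (Or.inr ⟨by simpa using hs0, hs1⟩)
          refine ⟨by omega, fun he => by omega⟩
        · rw [if_neg hs0, if_neg hs1]
          refine ⟨by omega, fun he => ?_⟩
          rcases lt_or_gt_of_ne hne with h6 | h6
          · exact h6
          · have := h5 (Or.inl ⟨by
              have b0 : s ⟨i, by omega⟩ = false := by simpa using hs0
              have b1 : s ⟨i + 1, h⟩ = false := by simpa using hs1
              simp only [b0, b1], h6⟩)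
            omega
    have hmono : Monotone (fun i => 2 * g i - (if s i then 1 else 0)) :=
      mono_of_adj _ (fun i h => (hadj i h).1)
    rw [mem_filter, mem_PP]
    refine ⟨⟨fun i => ?_, hinv, hmono, ?_, ?_⟩, ?_⟩
    · have := h1 i
      simp only
      omega
    · intro i j hij he
      exact tie_adj _ hmono π (fun i h => (hadj i h).2) i j hij he
    · intro i
      have a := hpp i
      have b := hpp (π i)
      rw [hs i] at b
      simp only
      rw [hs i]
      split_ifs at a b ⊢ with h6
      · omega
      · omega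
    · simp only [Prod.mk.injEq, true_and]
      funext i
      unfold par
      have a := hpp i
      simp only
      rw [a]
      by_cases h6 : s i = true
      · simp [h6]
      · have h7 : s i = false := by simpa using h6
        simp [h7]
  · rintro ⟨f, g⟩ hp
    rw [mem_filter, mem_PP] at hp
    obtain ⟨⟨hK, hi, hmono, htie, hpar⟩, heq⟩ := hp
    simp only [Prod.mk.injEq] at heq
    obtain ⟨rfl, rfl⟩ := heq
    simp only [Prod.mk.injEq, true_and]
    funext i
    unfold par
    by_cases h6 : g i % 2 = 1
    · simp only [h6, decide_true, if_true]; omega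
    · simp only [h6, decide_false]
      simp only [Bool.false_eq_true, if_false]
      omega
  · intro g hg
    rw [mem_GC] at hg
    funext i
    simp only
    split_ifs <;> omega

/-- The key counting identity. -/
theorem sum_choose_WI (n m : ℕ) :
    ∑ w ∈ WI n, ((m + n - (DL w).card).choose n) = (PP n (2 * m + 1)).card := by
  rw [Finset.card_eq_sum_card_fiberwise (f := fun p : Perm (Fin n) × (Fin n → ℕ) =>
    (p.1, par p.2)) (t := WI n)]
  · refine Finset.sum_congr rfl fun w hw => ?_
    rw [fiber_card m w hw, card_GC n (DL w) (DL_subset w) m]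
  · intro p hp
    have hp' : p ∈ PP n (2 * m + 1) := hp
    rw [mem_PP] at hp'
    obtain ⟨hK, hi, hmono, htie, hpar⟩ := hp'
    have : (p.1, par p.2) ∈ WI n := by
      unfold WI
      rw [mem_filter]
      refine ⟨mem_univ _, fun i => ⟨hi i, ?_⟩⟩
      unfold par
      have := hpar i
      simp only [decide_eq_decide]
      omega
    exact mem_coe.mpr this

end Pool.Agent.V11169
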