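import Pool.Agent.V11169.InvB3

set_option autoImplicit false

namespace Pool.Agent.V11169

open Finset PowerSeries

/-! ### The recurrence for the number of pairs -/

lemma geo_one : geo 1 * (1 - X) = 1 := by
  have : geo 1 = (PowerSeries.mk 1 : PowerSeries ℤ) := by
    ext l
    simp [geo]
  rw [this, mk_one_mul_one_sub_eq_one]

lemma geo_two : geo 2 * (1 - X ^ 2) = 1 := by
  ext l
  rw [mul_sub, mul_one, map_sub]
  unfold geo
  rw [coeff_mul_X_pow']
  simp only [coeff_mk]
  rcases l with _ | _ | l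
  · simp
  · simp [coeff_one]
  · have h1 : 2 ≤ l + 1 + 1 := by omega
    have h3 : l + 1 + 1 - 2 = l := by omega
    have h4 : l + 1 + 1 ≠ 0 := by omega
    have h2 : (2 ∣ l + 1 + 1) ↔ 2 ∣ l := by omega
    rw [if_pos h1, h3, coeff_one, if_neg h4]
    simp only [h2, sub_self]

lemma der_geo_one : (1 - X ^ 2) * derivative ℤ (geo 1) = (1 + X) * geo 1 := by
  have h := congrArg (derivative ℤ) geo_one
  rw [Derivation.leibniz] at h
  simp only [map_sub, smul_eq_mul, derivative_X, Derivation.map_one_eq_zero, zero_sub] at h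
  have h2 : (1 - X) * derivative ℤ (geo 1) = geo 1 := by linear_combination h
  have : (1 - X ^ 2 : PowerSeries ℤ) = (1 + X) * (1 - X) := by ring
  rw [this, mul_assoc, h2]

lemma der_geo_two : (1 - X ^ 2) * derivative ℤ (geo 2) =
    ((2 : PowerSeries ℤ) * X) * geo 2 := by
  have h := congrArg (derivative ℤ) geo_two
  rw [Derivation.leibniz] at h
  have e : derivative ℤ ((1 : PowerSeries ℤ) - X ^ 2) = - ((2 : PowerSeries ℤ) * X) := by
    rw [map_sub, Derivation.map_one_eq_zero, pow_two, Derivation.leibniz, derivative_X]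
    simp only [smul_eq_mul]
    ring
  rw [e] at h
  simp only [smul_eq_mul, Derivation.map_one_eq_zero] at h
  linear_combination h

lemma der_pow (f a : PowerSeries ℤ) (h : (1 - X ^ 2) * derivative ℤ f = a * f) (k : ℕ) :
    (1 - X ^ 2) * derivative ℤ (f ^ k) = ((k : PowerSeries ℤ) * a) * f ^ k := by
  induction k with
  | zero => simp
  | succ k ih =>
    rw [pow_succ f k, Derivation.leibniz, smul_eq_mul, smul_eq_mul]
    push_cast
    linear_combination f ^ k * h + f * ih

/-- number of pairs -/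
noncomputable def cP (n m : ℕ) : ℕ := (PP n (2 * m + 1)).card

lemma cP_zero (m : ℕ) : cP 0 m = 1 := by
  have h := card_PP 0 m
  have h1 : ∀ w, 0 < w → PowerSeries.constantCoeff (geo w) = 1 := by
    intro w _
    rw [← coeff_zero_eq_constantCoeff_apply, geo, coeff_mk]; simp
  rw [coeff_zero_eq_constantCoeff_apply, map_mul, map_pow, map_pow, h1 1 (by norm_num),
    h1 2 (by norm_num)] at h
  simp only [one_pow, mul_one] at h
  unfold cP
  exact_mod_cast h

lemma der_G (m : ℕ) : (1 - X ^ 2) * derivative ℤ (geo 1 ^ (2 * m + 1) * geo 2 ^ (m * m)) =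
    (C (2 * (m : ℤ) + 1) * (1 + X) + C (2 * ((m : ℤ) * m)) * X) *
      (geo 1 ^ (2 * m + 1) * geo 2 ^ (m * m)) := by
  have h1 := der_pow (geo 1) (1 + X) der_geo_one (2 * m + 1)
  have h2 := der_pow (geo 2) (2 * X) der_geo_two (m * m)
  push_cast at h1 h2
  have e1 : (C (2 * (m : ℤ) + 1) : PowerSeries ℤ) = 2 * (m : PowerSeries ℤ) + 1 := by
    simp
  have e2 : (C (2 * ((m : ℤ) * m)) : PowerSeries ℤ) =
      2 * ((m : PowerSeries ℤ) * (m : PowerSeries ℤ)) := by
    simp
  rw [e1, e2, Derivation.leibniz, smul_eq_mul, smul_eq_mul]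
  linear_combination geo 1 ^ (2 * m + 1) * h2 + geo 2 ^ (m * m) * h1

lemma cP_one (m : ℕ) : (cP 1 m : ℤ) = 2 * m + 1 := by
  have h := congrArg (coeff 0) (der_G m)
  have h0 := card_PP 0 m
  have h1 := card_PP 1 m
  generalize geo 1 ^ (2 * m + 1) * geo 2 ^ (m * m) = G at h h0 h1
  have e2 : (1 + X) * G = G + X * G := by ring
  rw [sub_mul, one_mul, map_sub, coeff_derivative, coeff_X_pow_mul', if_neg (by norm_num),
    add_mul, map_add, mul_assoc, coeff_C_mul, mul_assoc, coeff_C_mul, e2, map_add,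
    coeff_zero_X_mul] at h
  have hz := cP_zero m
  unfold cP at hz ⊢
  rw [hz] at h0
  rw [← h0, zero_add, ← h1] at h
  push_cast at h
  linarith

lemma cP_rec (n m : ℕ) : ((n : ℤ) + 2) * cP (n + 2) m = (2 * m + 1) * cP (n + 1) m +
    ((n : ℤ) + 1 + 2 * m + 2 * (m * m)) * cP n m := by
  have h := congrArg (coeff (n + 1)) (der_G m)
  have h0 := card_PP n m
  have h1 := card_PP (n + 1) m
  have h2 := card_PP (n + 2) m
  generalize geo 1 ^ (2 * m + 1) * geo 2 ^ (m * m) = G at h h0 h1 h2
  have e1 : coeff (n + 1) (X ^ 2 * derivative ℤ G) = coeff n G * n := by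
    rw [coeff_X_pow_mul']
    split_ifs with h3
    · obtain ⟨k, rfl⟩ : ∃ k, n = k + 1 := ⟨n - 1, by omega⟩
      have : k + 1 + 1 - 2 = k := by omega
      rw [this, coeff_derivative]
      push_cast; ring
    · have : n = 0 := by omega
      subst this
      simp
  have e2 : (1 + X) * G = G + X * G := by ring
  rw [sub_mul, one_mul, map_sub, coeff_derivative, e1,
    add_mul, map_add, mul_assoc, coeff_C_mul, mul_assoc, coeff_C_mul, e2, map_add,
    coeff_succ_X_mul] at h
  unfold cP
  rw [show n + 1 + 1 = n + 2 from rfl] at h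
  rw [h0, h1, h2]
  push_cast at h
  linarith

end Pool.Agent.V11169
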