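import Pool.Agent.V11169.InvB4

set_option autoImplicit false

namespace Pool.Agent.V11169

open Finset PowerSeries

/-- shift of a sequence -/
def sh (f : ℕ → ℚ) : ℕ → ℚ
  | 0 => 0
  | k + 1 => f k

/-- the gamma numbers -/
def gam : ℕ → ℕ → ℚ
  | 0, k => if k = 0 then 1 else 0
  | 1, k => if k = 0 then 1 else 0
  | n + 2, k => ((2 * k + 1) * gam (n + 1) k + 4 * (n + 3 - 2 * k) * sh (gam (n + 1)) k +
      (2 * k ^ 2 + 2 * k + n + 1) * gam n k +
      4 * (n * (2 * k - 1) - (k - 1) * (4 * k - 1)) * sh (gam n) k +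
      8 * (n + 4 - 2 * k) * (n + 3 - 2 * k) * sh (sh (gam n)) k) / (n + 2)

lemma gam_zero_of_lt : ∀ (n k : ℕ), n < 2 * k → gam n k = 0
  | 0, k, h => by rw [gam, if_neg (by omega)]
  | 1, k, h => by rw [gam, if_neg (by omega)]
  | n + 2, k, h => by
    have a1 := gam_zero_of_lt (n + 1) k (by omega)
    have a2 := gam_zero_of_lt n k (by omega)
    rw [gam, a1, a2]
    rcases k with _ | _ | k
    · omega
    · -- k = 1 impossible unless n = 0..
      omega
    · simp only [sh]
      have b2 := gam_zero_of_lt n (k + 1) (by omega)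
      rw [b2]
      rcases Nat.lt_or_ge (n + 1) (2 * (k + 1)) with h1 | h1
      · have b1 := gam_zero_of_lt (n + 1) (k + 1) h1
        rw [b1]
        rcases Nat.lt_or_ge n (2 * k) with h2 | h2
        · have b3 := gam_zero_of_lt n k h2
          rw [b3]; simp
        · have h3 : n = 2 * k ∨ n = 2 * k + 1 := by omega
          rcases h3 with h3 | h3 <;> subst h3 <;> push_cast <;> ring
      · have h3 : n = 2 * k + 1 := by omega
        subst h3
        push_cast
        ring

/-- the geometric series -/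
noncomputable def ww : PowerSeries ℚ := PowerSeries.mk 1

lemma ww_mul : ww * (1 - X) = 1 := mk_one_mul_one_sub_eq_one ℚ

/-- `x / (1-x)^2` -/
noncomputable def vv : PowerSeries ℚ := X * ww ^ 2

/-- `(1+x) / (1-x)` -/
noncomputable def uu : PowerSeries ℚ := (1 + X) * ww

/-- the operator `x d/dx` -/
noncomputable def th (F : PowerSeries ℚ) : PowerSeries ℚ := X * derivative ℚ F

lemma th_mul (F G : PowerSeries ℚ) : th (F * G) = th F * G + F * th G := by
  unfold th
  rw [Derivation.leibniz, smul_eq_mul, smul_eq_mul]; ring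

lemma th_add (F G : PowerSeries ℚ) : th (F + G) = th F + th G := by
  unfold th
  rw [map_add]; ring

lemma th_C (c : ℚ) : th (C c) = 0 := by
  unfold th
  rw [derivative_C, mul_zero]

lemma th_sum {ι : Type*} (s : Finset ι) (F : ι → PowerSeries ℚ) :
    th (∑ i ∈ s, F i) = ∑ i ∈ s, th (F i) := by
  unfold th
  rw [map_sum, Finset.mul_sum]

lemma th_ww : th ww = vv := by
  have h := congrArg (derivative ℚ) ww_mul
  rw [Derivation.leibniz] at h
  simp only [map_sub, smul_eq_mul, derivative_X, Derivation.map_one_eq_zero, zero_sub] at h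
  have h2 : (1 - X) * derivative ℚ ww = ww := by linear_combination h
  have h3 : derivative ℚ ww = ww ^ 2 := by
    calc derivative ℚ ww = (ww * (1 - X)) * derivative ℚ ww := by rw [ww_mul, one_mul]
      _ = ww * ((1 - X) * derivative ℚ ww) := by ring
      _ = ww ^ 2 := by rw [h2]; ring
  unfold th vv
  rw [h3]

lemma th_X : th X = X := by
  unfold th
  rw [derivative_X, mul_one]

lemma ww_eq : ww = 1 + X * ww := by
  have := ww_mul
  linear_combination this

lemma th_vv : th vv = uu * vv := by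
  have h1 : th vv = X * ww ^ 2 + X * (2 * ww * vv) := by
    conv_lhs => rw [vv, pow_two]
    rw [th_mul, th_X, th_mul, th_ww]
    ring
  rw [h1]
  unfold vv uu
  have := ww_mul
  linear_combination (- X * ww ^ 2) * this

lemma th_uu : th uu = 2 * vv := by
  have h1 : th uu = X * ww + (1 + X) * vv := by
    conv_lhs => rw [uu]
    rw [th_mul, th_add, th_X, th_ww]
    have : th 1 = 0 := by
      have := th_C 1
      rwa [map_one] at this
    rw [this]
    ring
  rw [h1]
  unfold vv
  have := ww_mul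
  linear_combination (- X * ww) * this

lemma uu_sq : uu ^ 2 - 4 * vv = 1 := by
  unfold uu vv
  have := ww_mul
  linear_combination (ww * (1 - X) + 1) * this

lemma th_pow (F G : PowerSeries ℚ) (h : th F = G * F) (k : ℕ) :
    th (F ^ k) = (k : PowerSeries ℚ) * G * F ^ k := by
  induction k with
  | zero =>
    have := th_C 1
    rw [map_one] at this
    simp [this]
  | succ k ih =>
    rw [pow_succ, th_mul, ih, h]
    push_cast
    ring

lemma th_uu_pow (e : ℕ) : th (uu ^ e) = 2 * (e : PowerSeries ℚ) * vv * uu ^ (e - 1) := by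
  induction e with
  | zero =>
    have := th_C 1
    rw [map_one] at this
    simp [this]
  | succ e ih =>
    rw [pow_succ, th_mul, ih, th_uu]
    rcases e with _ | e
    · simp
    · simp only [Nat.add_sub_cancel]
      push_cast
      ring

/-- the operator `2 x d/dx + 1` -/
noncomputable def Lop (F : PowerSeries ℚ) : PowerSeries ℚ := 2 * th F + F

lemma Lop_ww (F : PowerSeries ℚ) : Lop (ww * F) = ww * (2 * th F + uu * F) := by
  unfold Lop
  rw [th_mul, th_ww]
  unfold vv uu
  have := ww_mul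
  linear_combination (- ww * F) * this

lemma basis_op (c : ℚ) (k e : ℕ) :
    2 * th (C c * (vv ^ k * uu ^ e)) + uu * (C c * (vv ^ k * uu ^ e)) =
    C ((2 * k + 1) * c) * (vv ^ k * uu ^ (e + 1)) + C (4 * e * c) * (vv ^ (k + 1) * uu ^ (e - 1)) := by
  rw [th_mul, th_C, th_mul, th_pow vv uu th_vv k, th_uu_pow e]
  have e1 : (C ((2 * (k : ℚ) + 1) * c) : PowerSeries ℚ) =
      (2 * (k : PowerSeries ℚ) + 1) * C c := by
    rw [map_mul, map_add, map_mul, map_natCast, map_one, map_ofNat]
  have e2 : (C (4 * (e : ℚ) * c) : PowerSeries ℚ) = (4 * (e : PowerSeries ℚ)) * C c := by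
    rw [map_mul, map_mul, map_natCast, map_ofNat]
  rw [e1, e2]
  ring

/-- expansions in the basis -/
noncomputable def SS (f : ℕ → ℚ) (n : ℕ) : PowerSeries ℚ :=
  ∑ k ∈ range (n + 1), C (f k) * (vv ^ k * uu ^ (n - 2 * k))

/-- action of `Lop` on the coefficients -/
def op1 (n : ℕ) (f : ℕ → ℚ) (k : ℕ) : ℚ := (2 * k + 1) * f k + 4 * (n + 2 - 2 * k) * sh f k

/-- raising the degree by two -/
def op2 (f : ℕ → ℚ) (k : ℕ) : ℚ := f k - 4 * sh f k

lemma SS_add (f g : ℕ → ℚ) (n : ℕ) : SS (fun k => f k + g k) n = SS f n + SS g n := by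
  unfold SS
  rw [← Finset.sum_add_distrib]
  refine Finset.sum_congr rfl fun k _ => ?_
  rw [map_add]; ring

lemma SS_smul (c : ℚ) (f : ℕ → ℚ) (n : ℕ) : SS (fun k => c * f k) n = C c * SS f n := by
  unfold SS
  rw [Finset.mul_sum]
  refine Finset.sum_congr rfl fun k _ => ?_
  rw [map_mul]; ring

lemma SS_sh (g : ℕ → ℚ) (n : ℕ) :
    ∑ k ∈ range (n + 2), C (sh g k) * (vv ^ k * uu ^ (n + 1 - 2 * k)) =
    ∑ k ∈ range (n + 1), C (g k) * (vv ^ (k + 1) * uu ^ (n - 2 * k - 1)) := by
  rw [Finset.sum_range_succ']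
  simp only [sh, map_zero, zero_mul, add_zero]
  refine Finset.sum_congr rfl fun k _ => ?_
  have : n + 1 - 2 * (k + 1) = n - 2 * k - 1 := by omega
  rw [this]

lemma T1 (n : ℕ) (f : ℕ → ℚ) (hf : ∀ k, n < 2 * k → f k = 0) :
    Lop (ww * SS f n) = ww * SS (op1 n f) (n + 1) := by
  rw [Lop_ww]
  congr 1
  have h1 : 2 * th (SS f n) + uu * SS f n = ∑ k ∈ range (n + 1),
      (C ((2 * k + 1) * f k) * (vv ^ k * uu ^ (n - 2 * k + 1)) +
        C (4 * ((n - 2 * k : ℕ) : ℚ) * f k) * (vv ^ (k + 1) * uu ^ (n - 2 * k - 1))) := by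
    unfold SS
    rw [th_sum, Finset.mul_sum, Finset.mul_sum, ← Finset.sum_add_distrib]
    exact Finset.sum_congr rfl fun k _ => basis_op (f k) k (n - 2 * k)
  rw [h1, Finset.sum_add_distrib]
  have h2 : SS (op1 n f) (n + 1) =
      ∑ k ∈ range (n + 2), C ((2 * k + 1) * f k) * (vv ^ k * uu ^ (n + 1 - 2 * k)) +
      ∑ k ∈ range (n + 2), C (sh (fun k => 4 * ((n : ℚ) - 2 * k) * f k) k) *
        (vv ^ k * uu ^ (n + 1 - 2 * k)) := by
    unfold SS
    rw [← Finset.sum_add_distrib]
    refine Finset.sum_congr rfl fun k _ => ?_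
    rw [← add_mul, ← map_add]
    congr 2
    unfold op1
    congr 1
    rcases k with _ | k
    · simp [sh]
    · simp only [sh]; push_cast; ring
  rw [h2, SS_sh, Finset.sum_range_succ _ (n + 1), hf (n + 1) (by omega)]
  simp only [mul_zero, map_zero, zero_mul, add_zero]
  congr 1
  · refine Finset.sum_congr rfl fun k _ => ?_
    rcases Nat.lt_or_ge n (2 * k) with h | h
    · rw [hf k h]; simp
    · have : n - 2 * k + 1 = n + 1 - 2 * k := by omega
      rw [this]
  · refine Finset.sum_congr rfl fun k _ => ?_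
    rcases Nat.lt_or_ge n (2 * k) with h | h
    · rw [hf k h]; simp
    · have : ((n - 2 * k : ℕ) : ℚ) = (n : ℚ) - 2 * k := by
        rw [Nat.cast_sub h]; push_cast; ring
      rw [this]

lemma T2 (n : ℕ) (f : ℕ → ℚ) (hf : ∀ k, n < 2 * k → f k = 0) :
    SS f n = SS (op2 f) (n + 2) := by
  have h2 : SS (op2 f) (n + 2) =
      ∑ k ∈ range (n + 3), C (f k) * (vv ^ k * uu ^ (n + 2 - 2 * k)) +
      ∑ k ∈ range (n + 3), C (sh (fun k => (-4) * f k) k) *
        (vv ^ k * uu ^ (n + 1 + 1 - 2 * k)) := by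
    unfold SS
    rw [← Finset.sum_add_distrib]
    refine Finset.sum_congr rfl fun k _ => ?_
    rw [← add_mul, ← map_add]
    congr 2
    unfold op2
    rcases k with _ | k
    · simp [sh]
    · simp only [sh]; ring
  rw [h2, SS_sh, Finset.sum_range_succ _ (n + 2), Finset.sum_range_succ _ (n + 1),
    Finset.sum_range_succ _ (n + 1), hf (n + 1) (by omega), hf (n + 2) (by omega)]
  simp only [mul_zero, map_zero, zero_mul, add_zero]
  rw [← Finset.sum_add_distrib]
  unfold SS
  refine Finset.sum_congr rfl fun k _ => ?_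
  rcases Nat.lt_or_ge n (2 * k) with h | h
  · rw [hf k h]; simp
  · have e1 : n + 2 - 2 * k = (n - 2 * k) + 2 := by omega
    have e2 : n + 1 - 2 * k - 1 = n - 2 * k := by omega
    rw [e1, e2]
    have h3 := uu_sq
    have h4 : (C ((-4) * f k) : PowerSeries ℚ) = -4 * C (f k) := by
      rw [map_mul, map_neg, map_ofNat]
    rw [h4]
    linear_combination (- C (f k) * (vv ^ k * uu ^ (n - 2 * k))) * h3

/-- generating function of the numbers of pairs -/
noncomputable def CC (n : ℕ) : PowerSeries ℚ := PowerSeries.mk fun m => (cP n m : ℚ)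

lemma coeff_th (m : ℕ) (F : PowerSeries ℚ) : coeff m (th F) = m * coeff m F := by
  unfold th
  rcases m with _ | m
  · simp
  · rw [coeff_succ_X_mul, coeff_derivative]; push_cast; ring

lemma coeff_two_mul (m : ℕ) (F : PowerSeries ℚ) : coeff m (2 * F) = 2 * coeff m F := by
  rw [two_mul, map_add]; ring

lemma CC_rec (n : ℕ) : C ((n : ℚ) + 2) * CC (n + 2) =
    Lop (CC (n + 1)) + C (1 / 2) * Lop (Lop (CC n)) + C ((n : ℚ) + 1 / 2) * CC n := by
  ext m
  unfold Lop
  rw [coeff_C_mul, map_add, map_add, map_add, coeff_C_mul, coeff_C_mul, map_add, coeff_two_mul,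
    coeff_two_mul, coeff_th, coeff_th, map_add, coeff_two_mul, coeff_th]
  unfold CC
  simp only [coeff_mk]
  have h := cP_rec n m
  have h2 : ((n : ℚ) + 2) * cP (n + 2) m = (2 * m + 1) * cP (n + 1) m +
    ((n : ℚ) + 1 + 2 * m + 2 * (m * m)) * cP n m := by exact_mod_cast h
  rw [h2]
  ring

lemma op1_zero (n : ℕ) (f : ℕ → ℚ) (hf : ∀ k, n < 2 * k → f k = 0) :
    ∀ k, n + 1 < 2 * k → op1 n f k = 0 := by
  intro k hk
  unfold op1
  rw [hf k (by omega)]
  rcases k with _ | k
  · omega
  · simp only [sh]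
    rcases Nat.lt_or_ge n (2 * k) with h | h
    · rw [hf k h]; simp
    · have : n = 2 * k := by omega
      subst this
      push_cast
      ring

theorem CC_eq : ∀ n, CC n = ww * SS (gam n) n
  | 0 => by
    have h1 : CC 0 = ww := by
      ext m
      unfold CC ww
      rw [coeff_mk, coeff_mk, cP_zero]; simp
    rw [h1]
    unfold SS
    simp [gam]
  | 1 => by
    have h1 : CC 1 = Lop ww := by
      ext m
      unfold CC Lop ww
      rw [map_add, coeff_two_mul, coeff_th, coeff_mk, coeff_mk]
      have := cP_one m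
      have h2 : (cP 1 m : ℚ) = 2 * m + 1 := by exact_mod_cast this
      rw [h2]; simp
    have h2 : Lop ww = ww * uu := by
      have := Lop_ww 1
      have h3 : th 1 = 0 := by
        have := th_C 1
        rwa [map_one] at this
      rw [mul_one, h3] at this
      rw [this]; ring
    rw [h1, h2]
    unfold SS
    rw [Finset.sum_range_succ, Finset.sum_range_succ, Finset.sum_range_zero]
    simp [gam]
  | n + 2 => by
    have h0 := CC_eq n
    have h1 := CC_eq (n + 1)
    have h := CC_rec n
    have z0 := fun k => gam_zero_of_lt n k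
    have z1 := fun k => gam_zero_of_lt (n + 1) k
    rw [h0, h1, T1 _ _ z1, T1 _ _ z0, T1 _ _ (op1_zero n _ z0)] at h
    have h2 : ww * SS (gam n) n = ww * SS (op2 (gam n)) (n + 2) := by rw [T2 n _ z0]
    rw [h2] at h
    have h3 : C ((n : ℚ) + 2) * CC (n + 2) = ww * SS (fun k => ((n : ℚ) + 2) * gam (n + 2) k)
        (n + 2) := by
      rw [h]
      have h4 : (fun k => ((n : ℚ) + 2) * gam (n + 2) k) = fun k => op1 (n + 1) (gam (n + 1)) k +
          ((1 / 2) * op1 (n + 1) (op1 n (gam n)) k + ((n : ℚ) + 1 / 2) * op2 (gam n) k) := by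
        funext k
        have hn : (n : ℚ) + 2 ≠ 0 := by positivity
        rw [gam]
        rw [mul_div_cancel₀ _ hn]
        unfold op1 op2
        rcases k with _ | _ | k
        · simp only [sh]; push_cast; ring
        · simp only [sh]; push_cast; ring
        · simp only [sh]; push_cast; ring
      rw [h4, SS_add, SS_add, SS_smul, SS_smul]
      ring
    rw [SS_smul] at h3
    have hn : (n : ℚ) + 2 ≠ 0 := by positivity
    have h5 : (C ((n : ℚ) + 2) : PowerSeries ℚ) ≠ 0 := by
      intro hc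
      apply hn
      have := congrArg (coeff 0) hc
      simpa using this
    apply mul_left_cancel₀ h5
    rw [h3]; ring

end Pool.Agent.V11169
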