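import Pool.Agent.V11169.InvB5

set_option autoImplicit false

namespace Pool.Agent.V11169

open Finset

lemma sh_nonneg (f : ℕ → ℚ) (hf : ∀ k, 0 ≤ f k) (k : ℕ) : 0 ≤ sh f k := by
  cases k with
  | zero => exact le_rfl
  | succ k => exact hf k

theorem gam_nonneg : ∀ n k : ℕ, 0 ≤ gam n k := by
  intro n
  induction n using Nat.strong_induction_on with
  | _ n ih =>
  rcases n with _ | _ | n
  · intro k; rw [gam]; split_ifs <;> norm_num
  · intro k; rw [gam]; split_ifs <;> norm_num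
  intro k
  have ih1 : ∀ k, 0 ≤ gam (n + 1) k := ih (n + 1) (by omega)
  have ih0 : ∀ k, 0 ≤ gam n k := ih n (by omega)
  have hn : (0 : ℚ) < (n : ℚ) + 2 := by positivity
  rcases Nat.lt_or_ge (n + 2) (2 * k) with hk | hk
  · rw [gam_zero_of_lt _ _ hk]
  rcases Nat.eq_zero_or_pos k with hk0 | hk0
  · subst hk0
    rw [gam]
    apply div_nonneg _ hn.le
    simp only [sh]
    have a1 := ih1 0
    have a0 := ih0 0
    push_cast
    have : 0 ≤ ((n : ℚ) + 1) * gam n 0 := mul_nonneg (by positivity) a0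
    nlinarith
  rcases Nat.lt_or_ge (2 * k) (n + 2) with hk2 | hk2
  · -- all coefficients are nonnegative
    rw [gam]
    apply div_nonneg _ hn.le
    obtain ⟨j, rfl⟩ : ∃ j, k = j + 1 := ⟨k - 1, by omega⟩
    obtain ⟨d, rfl⟩ : ∃ d, n = 2 * j + 1 + d := ⟨n - (2 * j + 1), by omega⟩
    have s1 := sh_nonneg _ ih1 (j + 1)
    have s0 := sh_nonneg _ ih0 (j + 1)
    have ss0 := sh_nonneg _ (fun k => sh_nonneg _ ih0 k) (j + 1)
    have a1 := ih1 (j + 1)
    have a0 := ih0 (j + 1)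
    push_cast
    have c1 : (0 : ℚ) ≤ 2 * ((j : ℚ) + 1) + 1 := by positivity
    have c2 : (0 : ℚ) ≤ 4 * (2 * (j : ℚ) + 1 + d + 3 - 2 * (j + 1)) := by
      have : 4 * (2 * (j : ℚ) + 1 + d + 3 - 2 * (j + 1)) = 4 * (d + 2) := by ring
      rw [this]; positivity
    have c3 : (0 : ℚ) ≤ 2 * ((j : ℚ) + 1) ^ 2 + 2 * (j + 1) + (2 * j + 1 + d) + 1 := by positivity
    have c4 : (0 : ℚ) ≤ 4 * ((2 * (j : ℚ) + 1 + d) * (2 * (j + 1) - 1) -
        (j + 1 - 1) * (4 * (j + 1) - 1)) := by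
      have : 4 * ((2 * (j : ℚ) + 1 + d) * (2 * (j + 1) - 1) -
        (j + 1 - 1) * (4 * (j + 1) - 1)) = 4 * (j + 1 + 2 * j * d + d) := by ring
      rw [this]; positivity
    have c5 : (0 : ℚ) ≤ 8 * (2 * (j : ℚ) + 1 + d + 4 - 2 * (j + 1)) *
        (2 * j + 1 + d + 3 - 2 * (j + 1)) := by
      have : 8 * (2 * (j : ℚ) + 1 + d + 4 - 2 * (j + 1)) *
        (2 * j + 1 + d + 3 - 2 * (j + 1)) = 8 * (d + 3) * (d + 2) := by ring
      rw [this]; positivity
    have t1 := mul_nonneg c1 a1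
    have t2 := mul_nonneg c2 s1
    have t3 := mul_nonneg c3 a0
    have t4 := mul_nonneg c4 s0
    have t5 := mul_nonneg c5 ss0
    linarith
  · -- the diagonal case `n + 2 = 2 k`
    obtain ⟨j, rfl⟩ : ∃ j, k = j + 1 := ⟨k - 1, by omega⟩
    have hnj : n = 2 * j := by omega
    subst hnj
    rcases j with _ | _ | i
    · rw [gam]
      apply div_nonneg _ hn.le
      simp [sh, gam]
      norm_num
    · simp [sh, gam]
      norm_num
    · -- j = i + 2
      have z1 : gam (2 * (i + 1 + 1) + 1) (i + 1 + 1 + 1) = 0 := gam_zero_of_lt _ _ (by omega)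
      have z2 : gam (2 * (i + 1 + 1)) (i + 1 + 1 + 1) = 0 := gam_zero_of_lt _ _ (by omega)
      have z3 : gam (2 * i + 3) (i + 2) = 0 := gam_zero_of_lt _ _ (by omega)
      have z4 : gam (2 * i + 2) (i + 2) = 0 := gam_zero_of_lt _ _ (by omega)
      have g1 : 0 ≤ gam (2 * i + 3) (i + 1) := ih _ (by omega) _
      have g2 : 0 ≤ gam (2 * i + 2) i := ih _ (by omega) _
      have g3 : 0 ≤ gam (2 * i + 3) i := ih _ (by omega) _
      have g4 : 0 ≤ gam (2 * i + 2) (i + 1) := ih _ (by omega) _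
      have g5 : 0 ≤ sh (gam (2 * i + 2)) i := sh_nonneg _ (ih _ (by omega)) _
      have g6 : 0 ≤ gam (2 * i + 4) (i + 2) := ih _ (by omega) _
      have g7 : 0 ≤ gam (2 * i + 4) (i + 1) := ih _ (by omega) _
      have E1 : gam (2 * i + 3 + 2) (i + 2) = ((2 * i + 5) * gam (2 * i + 4) (i + 2) +
          8 * gam (2 * i + 4) (i + 1) + 4 * (i + 2) * gam (2 * i + 3) (i + 1) +
          48 * gam (2 * i + 3) i) / (2 * i + 5) := by
        rw [gam, show 2 * i + 3 + 1 = 2 * i + 4 from rfl, z3]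
        simp only [sh]
        push_cast
        congr 1 <;> ring
      have E2 : gam (2 * i + 2 + 2) (i + 2) = (4 * gam (2 * i + 3) (i + 1) -
          4 * (i + 1) * gam (2 * i + 2) (i + 1) + 16 * gam (2 * i + 2) i) / (2 * i + 4) := by
        rw [gam, show 2 * i + 2 + 1 = 2 * i + 3 from rfl, z3, z4]
        simp only [sh]
        push_cast
        congr 1 <;> ring
      have E3 : gam (2 * i + 2 + 2) (i + 1) = ((2 * i + 3) * gam (2 * i + 3) (i + 1) +
          12 * gam (2 * i + 3) i +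
          (2 * (i + 1) ^ 2 + 2 * (i + 1) + (2 * i + 2) + 1) * gam (2 * i + 2) (i + 1) +
          4 * (3 * i + 2) * gam (2 * i + 2) i + 96 * sh (gam (2 * i + 2)) i) / (2 * i + 4) := by
        rw [gam, show 2 * i + 2 + 1 = 2 * i + 3 from rfl]
        simp only [sh]
        push_cast
        congr 1 <;> ring
      have hi : (0 : ℚ) ≤ i := Nat.cast_nonneg i
      rw [gam]
      apply div_nonneg _ hn.le
      rw [z1, z2]
      simp only [sh]
      have e1 : gam (2 * (i + 1 + 1) + 1) (i + 1 + 1) = gam (2 * i + 3 + 2) (i + 2) := by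
        congr 1
      have e2 : gam (2 * (i + 1 + 1)) (i + 1 + 1) = gam (2 * i + 2 + 2) (i + 2) := by
        congr 1
      have e3 : gam (2 * (i + 1 + 1)) (i + 1) = gam (2 * i + 2 + 2) (i + 1) := by
        congr 1
      rw [e1, e2, e3]
      push_cast
      -- lower bound for the first term
      have L1 : (4 * ((i : ℚ) + 2) / (2 * i + 5)) * gam (2 * i + 3) (i + 1) ≤
          gam (2 * i + 3 + 2) (i + 2) := by
        rw [E1, div_mul_eq_mul_div]
        apply div_le_div_of_nonneg_right _ (by positivity)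
        have q1 : 0 ≤ (2 * (i : ℚ) + 5) * gam (2 * i + 4) (i + 2) := mul_nonneg (by positivity) g6
        linarith
      have L2 : (2 * (i : ℚ) + 4) * gam (2 * i + 2 + 2) (i + 2) ≤
          4 * gam (2 * i + 3) (i + 1) + 16 * gam (2 * i + 2) i := by
        rw [E2, mul_div_cancel₀ _ (by positivity)]
        have q1 : 0 ≤ 4 * ((i : ℚ) + 1) * gam (2 * i + 2) (i + 1) := mul_nonneg (by positivity) g4
        linarith
      have L3 : (2 * (i : ℚ) + 3) * gam (2 * i + 3) (i + 1) +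
          4 * (3 * i + 2) * gam (2 * i + 2) i ≤ (2 * (i : ℚ) + 4) * gam (2 * i + 2 + 2) (i + 1) := by
        rw [E3, mul_div_cancel₀ _ (by positivity)]
        have q1 : 0 ≤ (2 * ((i : ℚ) + 1) ^ 2 + 2 * (i + 1) + (2 * i + 2) + 1) *
          gam (2 * i + 2) (i + 1) := mul_nonneg (by positivity) g4
        linarith
      have L0 : 0 ≤ gam (2 * i + 3 + 2) (i + 2) := le_trans (mul_nonneg (by positivity) g1) L1
      set G5 := gam (2 * i + 3 + 2) (i + 2)
      set G42 := gam (2 * i + 2 + 2) (i + 2)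
      set G41 := gam (2 * i + 2 + 2) (i + 1)
      set x := gam (2 * i + 3) (i + 1)
      set y := gam (2 * i + 2) i
      -- goal: 4 G5 - 4 (i+2) G42 + 16 G41 ≥ 0
      have F1 : 4 * ((i : ℚ) + 2) * G42 ≤ 8 * x + 32 * y := by linarith
      have F2 : 8 * x + 32 * y ≤ 16 * G41 := by
        -- 16 G41 ≥ 8 ((2i+3) x + 4(3i+2) y)/(i+2)
        have hh : 0 < (i : ℚ) + 2 := by positivity
        have F3 : (8 * x + 32 * y) * ((i : ℚ) + 2) ≤ (16 * G41) * ((i : ℚ) + 2) := by
          have p1 : 0 ≤ (i : ℚ) * x := mul_nonneg hi g1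
          have p2 : 0 ≤ (i : ℚ) * y := mul_nonneg hi g2
          nlinarith
        exact le_of_mul_le_mul_right F3 hh
      nlinarith

end Pool.Agent.V11169
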