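import Pool.Agent.V11169.InvB6

set_option autoImplicit false

namespace Pool.Agent.V11169

open Finset

/-- the polynomial of the `<_r`-descent numbers over signed involutions -/
noncomputable def AA (n : ℕ) : Polynomial ℤ :=
  ∑ w ∈ WI n, (Polynomial.X : Polynomial ℤ) ^ (DL w).card

/-- its image in `ℚ⟦X⟧` -/
noncomputable def AS (n : ℕ) : PowerSeries ℚ :=
  ∑ w ∈ WI n, (PowerSeries.X : PowerSeries ℚ) ^ (DL w).card

lemma card_DL_le {n : ℕ} (w : Equiv.Perm (Fin n) × (Fin n → Bool)) : (DL w).card ≤ n := by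
  have := card_le_card (DL_subset w)
  rwa [card_range] at this

lemma AS_mul (n : ℕ) : AS n * ww ^ (n + 1) = CC n := by
  ext m
  unfold AS CC ww
  rw [Finset.sum_mul, map_sum, PowerSeries.coeff_mk, PowerSeries.mk_one_pow_eq_mk_choose_add]
  unfold cP
  rw [← sum_choose_WI]
  push_cast
  refine Finset.sum_congr rfl fun w _ => ?_
  have hd := card_DL_le w
  rw [PowerSeries.coeff_X_pow_mul', PowerSeries.coeff_mk]
  split_ifs with h
  · congr 2
    omega
  · have : m + n - (DL w).card < n := by omega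
    rw [Nat.choose_eq_zero_of_lt this, Nat.cast_zero]

lemma ww_pow_mul (k : ℕ) : ww ^ k * (1 - PowerSeries.X) ^ k = 1 := by
  rw [← mul_pow, ww_mul, one_pow]

lemma AS_eq (n : ℕ) : AS n = ∑ k ∈ range (n / 2 + 1),
    PowerSeries.C (gam n k) * PowerSeries.X ^ k * (1 + PowerSeries.X) ^ (n - 2 * k) := by
  have h1 : AS n = (1 - PowerSeries.X) ^ n * SS (gam n) n := by
    have h2 := AS_mul n
    rw [CC_eq] at h2
    calc AS n = AS n * (ww ^ (n + 1) * (1 - PowerSeries.X) ^ (n + 1)) := by
          rw [ww_pow_mul, mul_one]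
      _ = (AS n * ww ^ (n + 1)) * (1 - PowerSeries.X) ^ (n + 1) := by ring
      _ = (ww * SS (gam n) n) * (1 - PowerSeries.X) ^ (n + 1) := by rw [h2]
      _ = (ww * (1 - PowerSeries.X)) * ((1 - PowerSeries.X) ^ n * SS (gam n) n) := by ring
      _ = (1 - PowerSeries.X) ^ n * SS (gam n) n := by rw [ww_mul, one_mul]
  rw [h1]
  unfold SS
  rw [Finset.mul_sum]
  have h3 : range (n / 2 + 1) ⊆ range (n + 1) := by
    intro k hk
    rw [mem_range] at hk ⊢
    omega
  rw [← Finset.sum_subset h3]
  · refine Finset.sum_congr rfl fun k hk => ?_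
    rw [mem_range] at hk
    have hk2 : 2 * k ≤ n := by omega
    obtain ⟨e, rfl⟩ : ∃ e, n = 2 * k + e := ⟨n - 2 * k, by omega⟩
    have he : 2 * k + e - 2 * k = e := by omega
    rw [he]
    unfold vv uu
    calc (1 - PowerSeries.X) ^ (2 * k + e) * (PowerSeries.C (gam (2 * k + e) k) *
          ((PowerSeries.X * ww ^ 2) ^ k * ((1 + PowerSeries.X) * ww) ^ e)) =
        (ww ^ (2 * k + e) * (1 - PowerSeries.X) ^ (2 * k + e)) *
          (PowerSeries.C (gam (2 * k + e) k) * PowerSeries.X ^ k * (1 + PowerSeries.X) ^ e) := by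
          rw [mul_pow, mul_pow, ← pow_mul, pow_add ww]; ring
      _ = _ := by rw [ww_pow_mul, one_mul]
  · intro k hk hk2
    rw [mem_range] at hk hk2
    rw [gam_zero_of_lt n k (by omega)]
    simp

lemma coeff_AS (n k : ℕ) : PowerSeries.coeff k (AS n) =
    (((WI n).filter fun w => (DL w).card = k).card : ℚ) := by
  unfold AS
  rw [map_sum]
  simp only [PowerSeries.coeff_X_pow]
  rw [Finset.card_filter]
  push_cast
  refine Finset.sum_congr rfl fun w _ => ?_
  by_cases h : (DL w).card = k
  · rw [if_pos h, if_pos h.symm]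
  · rw [if_neg h, if_neg (fun h' => h h'.symm)]

lemma coeff_term (c : ℚ) (j e k : ℕ) :
    PowerSeries.coeff k (PowerSeries.C c * PowerSeries.X ^ j * (1 + PowerSeries.X) ^ e) =
      if j ≤ k then c * (e.choose (k - j) : ℚ) else 0 := by
  rw [mul_assoc, PowerSeries.coeff_C_mul, PowerSeries.coeff_X_pow_mul']
  split_ifs with h
  · congr 1
    have h1 : ((1 : PowerSeries ℚ) + PowerSeries.X) ^ e =
        (((1 + Polynomial.X) ^ e : Polynomial ℚ) : PowerSeries ℚ) := by
      push_cast
      rfl
    rw [h1, Polynomial.coeff_coe, Polynomial.coeff_one_add_X_pow]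
  · rw [mul_zero]

lemma gam_int (n : ℕ) : ∀ k : ℕ, ∃ z : ℤ, gam n k = z := by
  intro k
  induction k using Nat.strong_induction_on with
  | _ k ih =>
  rcases Nat.lt_or_ge n (2 * k) with h | h
  · exact ⟨0, by rw [gam_zero_of_lt n k h, Int.cast_zero]⟩
  have h1 := congrArg (PowerSeries.coeff k) (AS_eq n)
  rw [coeff_AS, map_sum] at h1
  simp only [coeff_term] at h1
  have h2 : range (k + 1) ⊆ range (n / 2 + 1) := by
    intro j hj
    rw [mem_range] at hj ⊢
    omega
  rw [← Finset.sum_subset h2 (by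
    intro j _ hj
    rw [mem_range] at hj
    rw [if_neg (by omega)]), Finset.sum_range_succ, if_pos le_rfl, Nat.sub_self,
    Nat.choose_zero_right, Nat.cast_one, mul_one] at h1
  choose! g hg using ih
  have h3 : ∑ j ∈ range k, (if j ≤ k then gam n j * ((n - 2 * j).choose (k - j) : ℚ) else 0) =
      ((∑ j ∈ range k, g j * ((n - 2 * j).choose (k - j) : ℤ) : ℤ) : ℚ) := by
    push_cast
    refine Finset.sum_congr rfl fun j hj => ?_
    rw [mem_range] at hj
    rw [if_pos (by omega), hg j hj]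
  rw [h3] at h1
  refine ⟨(((WI n).filter fun w => (DL w).card = k).card : ℤ) -
    ∑ j ∈ range k, g j * ((n - 2 * j).choose (k - j) : ℤ), ?_⟩
  push_cast
  push_cast at h1
  linarith

/-- gamma-positivity for the `<_r`-descent numbers -/
theorem AA_gamma (n : ℕ) : ∃ γ : ℕ → ℕ, AA n = ∑ i ∈ range (n / 2 + 1),
    Polynomial.C (γ i : ℤ) * Polynomial.X ^ i * (1 + Polynomial.X) ^ (n - 2 * i) := by
  choose g hg using gam_int n
  have hpos : ∀ k, 0 ≤ g k := by
    intro k
    have := gam_nonneg n k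
    rw [hg] at this
    exact_mod_cast this
  refine ⟨fun k => (g k).toNat, ?_⟩
  apply Polynomial.map_injective (Int.castRingHom ℚ) (RingHom.injective_int _)
  apply Polynomial.coe_injective
  have h1 : ((Polynomial.map (Int.castRingHom ℚ) (AA n) : Polynomial ℚ) : PowerSeries ℚ) = AS n := by
    unfold AA AS
    rw [Polynomial.map_sum]
    simp only [Polynomial.map_pow, Polynomial.map_X]
    rw [← Polynomial.coeToPowerSeries.ringHom_apply, map_sum]
    simp
  rw [h1, AS_eq]
  rw [Polynomial.map_sum, ← Polynomial.coeToPowerSeries.ringHom_apply, map_sum]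
  refine Finset.sum_congr rfl fun k _ => ?_
  have h2 : ((g k).toNat : ℤ) = g k := Int.toNat_of_nonneg (hpos k)
  simp only [h2, hg]
  simp
  left
  rw [← Polynomial.coeToPowerSeries.ringHom_apply, map_intCast]

end Pool.Agent.V11169
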