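import Mathlib

set_option autoImplicit false

namespace Pool.Agent.V11169.Simsun

open Finset

/-- alternating sums of a decreasing nonnegative sequence -/
lemma alt_bound (m : ℕ) : ∀ f : ℕ → ℤ, (∀ t, t + 1 < m + 1 → f (t + 1) ≤ f t) → (∀ t, 0 ≤ f t) →
    0 ≤ ∑ t ∈ range (m + 1), (-1 : ℤ) ^ t * f t ∧ ∑ t ∈ range (m + 1), (-1 : ℤ) ^ t * f t ≤ f 0 := by
  induction m with
  | zero =>
    intro f _ h0
    simp [h0 0]
  | succ m ih =>
    intro f h1 h0
    rw [Finset.sum_range_succ']
    have h2 := ih (fun t => f (t + 1)) (fun t ht => h1 (t + 1) (by omega)) (fun t => h0 (t + 1))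
    have h3 : ∑ t ∈ range (m + 1), (-1 : ℤ) ^ (t + 1) * f (t + 1) =
        -∑ t ∈ range (m + 1), (-1 : ℤ) ^ t * f (t + 1) := by
      rw [← Finset.sum_neg_distrib]
      refine Finset.sum_congr rfl fun t _ => ?_
      rw [pow_succ]; ring
    rw [h3]
    have h4 := h1 0 (by omega)
    simp only [pow_zero, one_mul]
    obtain ⟨h5, h6⟩ := h2
    simp only [zero_add] at h6 h4
    constructor <;> linarith

lemma alt_bound2 (m : ℕ) (f : ℕ → ℤ) (h1 : ∀ t, t + 1 < m + 2 → f (t + 1) ≤ f t)
    (h0 : ∀ t, 0 ≤ f t) : f 0 - f 1 ≤ ∑ t ∈ range (m + 2), (-1 : ℤ) ^ t * f t := by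
  rw [Finset.sum_range_succ']
  have h2 := alt_bound m (fun t => f (t + 1)) (fun t ht => h1 (t + 1) (by omega))
    (fun t => h0 (t + 1))
  have h3 : ∑ t ∈ range (m + 1), (-1 : ℤ) ^ (t + 1) * f (t + 1) =
      -∑ t ∈ range (m + 1), (-1 : ℤ) ^ t * f (t + 1) := by
    rw [← Finset.sum_neg_distrib]
    refine Finset.sum_congr rfl fun t _ => ?_
    rw [pow_succ]; ring
  rw [h3]
  simp only [pow_zero, one_mul]
  obtain ⟨h5, h6⟩ := h2
  simp only [zero_add] at h6
  linarith

/-- `P C(A+P,P) = (A+P) C(A+P-1,P-1)` -/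
lemma choose_rel (A P : ℕ) : (P + 1) * (A + (P + 1)).choose (P + 1) =
    (A + (P + 1)) * (A + P).choose P := by
  have := Nat.add_one_mul_choose_eq (A + P) P
  rw [show A + (P + 1) = A + P + 1 by ring]
  linarith

lemma two_choose (k : ℕ) : 2 * k.choose 2 = k * (k - 1) := by
  rw [Nat.choose_two_right]
  have h : 2 ∣ k * (k - 1) := by
    rcases Nat.eq_zero_or_pos k with h | h
    · subst h; simp
    · obtain ⟨m, rfl⟩ : ∃ m, k = m + 1 := ⟨k - 1, by omega⟩
      rw [Nat.add_sub_cancel, mul_comm]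
      exact even_iff_two_dvd.mp (Nat.even_mul_succ_self m)
  exact Nat.mul_div_cancel' h

set_option maxHeartbeats 2000000 in
/-- the key coefficient inequality -/
lemma key_ineq (n i t k : ℕ) (ht : 1 ≤ t) (hi : 2 * t + 2 ≤ i) (hin : i ≤ n) (hk : k ≤ i)
    (hkN : k + 1 ≤ n - t) (hk2 : 2 ≤ k) :
    4 * ((2 * n - 2 * i + (i - k)).choose (i - k) * k.choose (i - 2 * t - 2)) ≤
      2 * ((2 * n - 2 * i + (i - k)).choose (i - k) * k.choose (i - 2 * t) * k.choose 2) +
      (if k + 1 ≤ i then 2 * ((2 * n - 2 * i + (i - k - 1)).choose (i - k - 1) *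
        (k + 1).choose (i - 2 * t) * (k * (2 * (n - t) - 2 * k - 1))) else 0) +
      (if k + 2 ≤ i ∧ k + 2 < n - t then (2 * n - 2 * i + (i - k - 2)).choose (i - k - 2) *
        (k + 2).choose (i - 2 * t) * (2 * (n - t) - 2 * k - 2).choose 2 else 0) := by
  obtain ⟨s, hs⟩ : ∃ s, i - 2 * t = s + 2 := ⟨i - 2 * t - 2, by omega⟩
  rw [hs]
  have e1 : s + 2 - 2 = s := by omega
  rw [e1]
  set W := (2 * n - 2 * i + (i - k)).choose (i - k) with hW
  rcases Nat.lt_or_ge (s + 2) k with h | h
  · -- k ≥ s + 3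
    have h1 := Nat.choose_succ_right_eq k s
    have h2 := Nat.choose_succ_right_eq k (s + 1)
    obtain ⟨d, rfl⟩ : ∃ d, k = s + 3 + d := ⟨k - (s + 3), by omega⟩
    have e2 : s + 3 + d - s = d + 3 := by omega
    have e3 : s + 3 + d - (s + 1) = d + 2 := by omega
    rw [e2] at h1
    rw [e3] at h2
    -- C(k,s+2)(s+2)(s+1) = C(k,s)(d+3)(d+2)
    have h3 : (s + 3 + d).choose (s + 2) * ((s + 2) * (s + 1)) =
        (s + 3 + d).choose s * ((d + 3) * (d + 2)) := by
      calc (s + 3 + d).choose (s + 2) * ((s + 2) * (s + 1)) =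
          ((s + 3 + d).choose (s + 1 + 1) * (s + 1 + 1)) * (s + 1) := by ring_nf
        _ = ((s + 3 + d).choose (s + 1) * (d + 2)) * (s + 1) := by rw [h2]
        _ = ((s + 3 + d).choose (s + 1) * (s + 1)) * (d + 2) := by ring
        _ = _ := by rw [h1]; ring
    have h4 := two_choose (s + 3 + d)
    have e4 : s + 3 + d - 1 = s + 2 + d := by omega
    rw [e4] at h4
    have h5 : 4 * (s + 3 + d).choose s ≤ (s + 3 + d).choose (s + 2) * ((s + 3 + d) * (s + 2 + d)) := by
      have h6 : 6 * (s + 3 + d).choose s ≤ (s + 3 + d).choose s * ((d + 3) * (d + 2)) := by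
        have : 6 ≤ (d + 3) * (d + 2) := by nlinarith
        calc 6 * (s + 3 + d).choose s = (s + 3 + d).choose s * 6 := by ring
          _ ≤ _ := Nat.mul_le_mul_left _ this
      have h7 : (s + 3 + d).choose (s + 2) * ((s + 2) * (s + 1)) ≤
          (s + 3 + d).choose (s + 2) * ((s + 3 + d) * (s + 2 + d)) := by
        apply Nat.mul_le_mul_left
        nlinarith
      rw [h3] at h7
      omega
    calc 4 * (W * (s + 3 + d).choose s) = W * (4 * (s + 3 + d).choose s) := by ring
      _ ≤ W * ((s + 3 + d).choose (s + 2) * ((s + 3 + d) * (s + 2 + d))) :=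
          Nat.mul_le_mul_left _ h5
      _ = 2 * (W * (s + 3 + d).choose (s + 2) * (s + 3 + d).choose 2) := by rw [← h4]; ring
      _ ≤ _ := by omega
  rcases Nat.lt_or_ge k (s + 2) with h' | h'
  swap
  · -- k = s + 2
    have hk' : k = s + 2 := by omega
    have hP : i - k = 2 * t := by omega
    obtain ⟨r, hr⟩ : ∃ r, 2 * t = r + 1 := ⟨2 * t - 1, by omega⟩
    have h1 : k + 1 ≤ i := by omega
    rw [if_pos h1]
    have h2 := choose_rel (2 * n - 2 * i) r
    rw [← hr, ← hP] at h2
    have e5 : i - k - 1 = r := by omega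
    rw [e5, ← hk', Nat.choose_self]
    have e6 : (k + 1).choose k = k + 1 := Nat.choose_succ_self_right k
    have e7 : k.choose s = k.choose 2 := by
      rw [← Nat.choose_symm (show 2 ≤ k by omega)]
      congr 1
      omega
    rw [e6, e7]
    have h3 := two_choose k
    have e8 : 2 * n - 2 * i + (i - k) = 2 * (n - t) - 2 * k := by omega
    rw [← hW, e8] at h2
    set V := (2 * n - 2 * i + r).choose r
    obtain ⟨a, ha⟩ : ∃ a, 2 * (n - t) - 2 * k - 1 = a + 1 := ⟨2 * (n - t) - 2 * k - 2, by omega⟩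
    have ha2 : 2 * (n - t) - 2 * k = a + 2 := by omega
    rw [ha]
    rw [ha2, hP] at h2
    obtain ⟨q, rfl⟩ : ∃ q, k = q + 1 := ⟨k - 1, by omega⟩
    rw [Nat.add_sub_cancel] at h3
    have h4 : W * ((q + 1) * q) ≤ 2 * (V * (q + 1 + 1) * ((q + 1) * (a + 1))) := by
      have h5 : 2 * t * (W * ((q + 1) * q)) ≤ 2 * t * (2 * (V * (q + 1 + 1) * ((q + 1) * (a + 1)))) := by
        calc 2 * t * (W * ((q + 1) * q)) = (2 * t * W) * ((q + 1) * q) := by ring
          _ = ((a + 2) * V) * ((q + 1) * q) := by rw [h2]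
          _ = V * (q + 1) * ((a + 2) * q) := by ring
          _ ≤ V * (q + 1) * (2 * t * (2 * ((q + 1 + 1) * (a + 1)))) := by
            apply Nat.mul_le_mul_left
            calc (a + 2) * q ≤ 2 * (2 * ((q + 1 + 1) * (a + 1))) := by nlinarith
              _ ≤ 2 * t * (2 * ((q + 1 + 1) * (a + 1))) := by
                apply Nat.mul_le_mul_right
                omega
          _ = _ := by ring
      exact Nat.le_of_mul_le_mul_left h5 (by omega)
    have h6 : 2 * (W * (q + 1).choose 2) = W * ((q + 1) * q) := by rw [← h3]; ring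
    have h7 : 2 * (W * 1 * (q + 1).choose 2) = W * ((q + 1) * q) := by rw [← h3]; ring
    have h8 : 4 * (W * (q + 1).choose 2) = W * ((q + 1) * q) + W * ((q + 1) * q) := by
      rw [← h6]; ring
    rw [h7, h8]
    omega
  rcases Nat.lt_or_ge k (s + 1) with h'' | h''
  swap
  · -- k = s + 1
    have hk' : k = s + 1 := by omega
    have hP : i - k = 2 * t + 1 := by omega
    have h1 : k + 1 ≤ i := by omega
    rw [if_pos h1]
    have h2 := choose_rel (2 * n - 2 * i) (2 * t)
    rw [← hP] at h2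
    have e5 : i - k - 1 = 2 * t := by omega
    have e6 : (k + 1).choose (s + 2) = 1 := by rw [hk', Nat.choose_self]
    have e7 : k.choose s = k := by rw [hk']; exact Nat.choose_succ_self_right s
    rw [e5, e6, e7]
    have e8 : 2 * n - 2 * i + (i - k) = 2 * (n - t) - 2 * k - 1 := by omega
    rw [← hW, e8, hP] at h2
    set V := (2 * n - 2 * i + 2 * t).choose (2 * t)
    have h4 : 4 * (W * k) ≤ 2 * (V * 1 * (k * (2 * (n - t) - 2 * k - 1))) := by
      calc 4 * (W * k) ≤ 2 * k * ((2 * t + 1) * W) := by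
            have : 4 * (W * k) = 2 * k * (2 * W) := by ring
            rw [this]
            apply Nat.mul_le_mul_left
            apply Nat.mul_le_mul_right
            omega
        _ = 2 * k * ((2 * (n - t) - 2 * k - 1) * V) := by rw [h2]
        _ = _ := by ring
    omega
  rcases Nat.lt_or_ge k s with h''' | h'''
  · rw [Nat.choose_eq_zero_of_lt h''']
    simp
  · -- k = s
    have hk' : k = s := by omega
    have hP : i - k = 2 * t + 2 := by omega
    have h1 := choose_rel (2 * n - 2 * i) (2 * t + 1)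
    have h2 := choose_rel (2 * n - 2 * i) (2 * t)
    have e8 : 2 * n - 2 * i + (2 * t + 1 + 1) = 2 * (n - t) - 2 * k - 2 := by omega
    have e9 : 2 * n - 2 * i + (2 * t + 1) = 2 * (n - t) - 2 * k - 3 := by omega
    have hbig : k + 2 < n - t := by omega
    rw [if_pos (show k + 2 ≤ i ∧ k + 2 < n - t from ⟨by omega, hbig⟩)]
    have e5 : i - k - 2 = 2 * t := by omega
    have e6 : (k + 2).choose (s + 2) = 1 := by rw [hk', Nat.choose_self]
    have e7 : k.choose s = 1 := by rw [hk', Nat.choose_self]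
    rw [e5, e6, e7]
    have h3 := two_choose (2 * (n - t) - 2 * k - 2)
    have e10 : 2 * (n - t) - 2 * k - 2 - 1 = 2 * (n - t) - 2 * k - 3 := by omega
    rw [e10] at h3
    have hW' : W = (2 * n - 2 * i + (2 * t + 1 + 1)).choose (2 * t + 1 + 1) := by rw [hW, hP]
    rw [← hW', e8] at h1
    rw [e9] at h2 h1
    clear_value W
    have fin : ∀ W V V1 X Y C2 : ℕ, (2 * t + 1 + 1) * W = X * V1 → (2 * t + 1) * V1 = Y * V →
        2 * C2 = X * Y → 4 * (W * 1) ≤ V * 1 * C2 := by
      intro W V V1 X Y C2 g1 g2 g3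
      have h4 : 2 * (4 * (W * 1)) ≤ 2 * (V * 1 * C2) := by
        calc 2 * (4 * (W * 1)) = 8 * W := by ring
          _ ≤ ((2 * t + 1) * (2 * t + 1 + 1)) * W := by
              apply Nat.mul_le_mul_right
              nlinarith
          _ = (2 * t + 1) * ((2 * t + 1 + 1) * W) := by ring
          _ = (2 * t + 1) * (X * V1) := by rw [g1]
          _ = X * ((2 * t + 1) * V1) := by ring
          _ = X * (Y * V) := by rw [g2]
          _ = V * (X * Y) := by ring
          _ = V * (2 * C2) := by rw [g3]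
          _ = _ := by ring
      omega
    have := fin _ _ _ _ _ _ h1 h2 h3
    omega

end Pool.Agent.V11169.Simsun
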