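import Pool.Agent.V11169.Simsun

set_option autoImplicit false

namespace Pool.Agent.V11169.Simsun

open Finset

/-- the contribution of `b _ (n - t)` -/
def TT (b : ℕ → ℕ → ℤ) (n t i : ℕ) : ℤ := ∑ k ∈ range (i + 1),
  (((2 * n - 2 * i + (i - k)).choose (i - k) * k.choose (i - 2 * t) : ℕ) : ℤ) * b k (n - t)

/-- lower bound for a row in terms of the previous row -/
def HH (b : ℕ → ℕ → ℤ) (N : ℕ) : Prop := ∀ k : ℕ,
  ((2 * k.choose 2 : ℕ) : ℤ) * b k (N - 1) +
    (2 * ((k : ℤ) - 1) * (2 * (N : ℤ) - 2 * k + 1)) * b (k - 1) (N - 1) +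
    (if k < N then (((2 * N - 2 * k + 2).choose 2 : ℕ) : ℤ) else 0) * b (k - 2) (N - 1) ≤
    4 * b k N

lemma shift_sum (i d : ℕ) (F : ℕ → ℤ) (h : ∀ k < d, F k = 0) :
    ∑ k ∈ range (i + 1), F k = ∑ k ∈ range (i + 1), if k + d ≤ i then F (k + d) else 0 := by
  rw [← Finset.sum_filter, ← Finset.sum_filter_add_sum_filter_not (range (i + 1)) (fun k => d ≤ k)]
  have h1 : ∑ k ∈ (range (i + 1)).filter (fun k => ¬ d ≤ k), F k = 0 := by
    apply Finset.sum_eq_zero
    intro k hk
    rw [mem_filter] at hk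
    exact h k (by omega)
  rw [h1, add_zero]
  refine Finset.sum_nbij' (fun k => k - d) (fun k => k + d) ?_ ?_ ?_ ?_ ?_
  · intro k hk
    rw [mem_filter, mem_range] at hk ⊢
    omega
  · intro k hk
    rw [mem_filter, mem_range] at hk ⊢
    omega
  · intro k hk
    rw [mem_filter, mem_range] at hk
    omega
  · intro k hk
    omega
  · intro k hk
    rw [mem_filter, mem_range] at hk
    congr 1
    omega

variable (b : ℕ → ℕ → ℤ)

lemma TB (hb0 : ∀ i n : ℕ, ¬ (2 ≤ i ∧ i ≤ n) → b i n = 0) (n t i : ℕ) (ht : 1 ≤ t)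
    (hi : 2 * t + 2 ≤ i) (hin : i ≤ n) (hN : HH b (n - t)) (hnn : ∀ k, 0 ≤ b k (n - t - 1)) :
    TT b n (t + 1) i ≤ TT b n t i := by
  set N := n - t with hNdef
  have hN1 : n - (t + 1) = N - 1 := by omega
  have h4 : 4 * TT b n (t + 1) i ≤ 4 * TT b n t i := by
    unfold TT
    rw [hN1, Finset.mul_sum, Finset.mul_sum]
    set c : ℕ → ℕ := fun k => (2 * n - 2 * i + (i - k)).choose (i - k) * k.choose (i - 2 * t) with hc
    have step1 : ∑ k ∈ range (i + 1), (c k : ℤ) * (((2 * k.choose 2 : ℕ) : ℤ) * b k (N - 1) +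
        (2 * ((k : ℤ) - 1) * (2 * (N : ℤ) - 2 * k + 1)) * b (k - 1) (N - 1) +
        (if k < N then (((2 * N - 2 * k + 2).choose 2 : ℕ) : ℤ) else 0) * b (k - 2) (N - 1)) ≤
        ∑ k ∈ range (i + 1), 4 * ((c k : ℤ) * b k N) := by
      refine Finset.sum_le_sum fun k _ => ?_
      have := mul_le_mul_of_nonneg_left (hN k) (Int.natCast_nonneg (c k))
      linarith
    refine le_trans ?_ step1
    have split : ∑ k ∈ range (i + 1), (c k : ℤ) * (((2 * k.choose 2 : ℕ) : ℤ) * b k (N - 1) +
        (2 * ((k : ℤ) - 1) * (2 * (N : ℤ) - 2 * k + 1)) * b (k - 1) (N - 1) +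
        (if k < N then (((2 * N - 2 * k + 2).choose 2 : ℕ) : ℤ) else 0) * b (k - 2) (N - 1)) =
        ∑ k ∈ range (i + 1), (c k : ℤ) * (((2 * k.choose 2 : ℕ) : ℤ) * b k (N - 1)) +
        ∑ k ∈ range (i + 1), (c k : ℤ) * ((2 * ((k : ℤ) - 1) * (2 * (N : ℤ) - 2 * k + 1)) *
          b (k - 1) (N - 1)) +
        ∑ k ∈ range (i + 1), (c k : ℤ) * ((if k < N then (((2 * N - 2 * k + 2).choose 2 : ℕ) : ℤ)
          else 0) * b (k - 2) (N - 1)) := by
      rw [← Finset.sum_add_distrib, ← Finset.sum_add_distrib]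
      refine Finset.sum_congr rfl fun k _ => ?_
      rw [mul_add, mul_add]
    rw [split, shift_sum i 1 (fun k => (c k : ℤ) * ((2 * ((k : ℤ) - 1) * (2 * (N : ℤ) - 2 * k + 1)) *
        b (k - 1) (N - 1))) (by
          intro k hk
          have : k = 0 := by omega
          subst this
          rw [hb0 (0 - 1) _ (by omega)]; ring),
      shift_sum i 2 (fun k => (c k : ℤ) * ((if k < N then (((2 * N - 2 * k + 2).choose 2 : ℕ) : ℤ)
        else 0) * b (k - 2) (N - 1))) (by
          intro k hk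
          rw [hb0 (k - 2) _ (by omega)]; ring),
      ← Finset.sum_add_distrib, ← Finset.sum_add_distrib]
    refine Finset.sum_le_sum fun k hk => ?_
    rw [mem_range] at hk
    by_cases hk2 : 2 ≤ k ∧ k ≤ N - 1
    · have key := key_ineq n i t k ht hi hin (by omega) (by omega) hk2.1
      have key' : (4 * (((2 * n - 2 * i + (i - k)).choose (i - k) * k.choose (i - 2 * t - 2) : ℕ) : ℤ)) ≤
          (c k : ℤ) * ((2 * k.choose 2 : ℕ) : ℤ) +
          (if k + 1 ≤ i then (c (k + 1) : ℤ) *
            (2 * (((k + 1 : ℕ) : ℤ) - 1) * (2 * (N : ℤ) - 2 * ((k + 1 : ℕ) : ℤ) + 1)) else 0) +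
          (if k + 2 ≤ i then (c (k + 2) : ℤ) *
            (if k + 2 < N then (((2 * N - 2 * (k + 2) + 2).choose 2 : ℕ) : ℤ) else 0) else 0) := by
        have k2 : ((4 * ((2 * n - 2 * i + (i - k)).choose (i - k) * k.choose (i - 2 * t - 2)) : ℕ) : ℤ)
            ≤ ((2 * ((2 * n - 2 * i + (i - k)).choose (i - k) * k.choose (i - 2 * t) * k.choose 2) +
          (if k + 1 ≤ i then 2 * ((2 * n - 2 * i + (i - k - 1)).choose (i - k - 1) *
            (k + 1).choose (i - 2 * t) * (k * (2 * (n - t) - 2 * k - 1))) else 0) +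
          (if k + 2 ≤ i ∧ k + 2 < n - t then (2 * n - 2 * i + (i - k - 2)).choose (i - k - 2) *
            (k + 2).choose (i - 2 * t) * (2 * (n - t) - 2 * k - 2).choose 2 else 0) : ℕ) : ℤ) := by
          exact_mod_cast key
        refine le_trans (le_of_eq (by push_cast; ring)) (le_trans k2 (le_of_eq ?_))
        push_cast
        congr 1
        · congr 1
          · simp only [hc]; push_cast; ring
          · split_ifs with h1
            · simp only [hc]
              have e1 : i - (k + 1) = i - k - 1 := by omega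
              have e2 : ((2 * (n - t) - 2 * k - 1 : ℕ) : ℤ) = 2 * (N : ℤ) - 2 * ((k : ℤ) + 1) + 1 := by
                omega
              rw [e1, e2]
              push_cast
              ring
            · rfl
        · by_cases h1 : k + 2 ≤ i
          · rw [if_pos h1]
            by_cases h2 : k + 2 < n - t
            · rw [if_pos ⟨h1, h2⟩, if_pos h2]
              simp only [hc]
              have e1 : i - (k + 2) = i - k - 2 := by omega
              have e2 : 2 * N - 2 * (k + 2) + 2 = 2 * (n - t) - 2 * k - 2 := by omega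
              rw [e1, e2]
              push_cast
              ring
            · rw [if_neg (fun h => h2 h.2), if_neg h2]
              ring
          · rw [if_neg h1, if_neg (fun h => h1 h.1)]
      have h5 := mul_le_mul_of_nonneg_right key' (hnn k)
      have e0 : i - 2 * (t + 1) = i - 2 * t - 2 := by omega
      have e3 : k + 1 - 1 = k := by omega
      have e4 : k + 2 - 2 = k := by omega
      rw [e0]
      simp only [e3, e4]
      refine le_trans (le_of_eq (by ring)) (le_trans h5 (le_of_eq ?_))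
      rw [add_mul, add_mul]
      congr 1
      · congr 1
        · ring
        · split_ifs <;> ring
      · split_ifs <;> ring
    · have hz : b k (N - 1) = 0 := hb0 _ _ hk2
      have e3 : k + 1 - 1 = k := by omega
      have e4 : k + 2 - 2 = k := by omega
      simp only [e3, e4, hz, mul_zero, ite_self, add_zero, le_refl]
  linarith

lemma TT_one (n j : ℕ) : TT b n 1 (j + 2) =
    ((j + 2).choose 2 : ℕ) * b (j + 2) (n - 1) +
    ((2 * n - 2 * (j + 2) + 1 : ℕ) : ℤ) * (j + 1) * b (j + 1) (n - 1) +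
    ((2 * n - 2 * (j + 2) + 2).choose 2 : ℕ) * b j (n - 1) := by
  unfold TT
  have e0 : j + 2 - 2 * 1 = j := by omega
  rw [e0, Finset.sum_range_succ, Finset.sum_range_succ, Finset.sum_range_succ]
  have h0 : ∑ k ∈ range j, (((2 * n - 2 * (j + 2) + (j + 2 - k)).choose (j + 2 - k) * k.choose j : ℕ) : ℤ)
      * b k (n - 1) = 0 := by
    apply Finset.sum_eq_zero
    intro k hk
    rw [mem_range] at hk
    rw [Nat.choose_eq_zero_of_lt hk]
    simp
  rw [h0]
  have e1 : j + 2 - j = 2 := by omega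
  have e2 : j + 2 - (j + 1) = 1 := by omega
  have e3 : j + 2 - (j + 2) = 0 := by omega
  have e4 : (j + 2).choose j = (j + 2).choose 2 := by
    rw [← Nat.choose_symm (show 2 ≤ j + 2 by omega)]
    congr 1
  have e5 : (j + 1).choose j = j + 1 := Nat.choose_succ_self_right j
  rw [e1, e2, e3, e4, e5, Nat.choose_self, Nat.choose_one_right, Nat.choose_zero_right]
  push_cast
  ring

lemma TT_two (n j : ℕ) : TT b n 2 (j + 4) =
    ((j + 4).choose 4 : ℕ) * b (j + 4) (n - 2) +
    ((2 * n - 2 * (j + 4) + 1 : ℕ) : ℤ) * ((j + 3).choose 3 : ℕ) * b (j + 3) (n - 2) +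
    ((2 * n - 2 * (j + 4) + 2).choose 2 : ℕ) * ((j + 2).choose 2 : ℕ) * b (j + 2) (n - 2) +
    ((2 * n - 2 * (j + 4) + 3).choose 3 : ℕ) * ((j : ℤ) + 1) * b (j + 1) (n - 2) +
    ((2 * n - 2 * (j + 4) + 4).choose 4 : ℕ) * b j (n - 2) := by
  unfold TT
  have e0 : j + 4 - 2 * 2 = j := by omega
  rw [e0, Finset.sum_range_succ, Finset.sum_range_succ, Finset.sum_range_succ,
    Finset.sum_range_succ, Finset.sum_range_succ]
  have h0 : ∑ k ∈ range j, (((2 * n - 2 * (j + 4) + (j + 4 - k)).choose (j + 4 - k) * k.choose j : ℕ) : ℤ)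
      * b k (n - 2) = 0 := by
    apply Finset.sum_eq_zero
    intro k hk
    rw [mem_range] at hk
    rw [Nat.choose_eq_zero_of_lt hk]
    simp
  rw [h0]
  have e1 : j + 4 - j = 4 := by omega
  have e2 : j + 4 - (j + 1) = 3 := by omega
  have e3 : j + 4 - (j + 2) = 2 := by omega
  have e4 : j + 4 - (j + 3) = 1 := by omega
  have e5 : j + 4 - (j + 4) = 0 := by omega
  have f5 : (j + 1).choose j = j + 1 := Nat.choose_succ_self_right j
  have f4 : (j + 2).choose j = (j + 2).choose 2 := by
    rw [← Nat.choose_symm (show 2 ≤ j + 2 by omega)]; congr 1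
  have f3 : (j + 3).choose j = (j + 3).choose 3 := by
    rw [← Nat.choose_symm (show 3 ≤ j + 3 by omega)]; congr 1
  have f2 : (j + 4).choose j = (j + 4).choose 4 := by
    rw [← Nat.choose_symm (show 4 ≤ j + 4 by omega)]; congr 1
  rw [e1, e2, e3, e4, e5, f2, f3, f4, f5, Nat.choose_self, Nat.choose_one_right,
    Nat.choose_zero_right]
  push_cast
  ring

end Pool.Agent.V11169.Simsun
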