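import Pool.Agent.V11169.Simsun2

set_option autoImplicit false

namespace Pool.Agent.V11169.Simsun

open Finset

lemma caseA0 (j x1 x2 y2 y3 y4 : ℚ) (hj : 0 ≤ j) (h2 : 0 ≤ y2) (h3 : 0 ≤ y3) (h4 : 0 ≤ y4)
    (g1 : 2 * (j + 2) * y2 ≤ 4 * x1)
    (g2 : (j + 2) * (j + 1) * y2 + 6 * (j + 1) * y3 + 6 * y4 ≤ 4 * x2) :
    2 * (j + 3) * x1 ≤ 4 * ((j + 3) * x1 + x2 - ((j + 2) * (j + 1) / 2 * y2 + (j + 1) * y3 + y4)) := by
  have a1 : 0 ≤ (j + 3) * (4 * x1 - 2 * (j + 2) * y2) := mul_nonneg (by linarith) (by linarith)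
  have key : 2 * (4 * ((j + 3) * x1 + x2 - ((j + 2) * (j + 1) / 2 * y2 + (j + 1) * y3 + y4)) -
      2 * (j + 3) * x1) = (j + 3) * (4 * x1 - 2 * (j + 2) * y2) +
      2 * (4 * x2 - ((j + 2) * (j + 1) * y2 + 6 * (j + 1) * y3 + 6 * y4)) +
      (4 * (j + 2) * y2 + 4 * (j + 1) * y3 + 4 * y4) := by ring
  have a2 : 0 ≤ 4 * (j + 2) * y2 + 4 * (j + 1) * y3 + 4 * y4 := by positivity
  linarith

lemma caseA1 (j x0 x1 x2 y1 y2 y3 y4 : ℚ) (hj : 0 ≤ j) (h1 : 0 ≤ y1) (h2 : 0 ≤ y2) (h3 : 0 ≤ y3)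
    (h4 : 0 ≤ y4) (g0 : 2 * (j + 3) * y1 ≤ 4 * x0)
    (g1 : (j + 3) * (j + 2) * y1 + 6 * (j + 2) * y2 + 6 * y3 ≤ 4 * x1)
    (g2 : (j + 2) * (j + 1) * y2 + 10 * (j + 1) * y3 + 15 * y4 ≤ 4 * x2) :
    (j + 4) * (j + 3) * x0 + 6 * (j + 3) * x1 + 6 * x2 ≤
      4 * ((j + 4) * (j + 3) / 2 * x0 + 3 * (j + 3) * x1 + 6 * x2 -
        (3 * ((j + 3) * (j + 2) * (j + 1) / 6) * y1 + 6 * ((j + 2) * (j + 1) / 2) * y2 +
          10 * (j + 1) * y3 + 15 * y4)) := by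
  have a0 : 0 ≤ (j + 4) * (j + 3) * (4 * x0 - 2 * (j + 3) * y1) :=
    mul_nonneg (by positivity) (by linarith)
  have a1 : 0 ≤ 6 * (j + 3) * (4 * x1 - ((j + 3) * (j + 2) * y1 + 6 * (j + 2) * y2 + 6 * y3)) :=
    mul_nonneg (by positivity) (by linarith)
  have a2 : 0 ≤ 18 * (4 * x2 - ((j + 2) * (j + 1) * y2 + 10 * (j + 1) * y3 + 15 * y4)) :=
    mul_nonneg (by positivity) (by linarith)
  have b1 : 0 ≤ ((j + 4) * (j + 3) * (2 * (j + 3)) + 6 * (j + 3) * ((j + 3) * (j + 2)) -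
      8 * ((j + 3) * (j + 2) * (j + 1))) := by ring_nf; positivity
  have b2 : 0 ≤ (36 * (j + 3) * (j + 2) + 18 * (j + 2) * (j + 1) - 48 * (j + 2) * (j + 1)) := by
    ring_nf; positivity
  have b3 : 0 ≤ (36 * (j + 3) + 180 * (j + 1) - 160 * (j + 1)) := by ring_nf; positivity
  have c1 := mul_nonneg b1 h1
  have c2 := mul_nonneg b2 h2
  have c3 := mul_nonneg b3 h3
  linarith

set_option maxHeartbeats 4000000 in
lemma caseA2 (j e x0 x1 x2 y0 y1 y2 y3 y4 : ℚ) (hj : 0 ≤ j) (he : 0 ≤ e) (h0 : 0 ≤ y0)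
    (h1 : 0 ≤ y1) (h2 : 0 ≤ y2) (h3 : 0 ≤ y3) (h4 : 0 ≤ y4)
    (g0 : (j + 4) * (j + 3) * y0 + 2 * (j + 3) * (2 * e + 3) * y1 + (e + 2) * (2 * e + 3) * y2 ≤ 4 * x0)
    (g1 : (j + 3) * (j + 2) * y1 + 2 * (j + 2) * (2 * e + 5) * y2 + (e + 3) * (2 * e + 5) * y3 ≤ 4 * x1)
    (g2 : (j + 2) * (j + 1) * y2 + 2 * (j + 1) * (2 * e + 7) * y3 + (e + 4) * (2 * e + 7) * y4 ≤
      4 * x2) :
    (j + 4) * (j + 3) * x0 + 2 * (j + 3) * (2 * e + 5) * x1 + (e + 3) * (2 * e + 5) * x2 ≤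
      4 * ((j + 4) * (j + 3) / 2 * x0 + (2 * e + 5) * (j + 3) * x1 + (e + 3) * (2 * e + 5) * x2 -
        ((j + 4) * (j + 3) * (j + 2) * (j + 1) / 24 * y0 +
          (2 * e + 5) * ((j + 3) * (j + 2) * (j + 1) / 6) * y1 +
          (e + 3) * (2 * e + 5) * ((j + 2) * (j + 1) / 2) * y2 +
          (2 * e + 7) * (2 * e + 6) * (2 * e + 5) / 6 * (j + 1) * y3 +
          (2 * e + 8) * (2 * e + 7) * (2 * e + 6) * (2 * e + 5) / 24 * y4)) := by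
  have a0 : 0 ≤ (j + 4) * (j + 3) * (4 * x0 - ((j + 4) * (j + 3) * y0 +
      2 * (j + 3) * (2 * e + 3) * y1 + (e + 2) * (2 * e + 3) * y2)) :=
    mul_nonneg (by positivity) (by linarith)
  have a1 : 0 ≤ 2 * (j + 3) * (2 * e + 5) * (4 * x1 - ((j + 3) * (j + 2) * y1 +
      2 * (j + 2) * (2 * e + 5) * y2 + (e + 3) * (2 * e + 5) * y3)) :=
    mul_nonneg (by positivity) (by linarith)
  have a2 : 0 ≤ 3 * (e + 3) * (2 * e + 5) * (4 * x2 - ((j + 2) * (j + 1) * y2 +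
      2 * (j + 1) * (2 * e + 7) * y3 + (e + 4) * (2 * e + 7) * y4)) :=
    mul_nonneg (by positivity) (by linarith)
  have b0 : 0 ≤ (j + 4) * (j + 3) * ((j + 4) * (j + 3)) -
      2 / 3 * ((j + 4) * (j + 3) * (j + 2) * (j + 1)) := by ring_nf; positivity
  have b1 : 0 ≤ (j + 4) * (j + 3) * (2 * (j + 3) * (2 * e + 3)) +
      2 * (j + 3) * (2 * e + 5) * ((j + 3) * (j + 2)) -
      8 / 3 * ((2 * e + 5) * ((j + 3) * (j + 2) * (j + 1))) := by ring_nf; positivity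
  have b2 : 0 ≤ (j + 4) * (j + 3) * ((e + 2) * (2 * e + 3)) +
      2 * (j + 3) * (2 * e + 5) * (2 * (j + 2) * (2 * e + 5)) +
      3 * (e + 3) * (2 * e + 5) * ((j + 2) * (j + 1)) -
      8 * ((e + 3) * (2 * e + 5) * ((j + 2) * (j + 1))) := by ring_nf; positivity
  have b3 : 0 ≤ 2 * (j + 3) * (2 * e + 5) * ((e + 3) * (2 * e + 5)) +
      3 * (e + 3) * (2 * e + 5) * (2 * (j + 1) * (2 * e + 7)) -
      8 / 3 * ((2 * e + 7) * (2 * e + 6) * (2 * e + 5) * (j + 1)) := by ring_nf; positivity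
  have b4 : 0 ≤ 3 * (e + 3) * (2 * e + 5) * ((e + 4) * (2 * e + 7)) -
      2 / 3 * ((2 * e + 8) * (2 * e + 7) * (2 * e + 6) * (2 * e + 5)) := by ring_nf; positivity
  have c0 := mul_nonneg b0 h0
  have c1 := mul_nonneg b1 h1
  have c2 := mul_nonneg b2 h2
  have c3 := mul_nonneg b3 h3
  have c4 := mul_nonneg b4 h4
  linarith

lemma ch2 (m : ℕ) : (((m + 2).choose 2 : ℕ) : ℚ) = ((m : ℚ) + 2) * (m + 1) / 2 := by
  have := two_choose (m + 2)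
  have e : m + 2 - 1 = m + 1 := by omega
  rw [e] at this
  have h : ((2 * (m + 2).choose 2 : ℕ) : ℚ) = (((m + 2) * (m + 1) : ℕ) : ℚ) := by rw [this]
  push_cast at h ⊢
  linarith

lemma ch3 (m : ℕ) : (((m + 3).choose 3 : ℕ) : ℚ) = ((m : ℚ) + 3) * (m + 2) * (m + 1) / 6 := by
  have h1 := Nat.add_one_mul_choose_eq (m + 2) 2
  have h : (((m + 2 + 1) * (m + 2).choose 2 : ℕ) : ℚ) = (((m + 2 + 1).choose (2 + 1) * (2 + 1) : ℕ) : ℚ) := by
    rw [h1]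
  push_cast at h
  have h2 := ch2 m
  push_cast at h2
  rw [h2] at h
  have e : ((m + 3).choose 3 : ℚ) = ((m + 2 + 1).choose (2 + 1) : ℚ) := rfl
  rw [e]
  linarith

lemma ch4 (m : ℕ) : (((m + 4).choose 4 : ℕ) : ℚ) =
    ((m : ℚ) + 4) * (m + 3) * (m + 2) * (m + 1) / 24 := by
  have h1 := Nat.add_one_mul_choose_eq (m + 3) 3
  have h : (((m + 3 + 1) * (m + 3).choose 3 : ℕ) : ℚ) = (((m + 3 + 1).choose (3 + 1) * (3 + 1) : ℕ) : ℚ) := by
    rw [h1]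
  push_cast at h
  have h2 := ch3 m
  push_cast at h2
  rw [h2] at h
  have e : ((m + 4).choose 4 : ℚ) = ((m + 3 + 1).choose (3 + 1) : ℚ) := rfl
  rw [e]
  linarith

variable (b : ℕ → ℕ → ℤ)

set_option maxHeartbeats 4000000 in
/-- the step for the lower bound -/
lemma HH_step (hb0 : ∀ i n : ℕ, ¬ (2 ≤ i ∧ i ≤ n) → b i n = 0) (n j : ℕ) (hn : j + 4 ≤ n)
    (hnn : ∀ k, 0 ≤ b k (n - 2)) (hN : HH b (n - 1))
    (hb : TT b n 1 (j + 4) - TT b n 2 (j + 4) ≤ b (j + 4) n) :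
    ((2 * (j + 4).choose 2 : ℕ) : ℤ) * b (j + 4) (n - 1) +
    (2 * (((j + 4 : ℕ) : ℤ) - 1) * (2 * (n : ℤ) - 2 * ((j + 4 : ℕ) : ℤ) + 1)) * b (j + 4 - 1) (n - 1) +
    (if j + 4 < n then (((2 * n - 2 * (j + 4) + 2).choose 2 : ℕ) : ℤ) else 0) *
      b (j + 4 - 2) (n - 1) ≤ 4 * b (j + 4) n := by
  rw [show j + 4 = (j + 2) + 2 by ring, TT_one, ← show j + 4 = (j + 2) + 2 by ring, TT_two] at hb
  obtain ⟨d, rfl⟩ : ∃ d, n = j + 4 + d := ⟨n - (j + 4), by omega⟩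
  have hN0 := hN (j + 4)
  have hN1 := hN (j + 3)
  have hN2 := hN (j + 2)
  have s1 : j + 4 + d - 1 - 1 = j + 4 + d - 2 := by omega
  rw [s1] at hN0 hN1 hN2
  have t0 : j + 4 - 1 = j + 3 := by omega
  have t1 : j + 4 - 2 = j + 2 := by omega
  have t2 : j + 3 - 1 = j + 2 := by omega
  have t3 : j + 3 - 2 = j + 1 := by omega
  have t4 : j + 2 - 1 = j + 1 := by omega
  have t5 : j + 2 - 2 = j := by omega
  rw [t0, t1] at hN0
  rw [t2, t3] at hN1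
  rw [t4, t5] at hN2
  rw [t0, t1]
  have u1 : j + 2 + 1 = j + 3 := by ring
  have u2 : 2 * (j + 4 + d) - 2 * (j + 4) = 2 * d := by omega
  rw [u1, u2] at hb
  rw [u2]
  have y0n := hnn (j + 4)
  have y1n := hnn (j + 3)
  have y2n := hnn (j + 2)
  have y3n := hnn (j + 1)
  have y4n := hnn j
  have cj2 := ch2 j
  have cj3 := ch3 j
  have cj4 := ch4 j
  have cj32 := ch2 (j + 1)
  have cj42 := ch2 (j + 2)
  have w1 : j + 1 + 2 = j + 3 := by ring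
  have w2 : j + 2 + 2 = j + 4 := by ring
  rw [w1] at cj32
  rw [w2] at cj42
  rcases d with _ | _ | e
  · -- d = 0
    have z0 : b (j + 4) (j + 4 + 0 - 1) = 0 := hb0 _ _ (by omega)
    have z1 : b (j + 4) (j + 4 + 0 - 2) = 0 := hb0 _ _ (by omega)
    have z2 : b (j + 3) (j + 4 + 0 - 2) = 0 := hb0 _ _ (by omega)
    rw [if_neg (by omega)] at hN1 ⊢
    rw [if_pos (by omega)] at hN2
    rw [z0, z1, z2] at hb
    rw [z2] at hN1
    rw [z0]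
    have v1 : 2 * (j + 4 + 0 - 1) - 2 * (j + 2) + 2 = 4 := by omega
    rw [v1] at hN2
    have k2 : ((4 : ℕ).choose 2) = 6 := by decide
    have k3 : (2 * 0 + 2 : ℕ).choose 2 = 1 := by decide
    have k4 : (2 * 0 + 3 : ℕ).choose 3 = 1 := by decide
    have k5 : (2 * 0 + 4 : ℕ).choose 4 = 1 := by decide
    rw [k2] at hN2
    rw [k3, k4, k5] at hb
    set x1 := b (j + 3) (j + 4 + 0 - 1)
    set x2 := b (j + 2) (j + 4 + 0 - 1)
    set y2 := b (j + 2) (j + 4 + 0 - 2)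
    set y3 := b (j + 1) (j + 4 + 0 - 2)
    set y4 := b j (j + 4 + 0 - 2)
    have cN : ((j + 4 + 0 - 1 : ℕ) : ℤ) = j + 3 := by omega
    rw [cN] at hN1 hN2
    have q1 : ((2 * ((j : ℤ) + 2)) * y2 : ℤ) ≤ 4 * x1 := by
      push_cast at hN1
      linarith
    have q2 : (((2 * (j + 2).choose 2 : ℕ) : ℤ)) * y2 + 6 * (j + 1) * y3 + 6 * y4 ≤ 4 * x2 := by
      push_cast at hN2 ⊢
      linarith
    have q1' : 2 * ((j : ℚ) + 2) * y2 ≤ 4 * x1 := by exact_mod_cast q1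
    have q2' : ((((2 * (j + 2).choose 2 : ℕ) : ℤ) : ℚ)) * y2 + 6 * (j + 1) * y3 + 6 * y4 ≤ 4 * x2 := by
      exact_mod_cast q2
    push_cast at q2' cj2
    rw [cj2] at q2'
    have fin := caseA0 (j : ℚ) x1 x2 y2 y3 y4 (by positivity) (by exact_mod_cast y2n)
      (by exact_mod_cast y3n) (by exact_mod_cast y4n) q1' (by linarith)
    have hbq : ((j : ℚ) + 3) * x1 + x2 - (((j : ℚ) + 2) * (j + 1) / 2 * y2 + (j + 1) * y3 + y4) ≤
        b (j + 4) (j + 4 + 0) := by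
      have h := (Int.cast_le (R := ℚ)).mpr hb
      push_cast at h
      rw [cj2] at h
      linarith
    have goalq : (2 * ((j : ℚ) + 3)) * x1 ≤ 4 * b (j + 4) (j + 4 + 0) := by linarith
    have goalz : (2 * ((j : ℤ) + 3)) * x1 ≤ 4 * b (j + 4) (j + 4 + 0) := by exact_mod_cast goalq
    push_cast
    linarith
  · -- d = 1
    have z1 : b (j + 4) (j + 4 + (0 + 1) - 2) = 0 := hb0 _ _ (by omega)
    rw [if_neg (by omega)] at hN0
    rw [if_pos (by omega)] at hN1 hN2 ⊢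
    rw [z1] at hb hN0
    have v0 : 2 * (j + 4 + (0 + 1) - 1) - 2 * (j + 3) + 2 = 4 := by omega
    have v1 : 2 * (j + 4 + (0 + 1) - 1) - 2 * (j + 2) + 2 = 6 := by omega
    rw [v0] at hN1
    rw [v1] at hN2
    have k2 : ((4 : ℕ).choose 2) = 6 := by decide
    have k6 : ((6 : ℕ).choose 2) = 15 := by decide
    have k3 : (2 * (0 + 1) + 2 : ℕ).choose 2 = 6 := by decide
    have k4 : (2 * (0 + 1) + 3 : ℕ).choose 3 = 10 := by decide
    have k5 : (2 * (0 + 1) + 4 : ℕ).choose 4 = 15 := by decide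
    rw [k2] at hN1
    rw [k6] at hN2
    rw [k3, k4, k5] at hb
    rw [k3]
    set x0 := b (j + 4) (j + 4 + (0 + 1) - 1)
    set x1 := b (j + 3) (j + 4 + (0 + 1) - 1)
    set x2 := b (j + 2) (j + 4 + (0 + 1) - 1)
    set y1 := b (j + 3) (j + 4 + (0 + 1) - 2)
    set y2 := b (j + 2) (j + 4 + (0 + 1) - 2)
    set y3 := b (j + 1) (j + 4 + (0 + 1) - 2)
    set y4 := b j (j + 4 + (0 + 1) - 2)
    have cN : ((j + 4 + (0 + 1) - 1 : ℕ) : ℤ) = j + 4 := by omega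
    rw [cN] at hN0 hN1 hN2
    have r0 := (Int.cast_le (R := ℚ)).mpr hN0
    have r1 := (Int.cast_le (R := ℚ)).mpr hN1
    have r2 := (Int.cast_le (R := ℚ)).mpr hN2
    have rb := (Int.cast_le (R := ℚ)).mpr hb
    push_cast at r0 r1 r2 rb cj2 cj3 cj4 cj32 cj42
    rw [cj42] at rb
    rw [cj32] at r1
    rw [cj2] at r2 rb
    rw [cj3] at rb
    have fin := caseA1 (j : ℚ) x0 x1 x2 y1 y2 y3 y4 (by positivity) (by exact_mod_cast y1n)
      (by exact_mod_cast y2n) (by exact_mod_cast y3n) (by exact_mod_cast y4n)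
      (by linarith) (by linarith) (by linarith)
    have goalq : ((2 * (j + 4).choose 2 : ℕ) : ℚ) * x0 +
        (2 * (((j + 4 : ℕ) : ℚ) - 1) * (2 * ((j + 4 + (0 + 1) : ℕ) : ℚ) - 2 * ((j + 4 : ℕ) : ℚ) + 1)) *
          x1 + 6 * x2 ≤ 4 * b (j + 4) (j + 4 + (0 + 1)) := by
      push_cast
      rw [cj42]
      linarith
    exact_mod_cast goalq
  · -- d = e + 2
    rw [if_pos (by omega)] at hN0 hN1 hN2 ⊢
    have v0 : 2 * (j + 4 + (e + 1 + 1) - 1) - 2 * (j + 4) + 2 = (2 * e + 2) + 2 := by omega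
    have v1 : 2 * (j + 4 + (e + 1 + 1) - 1) - 2 * (j + 3) + 2 = (2 * e + 4) + 2 := by omega
    have v2 : 2 * (j + 4 + (e + 1 + 1) - 1) - 2 * (j + 2) + 2 = (2 * e + 6) + 2 := by omega
    have v3 : 2 * (e + 1 + 1) + 2 = (2 * e + 4) + 2 := by omega
    have v4 : 2 * (e + 1 + 1) + 3 = (2 * e + 4) + 3 := by omega
    have v5 : 2 * (e + 1 + 1) + 4 = (2 * e + 4) + 4 := by omega
    rw [v0] at hN0
    rw [v1] at hN1
    rw [v2] at hN2
    rw [v3, v4, v5] at hb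
    rw [v3]
    have k0 := ch2 (2 * e + 2)
    have k1 := ch2 (2 * e + 4)
    have k2 := ch2 (2 * e + 6)
    have k3 := ch3 (2 * e + 4)
    have k4 := ch4 (2 * e + 4)
    set x0 := b (j + 4) (j + 4 + (e + 1 + 1) - 1)
    set x1 := b (j + 3) (j + 4 + (e + 1 + 1) - 1)
    set x2 := b (j + 2) (j + 4 + (e + 1 + 1) - 1)
    set y0 := b (j + 4) (j + 4 + (e + 1 + 1) - 2)
    set y1 := b (j + 3) (j + 4 + (e + 1 + 1) - 2)
    set y2 := b (j + 2) (j + 4 + (e + 1 + 1) - 2)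
    set y3 := b (j + 1) (j + 4 + (e + 1 + 1) - 2)
    set y4 := b j (j + 4 + (e + 1 + 1) - 2)
    have cN : ((j + 4 + (e + 1 + 1) - 1 : ℕ) : ℤ) = j + e + 5 := by omega
    rw [cN] at hN0 hN1 hN2
    have r0 := (Int.cast_le (R := ℚ)).mpr hN0
    have r1 := (Int.cast_le (R := ℚ)).mpr hN1
    have r2 := (Int.cast_le (R := ℚ)).mpr hN2
    have rb := (Int.cast_le (R := ℚ)).mpr hb
    push_cast at r0 r1 r2 rb cj2 cj3 cj4 cj32 cj42 k0 k1 k2 k3 k4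
    rw [cj42, k0] at r0
    rw [cj32, k1] at r1
    rw [cj2, k2] at r2
    rw [cj42, cj4, cj3, cj2, k1, k3, k4] at rb
    have fin := caseA2 (j : ℚ) (e : ℚ) x0 x1 x2 y0 y1 y2 y3 y4 (by positivity) (by positivity)
      (by exact_mod_cast y0n) (by exact_mod_cast y1n)
      (by exact_mod_cast y2n) (by exact_mod_cast y3n) (by exact_mod_cast y4n)
      (by linarith) (by linarith) (by linarith)
    have goalq : ((2 * (j + 4).choose 2 : ℕ) : ℚ) * x0 +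
        (2 * (((j + 4 : ℕ) : ℚ) - 1) * (2 * ((j + 4 + (e + 1 + 1) : ℕ) : ℚ) -
          2 * ((j + 4 : ℕ) : ℚ) + 1)) * x1 + (((2 * e + 4) + 2).choose 2 : ℕ) * x2 ≤
          4 * b (j + 4) (j + 4 + (e + 1 + 1)) := by
      push_cast
      rw [cj42, k1]
      linarith
    exact_mod_cast goalq

end Pool.Agent.V11169.Simsun
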