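import Pool.Agent.V11169.Simsun3

set_option autoImplicit false

namespace Pool.Agent.V11169.Simsun

open Finset

section

variable (b : ℕ → ℕ → ℤ)
  (hb2 : ∀ n : ℕ, 2 ≤ n → b 2 n = 1)
  (hb0 : ∀ i n : ℕ, ¬ (2 ≤ i ∧ i ≤ n) → b i n = 0)
  (hbr : ∀ i n : ℕ, 3 ≤ i → i ≤ n →
        b i n = ∑ k ∈ Finset.range (i + 1),
          ((Nat.choose (2 * n - 2 * i + k) k : ℕ) : ℤ) *
            ∑ r ∈ Finset.Icc 1 (i / 2),
              (-1 : ℤ) ^ (r - 1) * ((Nat.choose (i - k) (i - 2 * r) : ℕ) : ℤ) * b (i - k) (n - r))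

include hbr in
lemma rec_alt (i n : ℕ) (h3 : 3 ≤ i) (hin : i ≤ n) :
    b i n = ∑ t ∈ range (i / 2), (-1 : ℤ) ^ t * TT b n (t + 1) i := by
  rw [hbr i n h3 hin]
  have h1 : ∀ k ∈ range (i + 1), ((Nat.choose (2 * n - 2 * i + k) k : ℕ) : ℤ) *
      ∑ r ∈ Finset.Icc 1 (i / 2),
        (-1 : ℤ) ^ (r - 1) * ((Nat.choose (i - k) (i - 2 * r) : ℕ) : ℤ) * b (i - k) (n - r) =
      ∑ t ∈ range (i / 2), ((Nat.choose (2 * n - 2 * i + k) k : ℕ) : ℤ) *
        ((-1 : ℤ) ^ t * ((Nat.choose (i - k) (i - 2 * (t + 1)) : ℕ) : ℤ) * b (i - k) (n - (t + 1))) := by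
    intro k _
    rw [Finset.mul_sum]
    symm
    refine Finset.sum_nbij' (fun t => t + 1) (fun r => r - 1) ?_ ?_ ?_ ?_ ?_
    · intro t ht
      rw [mem_range] at ht
      rw [mem_Icc]
      omega
    · intro r hr
      rw [mem_Icc] at hr
      rw [mem_range]
      omega
    · intro t _
      omega
    · intro r hr
      rw [mem_Icc] at hr
      omega
    · intro t _
      rw [Nat.add_sub_cancel]
  rw [Finset.sum_congr rfl h1, Finset.sum_comm]
  refine Finset.sum_congr rfl fun t _ => ?_
  unfold TT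
  rw [Finset.mul_sum, ← Finset.sum_range_reflect _ (i + 1)]
  refine Finset.sum_congr rfl fun k hk => ?_
  rw [mem_range] at hk
  have e1 : i + 1 - 1 - k = i - k := by omega
  have e2 : i - (i - k) = k := by omega
  rw [e1, e2]
  push_cast
  ring

lemma TT_nonneg (n t i : ℕ) (h : ∀ k, 0 ≤ b k (n - t)) : 0 ≤ TT b n t i := by
  unfold TT
  exact Finset.sum_nonneg fun k _ => mul_nonneg (Int.natCast_nonneg _) (h k)

include hb0 in
lemma HH_triv (n k : ℕ) (hk : ¬ (2 ≤ k ∧ k ≤ n)) (hn : 1 ≤ n) :
    ((2 * k.choose 2 : ℕ) : ℤ) * b k (n - 1) +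
    (2 * ((k : ℤ) - 1) * (2 * (n : ℤ) - 2 * k + 1)) * b (k - 1) (n - 1) +
    (if k < n then (((2 * n - 2 * k + 2).choose 2 : ℕ) : ℤ) else 0) * b (k - 2) (n - 1) ≤
    4 * b k n := by
  rw [hb0 k n hk, hb0 k (n - 1) (by omega), hb0 (k - 1) (n - 1) (by omega)]
  split_ifs with h
  · rw [hb0 (k - 2) (n - 1) (by omega)]
    simp
  · simp

include hb2 hb0 hbr in
theorem main_b : ∀ n, (∀ m ≤ n, ∀ i, 0 ≤ b i m) ∧ (∀ m, 3 ≤ m → m ≤ n → HH b m) ∧
    (∀ m i, 3 ≤ m → m ≤ n → 2 ≤ i → i ≤ m → b i m ≤ TT b m 1 i) := by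
  intro n
  induction n with
  | zero =>
    refine ⟨?_, ?_, ?_⟩
    · intro m hm i
      rw [hb0 i m (by omega)]
    · intro m h1 h2; omega
    · intro m i h1 h2; omega
  | succ n ih =>
    obtain ⟨ih1, ih2, ih3⟩ := ih
    rcases Nat.lt_or_ge (n + 1) 3 with hn | hn
    · refine ⟨?_, ?_, ?_⟩
      · intro m hm i
        rcases Nat.lt_or_ge n m with h | h
        · have hm' : m = n + 1 := by omega
          subst hm'
          by_cases hi : 2 ≤ i ∧ i ≤ n + 1
          · have : i = 2 := by omega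
            subst this
            rw [hb2 _ hi.2]
            norm_num
          · rw [hb0 i _ hi]
        · exact ih1 m h i
      · intro m h1 h2; omega
      · intro m i h1 h2; omega
    -- the general step
    have core : ∀ k, 3 ≤ k → k ≤ n + 1 → 0 ≤ b k (n + 1) ∧ b k (n + 1) ≤ TT b (n + 1) 1 k ∧
        (4 ≤ k → TT b (n + 1) 1 k - TT b (n + 1) 2 k ≤ b k (n + 1)) := by
      intro k hk3 hkn
      have hanti : ∀ t, t + 1 < k / 2 → TT b (n + 1) (t + 1 + 1) k ≤ TT b (n + 1) (t + 1) k := by
        intro t ht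
        apply TB b hb0 (n + 1) (t + 1) k (by omega) (by omega) hkn
        · exact ih2 _ (by omega) (by omega)
        · intro k'
          exact ih1 _ (by omega) k'
      have hnn : ∀ t, 0 ≤ TT b (n + 1) (t + 1) k := fun t =>
        TT_nonneg b _ _ _ fun k' => ih1 _ (by omega) k'
      rw [rec_alt b hbr k (n + 1) hk3 hkn]
      obtain ⟨m, hm⟩ : ∃ m, k / 2 = m + 1 := ⟨k / 2 - 1, by omega⟩
      rw [hm] at hanti ⊢
      obtain ⟨c1, c2⟩ := alt_bound m (fun t => TT b (n + 1) (t + 1) k) hanti hnn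
      refine ⟨c1, c2, ?_⟩
      intro hk4
      obtain ⟨m', rfl⟩ : ∃ m', m = m' + 1 := ⟨m - 1, by omega⟩
      exact alt_bound2 m' (fun t => TT b (n + 1) (t + 1) k) hanti hnn
    have hnn1 : ∀ i, 0 ≤ b i (n + 1) := by
      intro i
      by_cases hi : 2 ≤ i ∧ i ≤ n + 1
      · rcases Nat.lt_or_ge i 3 with h | h
        · have : i = 2 := by omega
          subst this
          rw [hb2 _ hi.2]
          norm_num
        · exact (core i h hi.2).1
      · rw [hb0 i _ hi]
    have hHH : HH b (n + 1) := by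
      intro k
      by_cases hk : 2 ≤ k ∧ k ≤ n + 1
      · rcases Nat.lt_or_ge k 3 with h | h
        · -- k = 2
          have : k = 2 := by omega
          subst this
          rw [hb2 _ hk.2, hb2 _ (by omega), hb0 (2 - 1) _ (by omega), hb0 (2 - 2) _ (by omega)]
          simp
        · rcases Nat.lt_or_ge k 4 with h' | h'
          · -- k = 3
            have : k = 3 := by omega
            subst this
            have h1 := rec_alt b hbr 3 (n + 1) le_rfl hk.2
            have h2 : (3 : ℕ) / 2 = 1 := by norm_num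
            rw [h2, Finset.sum_range_one, pow_zero, one_mul] at h1
            have h3 := TT_one b (n + 1) 1
            have e1 : (1 + 2 : ℕ) = 3 := by norm_num
            have e2 : (0 + 1 : ℕ) = 1 := by norm_num
            rw [e1] at h3
            rw [e2, h3] at h1
            rw [h1, hb0 1 _ (by omega)]
            have p3 := ih1 (n + 1 - 1) (by omega) 3
            have p2 := ih1 (n + 1 - 1) (by omega) (1 + 1)
            have e3 : (3 - 1 : ℕ) = 1 + 1 := by norm_num
            rw [e3]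
            have c3 : ((3 : ℕ).choose 2 : ℕ) = 3 := by decide
            rw [c3]
            have c4 : ((2 * (n + 1) - 2 * 3 + 1 : ℕ) : ℤ) = 2 * (n : ℤ) - 3 := by omega
            rw [c4]
            have c5 : (0 : ℤ) ≤ 2 * (n : ℤ) - 3 := by omega
            have c6 := mul_nonneg c5 p2
            clear h1 h3
            generalize b 3 (n + 1 - 1) = X at *
            generalize b (1 + 1) (n + 1 - 1) = Y at *
            simp only [mul_zero, add_zero]
            push_cast
            linarith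
          · obtain ⟨j, rfl⟩ : ∃ j, k = j + 4 := ⟨k - 4, by omega⟩
            apply HH_step b hb0 (n + 1) j hk.2
            · intro k'
              exact ih1 _ (by omega) k'
            · exact ih2 _ (by omega) (by omega)
            · exact (core (j + 4) (by omega) hk.2).2.2 (by omega)
      · exact HH_triv b hb0 (n + 1) k hk (by omega)
    refine ⟨?_, ?_, ?_⟩
    · intro m hm i
      rcases Nat.lt_or_ge n m with h | h
      · have hm' : m = n + 1 := by omega
        subst hm'
        exact hnn1 i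
      · exact ih1 m h i
    · intro m h1 h2
      rcases Nat.lt_or_ge n m with h | h
      · have hm' : m = n + 1 := by omega
        subst hm'
        exact hHH
      · exact ih2 m h1 h
    · intro m i h1 h2 hi1 hi2
      rcases Nat.lt_or_ge n m with h | h
      · have hm' : m = n + 1 := by omega
        subst hm'
        rcases Nat.lt_or_ge i 3 with h' | h'
        · have : i = 2 := by omega
          subst this
          have h3 := TT_one b (n + 1) 0
          have e1 : (0 + 2 : ℕ) = 2 := by norm_num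
          have e2 : (0 + 1 : ℕ) = 1 := by norm_num
          rw [e1, e2] at h3
          rw [h3, hb2 _ hi2, hb2 _ (by omega), hb0 1 _ (by omega), hb0 0 _ (by omega)]
          simp
        · exact (core i h' hi2).2.1
      · exact ih3 m i h1 h hi1 hi2

end

set_option maxHeartbeats 2000000 in
theorem final (a b : ℕ → ℕ → ℤ)
    (ha0 : a 0 1 = 1) (ha1 : a 1 2 = 1)
    (ha2 : ∀ n : ℕ, 1 < n → a 0 n = 0)
    (ha3 : ∀ i n : ℕ, n < 2 * i → a i n = 0)
    (har : ∀ i n : ℕ, 1 ≤ i → 1 ≤ n →
        a i (n + 1) = (i : ℤ) * a i n + ((n : ℤ) - 2 * (i : ℤ) + 2) * a (i - 1) n)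
    (hb2 : ∀ n : ℕ, 2 ≤ n → b 2 n = 1)
    (hb0 : ∀ i n : ℕ, ¬ (2 ≤ i ∧ i ≤ n) → b i n = 0)
    (hbr : ∀ i n : ℕ, 3 ≤ i → i ≤ n →
        b i n = ∑ k ∈ Finset.range (i + 1),
          ((Nat.choose (2 * n - 2 * i + k) k : ℕ) : ℤ) *
            ∑ r ∈ Finset.Icc 1 (i / 2),
              (-1 : ℤ) ^ (r - 1) * ((Nat.choose (i - k) (i - 2 * r) : ℕ) : ℤ) * b (i - k) (n - r)) :
    ∀ n i : ℕ, 2 ≤ i → i ≤ n → b i n ≤ a i (2 * n) := by
  -- nonnegativity of a
  have hann : ∀ m, 1 ≤ m → ∀ i, 0 ≤ a i m := by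
    intro m hm
    induction m, hm using Nat.le_induction with
    | base =>
      intro i
      rcases i with _ | i
      · rw [ha0]; norm_num
      · rw [ha3 _ _ (by omega)]
    | succ m hm ih =>
      intro i
      rcases i with _ | i
      · rw [ha2 _ (by omega)]
      · rw [har (i + 1) m (by omega) hm, Nat.add_sub_cancel]
        rcases Nat.lt_or_ge m (2 * i) with h | h
        · rw [ha3 i m h, mul_zero, add_zero]
          exact mul_nonneg (Int.natCast_nonneg _) (ih _)
        · apply add_nonneg (mul_nonneg (Int.natCast_nonneg _) (ih _))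
          apply mul_nonneg _ (ih _)
          push_cast
          have : (2 * i : ℤ) ≤ m := by exact_mod_cast h
          linarith
  have main : ∀ n, 2 ≤ n → ∀ i, b i n ≤ a i (2 * n) := by
    intro n hn
    induction n, hn using Nat.le_induction with
    | base =>
      intro i
      by_cases hi : i = 2
      · subst hi
        rw [hb2 2 le_rfl]
        have h1 := har 1 2 le_rfl (by norm_num)
        have h2 := har 2 3 (by norm_num) (by norm_num)
        have h3 := ha3 2 3 (by norm_num)
        have h4 := ha2 2 (by norm_num)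
        norm_num at h1 h2
        rw [ha1, h4] at h1
        rw [h3, h1] at h2
        norm_num at h2
        rw [h2]
      · rw [hb0 i 2 (by omega)]
        exact hann _ (by norm_num) i
    | succ n hn ih =>
      intro i
      by_cases hi : 2 ≤ i ∧ i ≤ n + 1
      swap
      · rw [hb0 i _ hi]
        exact hann _ (by omega) i
      have hup := (main_b b hb2 hb0 hbr (n + 1)).2.2 (n + 1) i (by omega) le_rfl hi.1 hi.2
      refine le_trans hup ?_
      obtain ⟨j, rfl⟩ : ∃ j, i = j + 2 := ⟨i - 2, by omega⟩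
      rw [TT_one, Nat.add_sub_cancel]
      have r1 := har (j + 2) (2 * n + 1) (by omega) (by omega)
      have r2 := har (j + 2) (2 * n) (by omega) (by omega)
      have r3 := har (j + 1) (2 * n) (by omega) (by omega)
      have e1 : j + 2 - 1 = j + 1 := by omega
      have e2 : j + 1 - 1 = j := by omega
      have e3 : 2 * (n + 1) = 2 * n + 1 + 1 := by ring
      rw [e1] at r1 r2
      rw [e2] at r3
      rw [e3, r1, r2, r3]
      have i0 := ih (j + 2)
      have i1 := ih (j + 1)
      have i2 := ih j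
      have p0 := hann (2 * n) (by omega) (j + 2)
      have p1 := hann (2 * n) (by omega) (j + 1)
      have p2 := hann (2 * n) (by omega) j
      obtain ⟨d, hd⟩ : ∃ d, n + 1 = j + 2 + d := ⟨n + 1 - (j + 2), by omega⟩
      have hnz : (n : ℤ) = j + 1 + d := by omega
      have f1 : 2 * n + 1 + 1 - 2 * (j + 2) + 1 = 2 * d + 1 := by omega
      have f2 : 2 * n + 1 + 1 - 2 * (j + 2) + 2 = 2 * d + 2 := by omega
      rw [f1, f2]
      have c2 := two_choose (j + 2)
      have c3 := two_choose (2 * d + 2)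
      have g1 : j + 2 - 1 = j + 1 := by omega
      have g2 : 2 * d + 2 - 1 = 2 * d + 1 := by omega
      rw [g1] at c2
      rw [g2] at c3
      have c2' : 2 * ((j + 2).choose 2 : ℤ) = (j + 2) * (j + 1) := by exact_mod_cast c2
      have c3' : 2 * ((2 * d + 2).choose 2 : ℤ) = (2 * d + 2) * (2 * d + 1) := by exact_mod_cast c3
      have hj0 : (0 : ℤ) ≤ j := Int.natCast_nonneg j
      have hd0 : (0 : ℤ) ≤ d := Int.natCast_nonneg d
      have m0 : ((j + 2).choose 2 : ℤ) * b (j + 2) n ≤ ((j + 2).choose 2 : ℤ) * a (j + 2) (2 * n) :=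
        mul_le_mul_of_nonneg_left i0 (by positivity)
      have m1 : ((2 * d + 1 : ℤ) * (j + 1)) * b (j + 1) n ≤
          ((2 * d + 1 : ℤ) * (j + 1)) * a (j + 1) (2 * n) :=
        mul_le_mul_of_nonneg_left i1 (by positivity)
      have m2 : ((2 * d + 2).choose 2 : ℤ) * b j n ≤ ((2 * d + 2).choose 2 : ℤ) * a j (2 * n) :=
        mul_le_mul_of_nonneg_left i2 (by positivity)
      push_cast
      rw [hnz]
      have q0 : 0 ≤ ((j : ℤ) + 2) * (j + 2) * a (j + 2) (2 * n) * 2 - (j + 2) * (j + 1) * a (j + 2) (2 * n) := by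
        have : ((j : ℤ) + 2) * (j + 2) * a (j + 2) (2 * n) * 2 - (j + 2) * (j + 1) * a (j + 2) (2 * n)
          = ((j + 2) * (j + 3)) * a (j + 2) (2 * n) := by ring
        rw [this]; positivity
      have q1 : 0 ≤ (((j : ℤ) + 2) * (2 * d)) * a (j + 1) (2 * n) := by positivity
      have q2 : 0 ≤ ((2 * (d : ℤ) + 2) * (2 * d + 1)) * a j (2 * n) := by positivity
      have c2a : 2 * (((j + 2).choose 2 : ℤ) * a (j + 2) (2 * n)) = (j + 2) * (j + 1) * a (j + 2) (2 * n) := by
        rw [← mul_assoc, c2']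
      have c3a : 2 * (((2 * d + 2).choose 2 : ℤ) * a j (2 * n)) = (2 * d + 2) * (2 * d + 1) * a j (2 * n) := by
        rw [← mul_assoc, c3']
      linarith
  intro n i h2 hin
  exact main n (by omega) i

end Pool.Agent.V11169.Simsun
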