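import Pool.Agent.H750R3.SignCount

set_option autoImplicit false

/-!
Eulerian numbers, signed Eulerian numbers, and inequalities between them.
-/

namespace Pool.Agent.V11169.Sync

open Finset

/-- Eulerian numbers -/
def A : ℕ → ℕ → ℤ
  | 0, 0 => 1
  | 0, _ + 1 => 0
  | _ + 1, 0 => 1
  | n + 1, d + 1 => (d + 2) * A n (d + 1) + (n - d) * A n d

/-- signed Eulerian numbers -/
def E : ℕ → ℕ → ℤ
  | 0, 0 => 1
  | 0, _ + 1 => 0
  | _ + 1, 0 => 1
  | n + 1, d + 1 => if n % 2 = 0 then (d + 2) * E n (d + 1) + (n - d) * E n d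
      else E n (d + 1) - E n d

@[simp] theorem A_zero (n : ℕ) : A n 0 = 1 := by cases n <;> simp [A]
@[simp] theorem E_zero (n : ℕ) : E n 0 = 1 := by cases n <;> simp [E]

theorem A_succ (n d : ℕ) : A (n+1) (d+1) = (d + 2) * A n (d + 1) + (n - d) * A n d := by
  rw [A]

theorem E_succ_even (n d : ℕ) (h : n % 2 = 0) :
    E (n+1) (d+1) = (d + 2) * E n (d + 1) + (n - d) * E n d := by
  rw [E, if_pos h]

theorem E_succ_odd (n d : ℕ) (h : n % 2 = 1) : E (n+1) (d+1) = E n (d + 1) - E n d := by
  rw [E, if_neg (by omega)]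

theorem A_supp (n : ℕ) : ∀ d, n ≤ d → 1 ≤ d → A n d = 0 := by
  induction n with
  | zero => intro d _ h; obtain ⟨e, rfl⟩ := Nat.exists_eq_add_of_le' h; rfl
  | succ n ih =>
    intro d hd h
    obtain ⟨e, rfl⟩ := Nat.exists_eq_add_of_le' h
    rw [A_succ, ih (e+1) (by omega) (by omega)]
    rcases Nat.eq_or_lt_of_le (show n ≤ e by omega) with h1 | h1
    · subst h1; ring
    · rw [ih e (by omega) (by omega)]; ring

theorem E_supp (n : ℕ) : ∀ d, n ≤ d → 1 ≤ d → E n d = 0 := by
  induction n with
  | zero => intro d _ h; obtain ⟨e, rfl⟩ := Nat.exists_eq_add_of_le' h; rfl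
  | succ n ih =>
    intro d hd h
    obtain ⟨e, rfl⟩ := Nat.exists_eq_add_of_le' h
    rcases Nat.mod_two_eq_zero_or_one n with h2 | h2
    · rw [E_succ_even _ _ h2, ih (e+1) (by omega) (by omega)]
      rcases Nat.eq_or_lt_of_le (show n ≤ e by omega) with h1 | h1
      · subst h1; ring
      · rw [ih e (by omega) (by omega)]; ring
    · rw [E_succ_odd _ _ h2, ih (e+1) (by omega) (by omega), ih e (by omega) (by omega)]; ring

theorem A_nonneg (n : ℕ) : ∀ d, 0 ≤ A n d := by
  induction n with
  | zero => intro d; cases d <;> simp [A]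
  | succ n ih =>
    intro d
    cases d with
    | zero => simp
    | succ d =>
      rw [A_succ]
      rcases le_or_gt d n with h | h
      · have h1 : (0:ℤ) ≤ (n:ℤ) - d := by omega
        have := ih (d+1)
        have := ih d
        positivity
      · rw [A_supp n (d+1) (by omega) (by omega), A_supp n d (by omega) (by omega)]; simp

/-- symmetry -/
theorem A_symm (n : ℕ) : ∀ i j, i + j + 1 = n → A n i = A n j := by
  induction n with
  | zero => intro i j h; omega
  | succ n ih =>
    have hlast : A (n+1) n = 1 := by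
      rcases Nat.eq_zero_or_pos n with h | h
      · subst h; simp
      · obtain ⟨m, rfl⟩ := Nat.exists_eq_add_of_le' h
        rw [A_succ, A_supp _ _ le_rfl (by omega), ih m 0 (by omega)]
        push_cast; simp
    intro i j h
    rcases Nat.eq_zero_or_pos i with hi | hi
    · subst hi
      have : j = n := by omega
      subst this
      rw [hlast]; simp
    rcases Nat.eq_zero_or_pos j with hj | hj
    · subst hj
      have : i = n := by omega
      subst this
      rw [hlast]; simp
    obtain ⟨i, rfl⟩ := Nat.exists_eq_add_of_le' hi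
    obtain ⟨j, rfl⟩ := Nat.exists_eq_add_of_le' hj
    rw [A_succ, A_succ, ih (i+1) j (by omega), ih i (j+1) (by omega)]
    have : (n:ℤ) = i + j + 2 := by omega
    rw [this]; ring

theorem E_symm (n : ℕ) : ∀ i j, i + j + 1 = n → E n i = (-1)^(n/2) * E n j := by
  induction n with
  | zero => intro i j h; omega
  | succ n ih =>
    have hpar : (n+1)/2 = n/2 + n%2 := by omega
    have hlast : E (n+1) n = (-1)^((n+1)/2) := by
      rcases Nat.eq_zero_or_pos n with h | h
      · subst h; simp
      · obtain ⟨m, rfl⟩ := Nat.exists_eq_add_of_le' h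
        rcases Nat.mod_two_eq_zero_or_one (m+1) with h2 | h2
        · rw [E_succ_even _ _ h2, E_supp _ _ le_rfl (by omega), ih m 0 (by omega), hpar, h2]
          push_cast; simp
        · rw [E_succ_odd _ _ h2, E_supp _ _ le_rfl (by omega), ih m 0 (by omega), hpar, h2, pow_succ]
          simp
    intro i j h
    rcases Nat.eq_zero_or_pos i with hi | hi
    · subst hi
      have : j = n := by omega
      subst this
      rw [hlast, ← pow_add, ← two_mul, pow_mul]; simp
    rcases Nat.eq_zero_or_pos j with hj | hj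
    · subst hj
      have : i = n := by omega
      subst this
      rw [hlast]; simp
    obtain ⟨i, rfl⟩ := Nat.exists_eq_add_of_le' hi
    obtain ⟨j, rfl⟩ := Nat.exists_eq_add_of_le' hj
    have hn : (n:ℤ) = i + j + 2 := by omega
    rcases Nat.mod_two_eq_zero_or_one n with h2 | h2
    · rw [E_succ_even _ _ h2, E_succ_even _ _ h2, ih (i+1) j (by omega), ih i (j+1) (by omega), hpar,
        h2, hn]
      ring
    · rw [E_succ_odd _ _ h2, E_succ_odd _ _ h2, ih (i+1) j (by omega), ih i (j+1) (by omega), hpar,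
        h2, pow_succ]
      ring

theorem A_last (n : ℕ) : A (n+1) n = 1 := by rw [A_symm (n+1) n 0 (by omega)]; simp

theorem abs_E_symm (n i j : ℕ) (h : i + j + 1 = n) : |E n i| = |E n j| := by
  rw [E_symm n i j h, abs_mul, abs_pow]; simp

theorem abs_E_last (n : ℕ) : |E (n+1) n| = 1 := by rw [abs_E_symm (n+1) n 0 (by omega)]; simp

theorem A_one (n : ℕ) : A n 1 = 2^n - n - 1 := by
  induction n with
  | zero => simp [A]
  | succ n ih => rw [A_succ, ih]; push_cast; simp; ring

theorem E_one (m : ℕ) : E (2*m) 1 = 2^m - 2*m - 1 ∧ E (2*m+1) 1 = 2^(m+1) - 2*m - 2 := by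
  induction m with
  | zero => simp [E]
  | succ m ih =>
    have h1 : E (2*(m+1)) 1 = 2^(m+1) - 2*((m:ℤ)+1) - 1 := by
      rw [show 2*(m+1) = (2*m+1)+1 by ring, E_succ_odd _ _ (by omega), ih.2]
      simp; ring
    refine ⟨by rw [h1]; push_cast; ring, ?_⟩
    rw [E_succ_even _ _ (by omega), h1]
    push_cast; simp; ring

end Pool.Agent.V11169.Sync
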