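import Pool.Agent.V11169.Sync1

set_option autoImplicit false

namespace Pool.Agent.V11169.Sync

open Finset

theorem A_pos (n : ℕ) : ∀ d, d < n → 0 < A n d := by
  induction n with
  | zero => intro d h; omega
  | succ n ih =>
    intro d h
    cases d with
    | zero => simp
    | succ d =>
      rw [A_succ]
      have h1 : (0:ℤ) < (n:ℤ) - d := by omega
      have h2 := ih d (by omega)
      have h3 := A_nonneg n (d+1)
      have h4 : 0 < ((n:ℤ) - d) * A n d := mul_pos h1 h2
      have h5 : 0 ≤ ((d:ℤ) + 2) * A n (d+1) := by positivity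
      linarith

/-- the algebraic step of the log-concavity -/
theorem lc_step (n u v p q r s : ℤ) (hu : 2 ≤ u) (hv : 2 ≤ v) (hn : n = u + v - 2)
    (hp : 0 ≤ p) (hq : 0 < q) (hr : 0 < r) (hs : 0 ≤ s)
    (h1 : (n + 4) * (p * r) ≤ n * q^2) (h2 : (n + 4) * (q * s) ≤ n * r^2) :
    (n + 1 + 4) * (((u - 1) * q + (v + 1) * p) * ((u + 1) * s + (v - 1) * r)) ≤
      (n + 1) * (u * r + v * q)^2 := by
  obtain ⟨a, rfl⟩ : ∃ a, u = 2 + a := ⟨u - 2, by ring⟩
  obtain ⟨b, rfl⟩ : ∃ b, v = 2 + b := ⟨v - 2, by ring⟩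
  have ha : 0 ≤ a := by linarith
  have hb : 0 ≤ b := by linarith
  have hn' : n = a + b + 2 := by rw [hn]; ring
  have hn0 : 0 < n := by linarith
  -- (n+5) q s ≤ (n+1) r^2
  have hqs : 0 ≤ q * s := by positivity
  have hpr : 0 ≤ p * r := by positivity
  have k1 : (n + 5) * (q * s) ≤ (n + 1) * r^2 := by
    have : q * s ≤ r^2 := by
      by_contra hc
      push Not at hc
      have : n * r^2 < n * (q * s) := mul_lt_mul_of_pos_left hc hn0
      nlinarith
    linarith
  have k2 : (n + 5) * (p * r) ≤ (n + 1) * q^2 := by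
    have : p * r ≤ q^2 := by
      by_contra hc
      push Not at hc
      have : n * q^2 < n * (p * r) := mul_lt_mul_of_pos_left hc hn0
      nlinarith
    linarith
  have k3 : (n + 4)^2 * (p * s) ≤ n^2 * (q * r) := by
    have h3 : ((n + 4) * (p * r)) * ((n + 4) * (q * s)) ≤ (n * q^2) * (n * r^2) :=
      mul_le_mul h1 h2 (by positivity) (by positivity)
    have h4 : ((n + 4)^2 * (p * s)) * (q * r) ≤ (n^2 * (q * r)) * (q * r) := by
      calc _ = ((n + 4) * (p * r)) * ((n + 4) * (q * s)) := by ring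
        _ ≤ _ := h3
        _ = _ := by ring
    exact le_of_mul_le_mul_right h4 (by positivity)
  have k4 : 0 ≤ (n^2 + 6*n + 4) * ((a + 3) * (b + 3)) - (n + 4)^2 * ((a + 1) * (b + 1)) := by
    rw [hn']
    ring_nf
    positivity
  -- multiply by (n+4)^2
  have k5 : 0 ≤ (n + 4)^2 * ((n + 1) * ((2 + a) * r + (2 + b) * q)^2 -
      (n + 1 + 4) * (((2 + a - 1) * q + (2 + b + 1) * p) * ((2 + a + 1) * s + (2 + b - 1) * r))) := by
    have e : (n + 4)^2 * ((n + 1) * ((2 + a) * r + (2 + b) * q)^2 -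
      (n + 1 + 4) * (((2 + a - 1) * q + (2 + b + 1) * p) * ((2 + a + 1) * s + (2 + b - 1) * r))) =
      (n + 4)^2 * ((a + 1) * (a + 3)) * ((n + 1) * r^2 - (n + 5) * (q * s)) +
      (n + 4)^2 * ((b + 1) * (b + 3)) * ((n + 1) * q^2 - (n + 5) * (p * r)) +
      (n + 5) * ((a + 3) * (b + 3)) * (n^2 * (q * r) - (n + 4)^2 * (p * s)) +
      4 * (q * r) * ((n^2 + 6*n + 4) * ((a + 3) * (b + 3)) - (n + 4)^2 * ((a + 1) * (b + 1))) +
      (n + 4)^2 * (n + 1) * (r - q)^2 := by
      rw [hn']; ring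
    rw [e]
    have p1 : 0 ≤ (n + 1) * r^2 - (n + 5) * (q * s) := by linarith
    have p2 : 0 ≤ (n + 1) * q^2 - (n + 5) * (p * r) := by linarith
    have p3 : 0 ≤ n^2 * (q * r) - (n + 4)^2 * (p * s) := by linarith
    have q1 := mul_nonneg (show 0 ≤ (n + 4)^2 * ((a + 1) * (a + 3)) by positivity) p1
    have q2 := mul_nonneg (show 0 ≤ (n + 4)^2 * ((b + 1) * (b + 3)) by positivity) p2
    have q3 := mul_nonneg (show 0 ≤ (n + 5) * ((a + 3) * (b + 3)) by positivity) p3
    have q4 := mul_nonneg (show 0 ≤ 4 * (q * r) by positivity) k4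
    have q5 : 0 ≤ (n + 4)^2 * (n + 1) * (r - q)^2 := by positivity
    linarith
  have k6 : 0 < (n + 4)^2 := by positivity
  have := nonneg_of_mul_nonneg_right k5 k6
  linarith

/-- strong log-concavity of the Eulerian numbers -/
theorem lc (n : ℕ) : ∀ d, ((n:ℤ) + 4) * (A n d * A n (d+2)) ≤ n * A n (d+1)^2 := by
  induction n with
  | zero => intro d; simp [A]
  | succ n ih =>
    intro d
    rcases Nat.lt_or_ge n (d + 2) with hd | hd
    · rw [A_supp (n+1) (d+2) (by omega) (by omega)]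
      simp only [mul_zero]
      positivity
    · obtain ⟨u, hu⟩ : ∃ u : ℤ, u = d + 2 := ⟨_, rfl⟩
      obtain ⟨v, hv⟩ : ∃ v : ℤ, v = n - d := ⟨_, rfl⟩
      obtain ⟨p, hp0, hp1, hp2⟩ : ∃ p : ℤ, 0 ≤ p ∧ A (n+1) d = (u - 1) * A n d + (v + 1) * p ∧
          ((n:ℤ) + 4) * (p * A n (d+1)) ≤ n * (A n d)^2 := by
        cases d with
        | zero =>
          refine ⟨0, le_rfl, ?_, ?_⟩
          · rw [hu]; simp
          · simp
        | succ d =>
          refine ⟨A n d, A_nonneg _ _, ?_, ?_⟩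
          · rw [A_succ, hu, hv]; push_cast; ring
          · exact ih d
      have h2 : A (n+1) (d+2) = (u + 1) * A n (d+2) + (v - 1) * A n (d+1) := by
        rw [A_succ, hu, hv]; push_cast; ring
      have h3 : A (n+1) (d+1) = u * A n (d+1) + v * A n d := by
        rw [A_succ, hu, hv]
      rw [h2, h3, hp1]
      have := lc_step n u v p (A n d) (A n (d+1)) (A n (d+2)) (by rw [hu]; omega) (by rw [hv]; omega)
        (by rw [hu, hv]; ring) hp0 (A_pos _ _ (by omega)) (A_pos _ _ (by omega)) (A_nonneg _ _) hp2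
        (by have := ih d; linarith [this])
      push_cast
      exact this

end Pool.Agent.V11169.Sync
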