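import Pool.Agent.V11169.Sync2

set_option autoImplicit false

namespace Pool.Agent.V11169.Sync

open Finset

theorem pow_big (m : ℕ) (hm : 4 ≤ m) : (2*(m:ℤ)+3) * 2^m ≤ 2^(2*m) - 2*m - 1 ∧
    (2*(m:ℤ)+3) * 2^(m+1) ≤ 2^(2*m+1) - 2*m - 2 := by
  obtain ⟨k, rfl⟩ := Nat.exists_eq_add_of_le hm
  have h : (2*((4+k:ℕ):ℤ)+3) * 2^(4+k) ≤ 2^(2*(4+k)) - 2*((4+k:ℕ):ℤ) - 1 := by
    have h1 : ((k:ℤ)+16) ≤ 2^(k+4) := by
      induction k with
      | zero => norm_num
      | succ k ih => 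
        have := ih (by omega)
        push_cast
        rw [show k+1+4 = (k+4)+1 by ring, pow_succ]
        linarith [show (0:ℤ) ≤ k by positivity]
    have h2 : (2*((4+k:ℕ):ℤ)+3) + 1 ≤ 2^(4+k) := by
      clear h1
      induction k with
      | zero => norm_num
      | succ k ih =>
        have := ih (by omega)
        push_cast at this ⊢
        rw [show 4+(k+1) = (4+k)+1 by ring, pow_succ]
        have h3 : (0:ℤ) ≤ k := by positivity
        linarith
    have h4 : (2:ℤ)^(2*(4+k)) = 2^(4+k) * 2^(4+k) := by rw [two_mul, pow_add]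
    rw [h4]
    have h5 : (0:ℤ) < 2^(4+k) := by positivity
    nlinarith
  refine ⟨h, ?_⟩
  rw [pow_succ (2:ℤ) (4+k), pow_succ (2:ℤ) (2*(4+k))]
  linarith

theorem abs_E_one (n : ℕ) (hn : 3 ≤ n) :
    ((n:ℤ) + 2 + (if n % 2 = 0 then 1 else 0)) * |E n 1| ≤ A n 1 := by
  rw [A_one]
  have h0 : ∀ m : ℕ, 1 ≤ m → |(2:ℤ)^m - 2*m - 1| ≤ 2^m ∧ |(2:ℤ)^(m+1) - 2*m - 2| ≤ 2^(m+1) := by
    intro m hm
    have h1 : (m:ℤ) + 1 ≤ 2^m := by exact_mod_cast Nat.lt_two_pow_self (n := m)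
    have h2 : (0:ℤ) ≤ m := by positivity
    rw [abs_le, abs_le, pow_succ]
    refine ⟨⟨by linarith, by linarith⟩, ⟨by linarith, by linarith⟩⟩
  obtain ⟨m, hm⟩ : ∃ m, n = 2*m ∨ n = 2*m+1 := ⟨n/2, by omega⟩
  rcases hm with rfl | rfl
  · rw [if_pos (by omega), (E_one m).1]
    rcases Nat.lt_or_ge m 4 with h | h
    · have : m = 2 ∨ m = 3 := by omega
      rcases this with rfl | rfl <;> norm_num
    · have h1 := (h0 m (by omega)).1
      have h2 := (pow_big m h).1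
      have h3 : (2*(m:ℤ)+3) * |(2:ℤ)^m - 2*m - 1| ≤ (2*(m:ℤ)+3) * 2^m :=
        mul_le_mul_of_nonneg_left h1 (by positivity)
      push_cast
      linarith
  · rw [if_neg (by omega), (E_one m).2]
    rcases Nat.lt_or_ge m 4 with h | h
    · have : m = 1 ∨ m = 2 ∨ m = 3 := by omega
      rcases this with rfl | rfl | rfl <;> norm_num
    · have h1 := (h0 m (by omega)).2
      have h2 := (pow_big m h).2
      have h3 : (2*(m:ℤ)+3) * |(2:ℤ)^(m+1) - 2*m - 2| ≤ (2*(m:ℤ)+3) * 2^(m+1) :=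
        mul_le_mul_of_nonneg_left h1 (by positivity)
      push_cast
      linarith

/-- the signed Eulerian numbers are much smaller than the Eulerian numbers -/
theorem abs_E_le (n : ℕ) (hn : 3 ≤ n) : ∀ d, 1 ≤ d → d + 2 ≤ n →
    ((n:ℤ) + 2 + (if n % 2 = 0 then 1 else 0)) * |E n d| ≤ A n d := by
  induction n, hn using Nat.le_induction with
  | base =>
    intro d h1 h2
    have : d = 1 := by omega
    subst this
    exact abs_E_one 3 le_rfl
  | succ n hn ih =>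
    intro d h1 h2
    rcases Nat.eq_or_lt_of_le h1 with h | h
    · rw [← h]; exact abs_E_one (n+1) (by omega)
    rcases Nat.eq_or_lt_of_le (show d + 2 ≤ n + 1 from h2) with h' | h'
    · rw [abs_E_symm (n+1) d 1 (by omega), A_symm (n+1) d 1 (by omega)]
      exact abs_E_one (n+1) (by omega)
    obtain ⟨e, rfl⟩ := Nat.exists_eq_add_of_le' h1
    have i1 := ih (e+1) (by omega) (by omega)
    have i2 := ih e (by omega) (by omega)
    have hA1 := A_nonneg n (e+1)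
    have hA2 := A_nonneg n e
    have hE1 := abs_nonneg (E n (e+1))
    have hE2 := abs_nonneg (E n e)
    have he : (0:ℤ) ≤ e := by positivity
    have hne : (2:ℤ) ≤ n - e := by omega
    rcases Nat.mod_two_eq_zero_or_one n with h3 | h3
    · rw [if_pos h3] at i1 i2
      rw [if_neg (by omega), A_succ, E_succ_even _ _ h3]
      have h5 : |((e:ℤ) + 2) * E n (e+1) + (n - e) * E n e| ≤
          ((e:ℤ) + 2) * |E n (e+1)| + (n - e) * |E n e| := by
        refine (abs_add_le _ _).trans ?_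
        rw [abs_mul, abs_mul, abs_of_nonneg (show (0:ℤ) ≤ (e:ℤ) + 2 by positivity),
          abs_of_nonneg (show (0:ℤ) ≤ (n:ℤ) - e by linarith)]
      have h6 := mul_le_mul_of_nonneg_left i1 (show (0:ℤ) ≤ (e:ℤ) + 2 by positivity)
      have h7 := mul_le_mul_of_nonneg_left i2 (show (0:ℤ) ≤ (n:ℤ) - e by linarith)
      have h8 := mul_le_mul_of_nonneg_left h5 (show (0:ℤ) ≤ (n:ℤ) + 3 by positivity)
      push_cast
      linarith
    · rw [if_neg (by omega)] at i1 i2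
      rw [if_pos (by omega), A_succ, E_succ_odd _ _ h3]
      have h5 : |E n (e+1) - E n e| ≤ |E n (e+1)| + |E n e| := abs_sub _ _
      have h8 := mul_le_mul_of_nonneg_left h5 (show (0:ℤ) ≤ (n:ℤ) + 4 by positivity)
      have h9 : ((n:ℤ) + 4) * |E n (e+1)| ≤ 2 * A n (e+1) := by
        have : ((n:ℤ) + 4) * |E n (e+1)| ≤ 2 * (((n:ℤ) + 2 + 0) * |E n (e+1)|) := by
          have : (0:ℤ) ≤ n * |E n (e+1)| := by positivity
          linarith
        linarith
      have h10 : ((n:ℤ) + 4) * |E n e| ≤ 2 * A n e := by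
        have : ((n:ℤ) + 4) * |E n e| ≤ 2 * (((n:ℤ) + 2 + 0) * |E n e|) := by
          have : (0:ℤ) ≤ n * |E n e| := by positivity
          linarith
        linarith
      have h11 : 2 * A n (e+1) ≤ ((e:ℤ) + 2) * A n (e+1) := by nlinarith
      have h12 : 2 * A n e ≤ ((n:ℤ) - e) * A n e := mul_le_mul_of_nonneg_right hne hA2
      push_cast
      linarith

theorem choose_le (n : ℕ) (hn : 5 ≤ n) : ∀ d, 1 ≤ d → d + 1 ≤ n →
    ((n:ℤ) + 3) * (n.choose d : ℤ) ≤ A (n+1) d := by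
  have key : ∀ n : ℕ, 5 ≤ n → ((n:ℤ) + 3) * n ≤ 2^(n+1) - n - 2 := by
    intro n hn
    induction n, hn using Nat.le_induction with
    | base => norm_num
    | succ n hn ih =>
      rw [pow_succ]
      push_cast
      have : (5:ℤ) ≤ n := by exact_mod_cast hn
      nlinarith
  induction n, hn using Nat.le_induction with
  | base =>
    intro d h1 h2
    have : d = 1 ∨ d = 2 ∨ d = 3 ∨ d = 4 := by omega
    have e2 : A 6 2 = 302 := by simp [A]
    have e1 : A 6 1 = 57 := by rw [A_one]; norm_num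
    rcases this with rfl | rfl | rfl | rfl
    · rw [e1]; norm_num
    · rw [e2]; norm_num [Nat.choose]
    · rw [A_symm 6 3 2 (by norm_num), e2]; norm_num [Nat.choose]
    · rw [A_symm 6 4 1 (by norm_num), e1]; norm_num [Nat.choose]
  | succ n hn ih =>
    intro d h1 h2
    rcases Nat.eq_or_lt_of_le h1 with h | h
    · rw [← h, A_one, Nat.choose_one_right]
      have := key (n+1) (by omega)
      push_cast at this ⊢
      linarith
    rcases Nat.eq_or_lt_of_le h2 with h' | h'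
    · have : d = n := by omega
      subst this
      rw [A_symm (d+1+1) d 1 (by omega), A_one, Nat.choose_succ_self_right]
      have := key (d+1) (by omega)
      push_cast at this ⊢
      linarith
    obtain ⟨e, rfl⟩ := Nat.exists_eq_add_of_le' h1
    have i1 := ih (e+1) (by omega) (by omega)
    have i2 := ih e (by omega) (by omega)
    have hA1 := A_nonneg (n+1) (e+1)
    have hA2 := A_nonneg (n+1) e
    have he : (0:ℤ) ≤ e := by positivity
    have hne : (2:ℤ) ≤ ((n+1:ℕ):ℤ) - e := by omega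
    rw [A_succ, Nat.choose_succ_succ]
    have c1 : (0:ℤ) ≤ (n.choose e : ℤ) := by positivity
    have c2 : (0:ℤ) ≤ (n.choose (e+1) : ℤ) := by positivity
    have hn0 : (5:ℤ) ≤ n := by exact_mod_cast hn
    have h11 : 2 * A (n+1) (e+1) ≤ ((e:ℤ) + 2) * A (n+1) (e+1) := by nlinarith
    have h12 : 2 * A (n+1) e ≤ (((n+1:ℕ):ℤ) - e) * A (n+1) e := mul_le_mul_of_nonneg_right hne hA2
    have h13 : ((n:ℤ) + 1 + 3) * ((n.choose e : ℤ) + (n.choose (e+1) : ℤ)) ≤
      2 * (((n:ℤ) + 3) * (n.choose e : ℤ)) + 2 * (((n:ℤ) + 3) * (n.choose (e+1) : ℤ)) := by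
      nlinarith
    push_cast at h12 ⊢
    linarith

/-- `A n 1 ^ 2 ≥ 4 * A n 2` -/
theorem A_two (n : ℕ) (hn : 4 ≤ n) : 4 * A n 2 ≤ A n 1 ^ 2 := by
  induction n, hn using Nat.le_induction with
  | base => simp [A]
  | succ n hn ih =>
    have e1 : A (n+1) 1 = 2 * A n 1 + n := by rw [A_succ]; simp
    have e2 : A (n+1) 2 = 3 * A n 2 + (n - 1) * A n 1 := by rw [A_succ]; push_cast; ring
    rw [e1, e2]
    have h1 := A_nonneg n 1
    have h2 : (4:ℤ) ≤ n := by exact_mod_cast hn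
    nlinarith

/-- the bounding sequence -/
def F (n d : ℕ) : ℤ := max |E n d| ((n-1).choose d : ℤ)

theorem F_zero (n : ℕ) : F n 0 = 1 := by simp [F]
theorem F_last (n : ℕ) : F (n+1) n = 1 := by simp [F, abs_E_last]
theorem F_symm (n i j : ℕ) (h : i + j + 1 = n) : F n i = F n j := by
  unfold F
  rw [abs_E_symm n i j h]
  have : (n-1).choose i = (n-1).choose j := by
    rw [← Nat.choose_symm (show j ≤ n - 1 by omega)]
    congr 1
    omega
  rw [this]

theorem F_nonneg (n d : ℕ) : 0 ≤ F n d := le_max_of_le_left (abs_nonneg _)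

theorem F_le (n : ℕ) (hn : 6 ≤ n) (d : ℕ) (h1 : 1 ≤ d) (h2 : d + 2 ≤ n) :
    ((n:ℤ) + 2) * F n d ≤ A n d := by
  unfold F
  have h3 := abs_E_le n (by omega) d h1 h2
  obtain ⟨m, rfl⟩ : ∃ m, n = m + 1 := ⟨n - 1, by omega⟩
  have h4 := choose_le m (by omega) d h1 (by omega)
  have h5 : (((m+1:ℕ):ℤ) + 2) * |E (m+1) d| ≤ A (m+1) d := by
    refine le_trans ?_ h3
    apply mul_le_mul_of_nonneg_right _ (abs_nonneg _)
    split_ifs <;> omega
  rw [mul_max_of_nonneg _ _ (by positivity)]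
  apply max_le h5
  rw [Nat.add_sub_cancel]
  push_cast
  linarith

/-- main inequality, small cases -/
theorem small (n : ℕ) (h3 : 3 ≤ n) (h5 : n ≤ 5) (d : ℕ) (h1 : 1 ≤ d) (h2 : d + 2 ≤ n) :
    0 ≤ A n d - F n d ∧
    (A n (d-1) + F n (d-1)) * (A n (d+1) + F n (d+1)) ≤ (A n d - F n d)^2 := by
  have hn : n = 3 ∨ n = 4 ∨ n = 5 := by omega
  rcases hn with rfl | rfl | rfl
  · have : d = 1 := by omega
    subst this
    norm_num [F, A, E, Nat.choose]
  · have : d = 1 ∨ d = 2 := by omega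
    rcases this with rfl | rfl <;> norm_num [F, A, E, Nat.choose]
  · have : d = 1 ∨ d = 2 ∨ d = 3 := by omega
    rcases this with rfl | rfl | rfl <;> norm_num [F, A, E, Nat.choose]

theorem edge (n : ℕ) (hn : 6 ≤ n) :
    (A n 0 + F n 0) * (A n 2 + F n 2) ≤ (A n 1 - F n 1)^2 := by
  rw [A_zero, F_zero]
  have h1 := F_le n hn 1 le_rfl (by omega)
  have h2 := F_le n hn 2 (by omega) (by omega)
  have h3 := A_two n (by omega)
  have h4 := A_nonneg n 1
  have h5 := A_nonneg n 2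
  have hn' : (6:ℤ) ≤ n := by exact_mod_cast hn
  have p : (0:ℤ) < (n:ℤ) + 2 := by positivity
  -- (n+2) (A1 - F1) ≥ (n+1) A1 ; (n+2)(A2+F2) ≤ (n+3) A2
  have k1 : ((n:ℤ) + 1) * A n 1 ≤ (n + 2) * (A n 1 - F n 1) := by linarith
  have k2 : ((n:ℤ) + 2) * (A n 2 + F n 2) ≤ (n + 3) * A n 2 := by linarith
  have k3 : (((n:ℤ) + 1) * A n 1)^2 ≤ ((n + 2) * (A n 1 - F n 1))^2 :=
    pow_le_pow_left₀ (by positivity) k1 2
  have k4 : ((n:ℤ) + 2)^2 * ((1 + 1) * (A n 2 + F n 2)) ≤ ((n:ℤ) + 2)^2 * (A n 1 - F n 1)^2 := by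
    calc ((n:ℤ) + 2)^2 * ((1 + 1) * (A n 2 + F n 2))
        = 2 * (n + 2) * (((n:ℤ) + 2) * (A n 2 + F n 2)) := by ring
      _ ≤ 2 * (n + 2) * ((n + 3) * A n 2) := mul_le_mul_of_nonneg_left k2 (by positivity)
      _ ≤ (((n:ℤ) + 1) * A n 1)^2 := by
        have e1 : (((n:ℤ) + 1) * A n 1)^2 = ((n:ℤ) + 1)^2 * (A n 1)^2 := by ring
        have e2 := mul_le_mul_of_nonneg_left h3 (show (0:ℤ) ≤ ((n:ℤ)+1)^2 by positivity)
        have e3 : 2 * ((n:ℤ) + 2) * (n + 3) ≤ ((n:ℤ)+1)^2 * 4 := by nlinarith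
        have e4 := mul_le_mul_of_nonneg_right e3 h5
        rw [e1]
        linarith
      _ ≤ _ := k3
      _ = _ := by ring
  exact le_of_mul_le_mul_left k4 (by positivity)

/-- main inequality -/
theorem main (n : ℕ) (h3 : 3 ≤ n) (d : ℕ) (h1 : 1 ≤ d) (h2 : d + 2 ≤ n) :
    0 ≤ A n d - F n d ∧
    (A n (d-1) + F n (d-1)) * (A n (d+1) + F n (d+1)) ≤ (A n d - F n d)^2 := by
  rcases Nat.lt_or_ge n 6 with hn | hn
  · exact small n h3 (by omega) d h1 h2
  have hA := A_nonneg n d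
  have hF := F_le n hn d h1 h2
  have hn' : (6:ℤ) ≤ n := by exact_mod_cast hn
  have hF0 := F_nonneg n d
  have hpos : 0 ≤ A n d - F n d := by nlinarith
  refine ⟨hpos, ?_⟩
  rcases Nat.eq_or_lt_of_le h1 with h | h
  · rw [← h]; exact edge n hn
  rcases Nat.eq_or_lt_of_le h2 with h' | h'
  · have := edge n hn
    rw [A_symm n (d-1) 2 (by omega), F_symm n (d-1) 2 (by omega), A_symm n (d+1) 0 (by omega),
      F_symm n (d+1) 0 (by omega), A_symm n d 1 (by omega), F_symm n d 1 (by omega)]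
    linarith
  obtain ⟨e, rfl⟩ := Nat.exists_eq_add_of_le' h1
  rw [Nat.add_sub_cancel]
  have f1 := F_le n hn e (by omega) (by omega)
  have f2 := F_le n hn (e+1+1) (by omega) (by omega)
  have hl := lc n e
  have a1 := A_nonneg n e
  have a2 := A_nonneg n (e+2)
  have g1 := F_nonneg n e
  have g2 := F_nonneg n (e+1+1)
  have k1 : ((n:ℤ) + 1) * A n (e+1) ≤ (n + 2) * (A n (e+1) - F n (e+1)) := by linarith
  have k2 : ((n:ℤ) + 2) * (A n e + F n e) ≤ (n + 3) * A n e := by linarith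
  have k3 : ((n:ℤ) + 2) * (A n (e+1+1) + F n (e+1+1)) ≤ (n + 3) * A n (e+2) := by
    rw [show e + 2 = e+1+1 by ring]; linarith
  have k4 : (((n:ℤ) + 1) * A n (e+1))^2 ≤ ((n + 2) * (A n (e+1) - F n (e+1)))^2 :=
    pow_le_pow_left₀ (by positivity) k1 2
  have k5 : (((n:ℤ) + 2) * (A n e + F n e)) * (((n:ℤ) + 2) * (A n (e+1+1) + F n (e+1+1))) ≤
      ((n + 3) * A n e) * ((n + 3) * A n (e+2)) :=
    mul_le_mul k2 k3 (by have := A_nonneg n (e+1+1); positivity) (by positivity)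
  have k6 : (n:ℤ) * (((n + 3) * A n e) * ((n + 3) * A n (e+2))) ≤ n * (((n:ℤ) + 1) * A n (e+1))^2 := by
    have e1 : (n:ℤ) * (((n + 3) * A n e) * ((n + 3) * A n (e+2))) =
      (n * (n+3)^2) * (A n e * A n (e+2)) := by ring
    have e2 : (n:ℤ) * (((n:ℤ) + 1) * A n (e+1))^2 = (n+1)^2 * (n * A n (e+1)^2) := by ring
    rw [e1, e2]
    have h6 := mul_le_mul_of_nonneg_left hl (show (0:ℤ) ≤ ((n:ℤ)+1)^2 by positivity)
    have h7 : ((n:ℤ) * (n+3)^2) * (A n e * A n (e+2)) ≤ ((n:ℤ)+1)^2 * (((n:ℤ) + 4) * (A n e * A n (e+2))) := by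
      have h8 : (0:ℤ) ≤ A n e * A n (e+2) := by positivity
      have h9 : ((n:ℤ) * (n+3)^2) ≤ ((n:ℤ)+1)^2 * ((n:ℤ) + 4) := by nlinarith
      calc _ ≤ (((n:ℤ)+1)^2 * ((n:ℤ) + 4)) * (A n e * A n (e+2)) := mul_le_mul_of_nonneg_right h9 h8
        _ = _ := by ring
    linarith
  have k7 := le_of_mul_le_mul_left k6 (by linarith)
  have k8 : ((n:ℤ) + 2)^2 * ((A n e + F n e) * (A n (e+1+1) + F n (e+1+1))) ≤
      ((n:ℤ) + 2)^2 * (A n (e+1) - F n (e+1))^2 := by
    calc _ = (((n:ℤ) + 2) * (A n e + F n e)) * (((n:ℤ) + 2) * (A n (e+1+1) + F n (e+1+1))) := by ring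
      _ ≤ _ := k5
      _ ≤ _ := k7
      _ ≤ _ := k4
      _ = _ := by ring
  exact le_of_mul_le_mul_left k8 (by positivity)

end Pool.Agent.V11169.Sync
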