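import Pool.Agent.V11169.Sync1

set_option autoImplicit false

namespace Pool.Agent.V11169.Sync

open Finset Pool.Agent.H750R3

/-! ### Worpitzky identities -/

theorem choose_x (x k d : ℕ) (hd : d ≤ k) :
    ((d:ℤ) + 1) * ((x + (k + 1 - d)).choose (k+2) : ℤ) + ((k:ℤ) + 1 - d) * ((x + (k - d)).choose (k+2) : ℤ)
      = x * ((x + (k - d)).choose (k+1) : ℤ) := by
  obtain ⟨e, rfl⟩ := Nat.exists_eq_add_of_le hd
  rw [show d + e + 1 - d = e + 1 by omega, show d + e - d = e by omega,
    show x + (e+1) = (x+e)+1 by ring, Nat.choose_succ_succ (x+e) (d+e+1)]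
  have h : ((x+e).choose (d+e+2) : ℤ) * (d+e+2) = ((x+e).choose (d+e+1) : ℤ) * ((x:ℤ) + e - (d+e+1)) := by
    rcases le_or_gt (d+e+1) (x+e) with h | h
    · have h1 := Nat.choose_succ_right_eq (x+e) (d+e+1)
      have h2 : ((x+e - (d+e+1) : ℕ) : ℤ) = (x:ℤ) + e - (d+e+1) := by omega
      rw [← h2]
      exact_mod_cast h1
    · rw [Nat.choose_eq_zero_of_lt h, Nat.choose_eq_zero_of_lt (by omega)]; simp
  push_cast
  linear_combination h

theorem choose_one (x k d : ℕ) (hd : d ≤ k) :
    ((x + (k + 1 - d)).choose (k+2) : ℤ) - ((x + (k - d)).choose (k+2) : ℤ)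
      = ((x + (k - d)).choose (k+1) : ℤ) := by
  obtain ⟨e, rfl⟩ := Nat.exists_eq_add_of_le hd
  rw [show d + e + 1 - d = e + 1 by omega, show d + e - d = e by omega,
    show x + (e+1) = (x+e)+1 by ring, Nat.choose_succ_succ (x+e) (d+e+1)]
  push_cast
  ring

theorem op_eul (k x : ℕ) (c c' : ℕ → ℤ) (h0 : c' 0 = c 0)
    (h1 : ∀ d, c' (d+1) = ((d:ℤ)+2) * c (d+1) + ((k:ℤ) + 1 - d) * c d) (hs : c (k+1) = 0) :
    ∑ d ∈ range (k+2), c' d * ((x + (k + 1 - d)).choose (k+2) : ℤ) =
      x * ∑ d ∈ range (k+1), c d * ((x + (k - d)).choose (k+1) : ℤ) := by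
  have e1 : ∑ d ∈ range (k+2), c' d * ((x + (k + 1 - d)).choose (k+2) : ℤ) =
      (∑ d ∈ range (k+2), ((d:ℤ)+1) * c d * ((x + (k + 1 - d)).choose (k+2) : ℤ)) +
      ∑ d ∈ range (k+1), ((k:ℤ)+1-d) * c d * ((x + (k - d)).choose (k+2) : ℤ) := by
    rw [Finset.sum_range_succ', Finset.sum_range_succ' (fun d => ((d:ℤ)+1) * c d * _)]
    rw [h0]
    have : ∀ d ∈ range (k+1), c' (d+1) * ((x + (k + 1 - (d+1))).choose (k+2) : ℤ) =
      (((d+1:ℕ):ℤ)+1) * c (d+1) * ((x + (k + 1 - (d+1))).choose (k+2) : ℤ) +
      ((k:ℤ)+1-d) * c d * ((x + (k - d)).choose (k+2) : ℤ) := by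
      intro d _
      rw [h1, show k + 1 - (d+1) = k - d by omega]
      push_cast; ring
    rw [Finset.sum_congr rfl this, Finset.sum_add_distrib]
    push_cast; ring
  rw [e1, Finset.sum_range_succ, hs, mul_zero, zero_mul, add_zero, ← Finset.sum_add_distrib,
    Finset.mul_sum]
  refine Finset.sum_congr rfl fun d hd => ?_
  have := choose_x x k d (by have := Finset.mem_range.1 hd; omega)
  linear_combination (c d) * this

theorem op_one (k x : ℕ) (c c' : ℕ → ℤ) (h0 : c' 0 = c 0)
    (h1 : ∀ d, c' (d+1) = c (d+1) - c d) (hs : c (k+1) = 0) :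
    ∑ d ∈ range (k+2), c' d * ((x + (k + 1 - d)).choose (k+2) : ℤ) =
      ∑ d ∈ range (k+1), c d * ((x + (k - d)).choose (k+1) : ℤ) := by
  have e1 : ∑ d ∈ range (k+2), c' d * ((x + (k + 1 - d)).choose (k+2) : ℤ) =
      (∑ d ∈ range (k+2), c d * ((x + (k + 1 - d)).choose (k+2) : ℤ)) -
      ∑ d ∈ range (k+1), c d * ((x + (k - d)).choose (k+2) : ℤ) := by
    rw [Finset.sum_range_succ', Finset.sum_range_succ' (fun d => c d * _)]
    rw [h0]
    have : ∀ d ∈ range (k+1), c' (d+1) * ((x + (k + 1 - (d+1))).choose (k+2) : ℤ) =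
      c (d+1) * ((x + (k + 1 - (d+1))).choose (k+2) : ℤ) -
      c d * ((x + (k - d)).choose (k+2) : ℤ) := by
      intro d _
      rw [h1, show k + 1 - (d+1) = k - d by omega]
      ring
    rw [Finset.sum_congr rfl this, Finset.sum_sub_distrib]
    ring
  rw [e1, Finset.sum_range_succ, hs, zero_mul, add_zero, ← Finset.sum_sub_distrib]
  refine Finset.sum_congr rfl fun d hd => ?_
  have := choose_one x k d (by have := Finset.mem_range.1 hd; omega)
  linear_combination (c d) * this

theorem wA (x k : ℕ) :
    ∑ d ∈ range (k+1), A (k+1) d * ((x + (k - d)).choose (k+1) : ℤ) = (x:ℤ)^(k+1) := by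
  induction k with
  | zero => simp
  | succ k ih =>
    rw [op_eul k x (A (k+1)) (A (k+2)) (by simp) (fun d => by rw [A_succ]; push_cast; ring)
      (A_supp _ _ le_rfl (by omega)), ih, pow_succ (x:ℤ) (k+1)]
    ring

theorem wE (x k : ℕ) :
    ∑ d ∈ range (k+1), E (k+1) d * ((x + (k - d)).choose (k+1) : ℤ) = (x:ℤ)^((k+2)/2) := by
  induction k with
  | zero => simp
  | succ k ih =>
    rcases Nat.mod_two_eq_zero_or_one (k+1) with h | h
    · rw [op_eul k x (E (k+1)) (E (k+2)) (by simp)
        (fun d => by rw [E_succ_even _ _ h]; push_cast; ring)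
        (E_supp _ _ le_rfl (by omega)), ih, show (k+1+2)/2 = (k+2)/2 + 1 by omega, pow_succ]
      ring
    · rw [op_one k x (E (k+1)) (E (k+2)) (by simp)
        (fun d => by rw [E_succ_odd _ _ h])
        (E_supp _ _ le_rfl (by omega)), ih, show (k+1+2)/2 = (k+2)/2 by omega]

theorem uniq (k : ℕ) (c : ℕ → ℤ)
    (h : ∀ x : ℕ, ∑ d ∈ range (k+1), c d * ((x + (k - d)).choose (k+1) : ℤ) = 0) :
    ∀ d, d ≤ k → c d = 0 := by
  intro d
  induction d using Nat.strong_induction_on with
  | _ d ih =>
    intro hd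
    have h1 := h (d+1)
    rw [Finset.sum_eq_single d] at h1
    · rw [show d + 1 + (k - d) = k + 1 by omega, Nat.choose_self] at h1
      simpa using h1
    · intro e he hne
      rw [Finset.mem_range] at he
      rcases lt_or_gt_of_ne hne with h2 | h2
      · rw [ih e h2 (by omega), zero_mul]
      · rw [Nat.choose_eq_zero_of_lt (by omega)]; simp
    · intro h2
      exact absurd (Finset.mem_range.2 (by omega)) h2

/-- number of permutations with sign `s` and `d` descents -/
def NN (n : ℕ) (s : ℤˣ) (d : ℕ) : ℕ :=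
  ((Finset.univ : Finset (Equiv.Perm (Fin n))).filter
    (fun π => Equiv.Perm.sign π = s ∧ desc π = d)).card

theorem desc_le'' {m : ℕ} (π : Equiv.Perm (Fin (m+1))) : desc π ≤ m := by
  have := desc_add_asb π
  omega

theorem sum_desc (k : ℕ) (s : ℤˣ) (f : ℕ → ℤ) :
    ∑ π ∈ (Finset.univ : Finset (Equiv.Perm (Fin (k+1)))).filter (fun π => Equiv.Perm.sign π = s),
      f (desc π) = ∑ d ∈ Finset.range (k+1), (NN (k+1) s d : ℤ) * f d := by
  rw [← Finset.sum_fiberwise_of_maps_to (g := fun π => desc π) (t := Finset.range (k+1))]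
  · refine Finset.sum_congr rfl fun d _ => ?_
    rw [Finset.filter_filter]
    unfold NN
    rw [← nsmul_eq_mul, ← Finset.sum_const]
    refine Finset.sum_congr rfl fun π hπ => ?_
    rw [(Finset.mem_filter.1 hπ).2.2]
  · intro π _
    rw [Finset.mem_range]
    have := desc_le'' π
    omega

theorem NN_eq (k : ℕ) (s : ℤˣ) (d : ℕ) (hd : d ≤ k) :
    2 * (NN (k+1) s d : ℤ) = A (k+1) d + (s : ℤ) * E (k+1) d := by
  have h := uniq k (fun d => 2 * (NN (k+1) s d : ℤ) - (A (k+1) d + (s : ℤ) * E (k+1) d)) (fun x => by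
    have h1 := worp (m := k) s x
    rw [sum_desc k s (fun d => (((x + (k - d)).choose (k+1) : ℕ) : ℤ)), ← wA x k, ← wE x k,
      Finset.mul_sum, Finset.mul_sum, ← Finset.sum_add_distrib] at h1
    rw [← sub_eq_zero, ← Finset.sum_sub_distrib] at h1
    rw [← h1]
    refine Finset.sum_congr rfl fun d _ => ?_
    ring) d hd
  linarith

/-! ### excedances -/

/-- number of excedances -/
def exc {n : ℕ} (π : Equiv.Perm (Fin n)) : ℕ := (Finset.univ.filter (fun i : Fin n => i < π i)).card

/-- number of permutations with sign `s` and `d` excedances -/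
def XX (n : ℕ) (s : ℤˣ) (d : ℕ) : ℕ :=
  ((Finset.univ : Finset (Equiv.Perm (Fin n))).filter
    (fun π => Equiv.Perm.sign π = s ∧ exc π = d)).card

/-- number of permutations with `d` excedances -/
def XT (n : ℕ) (d : ℕ) : ℕ :=
  ((Finset.univ : Finset (Equiv.Perm (Fin n))).filter (fun π => exc π = d)).card

theorem exc_decompose {n : ℕ} (p : Fin (n+1)) (e : Equiv.Perm (Fin n)) :
    exc (Equiv.Perm.decomposeFin.symm (p, e)) =
      exc e + (if h : p = 0 then 0 else if e.symm (p.pred h) < p.pred h then 0 else 1) := by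
  unfold exc
  rw [Finset.card_filter, Fin.sum_univ_succ, Equiv.Perm.decomposeFin_symm_apply_zero,
    Finset.card_filter]
  refine Fin.cases ?_ (fun j => ?_) p
  · simp
  · rw [if_pos (Fin.succ_pos j), dif_neg (Fin.succ_ne_zero j)]
    simp only [Fin.pred_succ]
    have h : ∀ x : Fin n, (if x.succ < (Equiv.Perm.decomposeFin.symm (j.succ, e)) x.succ then 1 else 0)
        = (if x = e.symm j then 0 else (if x < e x then 1 else 0) : ℕ) := by
      intro x
      rw [Equiv.Perm.decomposeFin_symm_apply_succ]
      by_cases hx : x = e.symm j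
      · subst hx
        simp
      · rw [if_neg hx]
        have h1 : e x ≠ j := fun h => hx (by rw [← h]; simp)
        rw [Equiv.swap_apply_of_ne_of_ne (Fin.succ_ne_zero _)
          (fun h => h1 (Fin.succ_injective _ h))]
        simp [Fin.succ_lt_succ_iff]
    rw [Finset.sum_congr rfl (fun x _ => h x)]
    have h2 : ∑ x : Fin n, (if x < e x then 1 else 0 : ℕ) =
        (∑ x : Fin n, (if x = e.symm j then 0 else (if x < e x then 1 else 0) : ℕ)) +
          (if e.symm j < j then 1 else 0) := by
      rw [← Finset.add_sum_erase Finset.univ _ (Finset.mem_univ (e.symm j)),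
        ← Finset.add_sum_erase Finset.univ (fun x : Fin n => (if x = e.symm j then 0 else _ : ℕ))
          (Finset.mem_univ (e.symm j))]
      have h3 : ∑ x ∈ Finset.univ.erase (e.symm j), (if x < e x then 1 else 0 : ℕ) =
        ∑ x ∈ Finset.univ.erase (e.symm j),
          (if x = e.symm j then 0 else (if x < e x then 1 else 0) : ℕ) := by
        refine Finset.sum_congr rfl fun x hx => ?_
        rw [if_neg (Finset.ne_of_mem_erase hx)]
      rw [h3]
      simp
      ring
    rw [h2]
    split_ifs <;> ring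

theorem XT_eq (n : ℕ) : ∀ d, (XT n d : ℤ) = A n d := by
  induction n with
  | zero =>
    intro d
    unfold XT
    cases d with
    | zero => simp [exc]
    | succ d => simp [exc, A]
  | succ n ih =>
    have key : ∀ d, (XT (n+1) d : ℤ) =
        ∑ e : Equiv.Perm (Fin n), ((if exc e = d then ((d:ℤ) + 1) else 0) +
          (if exc e + 1 = d then ((n:ℤ) + 1 - d) else 0)) := by
      intro d
      have h1 : XT (n+1) d = ((Finset.univ : Finset (Fin (n+1) × Equiv.Perm (Fin n))).filter
          (fun q => exc (Equiv.Perm.decomposeFin.symm q) = d)).card := by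
        unfold XT
        symm
        apply Finset.card_bij (fun q _ => Equiv.Perm.decomposeFin.symm q)
        · intro q hq
          simpa using hq
        · intro a _ b _ h
          exact Equiv.Perm.decomposeFin.symm.injective h
        · intro π hπ
          refine ⟨Equiv.Perm.decomposeFin π, ?_, by simp⟩
          simpa using hπ
      rw [h1, Finset.card_filter, ← Finset.univ_product_univ, Finset.sum_product_right]
      push_cast
      refine Finset.sum_congr rfl fun e _ => ?_
      rw [Fin.sum_univ_succ]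
      have h2 : ∀ j : Fin n, exc (Equiv.Perm.decomposeFin.symm (j.succ, e)) =
          exc e + (if e.symm j < j then 0 else 1) := by
        intro j
        rw [exc_decompose, dif_neg (Fin.succ_ne_zero j)]
        simp
      have h3 : exc (Equiv.Perm.decomposeFin.symm (0, e)) = exc e := by
        rw [exc_decompose]; simp
      rw [h3]
      simp only [h2]
      have h4 : ∑ j : Fin n, (if exc e + (if e.symm j < j then 0 else 1) = d then 1 else 0 : ℤ) =
          ∑ i : Fin n, (if exc e + (if i < e i then 0 else 1) = d then 1 else 0 : ℤ) := by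
        rw [← Equiv.sum_comp e]
        simp
      rw [h4]
      have h5 : ∀ i : Fin n, (if exc e + (if i < e i then 0 else 1) = d then 1 else 0 : ℤ) =
          (if i < e i then 1 else 0) * (if exc e = d then 1 else 0) +
          (1 - (if i < e i then 1 else 0)) * (if exc e + 1 = d then 1 else 0) := by
        intro i
        by_cases hi : i < e i <;> simp [hi]
      rw [Finset.sum_congr rfl (fun i _ => h5 i), Finset.sum_add_distrib, ← Finset.sum_mul,
        ← Finset.sum_mul, Finset.sum_sub_distrib]
      have h6 : ∑ i : Fin n, (if i < e i then 1 else 0 : ℤ) = exc e := by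
        unfold exc
        rw [Finset.card_filter]; push_cast; rfl
      rw [h6]
      simp only [Finset.sum_const, Finset.card_univ, Fintype.card_fin, nsmul_eq_mul, mul_one]
      by_cases ha : exc e = d
      · have hb : ¬ exc e + 1 = d := by omega
        rw [if_pos ha, if_neg hb, if_pos ha, if_neg hb, ha]; ring
      · by_cases hb : exc e + 1 = d
        · rw [if_neg ha, if_pos hb, if_neg ha, if_pos hb, ← hb]; push_cast; ring
        · simp [ha, hb]
    have hsum : ∀ (d : ℕ) (c : ℤ), ∑ e : Equiv.Perm (Fin n), (if exc e = d then c else 0) = c * XT n d := by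
      intro d c
      rw [← Finset.sum_filter, Finset.sum_const, nsmul_eq_mul]
      unfold XT
      ring
    intro d
    rw [key, Finset.sum_add_distrib, hsum]
    cases d with
    | zero =>
      rw [ih]
      simp
    | succ d =>
      have : ∀ e : Equiv.Perm (Fin n), (if exc e + 1 = d + 1 then ((n:ℤ) + 1 - ((d+1:ℕ):ℤ)) else 0) =
          (if exc e = d then ((n:ℤ) + 1 - ((d+1:ℕ):ℤ)) else 0) := by
        intro e
        simp only [Nat.add_right_cancel_iff]
      rw [Finset.sum_congr rfl (fun e _ => this e), hsum, ih, ih, A_succ]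
      push_cast
      ring

open Polynomial in
theorem det_exc (n : ℕ) :
    ∑ π : Equiv.Perm (Fin (n+1)), ((Equiv.Perm.sign π : ℤˣ) : ℤ) • (X : ℤ[X])^(exc π) = (1 - X)^n := by
  have h1 : (Matrix.of (fun a i : Fin (n+1) => if i < a then (X : ℤ[X]) else 1)).det =
      ∑ π : Equiv.Perm (Fin (n+1)), ((Equiv.Perm.sign π : ℤˣ) : ℤ) • (X : ℤ[X])^(exc π) := by
    rw [Matrix.det_apply]
    refine Finset.sum_congr rfl fun π _ => ?_
    have : ∏ i, (Matrix.of (fun a i : Fin (n+1) => if i < a then (X : ℤ[X]) else 1)) (π i) i =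
        X^(exc π) := by
      simp only [Matrix.of_apply]
      unfold exc
      rw [Finset.prod_ite]
      simp
    rw [this]
    rfl
  rw [← h1]
  rw [Matrix.det_eq_of_forall_col_eq_smul_add_pred
    (B := Matrix.of (fun a i : Fin (n+1) => if i = 0 then (if (0 : Fin (n+1)) < a then (X : ℤ[X]) else 1)
      else if a = i then 1 - X else 0)) (c := fun _ => 1)]
  · rw [Matrix.det_of_lowerTriangular]
    · rw [Fin.prod_univ_succ]
      simp [Fin.succ_ne_zero]
    · intro i j hij
      simp only [Matrix.of_apply]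
      have hij' : i < j := hij
      rw [if_neg (by rintro rfl; exact absurd hij' (by simp)), if_neg (ne_of_lt hij')]
  · intro i
    simp
  · intro i j
    simp only [Matrix.of_apply]
    rw [if_neg (Fin.succ_ne_zero j)]
    by_cases h : i = j.succ
    · subst h
      simp
    · by_cases h2 : j.castSucc < i
      · have h3 : j.succ < i := by
          rcases lt_trichotomy i j.succ with h4 | h4 | h4
          · exfalso
            rw [Fin.lt_def] at h2 h4
            simp at h2 h4
            omega
          · exact absurd h4 h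
          · exact h4
        simp [h, h2, h3]
      · have h3 : ¬ j.succ < i := by
          intro h4
          apply h2
          rw [Fin.lt_def] at h4 ⊢
          simp at h4 ⊢
          omega
        simp [h, h2, h3]

open Polynomial in
theorem coeff_one_sub_pow (n : ℕ) : ∀ d, ((1 - X : ℤ[X])^n).coeff d = (-1)^d * (n.choose d : ℤ) := by
  induction n with
  | zero => intro d; cases d <;> simp [Polynomial.coeff_one]
  | succ n ih =>
    intro d
    rw [pow_succ, mul_sub, mul_one, coeff_sub]
    cases d with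
    | zero => simp [ih]
    | succ d => rw [coeff_mul_X, ih, ih, Nat.choose_succ_succ]; push_cast; ring

theorem signed_exc (n d : ℕ) :
    (XX (n+1) 1 d : ℤ) - XX (n+1) (-1) d = (-1)^d * (n.choose d : ℤ) := by
  have h := congrArg (fun p : Polynomial ℤ => p.coeff d) (det_exc n)
  simp only [Polynomial.finsetSum_coeff, Polynomial.coeff_smul, Polynomial.coeff_X_pow] at h
  rw [coeff_one_sub_pow] at h
  rw [← h]
  unfold XX
  rw [Finset.card_filter, Finset.card_filter]
  push_cast
  rw [← Finset.sum_sub_distrib]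
  refine Finset.sum_congr rfl fun π _ => ?_
  by_cases h1 : exc π = d
  · rcases Int.units_eq_one_or (Equiv.Perm.sign π) with h2 | h2 <;> simp [h1, h2]
  · simp [h1, Ne.symm h1]

theorem XX_add (n d : ℕ) : (XX n 1 d : ℤ) + XX n (-1) d = A n d := by
  rw [← XT_eq]
  unfold XX XT
  rw [Finset.card_filter, Finset.card_filter, Finset.card_filter]
  push_cast
  rw [← Finset.sum_add_distrib]
  refine Finset.sum_congr rfl fun π _ => ?_
  by_cases h1 : exc π = d
  · rcases Int.units_eq_one_or (Equiv.Perm.sign π) with h2 | h2 <;> simp [h1, h2]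
  · simp [h1]

theorem XX_eq (n : ℕ) (s : ℤˣ) (d : ℕ) :
    2 * (XX (n+1) s d : ℤ) = A (n+1) d + (s : ℤ) * ((-1)^d * (n.choose d : ℤ)) := by
  have h1 := XX_add (n+1) d
  have h2 := signed_exc n d
  rcases Int.units_eq_one_or s with h | h <;> subst h <;> push_cast <;> linarith

end Pool.Agent.V11169.Sync
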