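import Pool.Agent.V11169.Sync3
import Pool.Agent.V11169.Sync4

set_option autoImplicit false

namespace Pool.Agent.V11169.Sync

open Finset Pool.Agent.H750R3

theorem NN_bd (n : ℕ) (s : ℤˣ) (d : ℕ) (hd : d + 1 ≤ n) :
    A n d - F n d ≤ 2 * (NN n s d : ℤ) ∧ 2 * (NN n s d : ℤ) ≤ A n d + F n d := by
  obtain ⟨k, rfl⟩ : ∃ k, n = k + 1 := ⟨n - 1, by omega⟩
  rw [NN_eq k s d (by omega)]
  have h1 : |E (k+1) d| ≤ F (k+1) d := le_max_left _ _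
  rw [abs_le] at h1
  rcases Int.units_eq_one_or s with h | h <;> subst h <;> push_cast <;> constructor <;> linarith [h1.1, h1.2]

theorem XX_bd (n : ℕ) (s : ℤˣ) (d : ℕ) (hd : d + 1 ≤ n) :
    A n d - F n d ≤ 2 * (XX n s d : ℤ) ∧ 2 * (XX n s d : ℤ) ≤ A n d + F n d := by
  obtain ⟨k, rfl⟩ : ∃ k, n = k + 1 := ⟨n - 1, by omega⟩
  rw [XX_eq k s d]
  have h1 : (k.choose d : ℤ) ≤ F (k+1) d := le_max_right _ _
  have h0 : (0:ℤ) ≤ (k.choose d : ℤ) := by positivity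
  rcases Int.units_eq_one_or s with h | h <;> subst h <;> push_cast <;>
    rcases neg_one_pow_eq_or ℤ d with h2 | h2 <;> rw [h2] <;> constructor <;> linarith

theorem sync_of_bd (n : ℕ) (a b : ℕ → ℕ)
    (ha : ∀ d, d + 1 ≤ n → A n d - F n d ≤ 2 * (a d : ℤ) ∧ 2 * (a d : ℤ) ≤ A n d + F n d)
    (hb : ∀ d, d + 1 ≤ n → A n d - F n d ≤ 2 * (b d : ℤ) ∧ 2 * (b d : ℤ) ≤ A n d + F n d)
    (k : ℕ) (h1 : 1 ≤ k) (h2 : k + 2 ≤ n) :
    max (a (k+1)) (b (k+1)) * max (a (k-1)) (b (k-1)) ≤ (min (a k) (b k))^2 := by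
  obtain ⟨m0, m1⟩ := main n (by omega) k h1 h2
  have e1 : A n k - F n k ≤ 2 * ((min (a k) (b k) : ℕ) : ℤ) := by
    rcases min_choice (a k) (b k) with h | h <;> rw [h]
    · exact (ha k (by omega)).1
    · exact (hb k (by omega)).1
  have e2 : 2 * ((max (a (k+1)) (b (k+1)) : ℕ) : ℤ) ≤ A n (k+1) + F n (k+1) := by
    rcases max_choice (a (k+1)) (b (k+1)) with h | h <;> rw [h]
    · exact (ha (k+1) (by omega)).2
    · exact (hb (k+1) (by omega)).2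
  have e3 : 2 * ((max (a (k-1)) (b (k-1)) : ℕ) : ℤ) ≤ A n (k-1) + F n (k-1) := by
    rcases max_choice (a (k-1)) (b (k-1)) with h | h <;> rw [h]
    · exact (ha (k-1) (by omega)).2
    · exact (hb (k-1) (by omega)).2
  have p1 : (0:ℤ) ≤ ((max (a (k+1)) (b (k+1)) : ℕ) : ℤ) := by positivity
  have p2 : (0:ℤ) ≤ ((max (a (k-1)) (b (k-1)) : ℕ) : ℤ) := by positivity
  have q1 : (2 * ((max (a (k+1)) (b (k+1)) : ℕ) : ℤ)) * (2 * ((max (a (k-1)) (b (k-1)) : ℕ) : ℤ))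
      ≤ (A n (k+1) + F n (k+1)) * (A n (k-1) + F n (k-1)) :=
    mul_le_mul e2 e3 (by positivity) (by linarith)
  have q2 : (A n k - F n k)^2 ≤ (2 * ((min (a k) (b k) : ℕ) : ℤ))^2 :=
    pow_le_pow_left₀ m0 e1 2
  have q3 : 4 * (((max (a (k+1)) (b (k+1)) : ℕ) : ℤ) * ((max (a (k-1)) (b (k-1)) : ℕ) : ℤ)) ≤
      4 * ((min (a k) (b k) : ℕ) : ℤ)^2 := by
    nlinarith [q1, q2, m1]
  have q4 : ((max (a (k+1)) (b (k+1)) : ℕ) : ℤ) * ((max (a (k-1)) (b (k-1)) : ℕ) : ℤ) ≤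
      ((min (a k) (b k) : ℕ) : ℤ)^2 := by linarith
  exact_mod_cast q4

end Pool.Agent.V11169.Sync
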